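import Pool.Agent.H75.Mono.RA

/-! # ROF, module RB: substitutions, membership in the algebra `RS` -/

set_option autoImplicit false

namespace Pool.Agent.H75.Mono

open MvPolynomial Pool.Agent.H39.MonoR

section RB

variable {R : Type*} [CommRing R] {u : Rˣ} {S : Set (ℤ × ℕ)} {T : Type*} {F : T → PowerSeries R}

theorem rb_expand_eq {m : ℕ} (hm : m ≠ 0) (P : PowerSeries R) :
    (PowerSeries.mk fun n => if m ∣ n then PowerSeries.coeff (n / m) P else 0)
      = PowerSeries.expand m hm P := by
  ext n
  rw [PowerSeries.coeff_mk]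
  by_cases h : m ∣ n
  · obtain ⟨q, rfl⟩ := h
    rw [if_pos (dvd_mul_right m q), Nat.mul_div_cancel_left q (Nat.pos_of_ne_zero hm),
      PowerSeries.coeff_expand_mul]
  · rw [if_neg h, PowerSeries.coeff_expand_of_not_dvd _ _ _ h]

theorem rb_den {m : ℕ} (hm : m ≠ 0) (p : ℤ × ℕ) :
    PowerSeries.expand m hm (den' u p) = den' u (scl m p) := by
  unfold den' scl
  rw [map_sub, map_one, map_mul, map_pow, PowerSeries.expand_C, PowerSeries.expand_X, ← pow_mul]

/-- `T ↦ T^m` -/
theorem RatF.expand (h : RatF u S F) {m : ℕ} (hm : 0 < m) :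
    RatF u (scl m '' S)
      (fun t => PowerSeries.mk fun n => if m ∣ n then PowerSeries.coeff (n / m) (F t) else 0) := by
  obtain ⟨l, hl, N, h⟩ := h
  refine ⟨l.map (scl m), ?_, m * N, fun t n hn => ?_⟩
  · intro p hp
    obtain ⟨q, hq, rfl⟩ := Multiset.mem_map.mp hp
    exact ⟨q, hl q hq, rfl⟩
  · have e : (((l.map (scl m)).map (den' u)).prod) * PowerSeries.expand m hm.ne' (F t)
        = PowerSeries.expand m hm.ne' ((l.map (den' u)).prod * F t) := by
      rw [map_mul, map_multiset_prod, Multiset.map_map, Multiset.map_map]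
      congr 3
      funext p
      exact (rb_den hm.ne' p).symm
    show PowerSeries.coeff n ((((l.map (scl m)).map (den' u)).prod) *
      (PowerSeries.mk fun n => if m ∣ n then PowerSeries.coeff (n / m) (F t) else 0)) = 0
    rw [rb_expand_eq hm.ne', e, ← rb_expand_eq hm.ne', PowerSeries.coeff_mk]
    split_ifs with hd
    · exact h t _ ((Nat.le_div_iff_mul_le hm).mpr (by rw [mul_comm]; exact hn))
    · rfl

/-- the coefficients are repeated `m` times -/
theorem RatF.floor (h : RatF u S F) {m : ℕ} (hm : 0 < m) :
    RatF u (scl m '' S) (fun t => PowerSeries.mk fun n => PowerSeries.coeff (n / m) (F t)) := by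
  have h1 : ∀ j : ℕ, RatF u (scl m '' S) (fun t => ∑ i ∈ Finset.range j, PowerSeries.X ^ i *
      PowerSeries.mk fun n => if m ∣ n then PowerSeries.coeff (n / m) (F t) else 0) := by
    intro j
    induction j with
    | zero => exact RatF.of_fin 0 fun t n _ => by simp
    | succ j ih =>
      have h2 := ih.add ((h.expand hm).X_pow_mul j)
      rw [Set.union_self] at h2
      exact h2.congr fun t => by rw [Finset.sum_range_succ]
  refine (h1 m).congr fun t => ?_
  ext n
  rw [map_sum, PowerSeries.coeff_mk]
  have h3 : ∀ i ∈ Finset.range m, PowerSeries.coeff n (PowerSeries.X ^ i *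
      PowerSeries.mk fun n => if m ∣ n then PowerSeries.coeff (n / m) (F t) else 0)
      = if i = n % m then PowerSeries.coeff (n / m) (F t) else 0 := by
    intro i hi
    rw [Finset.mem_range] at hi
    rw [PowerSeries.coeff_X_pow_mul']
    by_cases h4 : i = n % m
    · subst h4
      rw [if_pos rfl, if_pos (Nat.mod_le n m), PowerSeries.coeff_mk, if_pos (Nat.dvd_sub_mod n)]
      have h7 : n - n % m = m * (n / m) := by have := Nat.div_add_mod n m; omega
      rw [h7, Nat.mul_div_cancel_left _ hm]
    · rw [if_neg h4]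
      split_ifs with h5
      · rw [PowerSeries.coeff_mk, if_neg]
        intro h6
        apply h4
        obtain ⟨q, hq⟩ := h6
        have : n = m * q + i := by omega
        rw [this, Nat.mul_add_mod, Nat.mod_eq_of_lt hi]
      · rfl
  rw [Finset.sum_congr rfl h3, Finset.sum_ite_eq' , if_pos]
  rw [Finset.mem_range]
  exact Nat.mod_lt _ hm

/-- each member of the family is in the algebra generated by `T` and the inverses -/
theorem RatF.mem_RS {k : Type} [Field k] [Algebra k ℂ] {S : Set (ℤ × ℕ)} {T : Type*}
    {F : T → PowerSeries (M k)} (hS : ∀ p ∈ S, 0 < p.2) (h : RatF (Lu k) S F) (t : T) :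
    F t ∈ RS k S := by
  obtain ⟨l, hl, N, h⟩ := h
  have hinv : ∀ l : Multiset (ℤ × ℕ), (∀ p ∈ l, p ∈ S) →
      ∃ g ∈ RS k S, g * (l.map (den' (Lu k))).prod = 1 := by
    intro l
    induction l using Multiset.induction with
    | empty => exact fun _ => ⟨1, one_mem _, by simp⟩
    | cons p l ih =>
      intro hl
      obtain ⟨g, hg, hg1⟩ := ih fun q hq => hl q (Multiset.mem_cons_of_mem hq)
      have hp : p ∈ S := hl p (Multiset.mem_cons_self p l)
      have hu : IsUnit (den' (Lu k) p) := by
        rw [PowerSeries.isUnit_iff_constantCoeff]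
        unfold den'
        rw [map_sub, map_one, map_mul, map_pow, PowerSeries.constantCoeff_X,
          zero_pow (hS p hp).ne', mul_zero, sub_zero]
        exact isUnit_one
      obtain ⟨g', hg'⟩ := hu.exists_left_inv
      have hm : g' ∈ RS k S := Algebra.subset_adjoin (Or.inr ⟨p, hp, hg'⟩)
      refine ⟨g' * g, mul_mem hm hg, ?_⟩
      rw [Multiset.map_cons, Multiset.prod_cons]
      calc g' * g * (den' (Lu k) p * (l.map (den' (Lu k))).prod)
          = (g' * den' (Lu k) p) * (g * (l.map (den' (Lu k))).prod) := by ring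
        _ = 1 := by rw [hg', hg1, one_mul]
  obtain ⟨g, hg, hg1⟩ := hinv l hl
  have hpol : (l.map (den' (Lu k))).prod * F t ∈ RS k S := by
    set P := (l.map (den' (Lu k))).prod * F t with hP
    have e : P = ∑ i ∈ Finset.range N, PowerSeries.C (PowerSeries.coeff i P) *
        PowerSeries.X ^ i := by
      ext n
      rw [map_sum]
      simp only [PowerSeries.coeff_C_mul, PowerSeries.coeff_X_pow]
      by_cases hn : n < N
      · rw [Finset.sum_eq_single n]
        · simp
        · intro b _ hb
          rw [if_neg (Ne.symm hb), mul_zero]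
        · intro hn'
          exact absurd (Finset.mem_range.mpr hn) hn'
      · rw [Finset.sum_eq_zero]
        · exact h t n (not_lt.mp hn)
        · intro b hb
          rw [Finset.mem_range] at hb
          rw [if_neg (by omega), mul_zero]
    rw [e]
    refine sum_mem fun i _ => mul_mem ?_ (pow_mem ?_ i)
    · exact (RS k S).algebraMap_mem (PowerSeries.coeff i P)
    · exact Algebra.subset_adjoin (Or.inl rfl)
  have e : F t = g * ((l.map (den' (Lu k))).prod * F t) := by
    rw [← mul_assoc, hg1, one_mul]
  rw [e]
  exact mul_mem hg hpol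

end RB

end Pool.Agent.H75.Mono
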