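import Pool.Agent.H75.Mono.Defs

/-! # ROF, module RA: rational families, formal rules -/

set_option autoImplicit false

namespace Pool.Agent.H75.Mono

open MvPolynomial Pool.Agent.H39.MonoR

section RA

variable {R : Type*} [CommRing R] {u : Rˣ} {S S' : Set (ℤ × ℕ)} {T T' : Type*}
  {F G : T → PowerSeries R}

theorem bd_den (u : Rˣ) (p : ℤ × ℕ) {N : ℕ} {P : PowerSeries R}
    (h : ∀ n, N ≤ n → PowerSeries.coeff n P = 0) :
    ∀ n, N + p.2 ≤ n → PowerSeries.coeff n (den' u p * P) = 0 := by
  intro n hn
  unfold den'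
  rw [sub_mul, one_mul, map_sub, mul_assoc, PowerSeries.coeff_C_mul, PowerSeries.coeff_X_pow_mul',
    if_pos (by omega), h n (by omega), h (n - p.2) (by omega)]
  simp

theorem bd_prod (u : Rˣ) (l : Multiset (ℤ × ℕ)) (N : ℕ) :
    ∃ N' : ℕ, ∀ P : PowerSeries R, (∀ n, N ≤ n → PowerSeries.coeff n P = 0) →
      ∀ n, N' ≤ n → PowerSeries.coeff n ((l.map (den' u)).prod * P) = 0 := by
  induction l using Multiset.induction with
  | empty => exact ⟨N, fun P h n hn => by simpa using h n hn⟩
  | cons p l ih =>
    obtain ⟨N', h'⟩ := ih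
    refine ⟨N' + p.2, fun P h n hn => ?_⟩
    rw [Multiset.map_cons, Multiset.prod_cons, mul_assoc]
    exact bd_den u p (h' P h) n hn

theorem RatF.mono (h : RatF u S F) (hS : S ⊆ S') : RatF u S' F := by
  obtain ⟨l, hl, h⟩ := h
  exact ⟨l, fun p hp => hS (hl p hp), h⟩

theorem RatF.comp (h : RatF u S F) (θ : T' → T) : RatF u S (fun t => F (θ t)) := by
  obtain ⟨l, hl, N, h⟩ := h
  exact ⟨l, hl, N, fun t => h (θ t)⟩

theorem RatF.congr (h : RatF u S F) (hFG : ∀ t, F t = G t) : RatF u S G := by
  have : F = G := funext hFG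
  rw [← this]; exact h

theorem RatF.add (h : RatF u S F) (h' : RatF u S' G) : RatF u (S ∪ S') (fun t => F t + G t) := by
  obtain ⟨l, hl, N, h⟩ := h
  obtain ⟨l', hl', N', h'⟩ := h'
  obtain ⟨A, hA⟩ := bd_prod u l' N
  obtain ⟨B, hB⟩ := bd_prod u l N'
  refine ⟨l + l', ?_, max A B, ?_⟩
  · intro p hp
    rcases Multiset.mem_add.mp hp with hp | hp
    · exact Or.inl (hl p hp)
    · exact Or.inr (hl' p hp)
  · intro t n hn
    have e : ((l + l').map (den' u)).prod * (F t + G t)
        = (l'.map (den' u)).prod * ((l.map (den' u)).prod * F t)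
          + (l.map (den' u)).prod * ((l'.map (den' u)).prod * G t) := by
      rw [Multiset.map_add, Multiset.prod_add]; ring
    rw [e, map_add, hA _ (h t) n (le_trans (le_max_left _ _) hn),
      hB _ (h' t) n (le_trans (le_max_right _ _) hn), add_zero]

/-- multiplication by constants depending on the parameter -/
theorem RatF.smul (h : RatF u S F) (c : T → R) : RatF u S (fun t => PowerSeries.C (c t) * F t) := by
  obtain ⟨l, hl, N, h⟩ := h
  refine ⟨l, hl, N, fun t n hn => ?_⟩
  have e : (l.map (den' u)).prod * (PowerSeries.C (c t) * F t)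
      = PowerSeries.C (c t) * ((l.map (den' u)).prod * F t) := by ring
  rw [e, PowerSeries.coeff_C_mul, h t n hn, mul_zero]

theorem RatF.sub (h : RatF u S F) (h' : RatF u S' G) : RatF u (S ∪ S') (fun t => F t - G t) := by
  have h1 := h.add (h'.smul (fun _ => (-1 : R)))
  refine h1.congr fun t => ?_
  rw [map_neg, map_one]; ring

/-- families of polynomials of bounded degree -/
theorem RatF.of_fin (N : ℕ) (h : ∀ t n, N ≤ n → PowerSeries.coeff n (F t) = 0) : RatF u S F :=
  ⟨0, by simp, N, fun t n hn => by simpa using h t n hn⟩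

/-- changing finitely many coefficients (the same ones for all `t`) -/
theorem RatF.of_eventually (h : RatF u S F) (N : ℕ)
    (hFG : ∀ t n, N ≤ n → PowerSeries.coeff n (F t) = PowerSeries.coeff n (G t)) : RatF u S G := by
  have h1 : RatF u S (fun t => F t - G t) :=
    RatF.of_fin N fun t n hn => by rw [map_sub, hFG t n hn, sub_self]
  have h2 := h.sub h1
  rw [Set.union_self] at h2
  exact h2.congr fun t => by ring

theorem RatF.X_pow_mul (h : RatF u S F) (j : ℕ) : RatF u S (fun t => PowerSeries.X ^ j * F t) := by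
  obtain ⟨l, hl, N, h⟩ := h
  refine ⟨l, hl, N + j, fun t n hn => ?_⟩
  have e : (l.map (den' u)).prod * (PowerSeries.X ^ j * F t)
      = PowerSeries.X ^ j * ((l.map (den' u)).prod * F t) := by ring
  rw [e, PowerSeries.coeff_X_pow_mul', if_pos (by omega), h t _ (by omega)]

theorem RatF.shift (h : RatF u S F) :
    RatF u S (fun t => PowerSeries.mk fun n => PowerSeries.coeff (n + 1) (F t)) := by
  obtain ⟨l, hl, N, h⟩ := h
  obtain ⟨A, hA⟩ := bd_prod u l 1
  refine ⟨l, hl, max N A, fun t n hn => ?_⟩
  have e0 : (PowerSeries.X : PowerSeries R) *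
      (PowerSeries.mk fun n => PowerSeries.coeff (n + 1) (F t))
      = F t - PowerSeries.C (PowerSeries.coeff 0 (F t)) := by
    ext m
    cases m with
    | zero => simp
    | succ m =>
      rw [PowerSeries.coeff_succ_X_mul, PowerSeries.coeff_mk, map_sub, PowerSeries.coeff_C,
        if_neg (by omega), sub_zero]
  have e1 : (PowerSeries.X : PowerSeries R) * ((l.map (den' u)).prod *
      (PowerSeries.mk fun n => PowerSeries.coeff (n + 1) (F t)))
      = (l.map (den' u)).prod * F t
        - PowerSeries.C (PowerSeries.coeff 0 (F t)) * ((l.map (den' u)).prod * 1) := by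
    have : (PowerSeries.X : PowerSeries R) * ((l.map (den' u)).prod *
      (PowerSeries.mk fun n => PowerSeries.coeff (n + 1) (F t)))
      = (l.map (den' u)).prod * ((PowerSeries.X : PowerSeries R) *
      (PowerSeries.mk fun n => PowerSeries.coeff (n + 1) (F t))) := by ring
    rw [this, e0]; ring
  have e2 := congrArg (PowerSeries.coeff (n + 1)) e1
  rw [PowerSeries.coeff_succ_X_mul, map_sub, PowerSeries.coeff_C_mul,
    h t (n + 1) (by have := le_max_left N A; omega),
    hA 1 (fun m hm => by rw [PowerSeries.coeff_one, if_neg (by omega)]) (n + 1)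
      (by have := le_max_right N A; omega)] at e2
  rw [e2]; simp

/-- if `(1 - u^a T^b) G = F` then `G` is rational -/
theorem RatF.div (h : RatF u S F) {p : ℤ × ℕ} (hG : ∀ t, den' u p * G t = F t) :
    RatF u (insert p S) G := by
  obtain ⟨l, hl, N, h⟩ := h
  refine ⟨p ::ₘ l, ?_, N, fun t n hn => ?_⟩
  · intro q hq
    rcases Multiset.mem_cons.mp hq with rfl | hq
    · exact Set.mem_insert _ _
    · exact Set.mem_insert_of_mem _ (hl q hq)
  · have e : ((p ::ₘ l).map (den' u)).prod * G t = (l.map (den' u)).prod * F t := by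
      rw [Multiset.map_cons, Multiset.prod_cons, ← hG t]; ring
    rw [e, h t n hn]

end RA

end Pool.Agent.H75.Mono
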