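import Pool.Agent.H75.Mono.IC

/-!
# ROF: special tests

* `tline`: the affine line with its coordinate; `tpt a`: the point with the constant `a`;
* `t.conv`: `{(w, a)}` with the functions `a` and `c(w) - a`;
* `gm0`: `{a ≠ 0}` with the functions `a` and `-a`;
* `t.zer`: `{w : c(w) = 0}` with the function `0`;
* `t.cross`: `{(w, a, b) : a b = c(w) ≠ 0}` with the functions `a`, `b`;
* `t.cross0`: `{(w, a) : c(w) = 0, a ≠ 0}` with the functions `a`, `0`;
* `t.root m`: `{(w, b) : b^m = c(w), b ≠ 0}` with the function `b`.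
-/

set_option autoImplicit false

namespace Pool.Agent.H75.Mono

open MvPolynomial Pool.Agent.H39.MonoR

section TS

variable {k : Type} [Field k] [Algebra k ℂ]

variable (k) in
/-- the affine line with its coordinate -/
def tline : Test k := ⟨ℂ, Set.univ, ICons.univ, fun x => x, PFun.id'⟩

variable (k) in
/-- the point with the constant `0` -/
def tpt0 : Test k := ⟨Unit, Set.univ, ICons.univ, fun _ => 0, PFun.zero⟩

variable (k) in
/-- the point with the constant `1` -/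
def tpt1 : Test k := ⟨Unit, Set.univ, ICons.univ, fun _ => 1, PFun.one⟩

variable (k) in
/-- `{a ≠ 0}` with the functions `a` and `-a` -/
def gm0 : Test2 k := ⟨ℂ, {x | x ≠ 0}, ICons.ne PFun.id' PFun.zero, fun x => x, PFun.id',
  fun x => - x, PFun.id'.neg⟩

/-- `{(w, a)}` with the functions `a` and `c(w) - a` -/
def Test.conv (t : Test k) : Test2 k := ⟨t.E × ℂ, {x | x.1 ∈ t.W}, t.cW.mem PMap.fst,
  fun x => x.2, PFun.id'.comp PMap.snd, fun x => t.c x.1 - x.2,
  (t.pf.comp PMap.fst).sub (PFun.id'.comp PMap.snd)⟩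

/-- `{w : c(w) = 0}` with the function `0` -/
def Test.zer (t : Test k) : Test k := ⟨t.E, {x | x ∈ t.W ∧ t.c x = 0},
  (t.cW.mem PMap.id').and (ICons.eq t.pf PFun.zero), fun _ => 0, PFun.zero⟩

/-- `{(w, a, b) : a b = c(w) ≠ 0}` with the functions `a`, `b` -/
def Test.cross (t : Test k) : Test2 k := ⟨t.E × ℂ × ℂ,
  {x | x.1 ∈ t.W ∧ t.c x.1 ≠ 0 ∧ x.2.1 * x.2.2 = t.c x.1},
  (t.cW.mem PMap.fst).and ((ICons.ne (t.pf.comp PMap.fst) PFun.zero).and (ICons.eq
    ((PFun.id'.comp (PMap.fst.comp PMap.snd)).mul (PFun.id'.comp (PMap.snd.comp PMap.snd)))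
    (t.pf.comp PMap.fst))),
  fun x => x.2.1, PFun.id'.comp (PMap.fst.comp PMap.snd),
  fun x => x.2.2, PFun.id'.comp (PMap.snd.comp PMap.snd)⟩

/-- `{(w, a) : c(w) = 0, a ≠ 0}` with the functions `a`, `0` -/
def Test.cross0 (t : Test k) : Test2 k := ⟨t.E × ℂ, {x | x.1 ∈ t.W ∧ t.c x.1 = 0 ∧ x.2 ≠ 0},
  (t.cW.mem PMap.fst).and ((ICons.eq (t.pf.comp PMap.fst) PFun.zero).and
    (ICons.ne (PFun.id'.comp PMap.snd) PFun.zero)),
  fun x => x.2, PFun.id'.comp PMap.snd, fun _ => 0, PFun.zero⟩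

/-- `{(w, b) : b^m = c(w), b ≠ 0}` with the function `b` -/
def Test.root (t : Test k) (m : ℕ) : Test k := ⟨t.E × ℂ,
  {x | x.1 ∈ t.W ∧ x.2 ^ m = t.c x.1 ∧ x.2 ≠ 0},
  (t.cW.mem PMap.fst).and ((ICons.eq ((PFun.id'.comp PMap.snd).pow m) (t.pf.comp PMap.fst)).and
    (ICons.ne (PFun.id'.comp PMap.snd) PFun.zero)),
  fun x => x.2, PFun.id'.comp PMap.snd⟩

/-- `c` times a constant -/
def Test.mulc (t : Test k) (a : k) : Test k := ⟨t.E, t.W, t.cW, fun x => algebraMap k ℂ a * t.c x,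
  (PFun.const a).mul t.pf⟩

end TS

end Pool.Agent.H75.Mono
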