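import Pool.Agent.H75.Mono.TR
import Pool.Agent.H75.Mono.RB
import Pool.Agent.H75.Mono.TS

/-! # ROF, module ZE: the motivic zeta function, more variables -/

set_option autoImplicit false

namespace Pool.Agent.H75.Mono

open MvPolynomial Pool.Agent.H39.MonoR

section ZE

variable {k : Type} [Field k] [Algebra k ℂ] {σ τ : Type} [Finite σ] [Finite τ]

omit [Finite σ] in
theorem mem_Y_iff {d : ℕ} (f : MvPolynomial σ k) (φ : σ × Fin (d + 1) → ℂ) :
    φ ∈ Y k (d + 1) 1 f ↔ Hit f d φ 1 := by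
  unfold Y Hit
  rw [Set.mem_ofPred_eq]
  simp only [map_one, Nat.lt_succ_iff, add_left_inj]

theorem mo_pi {α : Type} [Finite α] (A : Set (α → ℂ)) : mo k A = mot k A := rfl

theorem Zt_pt1 (f : MvPolynomial σ k) : Zt f (tpt1 k) = Zmot k f := by
  unfold Zt Zmot
  congr 1
  funext d
  unfold zt
  congr 1
  have hY : ICons k (Y k (d + 1) 1 f) := by
    have h := isCons_Y (k := k) (d + 1) 1 f
    exact h
  have h1 := mo_graph (F := Unit) hY (f := fun _ => ()) PMap.toUnit
  rw [← mo_pi, ← h1]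
  congr 1
  ext x
  simp only [Set.mem_ofPred_eq, mem_Y_iff]
  constructor
  · rintro ⟨_, h⟩
    exact ⟨h, trivial⟩
  · rintro ⟨h, _⟩
    exact ⟨Set.mem_univ _, h⟩

/-- superfluous variables multiply the motivic zeta function by a constant -/
theorem Zmot_rename (e : σ → τ) (he : Function.Injective e) (f : MvPolynomial σ k) :
    ∃ c : M k, Zmot k (rename e f) = PowerSeries.C c * Zmot k f := by
  classical
  refine ⟨↑(Lu k ^ ((Nat.card {j // j ∉ Set.range e} : ℕ) : ℤ)), ?_⟩
  have hcard : Nat.card τ = Nat.card σ + Nat.card {j // j ∉ Set.range e} := by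
    have e1 : σ ⊕ {j // j ∉ Set.range e} ≃ τ :=
      (Equiv.sumCongr (Equiv.ofInjective e he) (Equiv.refl _)).trans
        (Equiv.sumCompl (fun j => j ∈ Set.range e))
    rw [← Nat.card_congr e1, Nat.card_sum]
  have key : ∀ d : ℕ, mot k (Y k (d + 1) 1 (rename e f)) =
      mot k (Y k (d + 1) 1 f) * ↑(Lu k ^ ((Nat.card {j // j ∉ Set.range e} * (d + 1) : ℕ) : ℤ)) := by
    intro d
    have harc : ∀ x : τ × Fin (d + 1) → ℂ, arcEval k x (rename e f) =
        arcEval k (fun p : σ × Fin (d + 1) => x (e p.1, p.2)) f := by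
      intro x
      unfold arcEval
      rw [aeval_rename]
      rfl
    have h1 : cl k (Y k (d + 1) 1 (rename e f)) = cl k {φ : (σ × Fin (d + 1)) ⊕
        ({j // j ∉ Set.range e} × Fin (d + 1)) → ℂ |
        (fun i => φ (Sum.inl i)) ∈ Y k (d + 1) 1 f ∧ (fun i => φ (Sum.inr i)) ∈
          (Set.univ : Set ({j // j ∉ Set.range e} × Fin (d + 1) → ℂ))} := by
      refine cl_reindex (isCons_Y _ _ _) (isCons_prod (isCons_Y _ _ _) IsCons.univ)
        (Sum.elim (fun p => (e p.1, p.2)) (fun p => ((p.1 : τ), p.2))) ⟨?_, ?_, ?_⟩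
      · intro x hx
        refine ⟨?_, Set.mem_univ _⟩
        simp only [Sum.elim_inl]
        intro l hl
        rw [← harc]
        exact hx l hl
      · intro x _ y _ hxy
        funext p
        obtain ⟨j, l⟩ := p
        by_cases hj : j ∈ Set.range e
        · obtain ⟨i, rfl⟩ := hj
          exact congrFun hxy (Sum.inl (i, l))
        · exact congrFun hxy (Sum.inr (⟨j, hj⟩, l))
      · intro φ hφ
        have hx1 : ∀ i l, (fun p : τ × Fin (d + 1) => if h : p.1 ∈ Set.range e then
            φ (Sum.inl (h.choose, p.2)) else φ (Sum.inr (⟨p.1, h⟩, p.2))) (e i, l) =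
            φ (Sum.inl (i, l)) := by
          intro i l
          have h : e i ∈ Set.range e := ⟨i, rfl⟩
          simp only
          rw [dif_pos h]
          rw [he h.choose_spec]
        refine ⟨fun p => if h : p.1 ∈ Set.range e then φ (Sum.inl (h.choose, p.2)) else
          φ (Sum.inr (⟨p.1, h⟩, p.2)), ?_, ?_⟩
        · intro l hl
          rw [harc]
          have e2 : (fun p : σ × Fin (d + 1) => (fun p : τ × Fin (d + 1) =>
              if h : p.1 ∈ Set.range e then φ (Sum.inl (h.choose, p.2)) else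
              φ (Sum.inr (⟨p.1, h⟩, p.2))) (e p.1, p.2)) = fun p => φ (Sum.inl p) := by
            funext p
            exact hx1 p.1 p.2
          have h3 := hφ.1 l hl
          rw [← e2] at h3
          exact h3
        · funext p
          rcases p with ⟨i, l⟩ | ⟨⟨j, hj⟩, l⟩
          · exact hx1 i l
          · simp only [Sum.elim_inr]
            rw [dif_neg hj]
    unfold mot
    rw [h1, cl_prod (isCons_Y _ _ _) IsCons.univ, map_mul, cl_univ, map_pow]
    congr 1
    rw [zpow_natCast, Nat.card_prod, Nat.card_eq_fintype_card (α := Fin (d + 1)), Fintype.card_fin,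
      Units.val_pow_eq_pow_val]
    rfl
  unfold Zmot
  ext d
  rw [PowerSeries.coeff_C_mul, PowerSeries.coeff_mk, PowerSeries.coeff_mk, key, hcard, mul_assoc,
    ← Units.val_mul, ← zpow_add, mul_left_comm, ← Units.val_mul, ← zpow_add]
  congr 3
  push_cast
  ring

theorem Zmot_mem {f : MvPolynomial σ k} {S : Set (ℤ × ℕ)} (hS : ∀ p ∈ S, 0 < p.2)
    (h : ZRat f S) (e : σ → τ) (he : Function.Injective e) : Zmot k (rename e f) ∈ RS k S := by
  obtain ⟨c, hc⟩ := Zmot_rename e he f
  rw [hc, ← Zt_pt1]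
  exact mul_mem ((RS k S).algebraMap_mem c) (RatF.mem_RS hS h (tpt1 k))

omit [Algebra k ℂ] [Finite σ] [Finite τ] in
theorem QH_rename {f : MvPolynomial σ k} {w : σ → ℕ} {N : ℕ} (hf : IsWeightedHomogeneous w f N)
    (e : σ → τ) (w' : τ → ℕ) (c : ℕ) (hw : ∀ i, w' (e i) = c * w i) :
    IsWeightedHomogeneous w' (rename e f) (c * N) := by
  rw [f.as_sum, map_sum]
  refine IsWeightedHomogeneous.sum _ _ _ fun d hd => ?_
  rw [rename_monomial]
  refine isWeightedHomogeneous_monomial _ _ _ ?_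
  have h1 := hf (mem_support_iff.1 hd)
  rw [← h1, Finsupp.weight_apply, Finsupp.weight_apply, Finsupp.sum_mapDomain_index
    (by intro b; simp) (by intro b m₁ m₂; rw [add_smul]), Finsupp.mul_sum]
  refine Finsupp.sum_congr fun i _ => ?_
  rw [hw, smul_eq_mul, smul_eq_mul]
  ring

/-- weighted homogeneity of sums, products, powers in separate variables -/
theorem QH.X (i : σ) : QH (X i : MvPolynomial σ k) :=
  ⟨fun _ => 1, 1, one_pos, isWeightedHomogeneous_X _ _ i⟩
theorem QH.smul {f : MvPolynomial σ k} (h : QH f) (a : k) : QH (C a * f) := by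
  obtain ⟨w, N, hN, hw⟩ := h
  exact ⟨w, N, hN, hw.C_mul a⟩
theorem QH.pow {f : MvPolynomial σ k} (h : QH f) {m : ℕ} (hm : 0 < m) : QH (f ^ m) := by
  obtain ⟨w, N, hN, hw⟩ := h
  exact ⟨w, m • N, Nat.mul_pos hm hN, hw.pow m⟩
theorem QH.mul {g : MvPolynomial σ k} {h : MvPolynomial τ k} (hg : QH g) (hh : QH h) :
    QH (smul' g h) := by
  obtain ⟨w, N, hN, hw⟩ := hg
  obtain ⟨w', N', hN', hw'⟩ := hh
  refine ⟨Sum.elim w w', 1 * N + 1 * N', by omega, ?_⟩
  unfold smul'
  exact (QH_rename hw Sum.inl _ 1 (by intro i; simp)).mul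
    (QH_rename hw' Sum.inr _ 1 (by intro i; simp))
theorem QH.add {g : MvPolynomial σ k} {h : MvPolynomial τ k} (hg : QH g) (hh : QH h) :
    QH (sadd g h) := by
  obtain ⟨w, N, hN, hw⟩ := hg
  obtain ⟨w', N', hN', hw'⟩ := hh
  refine ⟨Sum.elim (fun i => N' * w i) (fun i => N * w' i), N' * N, Nat.mul_pos hN' hN, ?_⟩
  unfold sadd
  have h1 := QH_rename hw Sum.inl (Sum.elim (fun i => N' * w i) (fun i => N * w' i)) N'
    (by intro i; simp)
  have h2 := QH_rename hw' Sum.inr (Sum.elim (fun i => N' * w i) (fun i => N * w' i)) N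
    (by intro i; simp)
  rw [mul_comm N N'] at h2
  exact h1.add h2

end ZE

end Pool.Agent.H75.Mono
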