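import Pool.Agent.H75.Mono.MO

/-! # ROF, module TR: truncation of arcs, cylinders -/

set_option autoImplicit false

namespace Pool.Agent.H75.Mono

open MvPolynomial Pool.Agent.H39.MonoR

section TR

variable {k : Type} [Field k] [Algebra k ℂ] {E : Type} [Aff E] {σ τ : Type}

/-- truncation of arcs -/
def tr {N N' : ℕ} (h : N ≤ N') (φ : σ × Fin N' → ℂ) : σ × Fin N → ℂ :=
  fun p => φ (p.1, Fin.castLE h p.2)

theorem PMap.tr [Finite σ] {N N' : ℕ} (h : N ≤ N') :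
    PMap k (fun φ : σ × Fin N' → ℂ => tr h φ) :=
  PMap.pi fun p => PFun.apply (k := k) (p.1, Fin.castLE h p.2)

theorem coeff_arc_tr {N N' : ℕ} (h : N ≤ N') (φ : σ × Fin N' → ℂ) (j : σ) {l : ℕ} (hl : l < N) :
    PowerSeries.coeff l (arc (tr h φ) j) = PowerSeries.coeff l (arc φ j) := by
  rw [coeff_arc, coeff_arc, dif_pos hl, dif_pos (lt_of_lt_of_le hl h)]
  rfl

theorem coeff_arcEval_tr {N N' : ℕ} (h : N ≤ N') (f : MvPolynomial σ k) (φ : σ × Fin N' → ℂ)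
    {l : ℕ} (hl : l < N) :
    PowerSeries.coeff l (arcEval k (tr h φ) f) = PowerSeries.coeff l (arcEval k φ f) :=
  coeff_arcEval_congr f _ _ N (fun j _ hm => coeff_arc_tr h φ j hm) hl

theorem hit_tr {N N' : ℕ} (h : N ≤ N') (f : MvPolynomial σ k) {d : ℕ} (hd : d < N)
    (φ : σ × Fin N' → ℂ) (c : ℂ) : Hit f d (tr h φ) c ↔ Hit f d φ c := by
  unfold Hit
  constructor
  · intro h1 l hl
    rw [← coeff_arcEval_tr h f φ (by omega : l < N)]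
    exact h1 l hl
  · intro h1 l hl
    rw [coeff_arcEval_tr h f φ (by omega : l < N)]
    exact h1 l hl

/-- cylinders -/
theorem mo_cyl [Finite σ] {N N' : ℕ} (h : N ≤ N') {A : Set ((σ × Fin N → ℂ) × E)}
    (hA : ICons k A) : mo k {x : (σ × Fin N' → ℂ) × E | (tr h x.1, x.2) ∈ A} =
      ↑(Lu k ^ ((Nat.card σ * (N' - N) : ℕ) : ℤ)) * mo k A := by
  let hi : (σ × Fin N' → ℂ) → (σ × Fin (N' - N) → ℂ) :=
    fun φ p => φ (p.1, ⟨N + p.2, by have := p.2.2; omega⟩)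
  have hhi : PMap k (fun x : (σ × Fin N' → ℂ) × E => hi x.1) :=
    PMap.pi fun p => (PFun.apply (k := k)
      ((p.1, ⟨N + p.2, by have := p.2.2; omega⟩) : σ × Fin N')).comp PMap.fst
  have hlo : PMap k (fun x : (σ × Fin N' → ℂ) × E => (tr h x.1, x.2)) :=
    ((PMap.tr h).comp PMap.fst).prodMk PMap.snd
  have hf := hlo.prodMk hhi
  have hB : ICons k {y : ((σ × Fin N → ℂ) × E) × (σ × Fin (N' - N) → ℂ) |
      y.1 ∈ A ∧ y.2 ∈ (Set.univ : Set (σ × Fin (N' - N) → ℂ))} := ICons.prod hA ICons.univ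
  rw [mo_bij (hA.mem hlo) hB hf ⟨?_, ?_, ?_⟩, mo_prod hA ICons.univ, mo_univ_pi, mul_comm]
  · congr 2
    rw [Nat.card_prod, Nat.card_fin]
  · intro x hx
    exact ⟨hx, Set.mem_univ _⟩
  · rintro ⟨φ, w⟩ _ ⟨φ', w'⟩ _ hxy
    simp only [Prod.mk.injEq] at hxy
    obtain ⟨⟨h1, h2⟩, h3⟩ := hxy
    refine Prod.ext ?_ h2
    funext p
    obtain ⟨j, l, hl⟩ := p
    by_cases hlN : l < N
    · exact congrFun h1 (j, ⟨l, hlN⟩)
    · have h4 := congrFun h3 (j, ⟨l - N, by omega⟩)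
      have h5 : (⟨N + (l - N), by omega⟩ : Fin N') = ⟨l, hl⟩ := by
        simp only [Fin.mk.injEq]; omega
      simp only [hi, h5] at h4
      exact h4
  · rintro ⟨⟨φ, w⟩, χ⟩ ⟨hy, -⟩
    let x : σ × Fin N' → ℂ := fun p => if h : (p.2 : ℕ) < N then φ (p.1, ⟨p.2, h⟩)
      else χ (p.1, ⟨p.2 - N, by have := p.2.2; omega⟩)
    have h1 : tr h x = φ := by
      funext p
      simp [x, tr]
    have h2 : hi x = χ := by
      funext p
      simp [x, hi]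
    refine ⟨(x, w), ?_, ?_⟩
    · simp only [Set.mem_ofPred_eq]
      rw [h1]; exact hy
    · simp only [h1, h2]

theorem icons_hitSet [Finite σ] {N : ℕ} (d : ℕ) (f : MvPolynomial σ k) (t : Test k) :
    ICons k {x : (σ × Fin N → ℂ) × t.E | x.2 ∈ t.W ∧ Hit f d x.1 (t.c x.2)} :=
  ICons.and (t.cW.mem PMap.snd) (ICons.hit d f PMap.fst (t.pf.comp PMap.snd))

/-- `{(φ, w) : f(φ) = c(w) t^d mod t^(d+1)}` for arcs of any length `N > d` -/
theorem mo_hit [Finite σ] {N d : ℕ} (hd : d < N) (f : MvPolynomial σ k) (t : Test k) :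
    mo k {x : (σ × Fin N → ℂ) × t.E | x.2 ∈ t.W ∧ Hit f d x.1 (t.c x.2)} =
      ↑(Lu k ^ ((Nat.card σ * (N - 1) : ℕ) : ℤ)) * zt f d t := by
  have h := mo_cyl (k := k) (show d + 1 ≤ N from hd) (icons_hitSet (N := d + 1) d f t)
  have e : {x : (σ × Fin N → ℂ) × t.E | x.2 ∈ t.W ∧ Hit f d x.1 (t.c x.2)} =
      {x : (σ × Fin N → ℂ) × t.E | (tr (show d + 1 ≤ N from hd) x.1, x.2) ∈
        {x : (σ × Fin (d + 1) → ℂ) × t.E | x.2 ∈ t.W ∧ Hit f d x.1 (t.c x.2)}} := by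
    ext x
    simp only [Set.mem_ofPred_eq]
    rw [hit_tr (show d + 1 ≤ N from hd) f (by omega : d < d + 1)]
  rw [e, h]
  unfold zt
  rw [mul_comm (mo k _) _, ← mul_assoc, ← Units.val_mul, ← zpow_add]
  congr 3
  obtain ⟨m, rfl⟩ : ∃ m, N = d + 1 + m := ⟨N - (d + 1), by omega⟩
  have e1 : d + 1 + m - (d + 1) = m := by omega
  have e2 : d + 1 + m - 1 = d + m := by omega
  rw [e1, e2]
  push_cast
  ring

/-- `{(φ, ψ, w) : g(φ) = c1(w) t^i, h(ψ) = c2(w) t^j}` for arcs of any length -/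
theorem mo_hit2 [Finite σ] [Finite τ] {N i j : ℕ} (hi : i < N) (hj : j < N)
    (g : MvPolynomial σ k) (h : MvPolynomial τ k) (t : Test2 k) :
    mo k {x : (σ × Fin N → ℂ) × (τ × Fin N → ℂ) × t.E |
      x.2.2 ∈ t.W ∧ Hit g i x.1 (t.c1 x.2.2) ∧ Hit h j x.2.1 (t.c2 x.2.2)} =
      ↑(Lu k ^ ((Nat.card σ * (N - 1) : ℕ) : ℤ)) * ↑(Lu k ^ ((Nat.card τ * (N - 1) : ℕ) : ℤ)) *
        z2 g h i j t := by
  have hc : ∀ N1 N2 : ℕ, ICons k {x : (σ × Fin N1 → ℂ) × (τ × Fin N2 → ℂ) × t.E |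
      x.2.2 ∈ t.W ∧ Hit g i x.1 (t.c1 x.2.2) ∧ Hit h j x.2.1 (t.c2 x.2.2)} := by
    intro N1 N2
    refine ICons.and (t.cW.mem (PMap.snd.comp PMap.snd)) (ICons.and ?_ ?_)
    · exact ICons.hit i g PMap.fst (t.pf1.comp (PMap.snd.comp PMap.snd))
    · exact ICons.hit j h (PMap.fst.comp PMap.snd) (t.pf2.comp (PMap.snd.comp PMap.snd))
  have hc' : ∀ N1 N2 : ℕ, ICons k {x : (τ × Fin N2 → ℂ) × (σ × Fin N1 → ℂ) × t.E |
      x.2.2 ∈ t.W ∧ Hit g i x.2.1 (t.c1 x.2.2) ∧ Hit h j x.1 (t.c2 x.2.2)} := by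
    intro N1 N2
    refine ICons.and (t.cW.mem (PMap.snd.comp PMap.snd)) (ICons.and ?_ ?_)
    · exact ICons.hit i g (PMap.fst.comp PMap.snd) (t.pf1.comp (PMap.snd.comp PMap.snd))
    · exact ICons.hit j h PMap.fst (t.pf2.comp (PMap.snd.comp PMap.snd))
  have hswap : ∀ N1 N2 : ℕ, mo k {x : (σ × Fin N1 → ℂ) × (τ × Fin N2 → ℂ) × t.E |
      x.2.2 ∈ t.W ∧ Hit g i x.1 (t.c1 x.2.2) ∧ Hit h j x.2.1 (t.c2 x.2.2)} =
      mo k {x : (τ × Fin N2 → ℂ) × (σ × Fin N1 → ℂ) × t.E |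
      x.2.2 ∈ t.W ∧ Hit g i x.2.1 (t.c1 x.2.2) ∧ Hit h j x.1 (t.c2 x.2.2)} := by
    intro N1 N2
    have hf : PMap k (fun x : (σ × Fin N1 → ℂ) × (τ × Fin N2 → ℂ) × t.E =>
        (x.2.1, x.1, x.2.2)) :=
      (PMap.fst.comp PMap.snd).prodMk (PMap.fst.prodMk (PMap.snd.comp PMap.snd))
    refine mo_bij (hc N1 N2) (hc' N1 N2) hf ⟨?_, ?_, ?_⟩
    · intro x hx
      exact hx
    · rintro ⟨a, b, c⟩ _ ⟨a', b', c'⟩ _ hxy
      simp only [Prod.mk.injEq] at hxy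
      obtain ⟨h1, h2, h3⟩ := hxy
      rw [h1, h2, h3]
    · rintro ⟨a, b, c⟩ hx
      exact ⟨(b, a, c), hx, rfl⟩
  -- first cylinder
  have h1 := mo_cyl (k := k) (show i + 1 ≤ N from hi) (hc (i + 1) N)
  have e1 : {x : (σ × Fin N → ℂ) × (τ × Fin N → ℂ) × t.E |
      x.2.2 ∈ t.W ∧ Hit g i x.1 (t.c1 x.2.2) ∧ Hit h j x.2.1 (t.c2 x.2.2)} =
      {x : (σ × Fin N → ℂ) × (τ × Fin N → ℂ) × t.E | (tr (show i + 1 ≤ N from hi) x.1, x.2) ∈
        {x : (σ × Fin (i + 1) → ℂ) × (τ × Fin N → ℂ) × t.E |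
      x.2.2 ∈ t.W ∧ Hit g i x.1 (t.c1 x.2.2) ∧ Hit h j x.2.1 (t.c2 x.2.2)}} := by
    ext x
    simp only [Set.mem_ofPred_eq]
    rw [hit_tr (show i + 1 ≤ N from hi) g (by omega : i < i + 1)]
  have h2 := mo_cyl (k := k) (show j + 1 ≤ N from hj) (hc' (i + 1) (j + 1))
  have e2 : {x : (τ × Fin N → ℂ) × (σ × Fin (i + 1) → ℂ) × t.E |
      x.2.2 ∈ t.W ∧ Hit g i x.2.1 (t.c1 x.2.2) ∧ Hit h j x.1 (t.c2 x.2.2)} =
      {x : (τ × Fin N → ℂ) × (σ × Fin (i + 1) → ℂ) × t.E |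
        (tr (show j + 1 ≤ N from hj) x.1, x.2) ∈
        {x : (τ × Fin (j + 1) → ℂ) × (σ × Fin (i + 1) → ℂ) × t.E |
      x.2.2 ∈ t.W ∧ Hit g i x.2.1 (t.c1 x.2.2) ∧ Hit h j x.1 (t.c2 x.2.2)}} := by
    ext x
    simp only [Set.mem_ofPred_eq]
    rw [hit_tr (show j + 1 ≤ N from hj) h (by omega : j < j + 1)]
  rw [e1, h1, hswap (i + 1) N, e2, h2, ← hswap (i + 1) (j + 1)]
  unfold z2
  have key : ∀ (a b c d e f : (M k)ˣ) (m : M k), a * b = c * d * (e * f) →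
      (a : M k) * ((b : M k) * m) = (c : M k) * d * (m * ((e : M k) * f)) := by
    intro a b c d e f m hh
    have hh' : (a : M k) * b = c * d * (e * f) := by
      have := congrArg (Units.val) hh
      simpa using this
    linear_combination m * hh'
  apply key
  rw [← zpow_add, ← zpow_add, ← zpow_add, ← zpow_add]
  congr 1
  obtain ⟨m, rfl⟩ : ∃ m, N = i + 1 + m := ⟨N - (i + 1), by omega⟩
  obtain ⟨m', hm'⟩ : ∃ m', i + 1 + m = j + 1 + m' := ⟨i + 1 + m - (j + 1), by omega⟩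
  have e3 : i + 1 + m - (i + 1) = m := by omega
  have e4 : i + 1 + m - 1 = i + m := by omega
  have e5 : i + 1 + m - (j + 1) = m' := by omega
  have e6 : i + m = j + m' := by omega
  rw [e3, e4, e5]
  have e7 : (i : ℤ) + m = j + m' := by exact_mod_cast e6
  push_cast
  linear_combination (-(Nat.card τ : ℤ)) * e7

/-- a multiple hit: `f(φ) = 0 mod t^(d+1)` -/
theorem hit_zero_iff {N : ℕ} (f : MvPolynomial σ k) (d : ℕ) (φ : σ × Fin N → ℂ) :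
    Hit f d φ 0 ↔ ∀ l, l ≤ d → PowerSeries.coeff l (arcEval k φ f) = 0 := by
  unfold Hit
  simp

/-- in terms of the leading coefficient -/
theorem hit_iff {N : ℕ} (f : MvPolynomial σ k) (d : ℕ) (φ : σ × Fin N → ℂ) (c : ℂ) :
    Hit f d φ c ↔ (∀ l, l < d → PowerSeries.coeff l (arcEval k φ f) = 0) ∧
      PowerSeries.coeff d (arcEval k φ f) = c := by
  unfold Hit
  constructor
  · intro h
    refine ⟨fun l hl => ?_, ?_⟩
    · rw [h l hl.le, if_neg (by omega)]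
    · rw [h d le_rfl, if_pos rfl]
  · rintro ⟨h1, h2⟩ l hl
    by_cases hld : l = d
    · rw [if_pos hld, hld, h2]
    · rw [if_neg hld, h1 l (by omega)]

end TR

end Pool.Agent.H75.Mono
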