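import Pool.Agent.H75.Mono.Defs

/-! # ROF, module BA: chains give roots of the Bernstein-Sato polynomial -/

set_option autoImplicit false

namespace Pool.Agent.H75.Mono

open MvPolynomial Pool.Agent.H39.MonoR

section BA

variable {k : Type} [Field k] [CharZero k] {σ : Type} [Finite σ]

/-- the family `y n` is `A(n) f^(n-j)` for large `n`, with `A(-s) e_j = 0` -/
def Zer {f : MvPolynomial σ k} {s : ℚ} (c : Chain k f s) (y : ℕ → MvPolynomial σ k) : Prop :=
  ∃ (A : Polynomial (MvPolynomial σ k)) (j : ℕ), c.ρ (A.eval (C (-(s : k)))) (c.e j) = 0 ∧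
    ∃ n0, ∀ n, n0 ≤ n → y n = A.eval (C (n : k)) * f ^ (n - j)

omit [CharZero k] [Finite σ] in
theorem zer_raise {f : MvPolynomial σ k} {s : ℚ} (c : Chain k f s) {y : ℕ → MvPolynomial σ k}
    {A : Polynomial (MvPolynomial σ k)} {j : ℕ} (hA : c.ρ (A.eval (C (-(s : k)))) (c.e j) = 0)
    (hy : ∃ n0, ∀ n, n0 ≤ n → y n = A.eval (C (n : k)) * f ^ (n - j)) {j' : ℕ} (hj : j ≤ j') :
    ∃ (A' : Polynomial (MvPolynomial σ k)), c.ρ (A'.eval (C (-(s : k)))) (c.e j') = 0 ∧
      ∃ n0, ∀ n, n0 ≤ n → y n = A'.eval (C (n : k)) * f ^ (n - j') := by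
  induction j', hj using Nat.le_induction with
  | base => exact ⟨A, hA, hy⟩
  | succ j' _ ih =>
    obtain ⟨A', h1, n0, h2⟩ := ih
    refine ⟨A' * Polynomial.C f, ?_, max n0 (j' + 1), fun n hn => ?_⟩
    · rw [Polynomial.eval_mul, Polynomial.eval_C, map_mul, Module.End.mul_apply, c.mul, h1]
    · rw [h2 n (le_of_max_le_left hn), Polynomial.eval_mul, Polynomial.eval_C, mul_assoc, ← pow_succ']
      have : n - j' = n - (j' + 1) + 1 := by
        have := le_of_max_le_right hn
        omega
      rw [this]

omit [CharZero k] [Finite σ] in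
theorem zer_add {f : MvPolynomial σ k} {s : ℚ} (c : Chain k f s) {y z : ℕ → MvPolynomial σ k}
    (hy : Zer c y) (hz : Zer c z) : Zer c (fun n => y n + z n) := by
  obtain ⟨A, j, hA, hy⟩ := hy
  obtain ⟨B, i, hB, hz⟩ := hz
  obtain ⟨A', hA', n0, h1⟩ := zer_raise c hA hy (le_max_left j i)
  obtain ⟨B', hB', n1, h2⟩ := zer_raise c hB hz (le_max_right j i)
  refine ⟨A' + B', max j i, ?_, max n0 n1, fun n hn => ?_⟩
  · rw [Polynomial.eval_add, map_add, LinearMap.add_apply, hA', hB', add_zero]
  · show y n + z n = _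
    rw [h1 n (le_of_max_le_left hn), h2 n (le_of_max_le_right hn), Polynomial.eval_add, add_mul]

omit [CharZero k] [Finite σ] in
theorem zer_mul {f : MvPolynomial σ k} {s : ℚ} (c : Chain k f s) {y : ℕ → MvPolynomial σ k}
    (hy : Zer c y) (B : Polynomial (MvPolynomial σ k)) :
    Zer c (fun n => B.eval (C (n : k)) * y n) := by
  obtain ⟨A, j, hA, n0, hy⟩ := hy
  refine ⟨B * A, j, ?_, n0, fun n hn => ?_⟩
  · rw [Polynomial.eval_mul, map_mul, Module.End.mul_apply, hA, map_zero]
  · show _ * y n = _
    rw [hy n hn, Polynomial.eval_mul, mul_assoc]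

omit [CharZero k] [Finite σ] in
theorem poly_der (δ : Derivation k (MvPolynomial σ k) (MvPolynomial σ k))
    (A : Polynomial (MvPolynomial σ k)) : ∃ B : Polynomial (MvPolynomial σ k),
      ∀ c : k, B.eval (C c) = δ (A.eval (C c)) := by
  induction A using Polynomial.induction_on' with
  | add p q hp hq =>
    obtain ⟨B, hB⟩ := hp
    obtain ⟨B', hB'⟩ := hq
    exact ⟨B + B', fun c => by rw [Polynomial.eval_add, Polynomial.eval_add, map_add, hB, hB']⟩
  | monomial n a =>
    refine ⟨Polynomial.monomial n (δ a), fun c => ?_⟩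
    rw [Polynomial.eval_monomial, Polynomial.eval_monomial, Derivation.leibniz, ← map_pow]
    have h : δ (C (c ^ n)) = 0 := by
      have := δ.map_algebraMap (c ^ n)
      exact this
    rw [h, smul_zero, zero_add, smul_eq_mul, mul_comm]

omit [CharZero k] [Finite σ] in
theorem der_sum_apply {ι : Type} (t : Finset ι)
    (D : ι → Derivation k (MvPolynomial σ k) (MvPolynomial σ k)) (p : MvPolynomial σ k) :
    (∑ i ∈ t, D i) p = ∑ i ∈ t, D i p := by
  classical
  induction t using Finset.induction_on with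
  | empty => simp
  | insert a t ha ih => rw [Finset.sum_insert ha, Finset.sum_insert ha, Derivation.add_apply, ih]

omit [CharZero k] in
theorem der_expand (δ : Derivation k (MvPolynomial σ k) (MvPolynomial σ k)) (p : MvPolynomial σ k) :
    letI := Fintype.ofFinite σ
    δ p = ∑ i, δ (X i) * pderiv i p := by
  classical
  let _ := Fintype.ofFinite σ
  let δ' : Derivation k (MvPolynomial σ k) (MvPolynomial σ k) := ∑ i, δ (X i) • pderiv i
  have h : δ = δ' := by
    refine MvPolynomial.derivation_ext fun j => ?_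
    rw [der_sum_apply]
    simp only [Derivation.smul_apply, smul_eq_mul]
    rw [Finset.sum_eq_single j]
    · rw [pderiv_X_self, mul_one]
    · intro i _ hij
      rw [pderiv_X_of_ne hij.symm, mul_zero]
    · intro hj
      exact absurd (Finset.mem_univ j) hj
  conv_lhs => rw [h]
  rw [der_sum_apply]
  simp only [Derivation.smul_apply, smul_eq_mul]

omit [CharZero k] in
theorem zer_der {f : MvPolynomial σ k} {s : ℚ} (c : Chain k f s) {y : ℕ → MvPolynomial σ k}
    (hy : Zer c y) (δ : Derivation k (MvPolynomial σ k) (MvPolynomial σ k)) :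
    Zer c (fun n => δ (y n)) := by
  classical
  obtain ⟨A, j, hA, n0, hy⟩ := hy
  obtain ⟨B, hB⟩ := poly_der δ A
  refine ⟨Polynomial.C f * B + (Polynomial.X - Polynomial.C (C (j : k))) * A * Polynomial.C (δ f),
    j + 1, ?_, max n0 (j + 1), fun n hn => ?_⟩
  · set a := A.eval (C (-(s : k))) with ha
    have e1 : (Polynomial.C f * B + (Polynomial.X - Polynomial.C (C (j : k))) * A *
        Polynomial.C (δ f)).eval (C (-(s : k))) = f * δ a + C (-(s : k) - j) * a * δ f := by
      simp only [Polynomial.eval_add, Polynomial.eval_mul, Polynomial.eval_C, Polynomial.eval_sub,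
        Polynomial.eval_X, hB, ← ha, C_sub]
    rw [e1]
    let _ := Fintype.ofFinite σ
    have e2 : c.ρ (f * δ a) (c.e (j + 1)) = ((s : k) + j) • c.ρ (a * δ f) (c.e (j + 1)) := by
      rw [mul_comm, map_mul, Module.End.mul_apply, c.mul, der_expand δ a, der_expand δ f, Finset.mul_sum,
        map_sum, map_sum, LinearMap.sum_apply, LinearMap.sum_apply, Finset.smul_sum]
      refine Finset.sum_congr rfl fun i _ => ?_
      have h1 := c.leib i a (c.e j)
      rw [hA, map_zero, c.der, map_smul] at h1
      have h2 : c.ρ (pderiv i a) (c.e j) = ((s : k) + j) • c.ρ a (c.ρ (pderiv i f) (c.e (j + 1))) := by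
        have h3 := eq_neg_of_add_eq_zero_left h1.symm
        rw [h3, neg_smul, neg_neg]
      rw [map_mul, Module.End.mul_apply, h2, map_smul]
      congr 1
      have h4 : a * (δ (X i) * pderiv i f) = δ (X i) * (a * pderiv i f) := by ring
      rw [h4, map_mul, map_mul, Module.End.mul_apply, Module.End.mul_apply]
    have e3 : c.ρ (C (-(s : k) - j) * a * δ f) (c.e (j + 1)) =
        (-(s : k) - j) • c.ρ (a * δ f) (c.e (j + 1)) := by
      rw [mul_assoc, ← smul_eq_C_mul, map_smul, LinearMap.smul_apply]
    rw [map_add, LinearMap.add_apply, e2, e3, ← add_smul]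
    ring_nf
    simp
  · have hn0 := le_of_max_le_left hn
    have hn1 := le_of_max_le_right hn
    show δ (y n) = _
    rw [hy n hn0, Derivation.leibniz, Derivation.leibniz_pow]
    simp only [Polynomial.eval_add, Polynomial.eval_mul, Polynomial.eval_C, Polynomial.eval_sub,
        Polynomial.eval_X, hB, smul_eq_mul, nsmul_eq_mul]
    have h1 : n - j = n - (j + 1) + 1 := by omega
    have h2 : n - j - 1 = n - (j + 1) := by omega
    have h3 : ((n - j : ℕ) : MvPolynomial σ k) = C (n : k) - C (j : k) := by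
      rw [Nat.cast_sub (by omega)]
      simp
    rw [h2, h3, h1, pow_succ]
    ring

omit [CharZero k] in
theorem zer_op {f : MvPolynomial σ k} {s : ℚ} (c : Chain k f s) {P : Module.End k (MvPolynomial σ k)}
    (hP : P ∈ DiffOps k σ) : ∀ y : ℕ → MvPolynomial σ k, Zer c y → Zer c (fun n => P (y n)) := by
  unfold DiffOps at hP
  induction hP using Algebra.adjoin_induction with
  | mem T hT =>
    intro y hy
    rcases hT with ⟨g, rfl⟩ | ⟨δ, rfl⟩
    · have := zer_mul c hy (Polynomial.C g)
      simpa using this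
    · exact zer_der c hy δ
  | algebraMap r =>
    intro y hy
    have := zer_mul c hy (Polynomial.C (C r))
    have h2 : (fun n => (algebraMap k (Module.End k (MvPolynomial σ k)) r) (y n)) =
        fun n : ℕ => (Polynomial.C (C r) : Polynomial (MvPolynomial σ k)).eval (C (n : k)) * y n := by
      funext n
      rw [Polynomial.eval_C, Module.algebraMap_end_apply, smul_eq_C_mul]
    rw [h2]
    exact this
  | add P Q _ _ hP hQ =>
    intro y hy
    exact zer_add c (hP y hy) (hQ y hy)
  | mul P Q _ _ hP hQ =>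
    intro y hy
    exact hP _ (hQ y hy)

theorem SR.isRoot {f : MvPolynomial σ k} {s : ℚ} (h : SR k f s) : IsRoot k f (-s) := by
  obtain ⟨c, hc⟩ := h
  intro b hb
  obtain ⟨d, P, hP, hb⟩ := hb
  have hf : f ≠ 0 := by
    rintro rfl
    have := c.mul 0
    rw [map_zero, LinearMap.zero_apply] at this
    exact c.ne this.symm
  have h0 : Zer c (fun n => f ^ (n + 1)) := by
    refine ⟨Polynomial.C f, 0, ?_, 0, fun n _ => ?_⟩
    · rw [Polynomial.eval_C, hc]
    · simp only [Polynomial.eval_C, Nat.sub_zero, pow_succ']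
  have h1 : ∀ e : ℕ, Zer c (fun n => ∑ i ∈ Finset.range e, (n : k) ^ i • P i (f ^ (n + 1))) := by
    intro e
    induction e with
    | zero =>
      refine ⟨0, 0, by simp, 0, fun n _ => by simp⟩
    | succ e ih =>
      have h2 := zer_mul c (zer_op c (hP e) _ h0) (Polynomial.X ^ e)
      have h3 := zer_add c ih h2
      have h4 : (fun n : ℕ => ∑ i ∈ Finset.range (e + 1), (n : k) ^ i • P i (f ^ (n + 1))) =
          fun n : ℕ => (∑ i ∈ Finset.range e, (n : k) ^ i • P i (f ^ (n + 1))) +
            (Polynomial.X ^ e : Polynomial (MvPolynomial σ k)).eval (C (n : k)) *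
              P e (f ^ (n + 1)) := by
        funext n
        rw [Finset.sum_range_succ, Polynomial.eval_pow, Polynomial.eval_X, ← map_pow, smul_eq_C_mul]
      rw [h4]
      exact h3
  obtain ⟨A, j, hA, n0, hy⟩ := h1 d
  -- the polynomial identity
  have h5 : ∀ n, max n0 j ≤ n → A.eval (C (n : k)) = C (b.eval (n : k)) * f ^ j := by
    intro n hn
    have hn0 := le_of_max_le_left hn
    have hn1 := le_of_max_le_right hn
    have e1 := hy n hn0
    have e2 := hb n
    simp only at e1
    rw [e2, smul_eq_C_mul] at e1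
    have h6 : f ^ n = f ^ j * f ^ (n - j) := by rw [← pow_add]; congr 1; omega
    rw [h6, ← mul_assoc] at e1
    exact (mul_right_cancel₀ (pow_ne_zero _ hf) e1).symm
  have h7 : A = (b.map (C : k →+* MvPolynomial σ k)) * Polynomial.C (f ^ j) := by
    rw [← sub_eq_zero]
    refine Polynomial.eq_zero_of_infinite_isRoot _ ?_
    have h8 : Set.Infinite ((fun n : ℕ => (C (n : k) : MvPolynomial σ k)) '' Set.Ici (max n0 j)) := by
      refine Set.Infinite.image ?_ (Set.Ici_infinite _)
      intro a _ b _ hab
      have := C_injective σ k hab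
      exact_mod_cast this
    refine h8.mono ?_
    rintro _ ⟨n, hn, rfl⟩
    show Polynomial.eval _ _ = 0
    rw [Polynomial.eval_sub, h5 n hn, Polynomial.eval_mul, Polynomial.eval_C, Polynomial.eval_map,
      Polynomial.eval₂_hom, sub_self]
  rw [h7, Polynomial.eval_mul, Polynomial.eval_C, Polynomial.eval_map, Polynomial.eval₂_hom] at hA
  have h9 : c.ρ (f ^ j) (c.e j) = c.e 0 := by
    clear hA h7 h5 hy
    induction j with
    | zero => simp
    | succ j ih => rw [pow_succ, map_mul, Module.End.mul_apply, c.mul, ih]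
  rw [← smul_eq_C_mul, map_smul, LinearMap.smul_apply, h9] at hA
  rcases smul_eq_zero.mp hA with h10 | h10
  · push_cast
    exact h10
  · exact absurd h10 c.ne

end BA

end Pool.Agent.H75.Mono
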