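import Pool.Agent.H75.Mono.Defs

/-! # ROF, module BF: chains in fields of rational functions -/

set_option autoImplicit false

namespace Pool.Agent.H75.Mono

open MvPolynomial Pool.Agent.H39.MonoR

section BF

variable {k : Type} [Field k] {σ : Type}

/-- the homomorphism `p ↦ p + ε ∂_i p` -/
noncomputable def dualHom (i : σ) :
    MvPolynomial σ k →+* TrivSqZeroExt (FractionRing (MvPolynomial σ k)) (FractionRing (MvPolynomial σ k)) where
  toFun p := TrivSqZeroExt.inl (algebraMap _ _ p) + TrivSqZeroExt.inr (algebraMap _ _ (pderiv i p))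
  map_one' := by
    rw [Derivation.map_one_eq_zero, map_one, map_zero, TrivSqZeroExt.inr_zero, add_zero,
      TrivSqZeroExt.inl_one]
  map_zero' := by
    rw [map_zero, map_zero, map_zero, TrivSqZeroExt.inr_zero, add_zero, TrivSqZeroExt.inl_zero]
  map_add' p q := by
    rw [map_add, map_add, map_add, TrivSqZeroExt.inr_add, TrivSqZeroExt.inl_add]
    abel
  map_mul' p q := by
    refine TrivSqZeroExt.ext ?_ ?_
    · simp only [TrivSqZeroExt.fst_add, TrivSqZeroExt.fst_inl, TrivSqZeroExt.fst_inr,
        TrivSqZeroExt.fst_mul, add_zero, map_mul]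
    · rw [TrivSqZeroExt.snd_mul]
      simp only [TrivSqZeroExt.snd_add, TrivSqZeroExt.snd_inl, TrivSqZeroExt.snd_inr,
        TrivSqZeroExt.fst_add, TrivSqZeroExt.fst_inl, TrivSqZeroExt.fst_inr,
        add_zero, zero_add, Derivation.leibniz, smul_eq_mul, map_mul, map_add,
        op_smul_eq_mul]
      ring

theorem dualHom_fst (i : σ) (p : MvPolynomial σ k) : (dualHom i p).fst = algebraMap _ _ p := by
  show (TrivSqZeroExt.inl (algebraMap _ _ p) + TrivSqZeroExt.inr (algebraMap _ _ (pderiv i p)) :
    TrivSqZeroExt (FractionRing (MvPolynomial σ k)) (FractionRing (MvPolynomial σ k))).fst = _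
  rw [TrivSqZeroExt.fst_add, TrivSqZeroExt.fst_inl, TrivSqZeroExt.fst_inr, add_zero]

theorem dualHom_snd (i : σ) (p : MvPolynomial σ k) :
    (dualHom i p).snd = algebraMap _ _ (pderiv i p) := by
  show (TrivSqZeroExt.inl (algebraMap _ _ p) + TrivSqZeroExt.inr (algebraMap _ _ (pderiv i p)) :
    TrivSqZeroExt (FractionRing (MvPolynomial σ k)) (FractionRing (MvPolynomial σ k))).snd = _
  rw [TrivSqZeroExt.snd_add, TrivSqZeroExt.snd_inl, TrivSqZeroExt.snd_inr, zero_add]

theorem dualHom_unit (i : σ) (y : nonZeroDivisors (MvPolynomial σ k)) :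
    IsUnit (dualHom i (y : MvPolynomial σ k)) := by
  rw [TrivSqZeroExt.isUnit_iff_isUnit_fst, dualHom_fst]
  exact IsLocalization.map_units (FractionRing (MvPolynomial σ k)) y

/-- the extension of the homomorphism to the field of fractions -/
noncomputable def dualExt (i : σ) : FractionRing (MvPolynomial σ k) →+*
    TrivSqZeroExt (FractionRing (MvPolynomial σ k)) (FractionRing (MvPolynomial σ k)) :=
  IsLocalization.lift (M := nonZeroDivisors (MvPolynomial σ k)) (dualHom_unit i)

theorem dualExt_alg (i : σ) (p : MvPolynomial σ k) :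
    dualExt i (algebraMap _ _ p) = dualHom i p := by
  unfold dualExt
  exact IsLocalization.lift_eq _ _

/-- first component -/
noncomputable def dfst : TrivSqZeroExt (FractionRing (MvPolynomial σ k)) (FractionRing (MvPolynomial σ k)) →+*
    FractionRing (MvPolynomial σ k) where
  toFun := TrivSqZeroExt.fst
  map_one' := TrivSqZeroExt.fst_one
  map_zero' := TrivSqZeroExt.fst_zero
  map_add' := TrivSqZeroExt.fst_add
  map_mul' := TrivSqZeroExt.fst_mul

theorem dualExt_fst (i : σ) (x : FractionRing (MvPolynomial σ k)) : (dualExt i x).fst = x := by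
  have h : (dfst (k := k) (σ := σ)).comp (dualExt (k := k) i) = RingHom.id _ := by
    refine IsLocalization.ringHom_ext (nonZeroDivisors (MvPolynomial σ k)) (RingHom.ext fun p => ?_)
    show (dualExt i (algebraMap _ _ p)).fst = algebraMap _ _ p
    rw [dualExt_alg, dualHom_fst]
  exact congrArg (fun g => g x) h

/-- the partial derivatives extend to the field of fractions -/
theorem exists_der (i : σ) : ∃ D : Derivation k (FractionRing (MvPolynomial σ k))
    (FractionRing (MvPolynomial σ k)), ∀ p : MvPolynomial σ k,
      D (algebraMap _ _ p) = algebraMap _ _ (pderiv i p) := by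
  have hmul : ∀ x y : FractionRing (MvPolynomial σ k),
      (dualExt i (x * y)).snd = x * (dualExt i y).snd + y * (dualExt i x).snd := by
    intro x y
    rw [map_mul, TrivSqZeroExt.snd_mul, dualExt_fst, dualExt_fst, op_smul_eq_mul,
      smul_eq_mul, mul_comm y]
  have halg : ∀ p : MvPolynomial σ k, (dualExt i (algebraMap _ (FractionRing (MvPolynomial σ k)) p)).snd =
      algebraMap _ _ (pderiv i p) := by
    intro p
    rw [dualExt_alg, dualHom_snd]
  let L : FractionRing (MvPolynomial σ k) →ₗ[k] FractionRing (MvPolynomial σ k) :=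
    { toFun := fun x => (dualExt i x).snd
      map_add' := fun x y => by rw [map_add, TrivSqZeroExt.snd_add]
      map_smul' := fun c x => by
        have h1 : c • x = algebraMap (MvPolynomial σ k) _ (C c) * x := by
          rw [Algebra.smul_def]
          rfl
        rw [h1, hmul, halg, pderiv_C, map_zero, mul_zero, add_zero, RingHom.id_apply, Algebra.smul_def]
        rfl }
  exact ⟨Derivation.mk' L hmul, halg⟩

/-- for every `h ≠ 0` and every `s` there is a chain (without a condition on `h e_0`) -/
theorem exists_chain {h : MvPolynomial σ k} (hh : h ≠ 0) (s : ℚ) : Nonempty (Chain k h s) := by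
  choose D hD using fun i : σ => exists_der (k := k) i
  set K := FractionRing (MvPolynomial σ k) with hK
  set η : K := algebraMap _ _ h with hη
  have hη0 : η ≠ 0 := by
    rw [hη]
    exact (map_ne_zero_iff _ (IsFractionRing.injective (MvPolynomial σ k) K)).mpr hh
  let μ : σ → K := fun i => algebraMap k K (s : k) * (algebraMap _ K (pderiv i h) * η⁻¹)
  have hinv : ∀ i (j : ℕ), D i (η⁻¹ ^ j) = -((j : K) * (algebraMap _ K (pderiv i h) * η⁻¹ ^ (j + 1))) := by
    intro i j
    rw [Derivation.leibniz_pow, Derivation.leibniz_inv, hη, hD]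
    simp only [smul_eq_mul, nsmul_eq_mul]
    cases j with
    | zero => simp
    | succ j =>
      simp only [Nat.add_sub_cancel]
      ring
  refine ⟨{ V := K
            ρ := Algebra.lsmul k k K
            D := fun i => (D i : K →ₗ[k] K) - LinearMap.mulLeft k (μ i)
            leib := fun i p v => ?_
            e := fun j => η⁻¹ ^ j
            mul := fun j => ?_
            der := fun i j => ?_
            ne := by simp }⟩
  · simp only [LinearMap.sub_apply, LinearMap.mulLeft_apply, Algebra.lsmul_coe, Algebra.smul_def]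
    rw [Derivation.coeFn_coe, Derivation.leibniz, hD]
    simp only [smul_eq_mul]
    ring
  · simp only [Algebra.lsmul_coe, Algebra.smul_def]
    rw [pow_succ', ← hη, ← mul_assoc, mul_inv_cancel₀ hη0, one_mul]
  · simp only [LinearMap.sub_apply, LinearMap.mulLeft_apply, Algebra.lsmul_coe]
    rw [Derivation.coeFn_coe, hinv, Algebra.smul_def, Algebra.smul_def]
    have h1 : algebraMap k K (-((s : k) + j)) = -(algebraMap k K (s : k) + (j : K)) := by
      rw [map_neg, map_add, map_natCast]
    rw [h1]
    simp only [μ]
    ring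

/-- `-1` is a root -/
theorem SR.one {f : MvPolynomial σ k} (hf : f ≠ 0) (hu : ¬ IsUnit f) : SR k f 1 := by
  choose D hD using fun i : σ => exists_der (k := k) i
  set K := FractionRing (MvPolynomial σ k) with hK
  set η : K := algebraMap _ _ f with hη
  have hη0 : η ≠ 0 := by
    rw [hη]
    exact (map_ne_zero_iff _ (IsFractionRing.injective (MvPolynomial σ k) K)).mpr hf
  let N : Submodule (MvPolynomial σ k) K := LinearMap.range (Algebra.linearMap (MvPolynomial σ k) K)
  let q : K →ₗ[k] K ⧸ N.restrictScalars k := (N.restrictScalars k).mkQ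
  have hinv : ∀ i (j : ℕ), D i (η⁻¹ ^ j) = -((j : K) * (algebraMap _ K (pderiv i f) * η⁻¹ ^ (j + 1))) := by
    intro i j
    rw [Derivation.leibniz_pow, Derivation.leibniz_inv, hη, hD]
    simp only [smul_eq_mul, nsmul_eq_mul]
    cases j with
    | zero => simp
    | succ j =>
      simp only [Nat.add_sub_cancel]
      ring
  have hDN : ∀ i, N.restrictScalars k ≤ (N.restrictScalars k).comap (D i : K →ₗ[k] K) := by
    rintro i _ ⟨p, rfl⟩
    refine ⟨pderiv i p, ?_⟩
    simp only [Algebra.linearMap_apply]
    exact (hD i p).symm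
  have hsN : ∀ p : MvPolynomial σ k, N.restrictScalars k ≤
      (N.restrictScalars k).comap (Algebra.lsmul k k K p) := by
    rintro p _ ⟨r, rfl⟩
    refine ⟨p * r, ?_⟩
    simp only [Algebra.linearMap_apply, Algebra.lsmul_coe, map_mul, Algebra.smul_def]
  let ρ : MvPolynomial σ k →ₐ[k] Module.End k (K ⧸ N.restrictScalars k) :=
    AlgHom.ofLinearMap
      { toFun := fun p => (N.restrictScalars k).mapQ (N.restrictScalars k) (Algebra.lsmul k k K p) (hsN p)
        map_add' := fun p r => by
          ext x
          simp
        map_smul' := fun c p => by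
          ext x
          simp }
      (by ext x; simp)
      (fun p r => by
        ext x
        simp)
  have hρ : ∀ p x, ρ p (q x) = q (algebraMap _ K p * x) := by
    intro p x
    show (N.restrictScalars k).mapQ (N.restrictScalars k) (Algebra.lsmul k k K p) (hsN p) (q x) = _
    rw [← Algebra.smul_def]
    rfl
  let Δ : σ → Module.End k (K ⧸ N.restrictScalars k) := fun i =>
    (N.restrictScalars k).mapQ (N.restrictScalars k) (D i : K →ₗ[k] K) (hDN i)
  have hΔ : ∀ i x, Δ i (q x) = q (D i x) := fun i x => rfl
  have hq0 : ∀ p : MvPolynomial σ k, q (algebraMap _ K p) = 0 := by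
    intro p
    rw [Submodule.mkQ_apply, Submodule.Quotient.mk_eq_zero]
    exact ⟨p, rfl⟩
  let c : Chain k f 1 :=
    { V := K ⧸ N.restrictScalars k
      ρ := ρ
      D := Δ
      leib := fun i p v => by
        obtain ⟨x, rfl⟩ := (N.restrictScalars k).mkQ_surjective v
        show Δ i (ρ p (q x)) = ρ _ (q x) + ρ p (Δ i (q x))
        rw [hρ, hΔ, hρ, hΔ, hρ, ← map_add, Derivation.leibniz, hD]
        simp only [smul_eq_mul]
        congr 1
        ring
      e := fun j => q (η⁻¹ ^ (j + 1))
      mul := fun j => by
        rw [hρ, ← hη]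
        congr 1
        rw [pow_succ' η⁻¹ (j + 1), ← mul_assoc, mul_inv_cancel₀ hη0, one_mul]
      der := fun i j => by
        rw [hΔ, hρ, hinv, ← map_smul, Algebra.smul_def]
        congr 1
        have h1 : algebraMap k K (-(((1 : ℚ) : k) + j)) = -(1 + (j : K)) := by
          rw [map_neg, map_add, map_natCast, Rat.cast_one, map_one]
        rw [h1]
        push_cast
        ring
      ne := by
        intro h0
        rw [Submodule.mkQ_apply, Submodule.Quotient.mk_eq_zero] at h0
        obtain ⟨r, hr⟩ := h0
        apply hu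
        have h1 : algebraMap (MvPolynomial σ k) K (f * r) = algebraMap (MvPolynomial σ k) K 1 := by
          rw [map_mul, map_one, ← hη]
          have hr' : algebraMap _ K r = η⁻¹ ^ (0 + 1) := hr
          rw [hr', zero_add, pow_one, mul_inv_cancel₀ hη0]
        exact IsUnit.of_mul_eq_one r (IsFractionRing.injective (MvPolynomial σ k) K h1) }
  refine ⟨c, ?_⟩
  show ρ f (q (η⁻¹ ^ (0 + 1))) = 0
  rw [hρ, ← hη]
  have h1 : η * η⁻¹ ^ (0 + 1) = algebraMap (MvPolynomial σ k) K 1 := by
    rw [map_one, zero_add, pow_one, mul_inv_cancel₀ hη0]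
  rw [h1, hq0]

end BF

end Pool.Agent.H75.Mono
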