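import Pool.Agent.H75.Mono.RA

/-! # ROF, module RH: Hadamard products -/

set_option autoImplicit false

namespace Pool.Agent.H75.Mono

section RH

variable {R : Type*} [CommRing R] {u : Rˣ} {S S' : Set (ℤ × ℕ)} {T : Type*}

/-- the coefficient of `x^i y^j` -/
noncomputable def rhCf (i j : ℕ) (G : PowerSeries (PowerSeries R)) : R :=
  PowerSeries.coeff i (PowerSeries.coeff j G)

theorem rhCf_add (i j : ℕ) (G H : PowerSeries (PowerSeries R)) :
    rhCf i j (G + H) = rhCf i j G + rhCf i j H := by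
  simp [rhCf]

theorem rhCf_mul (i j : ℕ) (G H : PowerSeries (PowerSeries R)) :
    rhCf i j (G * H) = ∑ a ∈ Finset.HasAntidiagonal.antidiagonal j, ∑ b ∈ Finset.HasAntidiagonal.antidiagonal i,
      rhCf b.1 a.1 G * rhCf b.2 a.2 H := by
  simp only [rhCf]
  rw [PowerSeries.coeff_mul, map_sum]
  refine Finset.sum_congr rfl fun a _ => ?_
  rw [PowerSeries.coeff_mul]

/-- polynomials -/
def RhFine (G : PowerSeries (PowerSeries R)) : Prop :=
  ∃ M : ℕ, ∀ i j, (M ≤ i ∨ M ≤ j) → rhCf i j G = 0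

theorem RhFine.add {G H : PowerSeries (PowerSeries R)} (hG : RhFine G) (hH : RhFine H) :
    RhFine (G + H) := by
  obtain ⟨M, hM⟩ := hG
  obtain ⟨N, hN⟩ := hH
  refine ⟨M + N, fun i j h => ?_⟩
  rw [rhCf_add, hM i j (by omega), hN i j (by omega), add_zero]

theorem rhCf_mul_left {G H : PowerSeries (PowerSeries R)} {M N : ℕ}
    (hG : ∀ i j, M ≤ i → rhCf i j G = 0) (hH : ∀ i j, N ≤ i → rhCf i j H = 0) (i j : ℕ)
    (h : M + N ≤ i) : rhCf i j (G * H) = 0 := by
  rw [rhCf_mul]
  refine Finset.sum_eq_zero fun a _ => Finset.sum_eq_zero fun b hb => ?_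
  rw [Finset.HasAntidiagonal.mem_antidiagonal] at hb
  rcases Nat.lt_or_ge b.1 M with h1 | h1
  · rw [hH b.2 a.2 (by omega), mul_zero]
  · rw [hG b.1 a.1 h1, zero_mul]

theorem rhCf_mul_right {G H : PowerSeries (PowerSeries R)} {M N : ℕ}
    (hG : ∀ i j, M ≤ j → rhCf i j G = 0) (hH : ∀ i j, N ≤ j → rhCf i j H = 0) (i j : ℕ)
    (h : M + N ≤ j) : rhCf i j (G * H) = 0 := by
  rw [rhCf_mul]
  refine Finset.sum_eq_zero fun a ha => Finset.sum_eq_zero fun b _ => ?_
  rw [Finset.HasAntidiagonal.mem_antidiagonal] at ha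
  rcases Nat.lt_or_ge a.1 M with h1 | h1
  · rw [hH b.2 a.2 (by omega), mul_zero]
  · rw [hG b.1 a.1 h1, zero_mul]

theorem RhFine.mul {G H : PowerSeries (PowerSeries R)} (hG : RhFine G) (hH : RhFine H) :
    RhFine (G * H) := by
  obtain ⟨M, hM⟩ := hG
  obtain ⟨N, hN⟩ := hH
  refine ⟨M + N, fun i j h => ?_⟩
  rcases h with h | h
  · exact rhCf_mul_left (fun i j h => hM i j (Or.inl h)) (fun i j h => hN i j (Or.inl h)) i j h
  · exact rhCf_mul_right (fun i j h => hM i j (Or.inr h)) (fun i j h => hN i j (Or.inr h)) i j h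

theorem RhFine.zero : RhFine (0 : PowerSeries (PowerSeries R)) := ⟨0, fun i j _ => by simp [rhCf]⟩

theorem RhFine.one : RhFine (1 : PowerSeries (PowerSeries R)) := by
  refine ⟨1, fun i j h => ?_⟩
  unfold rhCf
  rw [PowerSeries.coeff_one]
  split_ifs with hj
  · rw [PowerSeries.coeff_one, if_neg (by omega)]
  · simp

theorem RhFine.neg {G : PowerSeries (PowerSeries R)} (hG : RhFine G) : RhFine (-G) := by
  obtain ⟨M, hM⟩ := hG
  refine ⟨M, fun i j h => ?_⟩
  have := hM i j h
  unfold rhCf at *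
  simp [this]

theorem RhFine.pow {G : PowerSeries (PowerSeries R)} (hG : RhFine G) (n : ℕ) : RhFine (G ^ n) := by
  induction n with
  | zero => simpa using RhFine.one
  | succ n ih => rw [pow_succ]; exact ih.mul hG

theorem RhFine.cc (r : R) : RhFine (PowerSeries.C (PowerSeries.C r)) := by
  refine ⟨1, fun i j h => ?_⟩
  unfold rhCf
  rw [PowerSeries.coeff_C]
  split_ifs with hj
  · rw [PowerSeries.coeff_C, if_neg (by omega)]
  · simp

theorem RhFine.cx : RhFine (PowerSeries.C (PowerSeries.X : PowerSeries R)) := by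
  refine ⟨2, fun i j h => ?_⟩
  unfold rhCf
  rw [PowerSeries.coeff_C]
  split_ifs with hj
  · rw [PowerSeries.coeff_X, if_neg (by omega)]
  · simp

theorem RhFine.x : RhFine (PowerSeries.X : PowerSeries (PowerSeries R)) := by
  refine ⟨2, fun i j h => ?_⟩
  unfold rhCf
  rw [PowerSeries.coeff_X]
  split_ifs with hj
  · rw [PowerSeries.coeff_one, if_neg (by omega)]
  · simp

theorem rh_geom {z : PowerSeries (PowerSeries R)} (hz : RhFine z) (m : ℕ) :
    ∃ α, RhFine α ∧ 1 - z ^ m = α * (1 - z) := by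
  induction m with
  | zero => exact ⟨0, RhFine.zero, by simp⟩
  | succ m ih =>
    obtain ⟨α, hα, h⟩ := ih
    refine ⟨α + z ^ m, hα.add (hz.pow m), ?_⟩
    rw [pow_succ]
    linear_combination h

theorem rh_lin {J : Type*} (l : Multiset J) (a : PowerSeries (PowerSeries R))
    (b c : J → PowerSeries (PowerSeries R)) (ha : RhFine a) (hb : ∀ q ∈ l, RhFine (b q))
    (h : ∀ q ∈ l, ∃ α β, RhFine α ∧ RhFine β ∧ c q = α * a + β * b q) :
    ∃ α β, RhFine α ∧ RhFine β ∧ (l.map c).prod = α * a + β * (l.map b).prod := by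
  induction l using Multiset.induction_on with
  | empty => exact ⟨0, 1, RhFine.zero, RhFine.one, by simp⟩
  | cons q l ih =>
    obtain ⟨α, β, hα, hβ, h1⟩ := ih (fun q hq => hb q (Multiset.mem_cons_of_mem hq))
      (fun q hq => h q (Multiset.mem_cons_of_mem hq))
    obtain ⟨α', β', hα', hβ', h2⟩ := h q (Multiset.mem_cons_self q l)
    have hB : RhFine (l.map b).prod := by
      have : ∀ q ∈ l, RhFine (b q) := fun q hq => hb q (Multiset.mem_cons_of_mem hq)
      clear ih h1 h2 h hb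
      induction l using Multiset.induction_on with
      | empty => simpa using RhFine.one
      | cons q l ih =>
        rw [Multiset.map_cons, Multiset.prod_cons]
        exact (this q (Multiset.mem_cons_self q l)).mul
          (ih (fun q hq => this q (Multiset.mem_cons_of_mem hq)))
    refine ⟨α' * α * a + α' * β * (l.map b).prod + β' * b q * α, β' * β, ?_, hβ'.mul hβ, ?_⟩
    · exact (((hα'.mul hα).mul ha).add ((hα'.mul hβ).mul hB)).add
        ((hβ'.mul (hb q (Multiset.mem_cons_self q l))).mul hα)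
    · rw [Multiset.map_cons, Multiset.prod_cons, Multiset.map_cons, Multiset.prod_cons, h1, h2]
      ring

/-- `z = u^a x^b` -/
noncomputable def rhZ (u : Rˣ) (p : ℤ × ℕ) : PowerSeries (PowerSeries R) :=
  PowerSeries.C (PowerSeries.C (↑(u ^ p.1) : R)) * PowerSeries.C PowerSeries.X ^ p.2

/-- `z' = u^a y^b` -/
noncomputable def rhZ' (u : Rˣ) (p : ℤ × ℕ) : PowerSeries (PowerSeries R) :=
  PowerSeries.C (PowerSeries.C (↑(u ^ p.1) : R)) * PowerSeries.X ^ p.2

/-- `u^a (xy)^b` -/
noncomputable def rhW (u : Rˣ) (p : ℤ × ℕ) : PowerSeries (PowerSeries R) :=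
  PowerSeries.C (PowerSeries.C (↑(u ^ p.1) : R)) *
    (PowerSeries.C PowerSeries.X ^ p.2 * PowerSeries.X ^ p.2)

theorem rhZ_fine (u : Rˣ) (p : ℤ × ℕ) : RhFine (rhZ u p) :=
  (RhFine.cc _).mul (RhFine.cx.pow _)

theorem rhZ'_fine (u : Rˣ) (p : ℤ × ℕ) : RhFine (rhZ' u p) :=
  (RhFine.cc _).mul (RhFine.x.pow _)

theorem rh_cmb (u : Rˣ) (p q : ℤ × ℕ) :
    rhW u (cmb p q) = rhZ u p ^ (Nat.lcm p.2 q.2 / p.2) * rhZ' u q ^ (Nat.lcm p.2 q.2 / q.2) := by
  have h1 : p.2 * (Nat.lcm p.2 q.2 / p.2) = Nat.lcm p.2 q.2 :=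
    Nat.mul_div_cancel' (Nat.dvd_lcm_left _ _)
  have h2 : q.2 * (Nat.lcm p.2 q.2 / q.2) = Nat.lcm p.2 q.2 :=
    Nat.mul_div_cancel' (Nat.dvd_lcm_right _ _)
  unfold rhW rhZ rhZ' cmb
  rw [mul_pow, mul_pow, ← pow_mul, ← pow_mul, h1, h2,
    zpow_add, zpow_mul, zpow_mul, zpow_natCast, zpow_natCast]
  push_cast
  simp only [map_mul, map_pow]
  ring

theorem rh_pair (u : Rˣ) (p q : ℤ × ℕ) :
    ∃ α β, RhFine α ∧ RhFine β ∧
      1 - rhW u (cmb p q) = α * (1 - rhZ u p) + β * (1 - rhZ' u q) := by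
  obtain ⟨α, hα, h1⟩ := rh_geom (rhZ_fine u p) (Nat.lcm p.2 q.2 / p.2)
  obtain ⟨β, hβ, h2⟩ := rh_geom (rhZ'_fine u q) (Nat.lcm p.2 q.2 / q.2)
  refine ⟨α, rhZ u p ^ (Nat.lcm p.2 q.2 / p.2) * β, hα, ((rhZ_fine u p).pow _).mul hβ, ?_⟩
  rw [rh_cmb]
  linear_combination h1 + rhZ u p ^ (Nat.lcm p.2 q.2 / p.2) * h2

theorem rh_prod (u : Rˣ) (l l' : Multiset (ℤ × ℕ)) :
    ∃ α β, RhFine α ∧ RhFine β ∧
      ((l ×ˢ l').map (fun x => 1 - rhW u (cmb x.1 x.2))).prod =
      α * (l.map (fun p => 1 - rhZ u p)).prod + β * (l'.map (fun p => 1 - rhZ' u p)).prod := by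
  have hfine : ∀ p, RhFine (1 - rhZ u p) := fun p => by
    rw [sub_eq_add_neg]; exact RhFine.one.add (rhZ_fine u p).neg
  have hfine' : ∀ p, RhFine (1 - rhZ' u p) := fun p => by
    rw [sub_eq_add_neg]; exact RhFine.one.add (rhZ'_fine u p).neg
  have hB : RhFine (l'.map (fun p => 1 - rhZ' u p)).prod := by
    induction l' using Multiset.induction_on with
    | empty => simpa using RhFine.one
    | cons q l ih =>
      rw [Multiset.map_cons, Multiset.prod_cons]
      exact (hfine' q).mul ih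
  have h1 : ∀ p ∈ l, ∃ β α, RhFine β ∧ RhFine α ∧
      (l'.map (fun q => 1 - rhW u (cmb p q))).prod =
      β * (l'.map (fun p => 1 - rhZ' u p)).prod + α * (1 - rhZ u p) := by
    intro p _
    obtain ⟨α, β, hα, hβ, h⟩ := rh_lin l' (1 - rhZ u p) (fun q => 1 - rhZ' u q)
      (fun q => 1 - rhW u (cmb p q)) (hfine p) (fun q _ => hfine' q) (fun q _ => rh_pair u p q)
    exact ⟨β, α, hβ, hα, by rw [h, add_comm]⟩
  obtain ⟨β, α, hβ, hα, h⟩ := rh_lin l (l'.map (fun p => 1 - rhZ' u p)).prod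
    (fun p => 1 - rhZ u p) (fun p => (l'.map (fun q => 1 - rhW u (cmb p q))).prod) hB
    (fun q _ => hfine q) h1
  refine ⟨α, β, hα, hβ, ?_⟩
  rw [add_comm, ← h]
  clear h h1 hα hβ hB
  induction l using Multiset.induction_on with
  | empty => simp
  | cons p l ih =>
    rw [Multiset.cons_product, Multiset.map_add, Multiset.prod_add, ih, Multiset.map_cons,
      Multiset.prod_cons, Multiset.map_map]
    rfl

/-- the diagonal -/
noncomputable def rhDiag (G : PowerSeries (PowerSeries R)) : PowerSeries R :=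
  PowerSeries.mk fun n => rhCf n n G

theorem rhDiag_sub (G H : PowerSeries (PowerSeries R)) :
    rhDiag (G - H) = rhDiag G - rhDiag H := by
  ext n
  simp [rhDiag, rhCf]

theorem rhDiag_C (r : R) (G : PowerSeries (PowerSeries R)) :
    rhDiag (PowerSeries.C (PowerSeries.C r) * G) = PowerSeries.C r * rhDiag G := by
  ext n
  simp [rhDiag, rhCf]

theorem rhDiag_X (b : ℕ) (G : PowerSeries (PowerSeries R)) :
    rhDiag (PowerSeries.C PowerSeries.X ^ b * PowerSeries.X ^ b * G) =
      PowerSeries.X ^ b * rhDiag G := by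
  ext n
  simp only [rhDiag, rhCf, PowerSeries.coeff_mk]
  rw [mul_assoc, ← map_pow, PowerSeries.coeff_C_mul, PowerSeries.coeff_X_pow_mul',
    PowerSeries.coeff_X_pow_mul']
  split_ifs with h
  · rw [PowerSeries.coeff_X_pow_mul', if_pos h, PowerSeries.coeff_mk]
  · rw [PowerSeries.coeff_X_pow_mul', if_neg h]

theorem rhDiag_prod (u : Rˣ) (l : Multiset (ℤ × ℕ)) (G : PowerSeries (PowerSeries R)) :
    rhDiag ((l.map (fun p => 1 - rhW u p)).prod * G) = (l.map (den' u)).prod * rhDiag G := by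
  induction l using Multiset.induction_on generalizing G with
  | empty => simp
  | cons p l ih =>
    rw [Multiset.map_cons, Multiset.prod_cons, Multiset.map_cons, Multiset.prod_cons, mul_assoc,
      mul_assoc, sub_mul, one_mul, rhDiag_sub, ih, rhW, mul_assoc, rhDiag_C, rhDiag_X, ih, den']
    ring

theorem rh_left (u : Rˣ) (l : Multiset (ℤ × ℕ)) (G : PowerSeries (PowerSeries R)) (j : ℕ) :
    PowerSeries.coeff j ((l.map (fun p => 1 - rhZ u p)).prod * G) =
      (l.map (den' u)).prod * PowerSeries.coeff j G := by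
  have : (l.map (fun p => 1 - rhZ u p)).prod = PowerSeries.C (l.map (den' u)).prod := by
    rw [map_multiset_prod, Multiset.map_map]
    congr 1
    refine Multiset.map_congr rfl fun p _ => ?_
    rw [Function.comp_apply, den', rhZ, map_sub, map_one, map_mul, map_pow]
  rw [this, PowerSeries.coeff_C_mul]

theorem rh_right (u : Rˣ) (l : Multiset (ℤ × ℕ)) (w : ℕ → ℕ → R) (i j : ℕ) :
    rhCf i j ((l.map (fun p => 1 - rhZ' u p)).prod *
      PowerSeries.mk fun j => PowerSeries.mk fun i => w i j) =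
      PowerSeries.coeff j ((l.map (den' u)).prod * PowerSeries.mk fun j => w i j) := by
  have : (l.map (fun p => 1 - rhZ' u p)).prod =
      PowerSeries.map PowerSeries.C (l.map (den' u)).prod := by
    rw [map_multiset_prod, Multiset.map_map]
    congr 1
    refine Multiset.map_congr rfl fun p _ => ?_
    rw [Function.comp_apply, den', rhZ', map_sub, map_one, map_mul, map_pow, PowerSeries.map_C,
      PowerSeries.map_X]
  rw [this, rhCf, PowerSeries.coeff_mul, PowerSeries.coeff_mul, map_sum]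
  refine Finset.sum_congr rfl fun a _ => ?_
  rw [PowerSeries.coeff_map, PowerSeries.coeff_C_mul]
  simp

/-- the diagonal of a double series which is rational in each variable, uniformly in the other -/
theorem RatF.hadamard (hS : ∀ p ∈ S, 0 < p.2) (hS' : ∀ p ∈ S', 0 < p.2) (w : ℕ → ℕ → T → R)
    (h1 : RatF u S (fun x : ℕ × T => PowerSeries.mk fun i => w i x.1 x.2))
    (h2 : RatF u S' (fun x : ℕ × T => PowerSeries.mk fun j => w x.1 j x.2)) :
    RatF u (cmbs S S') (fun t => PowerSeries.mk fun n => w n n t) := by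
  obtain ⟨l, hl, N, hN⟩ := h1
  obtain ⟨l', hl', N', hN'⟩ := h2
  obtain ⟨α, β, ⟨M, hM⟩, ⟨M', hM'⟩, h⟩ := rh_prod u l l'
  refine ⟨(l ×ˢ l').map (fun x => cmb x.1 x.2), fun r hr => ?_, M + N + (M' + N'), fun t n hn => ?_⟩
  · rw [Multiset.mem_map] at hr
    obtain ⟨x, hx, rfl⟩ := hr
    rw [Multiset.mem_product] at hx
    exact ⟨x.1, hl _ hx.1, x.2, hl' _ hx.2, rfl⟩
  · have e1 : (PowerSeries.mk fun n => w n n t) =
        rhDiag (PowerSeries.mk fun j => PowerSeries.mk fun i => w i j t) := by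
      ext n
      simp [rhDiag, rhCf]
    change PowerSeries.coeff n (_ * (PowerSeries.mk fun n => w n n t)) = 0
    rw [e1, Multiset.map_map, ← Multiset.map_map, ← rhDiag_prod, Multiset.map_map]
    have e2 : (Multiset.map ((fun p => 1 - rhW u p) ∘ fun x : (ℤ × ℕ) × (ℤ × ℕ) => cmb x.1 x.2)
        (l ×ˢ l')).prod = α * (l.map (fun p => 1 - rhZ u p)).prod +
          β * (l'.map (fun p => 1 - rhZ' u p)).prod := h
    rw [e2, add_mul, rhDiag, PowerSeries.coeff_mk, rhCf_add, mul_assoc, mul_assoc]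
    have z1 := rhCf_mul_left (N := N) (H := (l.map (fun p => 1 - rhZ u p)).prod *
      (PowerSeries.mk fun j => PowerSeries.mk fun i => w i j t))
      (fun i j h => hM i j (Or.inl h)) (fun i j h => by
        rw [rhCf, rh_left, PowerSeries.coeff_mk]
        exact hN (j, t) i h) n n (by omega)
    have z2 := rhCf_mul_right (N := N') (H := (l'.map (fun p => 1 - rhZ' u p)).prod *
      (PowerSeries.mk fun j => PowerSeries.mk fun i => w i j t))
      (fun i j h => hM' i j (Or.inr h)) (fun i j h => by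
        rw [rh_right]
        exact hN' (i, t) j h) n n (by omega)
    rw [z1, z2, add_zero]

end RH

end Pool.Agent.H75.Mono
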