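import Pool.Agent.H75.Mono.SA
import Pool.Agent.H75.Mono.RH

/-! # ROF2, module SB: diagonals of multiple series -/

set_option autoImplicit false

namespace Pool.Agent.H75.Mono

/-- `(∑ a_i p_i.1 / p_i.2) * D` and `D = ∏ p_i.2` -/
def cmbN {r : ℕ} (a : Fin r → ℕ) (p : Fin r → ℤ × ℕ) : ℤ × ℕ :=
  (∑ i, (a i : ℤ) * (p i).1 * ∏ j ∈ Finset.univ.erase i, ((p j).2 : ℤ), ∏ i, (p i).2)

theorem sb_erase0 {n : ℕ} (f : Fin (n + 1) → ℤ) :
    ∏ j ∈ Finset.univ.erase 0, f j = ∏ j : Fin n, f j.succ := by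
  have : Finset.univ.erase (0 : Fin (n + 1)) = Finset.univ.map (Fin.succEmb n) := by
    ext j
    refine Fin.cases ?_ (fun j => ?_) j
    · simp
    · simp
  rw [this, Finset.prod_map]
  rfl

theorem sb_eraseS {n : ℕ} (f : Fin (n + 1) → ℤ) (i : Fin n) :
    ∏ j ∈ Finset.univ.erase i.succ, f j = f 0 * ∏ j ∈ Finset.univ.erase i, f j.succ := by
  have : Finset.univ.erase (i.succ : Fin (n + 1)) =
      insert 0 ((Finset.univ.erase i).map (Fin.succEmb n)) := by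
    ext j
    refine Fin.cases ?_ (fun j => ?_) j
    · simp [(Fin.succ_ne_zero i).symm]
    · simp
  rw [this, Finset.prod_insert, Finset.prod_map]
  · rfl
  · simp

theorem cmbN_succ {n : ℕ} (a : Fin (n + 1) → ℕ) (p : Fin (n + 1) → ℤ × ℕ) :
    cmbN a p = ((a 0 : ℤ) * (p 0).1 * ((cmbN (fun i => a i.succ) (fun i => p i.succ)).2 : ℤ) +
      ((p 0).2 : ℤ) * (cmbN (fun i => a i.succ) (fun i => p i.succ)).1,
      (p 0).2 * (cmbN (fun i => a i.succ) (fun i => p i.succ)).2) := by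
  unfold cmbN
  refine Prod.ext ?_ ?_
  · simp only
    rw [Fin.sum_univ_succ, sb_erase0]
    push_cast
    rw [Finset.mul_sum]
    congr 1
    refine Finset.sum_congr rfl fun i _ => ?_
    rw [sb_eraseS]
    ring
  · simp only
    rw [Fin.prod_univ_succ]

section SB

variable {R : Type*} [CommRing R] {u : Rˣ} {T : Type*}

theorem sb_mul (c : ℤ) (p q : ℤ × ℕ) (hp : 0 < p.2) (hq : 0 < q.2) :
    ((Nat.gcd p.2 q.2 : ℕ) : ℤ) * (cmb (c * p.1, p.2) q).1 =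
      c * p.1 * (q.2 : ℤ) + (p.2 : ℤ) * q.1 ∧
    Nat.gcd p.2 q.2 * (cmb (c * p.1, p.2) q).2 = p.2 * q.2 := by
  have h0 := Nat.gcd_mul_lcm p.2 q.2
  have h1 : Nat.gcd p.2 q.2 * (Nat.lcm p.2 q.2 / p.2) = q.2 := by
    obtain ⟨c, hc⟩ := Nat.dvd_lcm_left p.2 q.2
    rw [hc, Nat.mul_div_cancel_left _ hp]
    rw [hc] at h0
    refine Nat.eq_of_mul_eq_mul_left hp ?_
    rw [← h0]; ring
  have h2 : Nat.gcd p.2 q.2 * (Nat.lcm p.2 q.2 / q.2) = p.2 := by
    obtain ⟨c, hc⟩ := Nat.dvd_lcm_right p.2 q.2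
    rw [hc, Nat.mul_div_cancel_left _ hq]
    rw [hc] at h0
    refine Nat.eq_of_mul_eq_mul_left hq ?_
    rw [mul_comm q.2 p.2, ← h0]; ring
  refine ⟨?_, h0⟩
  unfold cmb
  simp only
  have h1' : ((Nat.gcd p.2 q.2 : ℕ) : ℤ) * ((Nat.lcm p.2 q.2 / p.2 : ℕ) : ℤ) = (q.2 : ℤ) := by
    exact_mod_cast h1
  have h2' : ((Nat.gcd p.2 q.2 : ℕ) : ℤ) * ((Nat.lcm p.2 q.2 / q.2 : ℕ) : ℤ) = (p.2 : ℤ) := by
    exact_mod_cast h2
  calc ((Nat.gcd p.2 q.2 : ℕ) : ℤ) * (c * p.1 * ((Nat.lcm p.2 q.2 / p.2 : ℕ) : ℤ) +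
        q.1 * ((Nat.lcm p.2 q.2 / q.2 : ℕ) : ℤ))
      = c * p.1 * (((Nat.gcd p.2 q.2 : ℕ) : ℤ) * ((Nat.lcm p.2 q.2 / p.2 : ℕ) : ℤ)) +
        (((Nat.gcd p.2 q.2 : ℕ) : ℤ) * ((Nat.lcm p.2 q.2 / q.2 : ℕ) : ℤ)) * q.1 := by ring
    _ = _ := by rw [h1', h2']

theorem sb_main (r : ℕ) : ∀ {T : Type*} {S : Fin (r + 1) → Set (ℤ × ℕ)}
    (_ : ∀ i, ∀ p ∈ S i, 0 < p.2) (w : (Fin (r + 1) → ℕ) → T → R)
    (_ : ∀ i, RatF u (S i) (fun x : (Fin (r + 1) → ℕ) × T =>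
      PowerSeries.mk fun m => w (Function.update x.1 i m) x.2))
    (a b : Fin (r + 1) → ℕ) (_ : ∀ i, 0 < a i),
    RatF u {q | ∃ p : Fin (r + 1) → ℤ × ℕ, (∀ i, p i ∈ S i) ∧ q = cmbN a p}
      (fun t => PowerSeries.mk fun n => w (fun i => a i * n + b i) t) := by
  induction r with
  | zero =>
    intro T S hS w h a b ha
    have h1 := ((h 0).comp (fun t : T => ((fun _ => 0 : Fin 1 → ℕ), t))).sect (ha 0) (b 0)
    have h2 := h1.mono (S' := {q | ∃ p : Fin 1 → ℤ × ℕ, (∀ i, p i ∈ S i) ∧ q = cmbN a p}) ?_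
    · refine h2.congr fun t => ?_
      ext n
      rw [PowerSeries.coeff_mk, PowerSeries.coeff_mk, PowerSeries.coeff_mk]
      congr 1
      funext i
      rw [Fin.fin_one_eq_zero i, Function.update_self]
    · rintro q ⟨p, hp, rfl⟩
      refine ⟨fun _ => p, fun i => by rw [Fin.fin_one_eq_zero i]; exact hp, ?_⟩
      simp [cmbN]
  | succ r ih =>
    intro T S hS w h a b ha
    have h0 := ((h 0).comp (fun x : ℕ × T =>
      ((Fin.cons 0 (fun i => a i.succ * x.1 + b i.succ) : Fin (r + 2) → ℕ), x.2))).sect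
        (ha 0) (b 0)
    have hI := ih (T := ℕ × T) (S := fun i => S i.succ) (fun i p hp => hS i.succ p hp)
      (fun x y => w (Fin.cons y.1 x) y.2) (fun i => by
        refine ((h i.succ).comp (fun x : (Fin (r + 1) → ℕ) × (ℕ × T) =>
          ((Fin.cons x.2.1 x.1 : Fin (r + 2) → ℕ), x.2.2))).congr fun x => ?_
        ext n
        rw [PowerSeries.coeff_mk, PowerSeries.coeff_mk, Fin.cons_update])
      (fun i => a i.succ) (fun i => b i.succ) (fun i => ha i.succ)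
    have hI' := hI.comp (fun x : ℕ × T => (a 0 * x.1 + b 0, x.2))
    have hpos : ∀ p : Fin (r + 1) → ℤ × ℕ, (∀ i, p i ∈ S i.succ) →
        0 < (cmbN (fun i => a i.succ) p).2 := by
      intro p hp
      show 0 < ∏ i, (p i).2
      exact Finset.prod_pos fun i _ => hS i.succ _ (hp i)
    have hH := RatF.hadamard (u := u)
      (S := (fun p : ℤ × ℕ => ((a 0 : ℤ) * p.1, p.2)) '' S 0)
      (S' := {q | ∃ p : Fin (r + 1) → ℤ × ℕ, (∀ i, p i ∈ S i.succ) ∧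
        q = cmbN (fun i => a i.succ) p})
      (by rintro _ ⟨p, hp, rfl⟩; exact hS 0 p hp)
      (by rintro _ ⟨p, hp, rfl⟩; exact hpos p hp)
      (fun i j t => w (Fin.cons (a 0 * i + b 0) (fun l => a l.succ * j + b l.succ)) t)
      (h0.congr fun x => by
        ext n
        rw [PowerSeries.coeff_mk, PowerSeries.coeff_mk, PowerSeries.coeff_mk,
          Fin.update_cons_zero]) hI'
    have hM := hH.of_multiple (S' := {q | ∃ p : Fin (r + 2) → ℤ × ℕ, (∀ i, p i ∈ S i) ∧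
      q = cmbN a p}) ?_
    · refine hM.congr fun t => ?_
      ext n
      rw [PowerSeries.coeff_mk, PowerSeries.coeff_mk]
      congr 1
      funext i
      refine Fin.cases ?_ (fun i => ?_) i
      · rw [Fin.cons_zero]
      · rw [Fin.cons_succ]
    · rintro _ ⟨_, ⟨p0, hp0, rfl⟩, _, ⟨p, hp, rfl⟩, rfl⟩
      have hb := sb_mul (a 0 : ℤ) p0 (cmbN (fun i => a i.succ) p) (hS 0 p0 hp0) (hpos p hp)
      refine ⟨Nat.gcd p0.2 (cmbN (fun i => a i.succ) p).2,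
        Nat.gcd_pos_of_pos_left _ (hS 0 p0 hp0), Fin.cons p0 p, ?_, ?_⟩
      · intro i
        refine Fin.cases ?_ (fun i => ?_) i
        · rw [Fin.cons_zero]; exact hp0
        · rw [Fin.cons_succ]; exact hp i
      · rw [cmbN_succ a (Fin.cons p0 p)]
        simp only [Fin.cons_zero, Fin.cons_succ]
        exact Prod.ext hb.1 hb.2

/-- the diagonal `n ↦ w(a_1 n + b_1, …, a_r n + b_r)` of a multiple sequence which is rational in each
variable, uniformly in the other ones -/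
theorem RatF.diagN {r : ℕ} (hr : 0 < r) {S : Fin r → Set (ℤ × ℕ)}
    (hS : ∀ i, ∀ p ∈ S i, 0 < p.2) (w : (Fin r → ℕ) → T → R)
    (h : ∀ i, RatF u (S i) (fun x : (Fin r → ℕ) × T =>
      PowerSeries.mk fun m => w (Function.update x.1 i m) x.2))
    (a b : Fin r → ℕ) (ha : ∀ i, 0 < a i) :
    RatF u {q | ∃ p : Fin r → ℤ × ℕ, (∀ i, p i ∈ S i) ∧ q = cmbN a p}
      (fun t => PowerSeries.mk fun n => w (fun i => a i * n + b i) t) := by
  obtain ⟨s, rfl⟩ : ∃ s, r = s + 1 := ⟨r - 1, by omega⟩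
  exact sb_main s hS w h a b ha

end SB

end Pool.Agent.H75.Mono
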