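import Pool.Agent.H75.Mono.UD
import Pool.Agent.H75.Mono.UE
import Pool.Agent.H75.Mono.SB
import Pool.Agent.H75.Mono.ZE

/-! # ROF2, module UF: compositions -/

set_option autoImplicit false

namespace Pool.Agent.H75.Mono

open MvPolynomial Pool.Agent.H39.MonoR

section UF

variable {k : Type} [Field k] [Algebra k ℂ] {r : ℕ} {τ : Fin r → Type} [∀ i, Finite (τ i)]

/-- the test `{(x, p) : G(p) = c(x)`, `p_i = 0` if `n` does not divide `e w_i}` -/
def Test.gt (t : Test k) (G : MvPolynomial (Fin r) k) (w : Fin r → ℕ) (n e : ℕ) : TestN k r :=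
  ⟨t.E × (Fin r → ℂ), {x | x.1 ∈ t.W ∧ (∀ i, ¬ n ∣ e * w i → x.2 i = 0) ∧ aeval x.2 G = t.c x.1},
    (t.cW.mem PMap.fst).and ((ICons.forall_fin fun i => by
      by_cases h : n ∣ e * w i
      · have : {x : t.E × (Fin r → ℂ) | ¬ n ∣ e * w i → x.2 i = 0} = Set.univ := by
          ext x; simp [h]
        rw [this]; exact ICons.univ
      · have : {x : t.E × (Fin r → ℂ) | ¬ n ∣ e * w i → x.2 i = 0} =
            {x : t.E × (Fin r → ℂ) | x.2 i = 0} := by
          ext x; simp [h]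
        rw [this]; exact ICons.eq ((PFun.apply i).comp PMap.snd) PFun.zero).and
      (ICons.eq (PFun.aeval' PMap.snd G) (t.pf.comp PMap.fst))),
    fun x => x.2, PMap.snd⟩

theorem uf_floor {n d v : ℕ} (hn : 0 < n) (hv : v < n) : d * v / n < d + 1 := by
  rw [Nat.div_lt_iff_lt_mul hn]
  have : d * v ≤ d * n := Nat.mul_le_mul_left d hv.le
  nlinarith

theorem uf_dvd {n d v : ℕ} : n ∣ d * v ↔ n ∣ (d % n) * v := by
  have h : d * v ≡ (d % n) * v [MOD n] := Nat.ModEq.mul_right v (Nat.mod_modEq d n).symm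
  exact (h.dvd_iff (dvd_refl n))

theorem gt_eq {w : Fin r → ℕ} {n : ℕ} (G : MvPolynomial (Fin r) k)
    (hw : ∀ i, 0 < w i ∧ w i < n) (f : ∀ i, MvPolynomial (τ i) k) (d : ℕ) (t : Test k) :
    mo k {x : ((Σ i, τ i) × Fin (d + 1) → ℂ) × t.E | x.2 ∈ t.W ∧ Om w n d (us f x.1) ∧
        aeval (pt w n d (us f x.1)) G = t.c x.2} *
          ↑(Lu k ^ (-((Nat.card (Σ i, τ i) * d : ℕ) : ℤ))) =
    zn f (fun i => d * w i / n) (t.gt G w n (d % n)) := by
  have hn : ∀ i : Fin r, 0 < n := fun i => lt_trans (hw i).1 (hw i).2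
  have hOm : ICons k {x : ((Σ i, τ i) × Fin (d + 1) → ℂ) × t.E | Om w n d (us f x.1)} := by
    rcases Nat.eq_zero_or_pos n with h0 | h0
    · have : {x : ((Σ i, τ i) × Fin (d + 1) → ℂ) × t.E | Om w n d (us f x.1)} = Set.univ := by
        ext x
        simp only [Set.mem_univ, iff_true, Set.mem_ofPred_eq]
        intro i
        have := hn i
        omega
      rw [this]; exact ICons.univ
    · exact ICons.om f PMap.fst w h0 d
  have hA : ICons k {x : ((Σ i, τ i) × Fin (d + 1) → ℂ) × t.E | x.2 ∈ t.W ∧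
      Om w n d (us f x.1) ∧ aeval (pt w n d (us f x.1)) G = t.c x.2} :=
    (t.cW.mem PMap.snd).and (hOm.and
      (ICons.eq (PFun.aeval' (PMap.pt f PMap.fst w n d) G) (t.pf.comp PMap.snd)))
  have hB : ICons k {x : ((Σ i, τ i) × Fin (d + 1) → ℂ) × (t.gt G w n (d % n)).E |
      x.2 ∈ (t.gt G w n (d % n)).W ∧
      ∀ i, Hit (f i) (d * w i / n) (spi i x.1) ((t.gt G w n (d % n)).c x.2 i)} :=
    ((t.gt G w n (d % n)).cW.mem PMap.snd).and (ICons.forall_fin fun i =>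
      ICons.hit _ (f i) ((PMap.spi i).comp PMap.fst)
        ((PFun.apply i).comp (PMap.comp (t.gt G w n (d % n)).pf PMap.snd)))
  have hg : PMap k (fun x : ((Σ i, τ i) × Fin (d + 1) → ℂ) × t.E =>
      (x.1, ((x.2, pt w n d (us f x.1)) : t.E × (Fin r → ℂ)))) :=
    PMap.fst.prodMk (PMap.snd.prodMk (PMap.pt f PMap.fst w n d))
  have key := mo_bij hA hB hg ⟨?_, ?_, ?_⟩
  · rw [key, mo_zn f (fun i => d * w i / n) (t.gt G w n (d % n)) (M := d + 1)
      (fun i => uf_floor (hn i) (hw i).2) (Nat.succ_pos d), mul_comm, ← mul_assoc,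
      ← Units.val_mul, ← zpow_add, Nat.add_sub_cancel, neg_add_cancel, zpow_zero, Units.val_one,
      one_mul]
  · rintro ⟨ψ, x⟩ ⟨h1, h2, h3⟩
    refine ⟨⟨h1, fun i hi => ?_, h3⟩, fun i => ?_⟩
    · show pt w n d (us f ψ) i = 0
      unfold pt
      rw [if_neg]
      rwa [uf_dvd]
    · rw [hit_iff]
      have hm := Nat.div_mul_le_self (d * w i) n
      refine ⟨fun l hl => h2 i l ?_, ?_⟩
      · have h4 : (l + 1) * n ≤ d * w i := (Nat.le_div_iff_mul_le (hn i)).1 hl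
        have := hn i
        nlinarith
      · show PowerSeries.coeff (d * w i / n) (us f ψ i) = pt w n d (us f ψ) i
        unfold pt
        split_ifs with hd
        · rfl
        · refine h2 i _ (lt_of_le_of_ne (by rw [mul_comm]; exact hm) fun h => hd ⟨_, h.symm⟩)
  · rintro ⟨ψ, x⟩ _ ⟨ψ', x'⟩ _ hxy
    exact Prod.ext (Prod.mk.inj hxy).1 (Prod.mk.inj (Prod.mk.inj hxy).2).1
  · rintro ⟨ψ, x, p⟩ ⟨⟨h1, h2, h3⟩, h4⟩
    have h4' : ∀ i, (∀ l, l < d * w i / n → PowerSeries.coeff l (us f ψ i) = 0) ∧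
        PowerSeries.coeff (d * w i / n) (us f ψ i) = p i := fun i => (hit_iff _ _ _ _).1 (h4 i)
    have hp : pt w n d (us f ψ) = p := by
      funext i
      unfold pt
      split_ifs with hd
      · exact (h4' i).2
      · rw [uf_dvd] at hd
        exact (h2 i hd).symm
    refine ⟨(ψ, x), ⟨h1, fun i l hl => ?_, ?_⟩, ?_⟩
    · rcases Nat.lt_or_ge l (d * w i / n) with h5 | h5
      · exact (h4' i).1 l h5
      · have h6 : l = d * w i / n := by
          refine le_antisymm ?_ h5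
          rw [Nat.le_div_iff_mul_le (hn i), mul_comm]
          exact hl.le
        rw [h6, (h4' i).2]
        refine h2 i ?_
        rw [← uf_dvd]
        intro hd
        rw [h6, Nat.mul_div_cancel' hd] at hl
        exact lt_irrefl _ hl
    · show aeval (pt w n d (us f ψ)) G = t.c x
      rw [hp]; exact h3
    · show (ψ, x, pt w n d (us f ψ)) = (ψ, x, p)
      rw [hp]

theorem Inv.cmp {w : Fin r → ℕ} {n : ℕ} {G : MvPolynomial (Fin r) k} (hr : 0 < r)
    (hw : ∀ i, 0 < w i ∧ w i < n) (hG : IsWeightedHomogeneous w G n)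
    {f : ∀ i, MvPolynomial (τ i) k} (hf : ∀ i, QH (f i))
    {B : Finset (Fin r)} (hB : ∀ i ∈ B, ∃ x, f i = X x) (hI : Isol G B)
    {S : Fin r → Set (ℤ × ℕ)} (hS : ∀ i, ∀ p ∈ S i, 0 < p.2) (hZ : ∀ i, ZRat (f i) (S i)) :
    Inv (Mono.cmp G f) {q | ∃ p : Fin r → ℤ × ℕ, (∀ i, p i ∈ S i) ∧ q = scl n (cmbN w p)} := by
  have hn : 0 < n := lt_trans (hw ⟨0, hr⟩).1 (hw ⟨0, hr⟩).2
  obtain ⟨κ, hκ⟩ := zt_cmp hw hn hG hf hB hI
  refine ⟨κ, ?_⟩
  have h1 : RatF (Lu k) (scl n '' {q | ∃ p : Fin r → ℤ × ℕ, (∀ i, p i ∈ S i) ∧ q = cmbN w p})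
      (fun t : Test k => PowerSeries.mk fun d => zn f (fun i => d * w i / n)
        (t.gt G w n (d % n))) := by
    refine RatF.interleave hn fun e he => ?_
    have h2 := (RatF.diagN hr hS (fun x (t : TestN k r) => zn f x t)
      (fun i => zn_rat f i (hZ i)) w (fun i => e * w i / n) (fun i => (hw i).1)).comp
        (fun t : Test k => t.gt G w n e)
    refine h2.congr fun t => ?_
    ext j
    simp only [PowerSeries.coeff_mk]
    rw [Nat.mul_add_mod, Nat.mod_eq_of_lt he]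
    congr 1
    funext i
    rw [add_mul, mul_assoc, Nat.mul_add_div hn, mul_comm j]
  have e1 : scl n '' {q | ∃ p : Fin r → ℤ × ℕ, (∀ i, p i ∈ S i) ∧ q = cmbN w p} =
      {q | ∃ p : Fin r → ℤ × ℕ, (∀ i, p i ∈ S i) ∧ q = scl n (cmbN w p)} := by
    ext q
    constructor
    · rintro ⟨_, ⟨p, hp, rfl⟩, rfl⟩
      exact ⟨p, hp, rfl⟩
    · rintro ⟨p, hp, rfl⟩
      exact ⟨_, ⟨p, hp, rfl⟩, rfl⟩
  rw [e1] at h1
  refine h1.congr fun t => ?_
  ext d
  rw [PowerSeries.coeff_mk, PowerSeries.coeff_mk, hκ, add_sub_cancel_right, gt_eq G hw f d t]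

/-- weighted homogeneity of compositions -/
theorem QH.cmp {w : Fin r → ℕ} {n : ℕ} {G : MvPolynomial (Fin r) k} (hn : 0 < n)
    (hG : IsWeightedHomogeneous w G n) {f : ∀ i, MvPolynomial (τ i) k} (hf : ∀ i, QH (f i)) :
    QH (Mono.cmp G f) := by
  classical
  choose v N hN hv using hf
  refine ⟨fun x => (w x.1 * ∏ j ∈ Finset.univ.erase x.1, N j) * v x.1 x.2, n * ∏ j, N j,
    Nat.mul_pos hn (Finset.prod_pos fun i _ => hN i), ?_⟩
  have h1 : ∀ i, IsWeightedHomogeneous (fun x : Σ i, τ i =>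
      (w x.1 * ∏ j ∈ Finset.univ.erase x.1, N j) * v x.1 x.2)
      (rename (Sigma.mk i) (f i)) (w i * ∏ j, N j) := by
    intro i
    have h2 := QH_rename (hv i) (Sigma.mk i) (fun x : Σ i, τ i =>
      (w x.1 * ∏ j ∈ Finset.univ.erase x.1, N j) * v x.1 x.2)
      (w i * ∏ j ∈ Finset.univ.erase i, N j) (fun x => rfl)
    rwa [mul_assoc, Finset.prod_erase_mul _ _ (Finset.mem_univ i)] at h2
  unfold Mono.cmp
  rw [aeval_def, eval₂_eq']
  refine IsWeightedHomogeneous.sum _ _ _ fun b hb => ?_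
  have h3 := hG (mem_support_iff.1 hb)
  have h4 := IsWeightedHomogeneous.prod Finset.univ
    (fun i => (rename (Sigma.mk i) (f i)) ^ (b i)) (fun i => b i • (w i * ∏ j, N j))
    (fun i _ => (h1 i).pow (b i))
  have h5 : ∑ i, b i • (w i * ∏ j, N j) = n * ∏ j, N j := by
    rw [← h3, Finsupp.weight_apply, Finsupp.sum_fintype _ _ (by intro i; simp), Finset.sum_mul]
    refine Finset.sum_congr rfl fun i _ => ?_
    rw [smul_eq_mul, smul_eq_mul, mul_assoc]
  rw [h5] at h4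
  exact h4.C_mul _

end UF

end Pool.Agent.H75.Mono
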