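import Pool.Agent.H75.Mono.BT

/-! # ROF, module BS: chains for sums in separate variables -/

set_option autoImplicit false
set_option linter.unusedSectionVars false

namespace Pool.Agent.H75.Mono

open MvPolynomial Pool.Agent.H39.MonoR TensorProduct

section BS

variable {k : Type} [Field k] [CharZero k] {σ τ : Type}

/-- `s (s + 1) ⋯ (s + j - 1)` -/
def rf (s : ℚ) (j : ℕ) : ℚ := ∏ i ∈ Finset.range j, (s + i)

theorem rf_zero (s : ℚ) : rf s 0 = 1 := by simp [rf]

theorem rf_succ (s : ℚ) (j : ℕ) : rf s (j + 1) = rf s j * (s + j) := by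
  unfold rf
  rw [Finset.prod_range_succ]

theorem rf_pos {s : ℚ} (hs : 0 < s) (j : ℕ) : 0 < rf s j :=
  Finset.prod_pos fun i _ => by positivity

/-- a tensor product of nonzero vectors is nonzero -/
theorem tmul_ne_zero'' {V W : Type} [AddCommGroup V] [Module k V] [AddCommGroup W] [Module k W]
    {v : V} {w : W} (hv : v ≠ 0) (hw : w ≠ 0) : v ⊗ₜ[k] w ≠ 0 := by
  intro h
  have h1 : ∃ φ : Module.Dual k V, φ v ≠ 0 := by
    by_contra hcon
    push Not at hcon
    exact hv ((Module.forall_dual_apply_eq_zero_iff k v).1 hcon)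
  have h2 : ∃ φ : Module.Dual k W, φ w ≠ 0 := by
    by_contra hcon
    push Not at hcon
    exact hw ((Module.forall_dual_apply_eq_zero_iff k w).1 hcon)
  obtain ⟨φ, hφ⟩ := h1
  obtain ⟨ψ, hψ⟩ := h2
  have h3 := congrArg (fun x => TensorProduct.lid k k (TensorProduct.map φ ψ x)) h
  simp only [TensorProduct.map_tmul, TensorProduct.lid_tmul, map_zero, smul_eq_mul] at h3
  exact mul_ne_zero hφ hψ h3

theorem pderiv_inl_rename_inr' (i : σ) (p : MvPolynomial τ k) :
    pderiv (Sum.inl i) (rename (Sum.inr : τ → σ ⊕ τ) p) = 0 := by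
  induction p using MvPolynomial.induction_on with
  | C a => simp
  | add p q hp hq => simp [hp, hq]
  | mul_X p j hp =>
    rw [map_mul, Derivation.leibniz, hp, rename_X]
    have : pderiv (Sum.inl i) (X (Sum.inr j) : MvPolynomial (σ ⊕ τ) k) = 0 := by
      rw [pderiv_X_of_ne]
      simp
    rw [this]
    simp

theorem pderiv_inr_rename_inl' (i : τ) (p : MvPolynomial σ k) :
    pderiv (Sum.inr i) (rename (Sum.inl : σ → σ ⊕ τ) p) = 0 := by
  induction p using MvPolynomial.induction_on with
  | C a => simp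
  | add p q hp hq => simp [hp, hq]
  | mul_X p j hp =>
    rw [map_mul, Derivation.leibniz, hp, rename_X]
    have : pderiv (Sum.inr i) (X (Sum.inl j) : MvPolynomial (σ ⊕ τ) k) = 0 := by
      rw [pderiv_X_of_ne]
      simp
    rw [this]
    simp

/-- the coefficient of `e_b ⊗ e'_c` in the element with index `b + c` -/
def wt (s s' : ℚ) (b c : ℕ) : ℚ := rf s b * rf s' c / rf (s + s') (b + c)

/-- the elements of the new chain -/
noncomputable def esum {V W : Type} [AddCommGroup V] [Module k V] [AddCommGroup W] [Module k W]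
    (s s' : ℚ) (e : ℕ → V) (e' : ℕ → W) (j : ℕ) : V ⊗[k] W :=
  ∑ x ∈ Finset.HasAntidiagonal.antidiagonal j, ((wt s s' x.1 x.2 : ℚ) : k) • (e x.1 ⊗ₜ[k] e' x.2)

theorem SRs.add {g : MvPolynomial σ k} {h : MvPolynomial τ k} {s s' : ℚ} (hg : SRs k g s)
    (hh : SRs k h s') (hs : 0 < s) (hs' : 0 < s') : SRs k (sadd g h) (s + s') := by
  obtain ⟨c, hc, hcd⟩ := hg
  obtain ⟨c', hc', hcd'⟩ := hh
  obtain ⟨R, Δ, hΔ, hl, hr, hDl, hDr⟩ := exists_tensor c.ρ c.D c.leib c'.ρ c'.D c'.leib
  have hss : 0 < s + s' := add_pos hs hs'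
  have hdl : ∀ i, pderiv (Sum.inl i) (sadd g h) = rename Sum.inl (pderiv i g) := by
    intro i
    unfold sadd
    rw [map_add, pderiv_inl_rename_inr', add_zero]
    exact pderiv_rename Sum.inl_injective i g
  have hdr : ∀ i, pderiv (Sum.inr i) (sadd g h) = rename Sum.inr (pderiv i h) := by
    intro i
    unfold sadd
    rw [map_add, pderiv_inr_rename_inl', zero_add]
    exact pderiv_rename Sum.inr_injective i h
  -- the weights
  have w0 : ∀ j : ℕ, rf (s + s') j ≠ 0 := fun j => (rf_pos hss j).ne'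
  have wl : ∀ b d : ℕ, wt s s' (b + 1) d * (s + s' + (b + d : ℕ)) = wt s s' b d * (s + b) := by
    intro b d
    have h1 := w0 (b + d)
    have h2 : s + s' + ((b + d : ℕ) : ℚ) ≠ 0 := by positivity
    unfold wt
    have h3 : b + 1 + d = b + d + 1 := by ring
    rw [h3, rf_succ, rf_succ (s + s')]
    field_simp
  have wr : ∀ b d : ℕ, wt s s' b (d + 1) * (s + s' + (b + d : ℕ)) = wt s s' b d * (s' + d) := by
    intro b d
    have h1 := w0 (b + d)
    have h2 : s + s' + ((b + d : ℕ) : ℚ) ≠ 0 := by positivity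
    unfold wt
    have h3 : b + (d + 1) = b + d + 1 := by ring
    rw [h3, rf_succ, rf_succ (s + s')]
    field_simp
  have wadd : ∀ b d : ℕ, wt s s' (b + 1) d + wt s s' b (d + 1) = wt s s' b d := by
    intro b d
    have h2 : s + s' + ((b + d : ℕ) : ℚ) ≠ 0 := by positivity
    have h3 := wl b d
    have h4 := wr b d
    have h5 : (wt s s' (b + 1) d + wt s s' b (d + 1)) * (s + s' + ((b + d : ℕ) : ℚ)) =
        wt s s' b d * (s + s' + ((b + d : ℕ) : ℚ)) := by
      rw [add_mul, h3, h4]
      push_cast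
      ring
    exact mul_right_cancel₀ h2 h5
  -- the action on the elements
  have al : ∀ (p : MvPolynomial σ k), c.ρ p (c.e 0) = 0 → ∀ j : ℕ,
      R (rename Sum.inl p) (esum s s' c.e c'.e (j + 1)) =
        ∑ x ∈ Finset.HasAntidiagonal.antidiagonal j,
          ((wt s s' (x.1 + 1) x.2 : ℚ) : k) • (c.ρ p (c.e (x.1 + 1)) ⊗ₜ[k] c'.e x.2) := by
    intro p hp j
    unfold esum
    rw [Finset.Nat.antidiagonal_succ, map_sum, Finset.sum_cons, Finset.sum_map]
    rw [map_smul, hl, hp, TensorProduct.zero_tmul, smul_zero, zero_add]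
    refine Finset.sum_congr rfl fun x _ => ?_
    rw [map_smul, hl]
    rfl
  have ar : ∀ (p : MvPolynomial τ k), c'.ρ p (c'.e 0) = 0 → ∀ j : ℕ,
      R (rename Sum.inr p) (esum s s' c.e c'.e (j + 1)) =
        ∑ x ∈ Finset.HasAntidiagonal.antidiagonal j,
          ((wt s s' x.1 (x.2 + 1) : ℚ) : k) • (c.e x.1 ⊗ₜ[k] c'.ρ p (c'.e (x.2 + 1))) := by
    intro p hp j
    unfold esum
    rw [Finset.Nat.antidiagonal_succ', map_sum, Finset.sum_cons, Finset.sum_map]
    rw [map_smul, hr, hp, TensorProduct.tmul_zero, smul_zero, zero_add]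
    refine Finset.sum_congr rfl fun x _ => ?_
    rw [map_smul, hr]
    rfl
  have e0 : esum s s' c.e c'.e 0 = c.e 0 ⊗ₜ[k] c'.e 0 := by
    unfold esum
    rw [Finset.Nat.antidiagonal_zero, Finset.sum_singleton]
    have : wt s s' 0 0 = 1 := by
      unfold wt
      simp [rf_zero]
    rw [this, Rat.cast_one, one_smul]
  refine ⟨{ V := c.V ⊗[k] c'.V
            ρ := R
            D := Δ
            leib := hΔ
            e := esum s s' c.e c'.e
            mul := fun j => ?_
            der := fun i j => ?_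
            ne := by rw [e0]; exact tmul_ne_zero'' c.ne c'.ne }, ?_, fun i => ?_⟩
  · unfold sadd
    rw [map_add, LinearMap.add_apply, al g hc, ar h hc', ← Finset.sum_add_distrib]
    unfold esum
    refine Finset.sum_congr rfl fun x _ => ?_
    rw [c.mul, c'.mul, ← add_smul, ← Rat.cast_add, wadd]
  · rcases i with i | i
    · rw [hdl, al (pderiv i g) (hcd i), Finset.smul_sum]
      unfold esum
      rw [map_sum]
      refine Finset.sum_congr rfl fun x hx => ?_
      rw [Finset.HasAntidiagonal.mem_antidiagonal] at hx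
      rw [map_smul, hDl, c.der, ← TensorProduct.smul_tmul', smul_smul, smul_smul]
      congr 1
      have h1 := wl x.1 x.2
      rw [hx] at h1
      have h2 : ((wt s s' (x.1 + 1) x.2 * (s + s' + (j : ℕ)) : ℚ) : k) =
          ((wt s s' x.1 x.2 * (s + x.1) : ℚ) : k) := by rw [h1]
      push_cast at h2 ⊢
      linear_combination h2
    · rw [hdr, ar (pderiv i h) (hcd' i), Finset.smul_sum]
      unfold esum
      rw [map_sum]
      refine Finset.sum_congr rfl fun x hx => ?_
      rw [Finset.HasAntidiagonal.mem_antidiagonal] at hx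
      rw [map_smul, hDr, c'.der, TensorProduct.tmul_smul, smul_smul, smul_smul]
      congr 1
      have h1 := wr x.1 x.2
      rw [hx] at h1
      have h2 : ((wt s s' x.1 (x.2 + 1) * (s + s' + (j : ℕ)) : ℚ) : k) =
          ((wt s s' x.1 x.2 * (s' + x.2) : ℚ) : k) := by rw [h1]
      push_cast at h2 ⊢
      linear_combination h2
  · change R (sadd g h) (esum s s' c.e c'.e 0) = 0
    rw [e0]
    unfold sadd
    rw [map_add, LinearMap.add_apply, hl, hr, hc, hc', TensorProduct.zero_tmul,
      TensorProduct.tmul_zero, add_zero]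
  · change R (pderiv i (sadd g h)) (esum s s' c.e c'.e 0) = 0
    rw [e0]
    rcases i with i | i
    · rw [hdl, hl, hcd, TensorProduct.zero_tmul]
    · rw [hdr, hr, hcd', TensorProduct.tmul_zero]

end BS

end Pool.Agent.H75.Mono
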