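import Pool.Agent.H75.Mono.BT
import Pool.Agent.H75.Mono.BF

/-! # ROF, module BP: chains for products in separate variables -/

set_option autoImplicit false
set_option linter.unusedSectionVars false

namespace Pool.Agent.H75.Mono

open MvPolynomial Pool.Agent.H39.MonoR TensorProduct

section BP

variable {k : Type} [Field k] [CharZero k] {σ τ : Type}

omit [CharZero k] in
/-- a tensor product of nonzero vectors is nonzero -/
theorem tmul_ne_zero' {V W : Type} [AddCommGroup V] [Module k V] [AddCommGroup W] [Module k W]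
    {v : V} {w : W} (hv : v ≠ 0) (hw : w ≠ 0) : v ⊗ₜ[k] w ≠ 0 := by
  intro h
  have h1 : ∃ φ : Module.Dual k V, φ v ≠ 0 := by
    by_contra hcon
    push Not at hcon
    exact hv ((Module.forall_dual_apply_eq_zero_iff k v).1 hcon)
  have h2 : ∃ φ : Module.Dual k W, φ w ≠ 0 := by
    by_contra hcon
    push Not at hcon
    exact hw ((Module.forall_dual_apply_eq_zero_iff k w).1 hcon)
  obtain ⟨φ, hφ⟩ := h1
  obtain ⟨ψ, hψ⟩ := h2
  have h3 := congrArg (fun x => TensorProduct.lid k k (TensorProduct.map φ ψ x)) h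
  simp only [TensorProduct.map_tmul, TensorProduct.lid_tmul, map_zero, smul_eq_mul] at h3
  exact mul_ne_zero hφ hψ h3

omit [CharZero k] in
theorem pderiv_inl_rename_inr (i : σ) (p : MvPolynomial τ k) :
    pderiv (Sum.inl i) (rename (Sum.inr : τ → σ ⊕ τ) p) = 0 := by
  induction p using MvPolynomial.induction_on with
  | C a => simp
  | add p q hp hq => simp [hp, hq]
  | mul_X p j hp =>
    rw [map_mul, Derivation.leibniz, hp, rename_X]
    have : pderiv (Sum.inl i) (X (Sum.inr j) : MvPolynomial (σ ⊕ τ) k) = 0 := by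
      rw [pderiv_X_of_ne]
      simp
    rw [this]
    simp

omit [CharZero k] in
theorem pderiv_inr_rename_inl (i : τ) (p : MvPolynomial σ k) :
    pderiv (Sum.inr i) (rename (Sum.inl : σ → σ ⊕ τ) p) = 0 := by
  induction p using MvPolynomial.induction_on with
  | C a => simp
  | add p q hp hq => simp [hp, hq]
  | mul_X p j hp =>
    rw [map_mul, Derivation.leibniz, hp, rename_X]
    have : pderiv (Sum.inr i) (X (Sum.inl j) : MvPolynomial (σ ⊕ τ) k) = 0 := by
      rw [pderiv_X_of_ne]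
      simp
    rw [this]
    simp

omit [CharZero k] in
theorem pderiv_inl_rename_inl (i : σ) (p : MvPolynomial σ k) :
    pderiv (Sum.inl i) (rename (Sum.inl : σ → σ ⊕ τ) p) = rename Sum.inl (pderiv i p) :=
  pderiv_rename Sum.inl_injective i p

omit [CharZero k] in
theorem pderiv_inr_rename_inr (i : τ) (p : MvPolynomial τ k) :
    pderiv (Sum.inr i) (rename (Sum.inr : τ → σ ⊕ τ) p) = rename Sum.inr (pderiv i p) :=
  pderiv_rename Sum.inr_injective i p

omit [CharZero k] in
/-- the product of chains with the same exponent, all properties -/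
theorem exists_mul' {g : MvPolynomial σ k} {h : MvPolynomial τ k} {s : ℚ} (c : Chain k g s)
    (c' : Chain k h s) : ∃ b : Chain k (smul' g h) s,
      (c.ρ g (c.e 0) = 0 → b.ρ (smul' g h) (b.e 0) = 0) ∧
      (c'.ρ h (c'.e 0) = 0 → b.ρ (smul' g h) (b.e 0) = 0) ∧
      (c.ρ g (c.e 0) = 0 → c'.ρ h (c'.e 0) = 0 → ∀ i, b.ρ (pderiv i (smul' g h)) (b.e 0) = 0) := by
  obtain ⟨R, Δ, hΔ, hl, hr, hDl, hDr⟩ := exists_tensor c.ρ c.D c.leib c'.ρ c'.D c'.leib
  have hmul : ∀ (p : MvPolynomial σ k) (q : MvPolynomial τ k) (v : c.V) (w : c'.V),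
      R (rename Sum.inl p * rename Sum.inr q) (v ⊗ₜ[k] w) = c.ρ p v ⊗ₜ[k] c'.ρ q w := by
    intro p q v w
    rw [map_mul, Module.End.mul_apply, hr, hl]
  have hdl : ∀ i, pderiv (Sum.inl i) (smul' g h) =
      rename Sum.inl (pderiv i g) * rename Sum.inr h := by
    intro i
    unfold smul'
    rw [Derivation.leibniz, pderiv_inl_rename_inr, pderiv_inl_rename_inl]
    simp only [smul_eq_mul]
    ring
  have hdr : ∀ i, pderiv (Sum.inr i) (smul' g h) =
      rename Sum.inl g * rename Sum.inr (pderiv i h) := by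
    intro i
    unfold smul'
    rw [Derivation.leibniz, pderiv_inr_rename_inl, pderiv_inr_rename_inr]
    simp only [smul_eq_mul]
    ring
  refine ⟨{ V := c.V ⊗[k] c'.V
            ρ := R
            D := Δ
            leib := hΔ
            e := fun j => c.e j ⊗ₜ[k] c'.e j
            mul := fun j => ?_
            der := fun i j => ?_
            ne := tmul_ne_zero' c.ne c'.ne }, fun h1 => ?_, fun h1 => ?_, fun h1 h2 i => ?_⟩
  · unfold smul'
    rw [hmul, c.mul, c'.mul]
  · rcases i with i | i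
    · rw [hDl, hdl, hmul, c.der, c'.mul, TensorProduct.smul_tmul']
    · rw [hDr, hdr, hmul, c'.der, c.mul, TensorProduct.tmul_smul]
  · unfold smul'
    change R _ (c.e 0 ⊗ₜ[k] c'.e 0) = 0
    rw [hmul, h1, TensorProduct.zero_tmul]
  · unfold smul'
    change R _ (c.e 0 ⊗ₜ[k] c'.e 0) = 0
    rw [hmul, h1, TensorProduct.tmul_zero]
  · change R _ (c.e 0 ⊗ₜ[k] c'.e 0) = 0
    rcases i with i | i
    · rw [hdl, hmul, h2, TensorProduct.tmul_zero]
    · rw [hdr, hmul, h1, TensorProduct.zero_tmul]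

/-- the product of chains with the same exponent -/
theorem exists_mul {g : MvPolynomial σ k} {h : MvPolynomial τ k} {s : ℚ} (c : Chain k g s)
    (c' : Chain k h s) : ∃ b : Chain k (smul' g h) s,
      (c.ρ g (c.e 0) = 0 → b.ρ (smul' g h) (b.e 0) = 0) ∧
      (c.ρ g (c.e 0) = 0 → c'.ρ h (c'.e 0) = 0 → ∀ i, b.ρ (pderiv i (smul' g h)) (b.e 0) = 0) :=
  let ⟨b, h1, _, h3⟩ := exists_mul' c c'
  ⟨b, h1, h3⟩

theorem SR.mul_left {g : MvPolynomial σ k} {s : ℚ} (hg : SR k g s) {h : MvPolynomial τ k}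
    (hh : h ≠ 0) : SR k (smul' g h) s := by
  obtain ⟨c, hc⟩ := hg
  obtain ⟨c'⟩ := exists_chain hh s
  obtain ⟨b, h1, _, _⟩ := exists_mul' c c'
  exact ⟨b, h1 hc⟩

theorem SR.mul_right {h : MvPolynomial τ k} {s : ℚ} (hh : SR k h s) {g : MvPolynomial σ k}
    (hg : g ≠ 0) : SR k (smul' g h) s := by
  obtain ⟨c', hc⟩ := hh
  obtain ⟨c⟩ := exists_chain hg s
  obtain ⟨b, _, h2, _⟩ := exists_mul' c c'
  exact ⟨b, h2 hc⟩

theorem SRs.mul_one {g : MvPolynomial σ k} {h : MvPolynomial τ k} (hg : SR k g 1)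
    (hh : SR k h 1) : SRs k (smul' g h) 1 := by
  obtain ⟨c, hc⟩ := hg
  obtain ⟨c', hc'⟩ := hh
  obtain ⟨b, h1, _, h3⟩ := exists_mul' c c'
  exact ⟨b, h1 hc, h3 hc hc'⟩

/-- renaming the variables by an injection -/
theorem SR.rename {f : MvPolynomial σ k} {s : ℚ} (h : SR k f s) (e : σ → τ)
    (he : Function.Injective e) : SR k (rename e f) s := by
  classical
  let E : σ ⊕ {x : τ // x ∉ Set.range e} ≃ τ :=
    (Equiv.sumCongr (Equiv.ofInjective e he) (Equiv.refl _)).trans
      (Equiv.Set.sumCompl (Set.range e))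
  have h1 : SR k (smul' f (1 : MvPolynomial {x : τ // x ∉ Set.range e} k)) s :=
    SR.mul_left h one_ne_zero
  have h2 := h1.equiv E
  have h3 : MvPolynomial.rename E (smul' f (1 : MvPolynomial {x : τ // x ∉ Set.range e} k)) =
      MvPolynomial.rename e f := by
    unfold smul'
    rw [map_one, _root_.mul_one, rename_rename]
    congr 1
  rwa [h3] at h2

end BP

end Pool.Agent.H75.Mono
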