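import Pool.Agent.H75.Mono.ZS

/-! # ROF2, module TA: weighted orders of families of power series -/

set_option autoImplicit false

namespace Pool.Agent.H75.Mono

open MvPolynomial

section TA

variable {k : Type} [Field k] [Algebra k ℂ] {ι : Type}

/-- `ord a_i ≥ m w_i / D` for all `i` -/
def Om (w : ι → ℕ) (D m : ℕ) (a : ι → PowerSeries ℂ) : Prop :=
  ∀ i l, D * l < m * w i → PowerSeries.coeff l (a i) = 0

/-- the coefficients of `a_i` of order `m w_i / D` (and `0` if this is not an integer) -/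
noncomputable def pt (w : ι → ℕ) (D m : ℕ) (a : ι → PowerSeries ℂ) : ι → ℂ :=
  fun i => if D ∣ m * w i then PowerSeries.coeff (m * w i / D) (a i) else 0

theorem om_zero (w : ι → ℕ) (D : ℕ) (a : ι → PowerSeries ℂ) : Om w D 0 a := by
  intro i l h
  simp at h

theorem om_succ_iff {w : ι → ℕ} {D : ℕ} (hD : 0 < D) (hw : ∀ i, 0 < w i) (hwD : ∀ i, w i ∣ D)
    (m : ℕ) (a : ι → PowerSeries ℂ) : Om w D (m + 1) a ↔ Om w D m a ∧ pt w D m a = 0 := by
  constructor
  · intro h
    refine ⟨fun i l hl => h i l (lt_of_lt_of_le hl (Nat.mul_le_mul_right _ (Nat.le_succ m))), ?_⟩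
    funext i
    unfold pt
    split_ifs with hd
    · refine h i _ ?_
      rw [Nat.mul_div_cancel' hd, Nat.add_mul, one_mul]
      have := hw i
      omega
    · rfl
  · rintro ⟨h, hp⟩ i l hl
    rcases Nat.lt_or_ge (D * l) (m * w i) with h1 | h1
    · exact h i l h1
    · obtain ⟨c, hc⟩ := hwD i
      have hwi := hw i
      have h2 : m ≤ c * l := by
        have : m * w i ≤ (c * l) * w i := by rw [hc] at h1; nlinarith
        exact Nat.le_of_mul_le_mul_right this hwi
      have h3 : c * l < m + 1 := by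
        have : (c * l) * w i < (m + 1) * w i := by rw [hc] at hl; nlinarith
        exact Nat.lt_of_mul_lt_mul_right this
      have h4 : c * l = m := by omega
      have h5 : D * l = m * w i := by rw [hc, ← h4]; ring
      have h6 := congrFun hp i
      unfold pt at h6
      rw [if_pos (h5 ▸ dvd_mul_right D l), ← h5, Nat.mul_div_cancel_left _ hD] at h6
      exact h6

/-- the scale does not matter -/
theorem om_scale {w : ι → ℕ} {D : ℕ} {c : ℕ} (hc : 0 < c) (m : ℕ) (a : ι → PowerSeries ℂ) :
    Om w (c * D) (c * m) a ↔ Om w D m a := by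
  unfold Om
  refine forall_congr' fun i => forall_congr' fun l => ?_
  rw [mul_assoc, mul_assoc, Nat.mul_lt_mul_left hc]

theorem pt_scale {w : ι → ℕ} {D : ℕ} {c : ℕ} (hc : 0 < c) (m : ℕ) (a : ι → PowerSeries ℂ) :
    pt w (c * D) (c * m) a = pt w D m a := by
  funext i
  unfold pt
  have e : c * m * w i = c * (m * w i) := by ring
  rw [e, Nat.mul_div_mul_left _ _ hc]
  have e2 : (c * D ∣ c * (m * w i)) ↔ (D ∣ m * w i) := Nat.mul_dvd_mul_iff_left hc
  by_cases h : D ∣ m * w i
  · rw [if_pos h, if_pos (e2.2 h)]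
  · rw [if_neg h, if_neg (fun h' => h (e2.1 h'))]

/-- substitution `t = s^D` -/
theorem om_expand {w : ι → ℕ} {D m : ℕ} (hD : 0 < D) {a : ι → PowerSeries ℂ} (h : Om w D m a) :
    ∃ b : ι → PowerSeries ℂ, (∀ i, PowerSeries.expand D hD.ne' (a i) =
      (PowerSeries.X ^ m) ^ w i * b i) ∧
      ∀ i, PowerSeries.constantCoeff (b i) = pt w D m a i := by
  have h1 : ∀ i, PowerSeries.X ^ (m * w i) ∣ PowerSeries.expand D hD.ne' (a i) := by
    intro i
    rw [PowerSeries.X_pow_dvd_iff]
    intro l hl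
    by_cases hd : D ∣ l
    · obtain ⟨q, rfl⟩ := hd
      rw [PowerSeries.coeff_expand_mul]
      exact h i q hl
    · exact PowerSeries.coeff_expand_of_not_dvd _ _ _ hd
  choose b hb using h1
  refine ⟨b, fun i => by rw [hb i, ← pow_mul], fun i => ?_⟩
  have h2 : PowerSeries.coeff (m * w i) (PowerSeries.expand D hD.ne' (a i)) =
      PowerSeries.constantCoeff (b i) := by
    have := PowerSeries.coeff_X_pow_mul (b i) (m * w i) 0
    rw [zero_add] at this
    rw [hb i, this, PowerSeries.coeff_zero_eq_constantCoeff_apply]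
  rw [← h2]
  unfold pt
  split_ifs with hd
  · obtain ⟨q, hq⟩ := hd
    rw [hq, PowerSeries.coeff_expand_mul, Nat.mul_div_cancel_left _ hD]
  · exact PowerSeries.coeff_expand_of_not_dvd _ _ _ hd

theorem expand_aeval {D : ℕ} (hD : D ≠ 0) (a : ι → PowerSeries ℂ) (P : MvPolynomial ι k) :
    PowerSeries.expand D hD (aeval a P) =
      aeval (fun i => PowerSeries.expand D hD (a i)) P := by
  have := comp_aeval (R := k) a ((PowerSeries.expand (R := ℂ) D hD).restrictScalars k)
  exact congrArg (fun φ => φ P) this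

theorem constantCoeff_aeval (a : ι → PowerSeries ℂ) (P : MvPolynomial ι k) :
    PowerSeries.constantCoeff (aeval a P) =
      aeval (fun i => PowerSeries.constantCoeff (a i)) P := by
  induction P using MvPolynomial.induction_on with
  | C c =>
    rw [aeval_C, aeval_C]
    rfl
  | add p q hp hq => rw [map_add, map_add, map_add, hp, hq]
  | mul_X p i hp => rw [map_mul, map_mul, map_mul, hp, aeval_X, aeval_X]

/-- `G(a)(s^D) = s^(mn) G(b)` -/
theorem expand_aeval_om {w : ι → ℕ} {D m n : ℕ} (hD : 0 < D) {P : MvPolynomial ι k}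
    (hP : IsWeightedHomogeneous w P n) {a b : ι → PowerSeries ℂ}
    (hb : ∀ i, PowerSeries.expand D hD.ne' (a i) = (PowerSeries.X ^ m) ^ w i * b i) :
    PowerSeries.expand D hD.ne' (aeval a P) = PowerSeries.X ^ (m * n) * aeval b P := by
  rw [expand_aeval, funext hb, aeval_scale hP, ← pow_mul]

/-- the order of a weighted homogeneous polynomial -/
theorem coeff_low {w : ι → ℕ} {D m n : ℕ} (hD : 0 < D) {P : MvPolynomial ι k}
    (hP : IsWeightedHomogeneous w P n) {a : ι → PowerSeries ℂ} (h : Om w D m a) {l : ℕ}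
    (hl : D * l < m * n) : PowerSeries.coeff l (aeval a P) = 0 := by
  obtain ⟨b, hb, -⟩ := om_expand hD h
  have h1 := expand_aeval_om hD hP hb
  rw [← PowerSeries.coeff_expand_mul D hD.ne', h1, PowerSeries.coeff_X_pow_mul', if_neg]
  omega

/-- the leading coefficient of a weighted homogeneous polynomial -/
theorem coeff_lead {w : ι → ℕ} {D m n : ℕ} (hD : 0 < D) {P : MvPolynomial ι k}
    (hP : IsWeightedHomogeneous w P n) {a : ι → PowerSeries ℂ} (h : Om w D m a) {l : ℕ}
    (hl : D * l = m * n) : PowerSeries.coeff l (aeval a P) = aeval (pt w D m a) P := by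
  obtain ⟨b, hb, hb0⟩ := om_expand hD h
  have h1 := expand_aeval_om hD hP hb
  rw [← PowerSeries.coeff_expand_mul D hD.ne', h1, PowerSeries.coeff_X_pow_mul',
    if_pos (le_of_eq hl.symm), hl, Nat.sub_self, PowerSeries.coeff_zero_eq_constantCoeff_apply,
    constantCoeff_aeval, funext hb0]

theorem dvd_of_ne {w : ι → ℕ} {D m n : ℕ} {P : MvPolynomial ι k}
    (hP : IsWeightedHomogeneous w P n) {a : ι → PowerSeries ℂ}
    (h : aeval (pt w D m a) P ≠ 0) : D ∣ m * n := by
  rw [aeval_def, eval₂_eq] at h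
  obtain ⟨d, hd, hne⟩ := Finset.exists_ne_zero_of_sum_ne_zero h
  have h1 := hP (mem_support_iff.1 hd)
  rw [Finsupp.weight_apply, Finsupp.sum] at h1
  rw [← h1, Finset.mul_sum]
  refine Finset.dvd_sum fun i hi => ?_
  have h2 : ∏ i ∈ d.support, pt w D m a i ^ d i ≠ 0 := fun h' => hne (by rw [h', mul_zero])
  have h3 := Finset.prod_ne_zero_iff.1 h2 i hi
  have h4 : pt w D m a i ≠ 0 := by
    intro h'
    rw [h', zero_pow (Finsupp.mem_support_iff.1 hi)] at h3
    exact h3 rfl
  unfold pt at h4
  by_cases hdv : D ∣ m * w i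
  · rw [smul_eq_mul]
    have e : m * (d i * w i) = d i * (m * w i) := by ring
    rw [e]
    exact hdv.mul_left _
  · rw [if_neg hdv] at h4
    exact absurd rfl h4

end TA

end Pool.Agent.H75.Mono
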