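import Pool.Agent.H75.Mono.TR
import Pool.Agent.H75.Mono.TA

/-! # ROF2, module UA: arcs in several groups of variables, compositions -/

set_option autoImplicit false

namespace Pool.Agent.H75.Mono

open MvPolynomial Pool.Agent.H39.MonoR

section UA

variable {k : Type} [Field k] [Algebra k ℂ] {E : Type} [Aff E] {r : ℕ} {τ : Fin r → Type}

/-- the composition `G(f_1, …, f_r)`, with `f_i` in separate variables -/
noncomputable def cmp (G : MvPolynomial (Fin r) k) (f : ∀ i, MvPolynomial (τ i) k) :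
    MvPolynomial (Σ i, τ i) k := aeval (fun i => rename (Sigma.mk i) (f i)) G

/-- the `i`-th part of an arc -/
def spi {M : ℕ} (i : Fin r) (ψ : (Σ i, τ i) × Fin M → ℂ) : τ i × Fin M → ℂ :=
  fun p => ψ (⟨i, p.1⟩, p.2)

/-- the power series `f_i(ψ_i(t))` -/
noncomputable def us {M : ℕ} (f : ∀ i, MvPolynomial (τ i) k) (ψ : (Σ i, τ i) × Fin M → ℂ) :
    Fin r → PowerSeries ℂ := fun i => arcEval k (spi i ψ) (f i)

/-- the arc with the `i`-th part replaced by `χ` -/
def upa {M : ℕ} (i : Fin r) (χ : τ i × Fin M → ℂ) (ψ : (Σ i, τ i) × Fin M → ℂ) :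
    (Σ i, τ i) × Fin M → ℂ :=
  fun p => if h : p.1.1 = i then χ (h ▸ p.1.2, p.2) else ψ p

theorem spi_upa {M : ℕ} (i : Fin r) (χ : τ i × Fin M → ℂ) (ψ : (Σ i, τ i) × Fin M → ℂ) :
    spi i (upa i χ ψ) = χ := by
  funext p
  simp [spi, upa]

theorem spi_upa_ne {M : ℕ} {i j : Fin r} (h : j ≠ i) (χ : τ i × Fin M → ℂ)
    (ψ : (Σ i, τ i) × Fin M → ℂ) : spi j (upa i χ ψ) = spi j ψ := by
  funext p
  simp [spi, upa, h]

theorem upa_upa {M : ℕ} (i : Fin r) (χ χ' : τ i × Fin M → ℂ) (ψ : (Σ i, τ i) × Fin M → ℂ) :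
    upa i χ (upa i χ' ψ) = upa i χ ψ := by
  funext p
  by_cases h : p.1.1 = i
  · simp only [upa, dif_pos h]
  · simp only [upa, dif_neg h]

theorem upa_self {M : ℕ} (i : Fin r) (ψ : (Σ i, τ i) × Fin M → ℂ) :
    upa i (spi i ψ) ψ = ψ := by
  funext p
  obtain ⟨⟨j, x⟩, l⟩ := p
  by_cases h : j = i
  · subst h
    simp [upa, spi]
  · simp [upa, h]

theorem us_upa {M : ℕ} (f : ∀ i, MvPolynomial (τ i) k) (i : Fin r) (χ : τ i × Fin M → ℂ)
    (ψ : (Σ i, τ i) × Fin M → ℂ) :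
    us f (upa i χ ψ) = Function.update (us f ψ) i (arcEval k χ (f i)) := by
  funext j
  by_cases h : j = i
  · subst h
    rw [Function.update_self]
    simp only [us, spi_upa]
  · rw [Function.update_of_ne h]
    simp only [us, spi_upa_ne h]

theorem arcEval_cmp {M : ℕ} (G : MvPolynomial (Fin r) k) (f : ∀ i, MvPolynomial (τ i) k)
    (ψ : (Σ i, τ i) × Fin M → ℂ) : arcEval k ψ (cmp G f) = aeval (us f ψ) G := by
  have h1 : arcEval k ψ (cmp G f) =
      aeval (fun i => arcEval k ψ (rename (Sigma.mk i) (f i))) G := by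
    unfold arcEval cmp
    have h2 := DFunLike.congr_fun (MvPolynomial.comp_aeval
      (fun i => rename (Sigma.mk i) (f i)) (aeval (arc ψ) : MvPolynomial (Σ i, τ i) k →ₐ[k] _)) G
    simpa using h2
  rw [h1]
  congr 1
  congr 1
  funext i
  unfold us arcEval
  rw [aeval_rename]
  rfl

variable [∀ i, Finite (τ i)]

theorem PMap.spi {M : ℕ} (i : Fin r) :
    PMap k (fun ψ : (Σ i, τ i) × Fin M → ℂ => Mono.spi i ψ) :=
  PMap.pi fun p => PFun.apply (k := k) ((⟨i, p.1⟩, p.2) : (Σ i, τ i) × Fin M)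

theorem PMap.upa {M : ℕ} (i : Fin r) :
    PMap k (fun x : (τ i × Fin M → ℂ) × ((Σ i, τ i) × Fin M → ℂ) => Mono.upa i x.1 x.2) := by
  refine PMap.pi fun p => ?_
  by_cases h : p.1.1 = i
  · simp only [Mono.upa, dif_pos h]
    exact PFun.comp (f := fun χ : τ i × Fin M → ℂ => χ (h ▸ p.1.2, p.2))
      (PFun.apply (k := k) ((h ▸ p.1.2, p.2) : τ i × Fin M)) PMap.fst
  · simp only [Mono.upa, dif_neg h]
    exact PFun.comp (f := fun χ : (Σ i, τ i) × Fin M → ℂ => χ p)
      (PFun.apply (k := k) p) PMap.snd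

theorem PFun.us {M : ℕ} (f : ∀ i, MvPolynomial (τ i) k) {ψ : E → ((Σ i, τ i) × Fin M → ℂ)}
    (hψ : PMap k ψ) (i : Fin r) (l : ℕ) :
    PFun k (fun x => PowerSeries.coeff l (Mono.us f (ψ x) i)) :=
  PFun.coeff_arcEval l (f i)
    (PMap.comp (f := fun ψ : (Σ i, τ i) × Fin M → ℂ => Mono.spi i ψ) (PMap.spi i) hψ)

theorem ICons.om {M : ℕ} (f : ∀ i, MvPolynomial (τ i) k) {ψ : E → ((Σ i, τ i) × Fin M → ℂ)}
    (hψ : PMap k ψ) (w : Fin r → ℕ) {D : ℕ} (hD : 0 < D) (m : ℕ) :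
    ICons k {x | Om w D m (Mono.us f (ψ x))} := by
  unfold Om
  refine ICons.forall_fin fun i => ?_
  have e : {x : E | ∀ l, D * l < m * w i → PowerSeries.coeff l (Mono.us f (ψ x) i) = 0} =
      {x : E | ∀ l, l < m * w i → (D * l < m * w i →
        PowerSeries.coeff l (Mono.us f (ψ x) i) = 0)} := by
    ext x
    simp only [Set.mem_ofPred_eq]
    constructor
    · intro h l _ hl
      exact h l hl
    · intro h l hl
      have : l ≤ D * l := Nat.le_mul_of_pos_left l hD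
      exact h l (by omega) hl
  rw [e]
  refine ICons.forall_lt _ fun l => ?_
  by_cases hl : D * l < m * w i
  · simp only [hl, true_imp_iff]
    exact ICons.eq (PFun.us f hψ i l) PFun.zero
  · simp only [hl, false_imp_iff]
    exact ICons.const True

theorem PMap.pt {M : ℕ} (f : ∀ i, MvPolynomial (τ i) k) {ψ : E → ((Σ i, τ i) × Fin M → ℂ)}
    (hψ : PMap k ψ) (w : Fin r → ℕ) (D m : ℕ) :
    PMap k (fun x => Mono.pt w D m (Mono.us f (ψ x))) := by
  refine PMap.pi fun i => ?_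
  by_cases h : D ∣ m * w i
  · simp only [Mono.pt, if_pos h]
    exact PFun.us f hψ i _
  · simp only [Mono.pt, if_neg h]
    exact PFun.zero

/-- polynomials over `k` are polynomial functions -/
theorem PFun.aeval' {p : E → (Fin r → ℂ)} (hp : PMap k p) (G : MvPolynomial (Fin r) k) :
    PFun k (fun x => aeval (p x) G) :=
  PFun.comp (F := Fin r → ℂ) (f := fun y : Fin r → ℂ => aeval y G) ⟨G, fun _ => rfl⟩ hp

theorem PFun.coeff_aeval_us {M : ℕ} (f : ∀ i, MvPolynomial (τ i) k)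
    {ψ : E → ((Σ i, τ i) × Fin M → ℂ)} (hψ : PMap k ψ) (G : MvPolynomial (Fin r) k) (l : ℕ) :
    PFun k (fun x => PowerSeries.coeff l (aeval (Mono.us f (ψ x)) G)) := by
  simp only [← arcEval_cmp]
  exact PFun.coeff_arcEval l (cmp G f) hψ

end UA

end Pool.Agent.H75.Mono
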