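import Pool.Agent.H75.Mono.BT
import Pool.Agent.H75.Mono.BP
import Pool.Agent.H75.Mono.UA

/-! # ROF2, module VB: chains in several groups of variables -/

set_option autoImplicit false

namespace Pool.Agent.H75.Mono

open MvPolynomial TensorProduct

section VB

variable {k : Type} [Field k]

/-- splitting off the first group of variables -/
def sgl {r : ℕ} (τ : Fin (r + 1) → Type) (x : Σ i, τ i) : τ 0 ⊕ Σ i : Fin r, τ i.succ :=
  Fin.cases (motive := fun i => τ i → τ 0 ⊕ Σ i : Fin r, τ i.succ)
    (fun y => Sum.inl y) (fun j y => Sum.inr ⟨j, y⟩) x.1 x.2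

theorem sgl_zero {r : ℕ} (τ : Fin (r + 1) → Type) (y : τ 0) : sgl τ ⟨0, y⟩ = Sum.inl y := rfl

theorem sgl_succ {r : ℕ} (τ : Fin (r + 1) → Type) (j : Fin r) (y : τ j.succ) :
    sgl τ ⟨j.succ, y⟩ = Sum.inr ⟨j, y⟩ := rfl

theorem sgl_injective {r : ℕ} (τ : Fin (r + 1) → Type) : Function.Injective (sgl τ) := by
  rintro ⟨i, y⟩ ⟨i', y'⟩ h
  induction i using Fin.cases with
  | zero =>
    induction i' using Fin.cases with
    | zero =>
      rw [sgl_zero, sgl_zero] at h
      rw [Sum.inl.inj h]
    | succ j' =>
      rw [sgl_zero, sgl_succ] at h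
      cases h
  | succ j =>
    induction i' using Fin.cases with
    | zero =>
      rw [sgl_zero, sgl_succ] at h
      cases h
    | succ j' =>
      rw [sgl_succ, sgl_succ] at h
      have h1 := Sum.inr.inj h
      cases h1
      rfl

/-- from chains for `f_i`, `i = 1, …, r`, a module over the polynomials in all variables with elements
`e_β`, which behave like `∏ f_i^(-s_i - β_i)`, and `f_i e_β = 0` if `β_i = 0` -/
theorem exists_multichain {r : ℕ} {τ : Fin r → Type} (f : ∀ i, MvPolynomial (τ i) k)
    (s : Fin r → ℚ) (h : ∀ i, SR k (f i) (s i)) :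
    ∃ (V : Type) (_ : AddCommGroup V) (_ : Module k V)
      (ρ : MvPolynomial (Σ i, τ i) k →ₐ[k] Module.End k V) (D : (Σ i, τ i) → Module.End k V)
      (e : (Fin r → ℕ) → V),
      (∀ y p v, D y (ρ p v) = ρ (pderiv y p) v + ρ p (D y v)) ∧
      (∀ i β, ρ (rename (Sigma.mk i) (f i)) (e (Function.update β i (β i + 1))) = e β) ∧
      (∀ i β, β i = 0 → ρ (rename (Sigma.mk i) (f i)) (e β) = 0) ∧
      (∀ i y β, D ⟨i, y⟩ (e β) = (-((s i : k) + β i)) •
        ρ (rename (Sigma.mk i) (pderiv y (f i))) (e (Function.update β i (β i + 1)))) ∧
      e 0 ≠ 0 := by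
  induction r with
  | zero =>
    refine ⟨k, inferInstance, inferInstance,
      (Algebra.lmul k k).comp (aeval (fun x : Σ i, τ i => (x.1.elim0 : k))), fun x => x.1.elim0,
      fun _ => 1, fun y => y.1.elim0, fun i => i.elim0, fun i => i.elim0, fun i => i.elim0,
      one_ne_zero⟩
  | succ r ih =>
    obtain ⟨V', iV, iM, ρ', D', e', hL, hm, hz, hd, hne⟩ :=
      ih (τ := fun i => τ i.succ) (fun i => f i.succ) (fun i => s i.succ) (fun i => h i.succ)
    obtain ⟨c, hc⟩ := h 0
    obtain ⟨R, Δ, hΔ, hl, hr, hDl, hDr⟩ := exists_tensor c.ρ c.D c.leib ρ' D' hL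
    have g0 : ∀ p : MvPolynomial (τ 0) k,
        rename (sgl τ) (rename (Sigma.mk 0) p) = rename Sum.inl p := by
      intro p
      rw [rename_rename]
      rfl
    have gs : ∀ (j : Fin r) (p : MvPolynomial (τ j.succ) k),
        rename (sgl τ) (rename (Sigma.mk j.succ) p) =
          rename Sum.inr (rename (Sigma.mk (β := fun i : Fin r => τ i.succ) j) p) := by
      intro j p
      rw [rename_rename, rename_rename]
      rfl
    refine ⟨c.V ⊗[k] V', inferInstance, inferInstance, R.comp (rename (sgl τ)),
      fun x => Δ (sgl τ x), fun β => c.e (β 0) ⊗ₜ[k] e' (fun i => β i.succ), ?_, ?_, ?_, ?_, ?_⟩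
    · intro y p v
      rw [AlgHom.comp_apply, hΔ, pderiv_rename (sgl_injective τ)]
      rfl
    · intro i β
      induction i using Fin.cases with
      | zero =>
        beta_reduce
        rw [AlgHom.comp_apply, g0, hl, Function.update_self, c.mul]
        congr 1
      | succ j =>
        beta_reduce
        rw [AlgHom.comp_apply, gs, hr]
        have h1 : (fun i : Fin r => Function.update β j.succ (β j.succ + 1) i.succ) =
            Function.update (fun i : Fin r => β i.succ) j (β j.succ + 1) := by
          funext i
          by_cases hij : i = j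
          · subst hij
            rw [Function.update_self, Function.update_self]
          · rw [Function.update_of_ne hij, Function.update_of_ne]
            exact fun h => hij (Fin.succ_injective _ h)
        rw [h1, hm j (fun i : Fin r => β i.succ),
          Function.update_of_ne (Fin.succ_ne_zero j).symm]
    · intro i β hβ
      induction i using Fin.cases with
      | zero =>
        beta_reduce
        rw [AlgHom.comp_apply, g0, hl, hβ, hc, TensorProduct.zero_tmul]
      | succ j =>
        beta_reduce
        rw [AlgHom.comp_apply, gs, hr, hz j _ hβ, TensorProduct.tmul_zero]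
    · intro i y β
      induction i using Fin.cases with
      | zero =>
        beta_reduce
        rw [AlgHom.comp_apply, g0, hl, Function.update_self, sgl_zero, hDl, c.der,
          ← TensorProduct.smul_tmul']
        congr 1
      | succ j =>
        beta_reduce
        rw [AlgHom.comp_apply, gs, hr, sgl_succ, hDr]
        have h1 : (fun i : Fin r => Function.update β j.succ (β j.succ + 1) i.succ) =
            Function.update (fun i : Fin r => β i.succ) j (β j.succ + 1) := by
          funext i
          by_cases hij : i = j
          · subst hij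
            rw [Function.update_self, Function.update_self]
          · rw [Function.update_of_ne hij, Function.update_of_ne]
            exact fun h => hij (Fin.succ_injective _ h)
        rw [h1, hd j y (fun i : Fin r => β i.succ),
          Function.update_of_ne (Fin.succ_ne_zero j).symm, TensorProduct.tmul_smul]
    · exact tmul_ne_zero' c.ne hne

end VB

end Pool.Agent.H75.Mono
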