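import Pool.Agent.H75.Mono.VA
import Pool.Agent.H75.Mono.VB
import Pool.Agent.H75.Mono.BS

/-! # ROF2, module VC: chains for compositions -/

set_option autoImplicit false

namespace Pool.Agent.H75.Mono

open MvPolynomial

section VC

variable {k : Type} [Field k] {r : ℕ}

/-- the monomial `u^β` -/
noncomputable def mon (β : Fin r → ℕ) : MvPolynomial (Fin r) k :=
  monomial (Finsupp.equivFunOnFinite.symm β) 1

theorem vc_mon_coe (d : Fin r →₀ ℕ) : (mon (fun i => d i) : MvPolynomial (Fin r) k) =
    monomial d 1 := by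
  have h : Finsupp.equivFunOnFinite.symm (fun i => d i) = d := by
    ext i
    rfl
  unfold mon
  rw [h]

/-- the box `[0,N)^r` -/
def box (r N : ℕ) : Finset (Fin r → ℕ) := Fintype.piFinset (fun _ => Finset.range N)

theorem mem_box {N : ℕ} {β : Fin r → ℕ} : β ∈ box r N ↔ ∀ i, β i < N := by
  simp [box]

/-- the functional vanishes on monomials outside of the box -/
def Bd (N : ℕ) (Φ : MvPolynomial (Fin r) k →ₗ[k] k) : Prop :=
  ∀ β : Fin r → ℕ, (∃ i, N ≤ β i) → Φ (mon β) = 0

theorem Bd.mul {N : ℕ} {Φ : MvPolynomial (Fin r) k →ₗ[k] k} (h : Bd N Φ)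
    (A : MvPolynomial (Fin r) k) : Bd N (Φ ∘ₗ LinearMap.mulRight k A) := by
  rintro β ⟨i, hi⟩
  rw [LinearMap.comp_apply, LinearMap.mulRight_apply]
  induction A using MvPolynomial.induction_on' with
  | monomial d c =>
    have h1 : (mon β * monomial d c : MvPolynomial (Fin r) k) =
        c • mon (fun i => (Finsupp.equivFunOnFinite.symm β + d) i) := by
      rw [vc_mon_coe]
      unfold mon
      rw [monomial_mul, one_mul, smul_monomial, smul_eq_mul, mul_one]
    rw [h1, map_smul, h, smul_zero]
    refine ⟨i, ?_⟩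
    rw [Finsupp.add_apply]
    exact le_trans hi (Nat.le_add_right _ _)
  | add p q hp hq => rw [mul_add, map_add, hp, hq, add_zero]

variable {V : Type} [AddCommGroup V] [Module k V]

/-- the element attached to a functional -/
noncomputable def EV (e : (Fin r → ℕ) → V) (N : ℕ) (Φ : MvPolynomial (Fin r) k →ₗ[k] k) : V :=
  ∑ β ∈ box r N, Φ (mon β) • e β

theorem EV_mono {e : (Fin r → ℕ) → V} {N N' : ℕ} (hN : N ≤ N')
    {Φ : MvPolynomial (Fin r) k →ₗ[k] k} (h : Bd N Φ) : EV e N' Φ = EV e N Φ := by
  unfold EV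
  symm
  apply Finset.sum_subset
  · intro β hβ
    rw [mem_box] at hβ ⊢
    exact fun i => lt_of_lt_of_le (hβ i) hN
  · intro β _ hβ
    rw [mem_box] at hβ
    push Not at hβ
    rw [h β hβ, zero_smul]

omit [Field k] [Module k V] in
theorem box_shift (N : ℕ) (i : Fin r) (g : (Fin r → ℕ) → V) (h0 : ∀ β, β i = 0 → g β = 0)
    (hN : ∀ β, N ≤ β i → g β = 0) :
    ∑ β ∈ box r N, g β = ∑ β ∈ box r N, g (Function.update β i (β i + 1)) := by
  have h1 : ∑ β ∈ box r N, g β = ∑ β ∈ (box r N).filter (fun β => β i ≠ 0), g β := by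
    rw [Finset.sum_filter]
    refine Finset.sum_congr rfl fun β _ => ?_
    split_ifs with h
    · rfl
    · push Not at h
      exact h0 β h
  have h2 : ∑ β ∈ box r N, g (Function.update β i (β i + 1)) =
      ∑ β ∈ (box r N).filter (fun β => β i + 1 < N), g (Function.update β i (β i + 1)) := by
    rw [Finset.sum_filter]
    refine Finset.sum_congr rfl fun β _ => ?_
    split_ifs with h
    · rfl
    · push Not at h
      exact hN _ (by rw [Function.update_self]; exact h)
  rw [h1, h2]
  symm
  refine Finset.sum_nbij' (fun β => Function.update β i (β i + 1))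
    (fun β => Function.update β i (β i - 1)) ?_ ?_ ?_ ?_ ?_
  · intro β hβ
    rw [Finset.mem_filter, mem_box] at hβ ⊢
    refine ⟨fun l => ?_, ?_⟩
    · by_cases hl : l = i
      · subst hl
        rw [Function.update_self]
        exact hβ.2
      · rw [Function.update_of_ne hl]
        exact hβ.1 l
    · rw [Function.update_self]
      exact Nat.succ_ne_zero _
  · intro β hβ
    rw [Finset.mem_filter, mem_box] at hβ ⊢
    refine ⟨fun l => ?_, ?_⟩
    · by_cases hl : l = i
      · subst hl
        rw [Function.update_self]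
        have := hβ.1 l
        omega
      · rw [Function.update_of_ne hl]
        exact hβ.1 l
    · rw [Function.update_self]
      have := hβ.1 i
      have := hβ.2
      omega
  · intro β _
    simp
  · intro β hβ
    rw [Finset.mem_filter] at hβ
    have h3 : β i - 1 + 1 = β i := by
      have := hβ.2
      omega
    simp [h3]
  · intro β _
    rfl

theorem mon_update (β : Fin r → ℕ) (i : Fin r) :
    (mon (Function.update β i (β i + 1)) : MvPolynomial (Fin r) k) = mon β * X i := by
  have h : Finsupp.equivFunOnFinite.symm (Function.update β i (β i + 1)) =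
      Finsupp.equivFunOnFinite.symm β + Finsupp.single i 1 := by
    ext l
    rw [Finsupp.add_apply, Finsupp.equivFunOnFinite_symm_apply_apply,
      Finsupp.equivFunOnFinite_symm_apply_apply]
    by_cases hl : l = i
    · subst hl
      simp
    · rw [Function.update_of_ne hl, Finsupp.single_eq_of_ne hl, add_zero]
  unfold mon X
  rw [monomial_mul, mul_one, h]

section act

variable {τ : Fin r → Type} (ρ : MvPolynomial (Σ i, τ i) k →ₐ[k] Module.End k V)
  (e : (Fin r → ℕ) → V) (f : ∀ i, MvPolynomial (τ i) k)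

theorem act_X (h1 : ∀ i β, ρ (rename (Sigma.mk i) (f i)) (e (Function.update β i (β i + 1))) = e β)
    (h0 : ∀ i β, β i = 0 → ρ (rename (Sigma.mk i) (f i)) (e β) = 0) (i : Fin r) {N : ℕ}
    {Φ : MvPolynomial (Fin r) k →ₗ[k] k} (h : Bd N Φ) :
    ρ (rename (Sigma.mk i) (f i)) (EV e N Φ) = EV e N (Φ ∘ₗ LinearMap.mulRight k (X i)) := by
  unfold EV
  rw [map_sum]
  have h2 : ∀ β, ρ (rename (Sigma.mk i) (f i)) (Φ (mon β) • e β) =
      Φ (mon β) • ρ (rename (Sigma.mk i) (f i)) (e β) := fun β => map_smul _ _ _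
  rw [Finset.sum_congr rfl fun β _ => h2 β,
    box_shift N i (fun β => Φ (mon β) • ρ (rename (Sigma.mk i) (f i)) (e β))]
  · refine Finset.sum_congr rfl fun β _ => ?_
    rw [h1, mon_update, LinearMap.comp_apply, LinearMap.mulRight_apply]
  · intro β hβ
    rw [h0 i β hβ, smul_zero]
  · intro β hβ
    rw [h β ⟨i, hβ⟩, zero_smul]

theorem act_cmp (h1 : ∀ i β, ρ (rename (Sigma.mk i) (f i)) (e (Function.update β i (β i + 1))) = e β)
    (h0 : ∀ i β, β i = 0 → ρ (rename (Sigma.mk i) (f i)) (e β) = 0)
    (A : MvPolynomial (Fin r) k) {N : ℕ} {Φ : MvPolynomial (Fin r) k →ₗ[k] k} (h : Bd N Φ) :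
    ρ (aeval (fun i => rename (Sigma.mk i) (f i)) A) (EV e N Φ) =
      EV e N (Φ ∘ₗ LinearMap.mulRight k A) := by
  induction A using MvPolynomial.induction_on generalizing Φ with
  | C a =>
    rw [aeval_C, AlgHom.commutes, Module.algebraMap_end_apply]
    unfold EV
    rw [Finset.smul_sum]
    refine Finset.sum_congr rfl fun β _ => ?_
    rw [LinearMap.comp_apply, LinearMap.mulRight_apply, mul_comm, ← smul_eq_C_mul, map_smul,
      smul_smul, smul_eq_mul]
  | add p q hp hq =>
    rw [map_add, map_add, LinearMap.add_apply, hp h, hq h]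
    unfold EV
    rw [← Finset.sum_add_distrib]
    refine Finset.sum_congr rfl fun β _ => ?_
    simp only [LinearMap.comp_apply, LinearMap.mulRight_apply, mul_add, map_add, add_smul]
  | mul_X p i hp =>
    rw [map_mul, map_mul, Module.End.mul_apply, aeval_X, act_X ρ e f h1 h0 i h, hp (h.mul _)]
    unfold EV
    refine Finset.sum_congr rfl fun β _ => ?_
    simp only [LinearMap.comp_apply, LinearMap.mulRight_apply, mul_assoc]

end act

theorem pderiv_sigma_of_ne {τ : Fin r → Type} {i j : Fin r} (hij : j ≠ i) (y : τ i)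
    (p : MvPolynomial (τ j) k) :
    pderiv (⟨i, y⟩ : Σ i, τ i) (rename (Sigma.mk j) p) = 0 := by
  induction p using MvPolynomial.induction_on with
  | C a => simp
  | add p q hp hq => simp [hp, hq]
  | mul_X p z hp =>
    rw [map_mul, Derivation.leibniz, hp, rename_X]
    have : pderiv (⟨i, y⟩ : Σ i, τ i) (X ⟨j, z⟩ : MvPolynomial (Σ i, τ i) k) = 0 := by
      rw [pderiv_X_of_ne]
      intro h
      exact hij (congrArg Sigma.fst h)
    rw [this]
    simp

theorem pderiv_cmp {τ : Fin r → Type} (G : MvPolynomial (Fin r) k)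
    (f : ∀ i, MvPolynomial (τ i) k) (i : Fin r) (y : τ i) :
    pderiv (⟨i, y⟩ : Σ i, τ i) (aeval (fun i => rename (Sigma.mk i) (f i)) G) =
      rename (Sigma.mk i) (pderiv y (f i)) *
        aeval (fun i => rename (Sigma.mk i) (f i)) (pderiv i G) := by
  induction G using MvPolynomial.induction_on with
  | C a =>
    rw [aeval_C]
    simp
  | add p q hp hq =>
    rw [map_add, map_add, map_add, map_add, hp, hq, mul_add]
  | mul_X p j hp =>
    rw [map_mul, pderiv_mul, hp, pderiv_mul, map_add, map_mul, map_mul, aeval_X]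
    by_cases hij : j = i
    · subst hij
      rw [pderiv_rename sigma_mk_injective, pderiv_X_self, map_one]
      ring
    · rw [pderiv_sigma_of_ne hij, pderiv_X_of_ne hij, map_zero]
      ring

variable [CharZero k]

theorem SRs.cmp {r : ℕ} {τ : Fin r → Type} [∀ i, Finite (τ i)] {w : Fin r → ℕ} {n : ℕ}
    {G : MvPolynomial (Fin r) k} (hw : ∀ i, 0 < w i ∧ w i < n) (hG : IsWeightedHomogeneous w G n)
    {B : Finset (Fin r)} (hK : Koszul (jac G B)) {f : ∀ i, MvPolynomial (τ i) k} {s : Fin r → ℚ}
    (h : ∀ i, SR k (f i) (s i)) (hs : ∀ i, 0 < s i) (hs1 : ∀ i, i ∈ B ↔ s i = 1)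
    (hr : 0 < r) : SRs k (Mono.cmp G f) ((∑ i, w i * s i) / n) := by
  classical
  obtain ⟨V, iV, iM, ρ, D, e, hL, h1, h0, hd, hne⟩ := exists_multichain f s h
  obtain ⟨Φ, p1, p2, p3, p4⟩ := exists_functional hw hG hK s (fun i hi => (hs1 i).1 hi)
  set σ : ℚ := (∑ i, w i * s i) / n with hσ
  have hn : 0 < n := by have := hw ⟨0, hr⟩; omega
  have hσ0 : 0 < σ := by
    rw [hσ]
    apply div_pos
    · apply Finset.sum_pos
      · intro i _
        have : (0 : ℚ) < w i := by exact_mod_cast (hw i).1
        exact mul_pos this (hs i)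
      · exact ⟨⟨0, hr⟩, Finset.mem_univ _⟩
    · exact_mod_cast hn
  -- bounds of the supports
  have hmonw : ∀ β : Fin r → ℕ, IsWeightedHomogeneous w (mon β : MvPolynomial (Fin r) k)
      (Finsupp.weight w (Finsupp.equivFunOnFinite.symm β)) := fun β =>
    isWeightedHomogeneous_monomial w _ _ rfl
  have hBd : ∀ j N, j * n < N → Bd N (Φ j) := by
    rintro j N hN β ⟨i, hi⟩
    apply p2 j _ _ (hmonw β)
    have h2 := Finsupp.le_weight w (s := i) (by have := (hw i).1; omega)
      (Finsupp.equivFunOnFinite.symm β)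
    rw [Finsupp.equivFunOnFinite_symm_apply_apply] at h2
    omega
  have hrf : ∀ j, ((rf σ j : ℚ) : k) ≠ 0 := by
    intro j
    exact_mod_cast (rf_pos hσ0 j).ne'
  have hσj : ∀ j : ℕ, (((σ + j : ℚ)) : k) ≠ 0 := by
    intro j
    have : σ + j ≠ 0 := by positivity
    exact_mod_cast this
  -- multiplication by `F`
  have hmul : ∀ j N, (j + 1) * n < N → ρ (Mono.cmp G f) (EV e N (Φ (j + 1))) =
      ((σ + j : ℚ) : k) • EV e N (Φ j) := by
    intro j N hN
    unfold Mono.cmp
    rw [act_cmp ρ e f h1 h0 G (hBd _ _ hN)]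
    unfold EV
    rw [Finset.smul_sum]
    refine Finset.sum_congr rfl fun β _ => ?_
    rw [LinearMap.comp_apply, LinearMap.mulRight_apply, mul_comm, p4, smul_smul]
  -- derivatives
  have hdz : ∀ i (y : τ i) (β : Fin r → ℕ), i ∉ B → β i = 0 →
      ρ (rename (Sigma.mk i) (pderiv y (f i))) (e β) = 0 := by
    intro i y β hi hβ
    have e1 := hL ⟨i, y⟩ (rename (Sigma.mk i) (f i)) (e β)
    rw [h0 i β hβ, map_zero, hd, pderiv_rename sigma_mk_injective, map_smul,
      ← Module.End.mul_apply, ← map_mul, mul_comm, map_mul, Module.End.mul_apply, h1, hβ,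
      Nat.cast_zero, add_zero] at e1
    have e2 : ((1 : k) - s i) • ρ (rename (Sigma.mk i) (pderiv y (f i))) (e β) = 0 := by
      rw [sub_smul, one_smul, e1, neg_smul, sub_eq_add_neg]
    rcases smul_eq_zero.mp e2 with e3 | e3
    · exfalso
      apply hi
      rw [hs1]
      have h5 : ((s i : ℚ) : k) = ((1 : ℚ) : k) := by
        rw [Rat.cast_one]; exact (sub_eq_zero.mp e3).symm
      exact Rat.cast_injective h5
    · exact e3
  have hact : ∀ (j N : ℕ) (i : Fin r) (y : τ i), j * n < N →
      ρ (pderiv ⟨i, y⟩ (Mono.cmp G f)) (EV e N (Φ j)) =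
        ∑ β ∈ box r N, Φ j (pderiv i G * mon β) •
          ρ (rename (Sigma.mk i) (pderiv y (f i))) (e β) := by
    intro j N i y hN
    unfold Mono.cmp
    rw [pderiv_cmp, map_mul, Module.End.mul_apply, act_cmp ρ e f h1 h0 _ (hBd _ _ hN)]
    unfold EV
    rw [map_sum]
    refine Finset.sum_congr rfl fun β _ => ?_
    rw [map_smul, LinearMap.comp_apply, LinearMap.mulRight_apply, mul_comm (mon β)]
  have hder : ∀ (j N : ℕ) (i : Fin r) (y : τ i), (j + 1) * n < N →
      D ⟨i, y⟩ (EV e N (Φ j)) = -ρ (pderiv ⟨i, y⟩ (Mono.cmp G f)) (EV e N (Φ (j + 1))) := by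
    intro j N i y hN
    rw [hact (j + 1) N i y hN, box_shift N i (fun β => Φ (j + 1) (pderiv i G * mon β) •
          ρ (rename (Sigma.mk i) (pderiv y (f i))) (e β)), ← Finset.sum_neg_distrib]
    · unfold EV
      rw [map_sum]
      refine Finset.sum_congr rfl fun β _ => ?_
      rw [map_smul, hd, smul_smul, ← neg_smul]
      congr 1
      rw [mon_update]
      have hmd : (mon β : MvPolynomial (Fin r) k) =
        monomial (Finsupp.equivFunOnFinite.symm β) 1 := rfl
      by_cases hi : i ∈ B
      · have e1 : pderiv i G * (mon β * X i) = (X i * mon β) * jac G B i := by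
          unfold jac
          rw [if_pos hi]
          ring
        rw [e1, p3]
        unfold dop
        rw [if_pos hi, pderiv_mul, pderiv_X_self, one_mul, hmd, X_mul_pderiv_monomial, map_add,
          map_nsmul, nsmul_eq_mul, (hs1 i).1 hi, Rat.cast_one,
          Finsupp.equivFunOnFinite_symm_apply_apply]
        ring
      · have e1 : pderiv i G * (mon β * X i) = mon β * jac G B i := by
          unfold jac
          rw [if_neg hi]
          ring
        rw [e1, p3, hmd, va_dop_monomial s hi, map_smul, smul_eq_mul,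
          Finsupp.equivFunOnFinite_symm_apply_apply]
        ring
    · intro β hβ
      by_cases hi : i ∈ B
      · have e1 : pderiv i G * mon β = mon β * jac G B i := by
          unfold jac
          rw [if_pos hi]
          ring
        have e2 : pderiv i (mon β : MvPolynomial (Fin r) k) = 0 := by
          unfold mon
          rw [pderiv_monomial, Finsupp.equivFunOnFinite_symm_apply_apply, hβ, Nat.cast_zero,
            mul_zero, monomial_zero]
        rw [e1, p3]
        unfold dop
        rw [if_pos hi, e2, map_zero, zero_smul]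
      · rw [hdz i y β hi hβ, smul_zero]
    · intro β hβ
      have e1 := (hBd (j + 1) N hN).mul (pderiv i G) β ⟨i, hβ⟩
      rw [LinearMap.comp_apply, LinearMap.mulRight_apply, mul_comm] at e1
      rw [e1, zero_smul]
  -- the element with index 0
  have hmon0 : (mon 0 : MvPolynomial (Fin r) k) = 1 := by
    have : (Finsupp.equivFunOnFinite.symm (0 : Fin r → ℕ)) = 0 := by
      ext i
      rfl
    unfold mon
    rw [this]
    rfl
  have hE0 : ∀ N, 0 < N → EV e N (Φ 0) = e 0 := by
    intro N hN
    unfold EV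
    rw [Finset.sum_eq_single 0]
    · rw [hmon0, p1, one_smul]
    · intro β _ hβ
      have : ∃ i, β i ≠ 0 := by
        by_contra hcon
        push Not at hcon
        exact hβ (funext hcon)
      obtain ⟨i, hi⟩ := this
      rw [p2 0 _ _ (hmonw β), zero_smul]
      have h2 := Finsupp.le_weight w (s := i) (by have := (hw i).1; omega)
        (Finsupp.equivFunOnFinite.symm β)
      rw [Finsupp.equivFunOnFinite_symm_apply_apply] at h2
      omega
    · intro hcon
      exact absurd (mem_box.mpr fun i => hN) hcon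
  have hrf0 : ((rf σ 0 : ℚ) : k) = 1 := by rw [rf_zero, Rat.cast_one]
  refine ⟨{ V := V
            ρ := ρ
            D := D
            leib := hL
            e := fun j => ((rf σ j : ℚ) : k)⁻¹ • EV e (j * n + 1) (Φ j)
            mul := fun j => ?_
            der := ?_
            ne := ?_ }, ?_, ?_⟩
  · rw [map_smul, hmul j _ (Nat.lt_succ_self _), smul_smul, EV_mono (by nlinarith)
      (hBd j (j * n + 1) (Nat.lt_succ_self _)), rf_succ, Rat.cast_mul]
    congr 1
    have a1 := hrf j
    have a2 := hσj j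
    field_simp
  · rintro ⟨i, y⟩ j
    rw [map_smul, ← EV_mono (N' := (j + 1) * n + 1) (by nlinarith)
      (hBd j (j * n + 1) (Nat.lt_succ_self _)), hder j _ i y (Nat.lt_succ_self _), map_smul,
      smul_smul, ← neg_one_smul k, smul_smul, rf_succ, Rat.cast_mul]
    congr 1
    have a1 := hrf j
    have a2 := hσj j
    have a3 : ((σ + j : ℚ) : k) = (σ : k) + j := by push_cast; rfl
    rw [a3] at a2 ⊢
    field_simp
  · rw [hrf0, inv_one, one_smul, hE0 _ (Nat.succ_pos _)]
    exact hne
  · change ρ (Mono.cmp G f) (((rf σ 0 : ℚ) : k)⁻¹ • EV e (0 * n + 1) (Φ 0)) = 0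
    rw [hrf0, inv_one, one_smul]
    unfold Mono.cmp
    rw [act_cmp ρ e f h1 h0 G (hBd 0 _ (Nat.lt_succ_self _))]
    unfold EV
    refine Finset.sum_eq_zero fun β _ => ?_
    rw [LinearMap.comp_apply, LinearMap.mulRight_apply, p2 0 _ _ ((hmonw β).mul hG), zero_smul]
    omega
  · rintro ⟨i, y⟩
    change ρ (pderiv ⟨i, y⟩ (Mono.cmp G f)) (((rf σ 0 : ℚ) : k)⁻¹ • EV e (0 * n + 1) (Φ 0)) = 0
    rw [hrf0, inv_one, one_smul, hact 0 _ i y (Nat.lt_succ_self _)]
    refine Finset.sum_eq_zero fun β _ => ?_
    have h2 : IsWeightedHomogeneous w (pderiv i G) (n - w i) :=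
      hG.pderiv (by have := hw i; omega)
    rw [p2 0 _ _ (h2.mul (hmonw β)), zero_smul]
    have := hw i
    omega

end VC

end Pool.Agent.H75.Mono
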