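import Pool.Agent.H75.Mono.TB

/-! # ROF2, module TC: solving `G(a) = c t^d mod t^(d+1)` for one component of `a` -/

set_option autoImplicit false

namespace Pool.Agent.H75.Mono

open MvPolynomial

section TC

variable {k : Type} [Field k] [Algebra k ℂ] {ι : Type} [DecidableEq ι]

omit [DecidableEq ι] in
/-- the coefficients of order at most `m n / D` only depend on `pt` -/
theorem coeff_le_floor {w : ι → ℕ} {D m n : ℕ} (hD : 0 < D) {G : MvPolynomial ι k}
    (hG : IsWeightedHomogeneous w G n) {a : ι → PowerSeries ℂ}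
    (h : Om w D m a) (h0 : aeval (pt w D m a) G = 0) {l : ℕ} (hl : l ≤ m * n / D) :
    PowerSeries.coeff l (aeval a G) = 0 := by
  have h1 : D * l ≤ m * n := by
    rw [mul_comm]
    exact (Nat.le_div_iff_mul_le hD).1 hl
  rcases h1.lt_or_eq with h2 | h2
  · exact coeff_low hD hG h h2
  · rw [coeff_lead hD hG h h2, h0]

theorem update_two {a : ι → PowerSeries ℂ} (i : ι) (q J : ℕ) (η ζ : PowerSeries ℂ) :
    Function.update (Function.update a i (a i + PowerSeries.X ^ (q + 1) * η)) i
      (Function.update a i (a i + PowerSeries.X ^ (q + 1) * η) i +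
        PowerSeries.X ^ (q + 1 + J) * ζ) =
      Function.update a i (a i + PowerSeries.X ^ (q + 1) * (η + PowerSeries.X ^ J * ζ)) := by
  rw [Function.update_idem, Function.update_self]
  congr 1
  rw [pow_add PowerSeries.X (q + 1) J]
  ring

/-- `step` for two nearby corrections -/
theorem step_two {w : ι → ℕ} {D m n : ℕ} (hD : 0 < D) {G : MvPolynomial ι k}
    (hG : IsWeightedHomogeneous w G n) {i : ι} (hi : w i ≤ n) {a : ι → PowerSeries ℂ}
    (h : Om w D m a) (hne : aeval (pt w D m a) (pderiv i G) ≠ 0) (J : ℕ)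
    (η ζ : PowerSeries ℂ) :
    (∀ l, l < m * n / D + 1 + J → PowerSeries.coeff l (aeval (Function.update a i
      (a i + PowerSeries.X ^ (m * w i / D + 1) * (η + PowerSeries.X ^ J * ζ))) G) =
        PowerSeries.coeff l (aeval (Function.update a i
          (a i + PowerSeries.X ^ (m * w i / D + 1) * η)) G)) ∧
    PowerSeries.coeff (m * n / D + 1 + J) (aeval (Function.update a i
      (a i + PowerSeries.X ^ (m * w i / D + 1) * (η + PowerSeries.X ^ J * ζ))) G) =
        PowerSeries.coeff (m * n / D + 1 + J) (aeval (Function.update a i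
          (a i + PowerSeries.X ^ (m * w i / D + 1) * η)) G) +
          PowerSeries.constantCoeff ζ * aeval (pt w D m a) (pderiv i G) := by
  obtain ⟨h1, h2⟩ := om_update hD h i η
  have h3 := step hD hG hi h1 (by rw [h2]; exact hne) J ζ
  rw [update_two, h2] at h3
  exact h3

/-- existence -/
theorem exists_solve {w : ι → ℕ} {D m n : ℕ} (hD : 0 < D) {G : MvPolynomial ι k}
    (hG : IsWeightedHomogeneous w G n) {i : ι} (hi : w i ≤ n) {a : ι → PowerSeries ℂ}
    (h : Om w D m a) (hne : aeval (pt w D m a) (pderiv i G) ≠ 0)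
    (h0 : aeval (pt w D m a) G = 0) {d : ℕ} (hd : m * n < D * d) (c : ℂ) :
    ∃ η : PowerSeries ℂ, ∀ l, l ≤ d → PowerSeries.coeff l
      (aeval (Function.update a i (a i + PowerSeries.X ^ (m * w i / D + 1) * η)) G) =
        if l = d then c else 0 := by
  have key : ∀ J : ℕ, ∃ η : PowerSeries ℂ, ∀ l, l < m * n / D + 1 + J → PowerSeries.coeff l
      (aeval (Function.update a i (a i + PowerSeries.X ^ (m * w i / D + 1) * η)) G) =
        if l = d then c else 0 := by
    intro J
    induction J with
    | zero =>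
      refine ⟨0, fun l hl => ?_⟩
      have h1 : l ≤ m * n / D := by omega
      have h2 : D * l ≤ m * n := by
        rw [mul_comm]
        exact (Nat.le_div_iff_mul_le hD).1 h1
      have h3 : l ≠ d := by
        rintro rfl
        omega
      obtain ⟨h4, h5⟩ := om_update hD h i 0
      rw [if_neg h3]
      exact coeff_le_floor hD hG h4 (by rw [h5]; exact h0) h1
    | succ J ih =>
      obtain ⟨η, hη⟩ := ih
      let s : ℂ := ((if m * n / D + 1 + J = d then c else 0) -
        PowerSeries.coeff (m * n / D + 1 + J) (aeval (Function.update a i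
          (a i + PowerSeries.X ^ (m * w i / D + 1) * η)) G)) /
          aeval (pt w D m a) (pderiv i G)
      obtain ⟨h1, h2⟩ := step_two hD hG hi h hne J η (PowerSeries.C s)
      refine ⟨η + PowerSeries.X ^ J * PowerSeries.C s, fun l hl => ?_⟩
      rcases Nat.lt_or_ge l (m * n / D + 1 + J) with h3 | h3
      · rw [h1 l h3, hη l h3]
      · have h4 : l = m * n / D + 1 + J := by omega
        rw [h4, h2, PowerSeries.constantCoeff_C]
        simp only [s]
        rw [div_mul_cancel₀ _ hne]
        ring
  obtain ⟨η, hη⟩ := key d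
  exact ⟨η, fun l hl => hη l (by have := Nat.zero_le (m * n / D); omega)⟩

/-- uniqueness -/
theorem solve_unique {w : ι → ℕ} {D m n : ℕ} (hD : 0 < D) {G : MvPolynomial ι k}
    (hG : IsWeightedHomogeneous w G n) {i : ι} (hi : w i ≤ n) {a : ι → PowerSeries ℂ}
    (h : Om w D m a) (hne : aeval (pt w D m a) (pderiv i G) ≠ 0) {d : ℕ}
    (η θ : PowerSeries ℂ) (he : ∀ l, l ≤ d → PowerSeries.coeff l
      (aeval (Function.update a i (a i + PowerSeries.X ^ (m * w i / D + 1) * η)) G) =
      PowerSeries.coeff l
      (aeval (Function.update a i (a i + PowerSeries.X ^ (m * w i / D + 1) * θ)) G)) :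
    PowerSeries.X ^ (d - m * n / D) ∣ η - θ := by
  have key : ∀ J : ℕ, J ≤ d - m * n / D → PowerSeries.X ^ J ∣ η - θ := by
    intro J
    induction J with
    | zero => intro _; rw [pow_zero]; exact one_dvd _
    | succ J ih =>
      intro hJ
      obtain ⟨ζ, hζ⟩ := ih (by omega)
      have h1 : η = θ + PowerSeries.X ^ J * ζ := by rw [← hζ]; ring
      obtain ⟨-, h2⟩ := step_two hD hG hi h hne J θ ζ
      rw [← h1, he _ (by omega)] at h2
      have h3 : PowerSeries.constantCoeff ζ * aeval (pt w D m a) (pderiv i G) = 0 := by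
        linear_combination -h2
      have h4 : PowerSeries.constantCoeff ζ = 0 := (mul_eq_zero.1 h3).resolve_right hne
      rw [hζ, pow_succ]
      exact mul_dvd_mul_left _ (PowerSeries.X_dvd_iff.2 h4)
  exact key _ le_rfl

/-- invariance: changes in high order do not matter -/
theorem solve_congr {w : ι → ℕ} {D m n : ℕ} (hD : 0 < D) {G : MvPolynomial ι k}
    (hG : IsWeightedHomogeneous w G n) {i : ι} (hi : w i ≤ n) {a : ι → PowerSeries ℂ}
    (h : Om w D m a) (hne : aeval (pt w D m a) (pderiv i G) ≠ 0) {d : ℕ}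
    (η θ : PowerSeries ℂ) (he : PowerSeries.X ^ (d - m * n / D) ∣ η - θ) :
    ∀ l, l ≤ d → PowerSeries.coeff l
      (aeval (Function.update a i (a i + PowerSeries.X ^ (m * w i / D + 1) * η)) G) =
      PowerSeries.coeff l
      (aeval (Function.update a i (a i + PowerSeries.X ^ (m * w i / D + 1) * θ)) G) := by
  intro l hl
  obtain ⟨ζ, hζ⟩ := he
  have h1 : η = θ + PowerSeries.X ^ (d - m * n / D) * ζ := by rw [← hζ]; ring
  obtain ⟨h2, -⟩ := step_two hD hG hi h hne (d - m * n / D) θ ζ
  rw [h1]
  exact h2 l (by omega)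

end TC

end Pool.Agent.H75.Mono
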