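import Pool.Agent.H75.Mono.UA
import Pool.Agent.H75.Mono.TC

/-! # ROF2, module UC: equidistribution through a variable -/

set_option autoImplicit false

namespace Pool.Agent.H75.Mono

open MvPolynomial Pool.Agent.H39.MonoR

section UC

variable {k : Type} [Field k] [Algebra k ℂ] {r : ℕ} {τ : Fin r → Type}

/-- the polynomial with coefficients `ν` -/
noncomputable def ucSer {e : ℕ} (ν : Fin e → ℂ) : PowerSeries ℂ :=
  PowerSeries.mk fun l => if h : l < e then ν ⟨l, h⟩ else 0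

theorem coeff_ucSer {e : ℕ} (ν : Fin e → ℂ) (l : ℕ) :
    PowerSeries.coeff l (ucSer ν) = if h : l < e then ν ⟨l, h⟩ else 0 := by
  rw [ucSer, PowerSeries.coeff_mk]

theorem ucSer_inj {e : ℕ} {ν ν' : Fin e → ℂ} (h : PowerSeries.X ^ e ∣ ucSer ν - ucSer ν') :
    ν = ν' := by
  funext l
  have h1 := PowerSeries.X_pow_dvd_iff.1 h l l.2
  rw [map_sub, coeff_ucSer, coeff_ucSer, dif_pos l.2, dif_pos l.2, sub_eq_zero] at h1
  exact h1

open Classical in
/-- add `t^q ν(t)` to the arc of the variable `(i, x₀)` -/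
noncomputable def ucAdd {M e : ℕ} (i : Fin r) (x₀ : τ i) (q : ℕ) (ν : Fin e → ℂ)
    (ψ : (Σ i, τ i) × Fin M → ℂ) : (Σ i, τ i) × Fin M → ℂ :=
  fun p => ψ p + if h : p.1 = ⟨i, x₀⟩ ∧ q ≤ (p.2 : ℕ) ∧ (p.2 : ℕ) - q < e then
    ν ⟨(p.2 : ℕ) - q, h.2.2⟩ else 0

theorem ucAdd_neg {M e : ℕ} (i : Fin r) (x₀ : τ i) (q : ℕ) (ν : Fin e → ℂ)
    (ψ : (Σ i, τ i) × Fin M → ℂ) : ucAdd i x₀ q (-ν) (ucAdd i x₀ q ν ψ) = ψ := by
  funext p
  unfold ucAdd
  split_ifs with h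
  · simp
  · simp

theorem us_ucAdd {M e : ℕ} {f : ∀ i, MvPolynomial (τ i) k} {i : Fin r} {x₀ : τ i}
    (hf : f i = X x₀) {q : ℕ} (hq : q + e ≤ M) (ν : Fin e → ℂ)
    (ψ : (Σ i, τ i) × Fin M → ℂ) :
    us f (ucAdd i x₀ q ν ψ) =
      Function.update (us f ψ) i (us f ψ i + PowerSeries.X ^ q * ucSer ν) := by
  funext j
  by_cases hj : j = i
  · subst hj
    rw [Function.update_self]
    unfold us
    rw [hf]
    unfold arcEval
    rw [aeval_X, aeval_X]
    ext l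
    rw [map_add, coeff_arc, coeff_arc, PowerSeries.coeff_X_pow_mul', coeff_ucSer]
    by_cases hl : l < M
    · rw [dif_pos hl, dif_pos hl]
      simp only [spi, ucAdd]
      congr 1
      by_cases h1 : q ≤ l
      · rw [if_pos h1]
        by_cases h2 : l - q < e
        · rw [dif_pos h2, dif_pos ⟨trivial, h1, h2⟩]
        · rw [dif_neg h2, dif_neg (fun h => h2 h.2.2)]
      · rw [if_neg h1, dif_neg (fun h => h1 h.2.1)]
    · rw [dif_neg hl, dif_neg hl, zero_add]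
      split_ifs with h1 h2
      · omega
      · rfl
      · rfl
  · rw [Function.update_of_ne hj]
    unfold us
    congr 1
    funext p
    simp only [spi, ucAdd]
    rw [dif_neg, add_zero]
    rintro ⟨h, -⟩
    exact hj (congrArg Sigma.fst h)

theorem uc_update_zero (a : Fin r → PowerSeries ℂ) (i : Fin r) (q : ℕ) :
    Function.update a i (a i + PowerSeries.X ^ q * 0) = a := by
  rw [mul_zero, add_zero, Function.update_eq_self]

variable [∀ i, Finite (τ i)]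

theorem PMap.ucAdd {M e : ℕ} (i : Fin r) (x₀ : τ i) (q : ℕ) :
    PMap k (fun y : (Fin e → ℂ) × ((Σ i, τ i) × Fin M → ℂ) => Mono.ucAdd i x₀ q y.1 y.2) := by
  classical
  refine PMap.pi fun p => ?_
  unfold Mono.ucAdd
  have h1 : PFun k (fun y : (Fin e → ℂ) × ((Σ i, τ i) × Fin M → ℂ) => y.2 p) :=
    PFun.comp (f := fun χ : (Σ i, τ i) × Fin M → ℂ => χ p) (PFun.apply (k := k) p) PMap.snd
  by_cases h : p.1 = ⟨i, x₀⟩ ∧ q ≤ (p.2 : ℕ) ∧ (p.2 : ℕ) - q < e
  · simp only [dif_pos h]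
    exact h1.add (PFun.comp (f := fun χ : Fin e → ℂ => χ ⟨(p.2 : ℕ) - q, h.2.2⟩)
      (PFun.apply (k := k) _) PMap.fst)
  · simp only [dif_neg h]
    exact h1.add PFun.zero

theorem uc_right {M : ℕ} (f : ∀ i, MvPolynomial (τ i) k) (w : Fin r → ℕ) {D : ℕ} (hD : 0 < D)
    (m : ℕ) {P : Set (Fin r → ℂ)} (hPc : ICons k P) (t : Test k) :
    ICons k {x : ((Σ i, τ i) × Fin M → ℂ) × t.E | x.2 ∈ t.W ∧ Om w D m (us f x.1) ∧
        pt w D m (us f x.1) ∈ P} := by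
  refine (t.cW.mem PMap.snd).and ((ICons.om f PMap.fst w hD m).and ?_)
  exact ICons.mem (f := fun x : ((Σ i, τ i) × Fin M → ℂ) × t.E => pt w D m (us f x.1)) hPc
    (PMap.pt f PMap.fst w D m)

theorem uc_left {M : ℕ} (f : ∀ i, MvPolynomial (τ i) k) (w : Fin r → ℕ) {D : ℕ} (hD : 0 < D)
    (m d : ℕ) {P : Set (Fin r → ℂ)} (hPc : ICons k P) (G : MvPolynomial (Fin r) k) (t : Test k) :
    ICons k {x : ((Σ i, τ i) × Fin M → ℂ) × t.E | x.2 ∈ t.W ∧ Om w D m (us f x.1) ∧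
        pt w D m (us f x.1) ∈ P ∧ ∀ l, l ≤ d → PowerSeries.coeff l (aeval (us f x.1) G) =
          if l = d then t.c x.2 else 0} := by
  refine (t.cW.mem PMap.snd).and ((ICons.om f PMap.fst w hD m).and
    (ICons.and ?_ (ICons.forall_le d fun l => ?_)))
  · exact ICons.mem (f := fun x : ((Σ i, τ i) × Fin M → ℂ) × t.E => pt w D m (us f x.1)) hPc
      (PMap.pt f PMap.fst w D m)
  · refine ICons.eq (PFun.coeff_aeval_us f PMap.fst G l) ?_
    by_cases hl : l = d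
    · simp only [if_pos hl]
      exact PFun.comp (f := t.c) t.pf PMap.snd
    · simp only [if_neg hl]
      exact PFun.zero

theorem equ_var {w : Fin r → ℕ} {n : ℕ} {G : MvPolynomial (Fin r) k}
    (hw : ∀ i, 0 < w i ∧ w i < n) (hG : IsWeightedHomogeneous w G n) {D m d : ℕ} (hD : 0 < D)
    (hmd : m * n < D * d) {f : ∀ i, MvPolynomial (τ i) k} {i : Fin r}
    (hf : ∃ x, f i = X x)
    {P : Set (Fin r → ℂ)} (hPc : ICons k P)
    (hP : ∀ p ∈ P, aeval p (pderiv i G) ≠ 0 ∧ aeval p G = 0) (t : Test k) :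
    mo k {x : ((Σ i, τ i) × Fin (d + 1) → ℂ) × t.E | x.2 ∈ t.W ∧ Om w D m (us f x.1) ∧
        pt w D m (us f x.1) ∈ P ∧ ∀ l, l ≤ d → PowerSeries.coeff l (aeval (us f x.1) G) =
          if l = d then t.c x.2 else 0} * ↑(Lu k ^ ((d - m * n / D : ℕ) : ℤ)) =
    mo k {x : ((Σ i, τ i) × Fin (d + 1) → ℂ) × t.E | x.2 ∈ t.W ∧ Om w D m (us f x.1) ∧
        pt w D m (us f x.1) ∈ P} := by
  obtain ⟨x₀, hx₀⟩ := hf
  have hL := uc_left (M := d + 1) f w hD m d hPc G t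
  have hR := uc_right (M := d + 1) f w hD m hPc t
  have hi : w i ≤ n := (hw i).2.le
  have hmn : m * n / D < d := by
    rw [Nat.div_lt_iff_lt_mul hD]
    linarith [Nat.mul_comm D d]
  have hmw : m * w i / D ≤ m * n / D := Nat.div_le_div_right (Nat.mul_le_mul_left m hi)
  have hq : m * w i / D + 1 + (d - m * n / D) ≤ d + 1 := by omega
  have e1 : ((Nat.card (Fin (d - m * n / D)) : ℕ) : ℤ) = ((d - m * n / D : ℕ) : ℤ) := by
    rw [Nat.card_eq_fintype_card, Fintype.card_fin]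
  rw [mul_comm, ← e1, ← mo_univ_pi (k := k) (α := Fin (d - m * n / D)),
    ← mo_prod ICons.univ hL]
  have hF : PMap k (fun y : (Fin (d - m * n / D) → ℂ) × ((Σ i, τ i) × Fin (d + 1) → ℂ) × t.E =>
      (ucAdd i x₀ (m * w i / D + 1) y.1 y.2.1, y.2.2)) := by
    have h1 : PMap k (fun y : (Fin (d - m * n / D) → ℂ) ×
        ((Σ i, τ i) × Fin (d + 1) → ℂ) × t.E => (y.1, y.2.1)) :=
      PMap.prodMk PMap.fst (PMap.comp (f := fun z : ((Σ i, τ i) × Fin (d + 1) → ℂ) × t.E => z.1)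
        PMap.fst PMap.snd)
    have h2 := PMap.comp (f := fun z : (Fin (d - m * n / D) → ℂ) ×
      ((Σ i, τ i) × Fin (d + 1) → ℂ) => ucAdd i x₀ (m * w i / D + 1) z.1 z.2)
      (PMap.ucAdd i x₀ (m * w i / D + 1)) h1
    exact PMap.prodMk h2 (PMap.comp (f := fun z : ((Σ i, τ i) × Fin (d + 1) → ℂ) × t.E => z.2)
      PMap.snd PMap.snd)
  refine mo_bij (ICons.prod ICons.univ hL) hR hF ⟨?_, ?_, ?_⟩
  · rintro ⟨ν, ψ, x⟩ ⟨-, hx, h1, h2, h3⟩
    simp only at hx h1 h2 h3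
    have h4 := om_update hD h1 i (ucSer ν)
    rw [← us_ucAdd hx₀ hq ν ψ] at h4
    refine ⟨hx, h4.1, ?_⟩
    simp only
    rw [h4.2]
    exact h2
  · rintro ⟨ν, ψ, x⟩ ⟨-, hx, h1, h2, h3⟩ ⟨ν', ψ', x'⟩ ⟨-, hx', h1', h2', h3'⟩ heq
    simp only [Prod.mk.injEq] at heq
    obtain ⟨hsc, rfl⟩ := heq
    simp only at hx h1 h2 h3 hx' h1' h2' h3'
    -- `ψ' = ψ + t^q (ν - ν')`
    have hψ : ψ' = ucAdd i x₀ (m * w i / D + 1) (ν - ν') ψ := by
      funext p
      have h5 := congrFun hsc p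
      unfold ucAdd at h5 ⊢
      split_ifs at h5 ⊢ with h6
      · simp only [Pi.sub_apply]
        linear_combination -h5
      · linear_combination -h5
    have h6 := us_ucAdd hx₀ hq (ν - ν') ψ
    rw [← hψ] at h6
    have h7 := solve_unique hD hG hi h1 (hP _ h2).1 (d := d) (ucSer (ν - ν')) 0 (by
      intro l hl
      rw [uc_update_zero, ← h6, h3 l hl, h3' l hl])
    have h8 : ν - ν' = 0 := by
      apply ucSer_inj
      have : ucSer (0 : Fin (d - m * n / D) → ℂ) = 0 := by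
        ext l
        rw [coeff_ucSer]
        simp
      rw [this]
      exact h7
    have h9 : ν = ν' := sub_eq_zero.1 h8
    subst h9
    have h10 : ψ' = ψ := by
      rw [hψ]
      funext p
      unfold ucAdd
      simp
    rw [h10]
  · rintro ⟨ψ₁, x⟩ ⟨hx, h1, h2⟩
    simp only at hx h1 h2
    obtain ⟨η, hη⟩ := exists_solve hD hG hi h1 (hP _ h2).1 (hP _ h2).2 hmd (t.c x)
    let ν : Fin (d - m * n / D) → ℂ := fun l => PowerSeries.coeff (l : ℕ) η
    have hν : PowerSeries.X ^ (d - m * n / D) ∣ ucSer ν - η := by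
      rw [PowerSeries.X_pow_dvd_iff]
      intro l hl
      rw [map_sub, coeff_ucSer, dif_pos hl, sub_self]
    have h3 := solve_congr hD hG hi h1 (hP _ h2).1 (d := d) (ucSer ν) η hν
    have h4 := om_update hD h1 i (ucSer ν)
    have h5 := us_ucAdd hx₀ hq ν ψ₁
    rw [← h5] at h4 h3
    refine ⟨(-ν, ucAdd i x₀ (m * w i / D + 1) ν ψ₁, x), ⟨Set.mem_univ _, hx, h4.1, ?_, ?_⟩, ?_⟩
    · simp only
      rw [h4.2]
      exact h2
    · intro l hl
      simp only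
      rw [h3 l hl, hη l hl]
    · simp only
      rw [ucAdd_neg]

end UC

end Pool.Agent.H75.Mono
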