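import Pool.Agent.H75.Mono.UB
import Pool.Agent.H75.Mono.UC

/-! # ROF2, module UD: the relative series of a composition -/

set_option autoImplicit false

namespace Pool.Agent.H75.Mono

open MvPolynomial Pool.Agent.H39.MonoR

/-- the only common zero of `∂_i G`, `i ∈ B`, and `x_i ∂_i G`, `i ∉ B`, is the origin -/
def Isol {k : Type} [Field k] [Algebra k ℂ] {r : ℕ} (G : MvPolynomial (Fin r) k)
    (B : Finset (Fin r)) : Prop :=
  ∀ x : Fin r → ℂ, (∀ i ∈ B, aeval x (pderiv i G) = 0) →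
    (∀ i, i ∉ B → x i * aeval x (pderiv i G) = 0) → x = 0

section UD

variable {k : Type} [Field k] [Algebra k ℂ] {r : ℕ} {τ : Fin r → Type} [∀ i, Finite (τ i)]

private theorem sum_mulM {J : Type*} (s : Finset J) (g : J → M k) (a : M k) :
    (∑ j ∈ s, g j) * a = ∑ j ∈ s, g j * a := Finset.sum_mul s g a

/-- the value of `∂_i G` for `i ∈ B` and of `x_i ∂_i G` for `i ∉ B` -/
private noncomputable def qv (G : MvPolynomial (Fin r) k) (B : Finset (Fin r)) (i : Fin r)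
    (p : Fin r → ℂ) : ℂ :=
  if i ∈ B then aeval p (pderiv i G) else p i * aeval p (pderiv i G)

/-- the strata -/
private def Pst (G : MvPolynomial (Fin r) k) (B : Finset (Fin r)) (i : Fin r) :
    Set (Fin r → ℂ) :=
  {p | (p ≠ 0 ∧ aeval p G = 0) ∧ qv G B i p ≠ 0 ∧ ∀ j, j < i → qv G B j p = 0}

private theorem exists_pst {G : MvPolynomial (Fin r) k} {B : Finset (Fin r)} (hI : Isol G B)
    {p : Fin r → ℂ} (hp : p ≠ 0) (hG : aeval p G = 0) : ∃ i, p ∈ Pst G B i := by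
  classical
  have h1 : ∃ i, qv G B i p ≠ 0 := by
    by_contra h
    push Not at h
    refine hp (hI p (fun i hi => ?_) (fun i hi => ?_))
    · have := h i
      rwa [qv, if_pos hi] at this
    · have := h i
      rwa [qv, if_neg hi] at this
  let s : Finset (Fin r) := Finset.univ.filter fun i => qv G B i p ≠ 0
  have hs : s.Nonempty := by
    obtain ⟨i, hi⟩ := h1
    exact ⟨i, Finset.mem_filter.2 ⟨Finset.mem_univ _, hi⟩⟩
  refine ⟨s.min' hs, ⟨hp, hG⟩, (Finset.mem_filter.1 (s.min'_mem hs)).2, fun j hj => ?_⟩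
  by_contra hne
  have : s.min' hs ≤ j := s.min'_le j (Finset.mem_filter.2 ⟨Finset.mem_univ _, hne⟩)
  exact absurd hj (not_lt.2 this)

private theorem pst_unique {G : MvPolynomial (Fin r) k} {B : Finset (Fin r)}
    {p : Fin r → ℂ} {i j : Fin r} (hi : p ∈ Pst G B i) (hj : p ∈ Pst G B j) : i = j := by
  rcases lt_trichotomy i j with h | h | h
  · exact absurd (hj.2.2 i h) hi.2.1
  · exact h
  · exact absurd (hi.2.2 j h) hj.2.1

private theorem icons_imp' {E : Type} [Aff E] (p : Prop) {q : p → E → Prop}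
    (h : ∀ hp, ICons k {x | q hp x}) : ICons k {x | ∀ hp : p, q hp x} := by
  by_cases hp : p
  · have e : {x | ∀ hp : p, q hp x} = {x | q hp x} := by
      ext x
      exact ⟨fun h => h hp, fun h _ => h⟩
    rw [e]
    exact h hp
  · have e : {x | ∀ hp : p, q hp x} = Set.univ := by
      ext x
      simp [hp]
    rw [e]
    exact ICons.univ

private theorem icons_ne0 : ICons k {p : Fin r → ℂ | p ≠ 0} := by
  have e : {p : Fin r → ℂ | p ≠ 0} = {p | ∃ i, p i ≠ 0} := by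
    ext p
    simp only [Set.mem_ofPred_eq]
    exact Function.ne_iff
  rw [e]
  exact ICons.exists_fin fun i => ICons.ne (PFun.apply i) PFun.zero

private theorem pfun_qv (G : MvPolynomial (Fin r) k) (B : Finset (Fin r)) (i : Fin r) :
    PFun k (fun p : Fin r → ℂ => qv G B i p) := by
  by_cases h : i ∈ B
  · simp only [qv, if_pos h]
    exact PFun.aeval' (E := Fin r → ℂ) (p := fun x => x) PMap.id' _
  · simp only [qv, if_neg h]
    exact (PFun.apply i).mul (PFun.aeval' (E := Fin r → ℂ) (p := fun x => x) PMap.id' _)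

private theorem icons_g0 (G : MvPolynomial (Fin r) k) :
    ICons k {p : Fin r → ℂ | aeval p G = 0} :=
  ICons.eq (PFun.aeval' (E := Fin r → ℂ) (p := fun x => x) PMap.id' G) PFun.zero

private theorem icons_pst (G : MvPolynomial (Fin r) k) (B : Finset (Fin r)) (i : Fin r) :
    ICons k (Pst G B i) :=
  (icons_ne0.and (icons_g0 G)).and ((ICons.ne (pfun_qv G B i) PFun.zero).and
    (ICons.forall_fin fun j => icons_imp' _ fun _ => ICons.eq (pfun_qv G B j) PFun.zero))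

private theorem icons_lvl {w : Fin r → ℕ} {G : MvPolynomial (Fin r) k} {D m d : ℕ} (hD : 0 < D)
    {f : ∀ i, MvPolynomial (τ i) k} {P : Set (Fin r → ℂ)} (hP : ICons k P) (t : Test k) :
    ICons k {x : ((Σ i, τ i) × Fin (d + 1) → ℂ) × t.E | x.2 ∈ t.W ∧ Om w D m (us f x.1) ∧
        pt w D m (us f x.1) ∈ P ∧ ∀ l, l ≤ d → PowerSeries.coeff l (aeval (us f x.1) G) =
          if l = d then t.c x.2 else 0} := by
  refine (t.cW.mem PMap.snd).and ((ICons.om f PMap.fst w hD m).and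
    ((hP.mem (PMap.pt f PMap.fst w D m)).and (ICons.forall_le d fun l => ?_)))
  refine ICons.eq (PFun.coeff_aeval_us f PMap.fst G l) ?_
  by_cases hl : l = d
  · simp only [if_pos hl]
    exact t.pf.comp PMap.snd
  · simp only [if_neg hl]
    exact PFun.zero

private theorem icons_lvl0 {w : Fin r → ℕ} {D m d : ℕ} (hD : 0 < D)
    {f : ∀ i, MvPolynomial (τ i) k} {P : Set (Fin r → ℂ)} (hP : ICons k P) (t : Test k) :
    ICons k {x : ((Σ i, τ i) × Fin (d + 1) → ℂ) × t.E | x.2 ∈ t.W ∧ Om w D m (us f x.1) ∧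
        pt w D m (us f x.1) ∈ P} :=
  (t.cW.mem PMap.snd).and ((ICons.om f PMap.fst w hD m).and
    (hP.mem (PMap.pt f PMap.fst w D m)))

private theorem zero_of_lvl {w : Fin r → ℕ} {n : ℕ} {G : MvPolynomial (Fin r) k}
    (hG : IsWeightedHomogeneous w G n) {D m d : ℕ} (hD : 0 < D)
    (hmd : m * n < D * d) {a : Fin r → PowerSeries ℂ} (hO : Om w D m a) {c : ℂ}
    (h : ∀ l, l ≤ d → PowerSeries.coeff l (aeval a G) = if l = d then c else 0) :
    aeval (pt w D m a) G = 0 := by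
  by_contra hne
  obtain ⟨l, hl⟩ := dvd_of_ne hG hne
  have h1 : l < d := by
    rw [hl] at hmd
    exact lt_of_mul_lt_mul_left hmd (Nat.zero_le _)
  have h2 := coeff_lead hD hG hO hl.symm
  rw [h l h1.le, if_neg h1.ne] at h2
  exact hne h2.symm

/-- one level: the arcs of weighted order exactly `m / D` with `G(f(ψ)) = c t^d mod t^(d+1)` -/
theorem level {w : Fin r → ℕ} {n : ℕ} {G : MvPolynomial (Fin r) k}
    (hw : ∀ i, 0 < w i ∧ w i < n) (hG : IsWeightedHomogeneous w G n) {D m d : ℕ} (hD : 0 < D)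
    (hmd : m * n < D * d) {f : ∀ i, MvPolynomial (τ i) k} (hf : ∀ i, QH (f i))
    {B : Finset (Fin r)} (hB : ∀ i ∈ B, ∃ x, f i = X x) (hI : Isol G B) (t : Test k) :
    mo k {x : ((Σ i, τ i) × Fin (d + 1) → ℂ) × t.E | x.2 ∈ t.W ∧ Om w D m (us f x.1) ∧
        pt w D m (us f x.1) ≠ 0 ∧ ∀ l, l ≤ d → PowerSeries.coeff l (aeval (us f x.1) G) =
          if l = d then t.c x.2 else 0} * ↑(Lu k ^ ((d - m * n / D : ℕ) : ℤ)) =
    mo k {ψ : (Σ i, τ i) × Fin (d + 1) → ℂ | Om w D m (us f ψ) ∧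
        pt w D m (us f ψ) ≠ 0 ∧ aeval (pt w D m (us f ψ)) G = 0} * mass t := by
  have e1 : {x : ((Σ i, τ i) × Fin (d + 1) → ℂ) × t.E | x.2 ∈ t.W ∧ Om w D m (us f x.1) ∧
        pt w D m (us f x.1) ≠ 0 ∧ ∀ l, l ≤ d → PowerSeries.coeff l (aeval (us f x.1) G) =
          if l = d then t.c x.2 else 0} =
      {x | ∃ i ∈ (Finset.univ : Finset (Fin r)), x ∈
        {x : ((Σ i, τ i) × Fin (d + 1) → ℂ) × t.E | x.2 ∈ t.W ∧ Om w D m (us f x.1) ∧
        pt w D m (us f x.1) ∈ Pst G B i ∧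
          ∀ l, l ≤ d → PowerSeries.coeff l (aeval (us f x.1) G) =
          if l = d then t.c x.2 else 0}} := by
    ext x
    constructor
    · rintro ⟨h1, h2, h3, h4⟩
      obtain ⟨i, hi⟩ := exists_pst hI h3 (zero_of_lvl hG hD hmd h2 h4)
      exact ⟨i, Finset.mem_univ i, h1, h2, hi, h4⟩
    · rintro ⟨i, -, h1, h2, h3, h4⟩
      exact ⟨h1, h2, h3.1.1, h4⟩
  have e2 : mo k {ψ : (Σ i, τ i) × Fin (d + 1) → ℂ | Om w D m (us f ψ) ∧
        pt w D m (us f ψ) ≠ 0 ∧ aeval (pt w D m (us f ψ)) G = 0} * mass t =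
      mo k {x | ∃ i ∈ (Finset.univ : Finset (Fin r)), x ∈
        {x : ((Σ i, τ i) × Fin (d + 1) → ℂ) × t.E | x.2 ∈ t.W ∧ Om w D m (us f x.1) ∧
        pt w D m (us f x.1) ∈ Pst G B i}} := by
    unfold mass
    rw [← mo_prod _ t.cW]
    · congr 1
      ext x
      constructor
      · rintro ⟨⟨h1, h2, h3⟩, h4⟩
        obtain ⟨i, hi⟩ := exists_pst hI h2 h3
        exact ⟨i, Finset.mem_univ i, h4, h1, hi⟩
      · rintro ⟨i, -, h1, h2, h3⟩
        exact ⟨⟨h2, h3.1.1, h3.1.2⟩, h1⟩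
    · exact (ICons.om f (ψ := fun x => x) PMap.id' w hD m).and
        ((icons_ne0.mem (PMap.pt f (ψ := fun x => x) PMap.id' w D m)).and
          ((icons_g0 G).mem (PMap.pt f (ψ := fun x => x) PMap.id' w D m)))
  rw [e1, e2, mo_biUnion, mo_biUnion, sum_mulM]
  · refine Finset.sum_congr rfl fun i _ => ?_
    by_cases hi : i ∈ B
    · refine equ_var hw hG hD hmd (hB i hi) (icons_pst G B i) (fun p hp => ?_) t
      have h1 := hp.2.1
      rw [qv, if_pos hi] at h1
      exact ⟨h1, hp.1.2⟩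
    · refine equ_log hw hG hD hmd (hf i) (icons_pst G B i) (fun p hp => ?_) t
      have h1 := hp.2.1
      rw [qv, if_neg hi] at h1
      exact ⟨h1, hp.1.2⟩
  · exact fun i _ => icons_lvl0 hD (icons_pst G B i) t
  · intro i _ j _ hij
    rw [Set.disjoint_left]
    rintro x ⟨-, -, h1⟩ ⟨-, -, h2⟩
    exact hij (pst_unique h1 h2)
  · exact fun i _ => icons_lvl hD (icons_pst G B i) t
  · intro i _ j _ hij
    rw [Set.disjoint_left]
    rintro x ⟨-, -, h1, -⟩ ⟨-, -, h2, -⟩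
    exact hij (pst_unique h1 h2)

private theorem om_anti {w : Fin r → ℕ} {D m m' : ℕ} {a : Fin r → PowerSeries ℂ}
    (h : Om w D m' a) (hm : m ≤ m') : Om w D m a :=
  fun i l hl => h i l (lt_of_lt_of_le hl (Nat.mul_le_mul_right _ hm))

/-- the relative series of a composition, up to a constant family -/
theorem zt_cmp {w : Fin r → ℕ} {n : ℕ} {G : MvPolynomial (Fin r) k}
    (hw : ∀ i, 0 < w i ∧ w i < n) (hn : 0 < n) (hG : IsWeightedHomogeneous w G n)
    {f : ∀ i, MvPolynomial (τ i) k} (hf : ∀ i, QH (f i))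
    {B : Finset (Fin r)} (hB : ∀ i ∈ B, ∃ x, f i = X x) (hI : Isol G B) :
    ∃ κ : ℕ → M k, ∀ (d : ℕ) (t : Test k), zt (cmp G f) d t =
      mo k {x : ((Σ i, τ i) × Fin (d + 1) → ℂ) × t.E | x.2 ∈ t.W ∧ Om w n d (us f x.1) ∧
        aeval (pt w n d (us f x.1)) G = t.c x.2} *
          ↑(Lu k ^ (-((Nat.card (Σ i, τ i) * d : ℕ) : ℤ))) + κ d * mass t := by
  classical
  let q : ℕ := ∏ i, w i
  have hq : 0 < q := Finset.prod_pos fun i _ => (hw i).1
  let D : ℕ := q * n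
  have hD : 0 < D := Nat.mul_pos hq hn
  have hwD : ∀ i, w i ∣ D := fun i =>
    Dvd.dvd.mul_right (Finset.dvd_prod_of_mem w (Finset.mem_univ i)) n
  refine ⟨fun d => ∑ m ∈ Finset.range (q * d),
    mo k {ψ : (Σ i, τ i) × Fin (d + 1) → ℂ | Om w D m (us f ψ) ∧
        pt w D m (us f ψ) ≠ 0 ∧ aeval (pt w D m (us f ψ)) G = 0} *
      (↑(Lu k ^ (-((d - m * n / D : ℕ) : ℤ))) *
        ↑(Lu k ^ (-((Nat.card (Σ i, τ i) * d : ℕ) : ℤ)))), fun d t => ?_⟩
  -- the set of arcs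
  have e0 : {x : ((Σ i, τ i) × Fin (d + 1) → ℂ) × t.E | x.2 ∈ t.W ∧
      Hit (cmp G f) d x.1 (t.c x.2)} =
      {x : ((Σ i, τ i) × Fin (d + 1) → ℂ) × t.E | x.2 ∈ t.W ∧
      ∀ l, l ≤ d → PowerSeries.coeff l (aeval (us f x.1) G) =
          if l = d then t.c x.2 else 0} := by
    ext x
    simp only [Set.mem_ofPred_eq, Hit, arcEval_cmp]
  have c0 : ICons k {x : ((Σ i, τ i) × Fin (d + 1) → ℂ) × t.E | x.2 ∈ t.W ∧
      ∀ l, l ≤ d → PowerSeries.coeff l (aeval (us f x.1) G) =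
          if l = d then t.c x.2 else 0} := by
    rw [← e0]
    exact icons_hitSet d (cmp G f) t
  have c1 : ICons k {x : ((Σ i, τ i) × Fin (d + 1) → ℂ) × t.E | Om w n d (us f x.1)} :=
    ICons.om f PMap.fst w hn d
  have hO : ∀ a : Fin r → PowerSeries ℂ, Om w D (q * d) a ↔ Om w n d a := fun a =>
    om_scale hq d a
  have e1 : {x : ((Σ i, τ i) × Fin (d + 1) → ℂ) × t.E | x ∈
      {x : ((Σ i, τ i) × Fin (d + 1) → ℂ) × t.E | x.2 ∈ t.W ∧
      ∀ l, l ≤ d → PowerSeries.coeff l (aeval (us f x.1) G) =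
          if l = d then t.c x.2 else 0} ∧ Om w n d (us f x.1)} =
      {x : ((Σ i, τ i) × Fin (d + 1) → ℂ) × t.E | x.2 ∈ t.W ∧ Om w n d (us f x.1) ∧
        aeval (pt w n d (us f x.1)) G = t.c x.2} := by
    ext x
    constructor
    · rintro ⟨⟨h1, h2⟩, h3⟩
      refine ⟨h1, h3, ?_⟩
      rw [← coeff_lead hn hG h3 (l := d) (Nat.mul_comm n d), h2 d le_rfl, if_pos rfl]
    · rintro ⟨h1, h2, h3⟩
      refine ⟨⟨h1, fun l hl => ?_⟩, h2⟩
      by_cases hld : l = d
      · rw [if_pos hld, hld, coeff_lead hn hG h2 (l := d) (Nat.mul_comm n d), h3]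
      · rw [if_neg hld]
        refine coeff_low hn hG h2 ?_
        rw [Nat.mul_comm d n]
        exact Nat.mul_lt_mul_of_pos_left (by omega) hn
  have e2 : {x : ((Σ i, τ i) × Fin (d + 1) → ℂ) × t.E | x ∈
      {x : ((Σ i, τ i) × Fin (d + 1) → ℂ) × t.E | x.2 ∈ t.W ∧
      ∀ l, l ≤ d → PowerSeries.coeff l (aeval (us f x.1) G) =
          if l = d then t.c x.2 else 0} ∧ ¬ Om w n d (us f x.1)} =
      {x | ∃ m ∈ Finset.range (q * d), x ∈
        {x : ((Σ i, τ i) × Fin (d + 1) → ℂ) × t.E | x.2 ∈ t.W ∧ Om w D m (us f x.1) ∧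
        pt w D m (us f x.1) ≠ 0 ∧ ∀ l, l ≤ d → PowerSeries.coeff l (aeval (us f x.1) G) =
          if l = d then t.c x.2 else 0}} := by
    ext x
    constructor
    · rintro ⟨⟨h1, h2⟩, h3⟩
      have hex : ∃ m, ¬ Om w D m (us f x.1) := ⟨q * d, fun h => h3 ((hO _).1 h)⟩
      have h4 := Nat.find_spec hex
      have h5 : Nat.find hex ≤ q * d := Nat.find_min' hex fun h => h3 ((hO _).1 h)
      have h6 : Nat.find hex ≠ 0 := fun h => by
        rw [h] at h4
        exact h4 (om_zero _ _ _)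
      obtain ⟨m, hm⟩ : ∃ m, Nat.find hex = m + 1 := Nat.exists_eq_succ_of_ne_zero h6
      have h7 : Om w D m (us f x.1) := by
        have := Nat.find_min hex (m := m) (by omega)
        exact not_not.1 this
      rw [hm, om_succ_iff hD (fun i => (hw i).1) hwD] at h4
      exact ⟨m, Finset.mem_range.2 (by omega), h1, h7, fun h => h4 ⟨h7, h⟩, h2⟩
    · rintro ⟨m, hm, h1, h2, h3, h4⟩
      refine ⟨⟨h1, h4⟩, fun h5 => h3 ?_⟩
      have h6 := om_anti ((hO _).2 h5) (Nat.succ_le_of_lt (Finset.mem_range.1 hm))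
      exact ((om_succ_iff hD (fun i => (hw i).1) hwD m _).1 h6).2
  unfold zt
  rw [e0, mo_split c0 c1, e1, e2, mo_biUnion, add_mul]
  · congr 1
    beta_reduce
    rw [sum_mulM, sum_mulM]
    refine Finset.sum_congr rfl fun m hm => ?_
    have hm' := Finset.mem_range.1 hm
    have hmd : m * n < D * d := by
      have := Nat.mul_lt_mul_of_pos_right hm' hn
      calc m * n < q * d * n := this
        _ = D * d := by simp only [D]; ring
    have h1 := level hw hG hD hmd hf hB hI t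
    have h2 : ∀ (a : M k) (e : ℤ) (b c : M k), a * ↑(Lu k ^ e) = b * c →
        ∀ g : M k, a * g = b * (↑(Lu k ^ (-e)) * g) * c := by
      intro a e b c h g
      have h3 : a = a * ↑(Lu k ^ e) * ↑(Lu k ^ (-e)) := by
        rw [mul_assoc, ← Units.val_mul, ← zpow_add]
        simp
      rw [h3, h]
      ring
    exact h2 _ _ _ _ h1 _
  · intro m _
    exact icons_lvl hD icons_ne0 t
  · have key : ∀ m m' : ℕ, m < m' → Disjoint
        {x : ((Σ i, τ i) × Fin (d + 1) → ℂ) × t.E | x.2 ∈ t.W ∧ Om w D m (us f x.1) ∧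
        pt w D m (us f x.1) ≠ 0 ∧ ∀ l, l ≤ d → PowerSeries.coeff l (aeval (us f x.1) G) =
          if l = d then t.c x.2 else 0}
        {x : ((Σ i, τ i) × Fin (d + 1) → ℂ) × t.E | x.2 ∈ t.W ∧ Om w D m' (us f x.1) ∧
        pt w D m' (us f x.1) ≠ 0 ∧ ∀ l, l ≤ d → PowerSeries.coeff l (aeval (us f x.1) G) =
          if l = d then t.c x.2 else 0} := by
      intro m m' hmm
      rw [Set.disjoint_left]
      rintro x ⟨-, -, h1, -⟩ ⟨-, h2, -, -⟩
      exact h1 ((om_succ_iff hD (fun i => (hw i).1) hwD m _).1 (om_anti h2 hmm)).2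
    intro m _ m' _ hmm
    rcases lt_or_gt_of_ne hmm with h | h
    · exact key m m' h
    · exact (key m' m h).symm

end UD

end Pool.Agent.H75.Mono
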