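import Pool.Agent.H75.Mono.VA

/-! # ROF2, module WD: regular sequences have only Koszul relations -/

set_option autoImplicit false

namespace Pool.Agent.H75.Mono

open RingTheory.Sequence

theorem koszul_of_regular {A : Type*} [CommRing A] {r : ℕ} (q : Fin r → A)
    (h : IsWeaklyRegular A (List.ofFn q)) : Koszul q := by
  induction r with
  | zero =>
    intro a _
    exact ⟨fun i => i.elim0, fun i => i.elim0, fun i => i.elim0, fun i => i.elim0⟩
  | succ r ih =>
    have e : List.ofFn q = List.ofFn (fun i : Fin r => q i.castSucc) ++ [q (Fin.last r)] := by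
      rw [List.ofFn_succ', List.concat_eq_append]
    rw [e, isWeaklyRegular_append_iff] at h
    obtain ⟨h1, h2⟩ := h
    rw [isWeaklyRegular_singleton_iff] at h2
    have ih' := ih _ h1
    intro a ha
    have hI : (Ideal.ofList (List.ofFn fun i : Fin r => q i.castSucc) • ⊤ : Submodule A A) =
        Ideal.span (Set.range (fun i : Fin r => q i.castSucc)) := by
      rw [smul_eq_mul, Ideal.mul_top, Ideal.ofList]
      congr 1
      ext x
      simp [List.mem_ofFn]
    rw [hI, isSMulRegular_quotient_iff_mem_of_smul_mem] at h2
    rw [Fin.sum_univ_castSucc] at ha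
    have h3 : a (Fin.last r) ∈ Ideal.span (Set.range (fun i : Fin r => q i.castSucc)) := by
      apply h2
      have : q (Fin.last r) • a (Fin.last r) = - ∑ i : Fin r, a i.castSucc * q i.castSucc := by
        rw [smul_eq_mul]
        linear_combination ha
      rw [this]
      refine neg_mem (Ideal.sum_mem _ fun i _ => Ideal.mul_mem_left _ _ ?_)
      exact Ideal.subset_span ⟨i, rfl⟩
    rw [Ideal.mem_span_range_iff_exists_fun] at h3
    obtain ⟨c, hc⟩ := h3
    obtain ⟨b, hb1, hb2, hb3⟩ := ih' (fun i => a i.castSucc + c i * q (Fin.last r)) (by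
      rw [← hc, Finset.sum_mul, ← Finset.sum_add_distrib] at ha
      rw [← ha]
      refine Finset.sum_congr rfl fun i _ => ?_
      ring)
    refine ⟨Fin.snoc (fun i : Fin r => Fin.snoc (b i) (- c i)) (Fin.snoc c 0), ?_, ?_, ?_⟩
    · intro i
      refine Fin.lastCases ?_ (fun i => ?_) i
      · simp
      · simp [hb1]
    · intro i j
      refine Fin.lastCases ?_ (fun i => ?_) i <;> refine Fin.lastCases ?_ (fun j => ?_) j
      · simp
      · simp
      · simp
      · simpa using hb2 i j
    · intro i
      refine Fin.lastCases ?_ (fun i => ?_) i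
      · rw [Fin.sum_univ_castSucc]
        simp [hc]
      · rw [Fin.sum_univ_castSucc]
        simp only [Fin.snoc_castSucc, Fin.snoc_last]
        have := hb3 i
        rw [← this]
        ring

end Pool.Agent.H75.Mono
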