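import Pool.Agent.H75.Mono.VA

/-! # ROF2, module WE: the local ring of the affine space at the origin -/

set_option autoImplicit false

namespace Pool.Agent.H75.Mono

open RingTheory.Sequence MvPolynomial

/-- the maximal ideal of the origin -/
noncomputable def orig (k : Type) [Field k] (r : ℕ) : Ideal (MvPolynomial (Fin r) k) :=
  RingHom.ker (constantCoeff : MvPolynomial (Fin r) k →+* k)

instance (k : Type) [Field k] (r : ℕ) : (orig k r).IsPrime := by
  unfold orig
  exact RingHom.ker_isPrime _

section WE

variable {k : Type} [Field k] {r : ℕ}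

/-- the ideal of the first `i` powers is a monomial ideal -/
private theorem we_ofList (m : Fin r → ℕ) (i : ℕ) :
    Ideal.ofList ((List.ofFn fun i => (X i ^ m i : MvPolynomial (Fin r) k)).take i) =
      Ideal.span ((fun s => monomial s (1 : k)) ''
        {s | ∃ j : Fin r, (j : ℕ) < i ∧ s = Finsupp.single j (m j)}) := by
  unfold Ideal.ofList
  congr 1
  ext x
  simp only [Set.mem_ofPred_eq, Set.mem_image]
  rw [List.mem_take_iff_getElem]
  constructor
  · rintro ⟨j, hj, rfl⟩
    simp only [List.length_ofFn, lt_min_iff] at hj
    refine ⟨Finsupp.single ⟨j, hj.2⟩ (m ⟨j, hj.2⟩), ⟨⟨j, hj.2⟩, hj.1, rfl⟩, ?_⟩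
    simp [X_pow_eq_monomial]
  · rintro ⟨s, ⟨j, hj, rfl⟩, rfl⟩
    refine ⟨j, by simp [hj], ?_⟩
    simp [X_pow_eq_monomial]

private theorem we_weak (m : Fin r → ℕ) :
    IsWeaklyRegular (MvPolynomial (Fin r) k)
      (List.ofFn fun i => (X i ^ m i : MvPolynomial (Fin r) k)) := by
  constructor
  intro i hi
  rw [List.length_ofFn] at hi
  rw [isSMulRegular_iff_right_eq_zero_of_smul]
  intro y hy
  obtain ⟨p, rfl⟩ := Submodule.Quotient.mk_surjective _ y
  rw [← Submodule.Quotient.mk_smul, Submodule.Quotient.mk_eq_zero] at hy
  rw [Submodule.Quotient.mk_eq_zero]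
  simp only [smul_eq_mul, Ideal.mul_top, we_ofList, List.getElem_ofFn] at hy ⊢
  rw [mem_ideal_span_monomial_image] at hy ⊢
  intro d hd
  obtain ⟨s, ⟨j, hj, rfl⟩, hs⟩ := hy (Finsupp.single ⟨i, hi⟩ (m ⟨i, hi⟩) + d) (by
    rw [mem_support_iff] at hd ⊢
    rwa [X_pow_eq_monomial, coeff_monomial_mul, one_mul])
  refine ⟨_, ⟨j, hj, rfl⟩, ?_⟩
  rw [Finsupp.single_le_iff] at hs ⊢
  have hne : (⟨i, hi⟩ : Fin r) ≠ j := by
    rintro rfl
    exact lt_irrefl _ hj
  simpa [Finsupp.single_apply, hne] using hs

/-- the powers of the variables form a regular sequence in the local ring -/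
theorem X_pow_regular (m : Fin r → ℕ) (hm : ∀ i, 0 < m i) :
    IsRegular (Localization.AtPrime (orig k r)) (List.ofFn fun i =>
      algebraMap (MvPolynomial (Fin r) k) (Localization.AtPrime (orig k r)) (X i ^ m i)) := by
  have h := (we_weak (k := k) m).isRegular_of_isLocalization_of_mem
    (Localization.AtPrime (orig k r)) (orig k r) (by
      intro x hx
      rw [List.mem_ofFn] at hx
      obtain ⟨i, rfl⟩ := hx
      simp [orig, RingHom.mem_ker, (hm i).ne'])
  rwa [List.map_ofFn] at h

private theorem we_comp {w : Fin r → ℕ} {q : MvPolynomial (Fin r) k} {d : ℕ}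
    (hq : IsWeightedHomogeneous w q d) (p : MvPolynomial (Fin r) k) (n : ℕ) :
    weightedHomogeneousComponent w n (p * q) =
      if d ≤ n then weightedHomogeneousComponent w (n - d) p * q else 0 := by
  classical
  induction p using MvPolynomial.induction_on' with
  | monomial u a =>
    have h1 : IsWeightedHomogeneous w (monomial u a : MvPolynomial (Fin r) k)
      (Finsupp.weight w u) := isWeightedHomogeneous_monomial w u a rfl
    have h2 := h1.mul hq
    by_cases hn : Finsupp.weight w u + d = n
    · subst hn
      rw [h2.weightedHomogeneousComponent_same, if_pos (by omega), Nat.add_sub_cancel,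
        h1.weightedHomogeneousComponent_same]
    · rw [h2.weightedHomogeneousComponent_ne _ (Ne.symm hn)]
      split_ifs with hd
      · rw [h1.weightedHomogeneousComponent_ne _ (by omega), zero_mul]
      · rfl
  | add p1 p2 h1 h2 =>
    rw [add_mul, map_add, h1, h2]
    split_ifs
    · rw [map_add, add_mul]
    · rw [add_zero]

/-- Koszul relations of weighted homogeneous polynomials descend from the local ring -/
theorem koszul_descent {w : Fin r → ℕ} (hw : ∀ i, 0 < w i) {q : Fin r → MvPolynomial (Fin r) k}
    {d : Fin r → ℕ} (hq : ∀ i, IsWeightedHomogeneous w (q i) (d i))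
    (h : Koszul fun i =>
      algebraMap (MvPolynomial (Fin r) k) (Localization.AtPrime (orig k r)) (q i)) :
    Koszul q := by
  classical
  -- homogeneous relations
  have key : ∀ (e : ℕ) (a : Fin r → MvPolynomial (Fin r) k), ∑ i, a i * q i = 0 →
      (∀ i, a i = if d i ≤ e then weightedHomogeneousComponent w (e - d i) (a i) else 0) →
      ∃ b : Fin r → Fin r → MvPolynomial (Fin r) k,
        (∀ i, b i i = 0) ∧ (∀ i j, b i j = -b j i) ∧ ∀ i, a i = ∑ j, b i j * q j := by
    intro e a ha hh
    obtain ⟨b, hb1, hb2, hb3⟩ := h (fun i => algebraMap _ _ (a i)) (by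
      simp only [← map_mul, ← map_sum, ha, map_zero])
    obtain ⟨s, hs⟩ := IsLocalization.exist_integer_multiples_of_finite
      (orig k r).primeCompl (fun x : Fin r × Fin r => b x.1 x.2)
    choose c hc using hs
    have hinj : Function.Injective
        (algebraMap (MvPolynomial (Fin r) k) (Localization.AtPrime (orig k r))) :=
      IsLocalization.injective _ (orig k r).primeCompl_le_nonZeroDivisors
    have hs0 : coeff 0 (s : MvPolynomial (Fin r) k) ≠ 0 := by
      intro h0
      exact s.2 (by simpa [orig, RingHom.mem_ker, constantCoeff_eq] using h0)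
    have hc1 : ∀ i, c (i, i) = 0 := by
      intro i
      apply hinj
      rw [hc, map_zero]
      simp [hb1]
    have hc2 : ∀ i j, c (i, j) = -c (j, i) := by
      intro i j
      apply hinj
      rw [map_neg, hc, hc]
      simp only
      rw [hb2 i j, smul_neg]
    have hc3 : ∀ i, (s : MvPolynomial (Fin r) k) * a i = ∑ j, c (i, j) * q j := by
      intro i
      apply hinj
      simp only [map_mul, map_sum, hc, hb3 i, Finset.mul_sum]
      refine Finset.sum_congr rfl fun j _ => ?_
      rw [Algebra.smul_def, mul_assoc]
    refine ⟨fun i j => if d i + d j ≤ e then C (coeff 0 (s : MvPolynomial (Fin r) k))⁻¹ *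
      weightedHomogeneousComponent w (e - (d i + d j)) (c (i, j)) else 0, ?_, ?_, ?_⟩
    · intro i
      simp [hc1]
    · intro i j
      simp only
      rw [add_comm (d i) (d j), hc2 i j, map_neg]
      split_ifs
      · ring
      · rw [neg_zero]
    · intro i
      by_cases hde : d i ≤ e
      · have h1 : weightedHomogeneousComponent w (e - d i)
            ((s : MvPolynomial (Fin r) k) * a i) =
            C (coeff 0 (s : MvPolynomial (Fin r) k)) * a i := by
          have h2 : IsWeightedHomogeneous w (a i) (e - d i) := by
            have := hh i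
            rw [if_pos hde] at this
            rw [this]
            exact weightedHomogeneousComponent_isWeightedHomogeneous _ _
          rw [we_comp h2, if_pos le_rfl, Nat.sub_self,
            weightedHomogeneousComponent_zero _ (fun i => (hw i).ne')]
        have h3 : a i = C (coeff 0 (s : MvPolynomial (Fin r) k))⁻¹ *
            (C (coeff 0 (s : MvPolynomial (Fin r) k)) * a i) := by
          rw [← mul_assoc, ← C_mul, inv_mul_cancel₀ hs0, C_1, one_mul]
        rw [h3, ← h1, hc3 i, map_sum, Finset.mul_sum]
        refine Finset.sum_congr rfl fun j _ => ?_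
        rw [we_comp (hq j)]
        beta_reduce
        by_cases hj : d i + d j ≤ e
        · rw [if_pos (by omega), if_pos hj, Nat.sub_sub, mul_assoc]
        · rw [if_neg (by omega), if_neg hj, mul_zero, zero_mul]
      · rw [hh i, if_neg hde]
        symm
        refine Finset.sum_eq_zero fun j _ => ?_
        beta_reduce
        rw [if_neg (by omega), zero_mul]
  -- all relations
  intro a ha
  have h1 : ∀ e, ∃ b : Fin r → Fin r → MvPolynomial (Fin r) k,
        (∀ i, b i i = 0) ∧ (∀ i j, b i j = -b j i) ∧
        ∀ i, (if d i ≤ e then weightedHomogeneousComponent w (e - d i) (a i) else 0) =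
          ∑ j, b i j * q j := by
    intro e
    refine key e _ ?_ ?_
    · have h2 := congrArg (weightedHomogeneousComponent w e) ha
      rw [map_zero, map_sum] at h2
      refine Eq.trans (Finset.sum_congr rfl fun i _ => ?_) h2
      rw [we_comp (hq i)]
      split_ifs
      · rfl
      · rw [zero_mul]
    · intro i
      split_ifs with hi
      · exact ((weightedHomogeneousComponent_isWeightedHomogeneous
          (e - d i) (a i)).weightedHomogeneousComponent_same).symm
      · rfl
  choose b hb1 hb2 hb3 using h1
  obtain ⟨N, hN⟩ : ∃ N : ℕ, ∀ i, weightedTotalDegree w (a i) + d i < N := by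
    refine ⟨(∑ i, (weightedTotalDegree w (a i) + d i)) + 1, fun i => ?_⟩
    have := Finset.single_le_sum (f := fun i => weightedTotalDegree w (a i) + d i)
      (fun i _ => Nat.zero_le _) (Finset.mem_univ i)
    exact Nat.lt_succ_of_le this
  refine ⟨fun i j => ∑ e ∈ Finset.range N, b e i j, ?_, ?_, ?_⟩
  · intro i
    simp [hb1]
  · intro i j
    simp only
    rw [← Finset.sum_neg_distrib]
    exact Finset.sum_congr rfl fun e _ => hb2 e i j
  · intro i
    simp only [Finset.sum_mul]
    rw [Finset.sum_comm]
    simp only [← hb3]
    ext u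
    rw [coeff_sum]
    rw [Finset.sum_eq_single (Finsupp.weight w u + d i)]
    · rw [if_pos (by omega), Nat.add_sub_cancel, coeff_weightedHomogeneousComponent, if_pos rfl]
    · intro e _ he
      split_ifs with hi
      · rw [coeff_weightedHomogeneousComponent, if_neg (by omega)]
      · rw [coeff_zero]
    · intro hu
      rw [if_pos (by omega), Nat.add_sub_cancel, coeff_weightedHomogeneousComponent, if_pos rfl]
      by_contra hne
      have h3 := le_weightedTotalDegree w (mem_support_iff.2 hne)
      have h4 := hN i
      rw [Finset.mem_range] at hu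
      omega

end WE

end Pool.Agent.H75.Mono
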