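import Pool.Agent.H75.Mono.WC
import Pool.Agent.H75.Mono.WD
import Pool.Agent.H75.Mono.WE
import Pool.Agent.H75.Mono.UD

/-! # ROF2, module WF: isolated singularities and Koszul relations -/

set_option autoImplicit false

namespace Pool.Agent.H75.Mono

open RingTheory.Sequence MvPolynomial

section WF

variable {k : Type} [Field k] [Algebra k ℂ] {r : ℕ}

/-- Nullstellensatz -/
theorem X_pow_mem {q : Fin r → MvPolynomial (Fin r) k}
    (h : ∀ x : Fin r → ℂ, (∀ i, aeval x (q i) = 0) → x = 0) (i : Fin r) :
    ∃ m : ℕ, 0 < m ∧ (X i : MvPolynomial (Fin r) k) ^ m ∈ Ideal.ofList (List.ofFn q) := by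
  have h1 : (X i : MvPolynomial (Fin r) k) ∈
      vanishingIdeal k (zeroLocus ℂ (Ideal.ofList (List.ofFn q))) := by
    rw [mem_vanishingIdeal_iff]
    intro x hx
    rw [mem_zeroLocus_iff] at hx
    have h2 : x = 0 := h x fun j => hx (q j) (Ideal.subset_span (List.mem_ofFn.2 ⟨j, rfl⟩))
    rw [h2, aeval_X]
    rfl
  rw [vanishingIdeal_zeroLocus_eq_radical] at h1
  obtain ⟨m, hm⟩ := h1
  exact ⟨m + 1, Nat.succ_pos m, by rw [pow_succ]; exact Ideal.mul_mem_right _ _ hm⟩

theorem wf_maximal {w : Fin r → ℕ} {p : MvPolynomial (Fin r) k} {d : ℕ} (hd : 0 < d)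
    (hp : IsWeightedHomogeneous w p d) :
    algebraMap (MvPolynomial (Fin r) k) (Localization.AtPrime (orig k r)) p ∈
      IsLocalRing.maximalIdeal (Localization.AtPrime (orig k r)) := by
  rw [IsLocalization.AtPrime.to_map_mem_maximal_iff (Localization.AtPrime (orig k r)) (orig k r)]
  unfold orig
  rw [RingHom.mem_ker]
  show coeff 0 p = 0
  refine hp.coeff_eq_zero 0 ?_
  rw [map_zero]
  exact hd.ne

/-- `r` weighted homogeneous polynomials in `r` variables without common zeros outside the origin
have only Koszul relations -/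
theorem koszul_of_zero {w : Fin r → ℕ} (hw : ∀ i, 0 < w i) {q : Fin r → MvPolynomial (Fin r) k}
    {d : Fin r → ℕ} (hd : ∀ i, 0 < d i) (hq : ∀ i, IsWeightedHomogeneous w (q i) (d i))
    (h : ∀ x : Fin r → ℂ, (∀ i, aeval x (q i) = 0) → x = 0) : Koszul q := by
  refine koszul_descent hw hq (koszul_of_regular _ ?_)
  haveI : IsNoetherianRing (Localization.AtPrime (orig k r)) :=
    IsLocalization.isNoetherianRing (orig k r).primeCompl _ inferInstance
  choose m hm hX using X_pow_mem h
  refine (regular_of_depth r (Localization.AtPrime (orig k r)) (List.ofFn fun i =>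
    algebraMap (MvPolynomial (Fin r) k) (Localization.AtPrime (orig k r)) (q i))
    (List.length_ofFn) ?_ ⟨_, List.length_ofFn, ?_, X_pow_regular m hm⟩).toIsWeaklyRegular
  · intro x hx
    obtain ⟨i, rfl⟩ := List.mem_ofFn.1 hx
    exact wf_maximal (hd i) (hq i)
  · intro x hx
    obtain ⟨i, rfl⟩ := List.mem_ofFn.1 hx
    have h1 := Ideal.mem_map_of_mem
      (algebraMap (MvPolynomial (Fin r) k) (Localization.AtPrime (orig k r))) (hX i)
    rw [Ideal.map_ofList, List.map_ofFn] at h1
    exact h1

theorem koszul_jac {w : Fin r → ℕ} {n : ℕ} {G : MvPolynomial (Fin r) k}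
    (hw : ∀ i, 0 < w i ∧ w i < n) (hG : IsWeightedHomogeneous w G n) {B B' : Finset (Fin r)}
    (hB : B ⊆ B') (hI : Isol G B) : Koszul (jac G B') := by
  have hp : ∀ i, IsWeightedHomogeneous w (pderiv i G) (n - w i) := fun i =>
    hG.pderiv (Nat.sub_add_cancel (hw i).2.le)
  refine koszul_of_zero (w := w) (fun i => (hw i).1)
    (d := fun i => if i ∈ B' then n - w i else w i + (n - w i)) ?_ ?_ ?_
  · intro i
    have := hw i
    show 0 < if i ∈ B' then n - w i else w i + (n - w i)
    split_ifs <;> omega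
  · intro i
    unfold jac
    show IsWeightedHomogeneous w _ (if i ∈ B' then n - w i else w i + (n - w i))
    split_ifs
    · exact hp i
    · exact (isWeightedHomogeneous_X _ w i).mul (hp i)
  · intro x hx
    have hx' : ∀ i, x i * aeval x (pderiv i G) = 0 := by
      intro i
      have h1 := hx i
      unfold jac at h1
      split_ifs at h1
      · rw [h1, mul_zero]
      · rwa [map_mul, aeval_X] at h1
    refine hI x (fun i hi => ?_) (fun i _ => hx' i)
    have h1 := hx i
    unfold jac at h1
    rwa [if_pos (hB hi)] at h1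

end WF

end Pool.Agent.H75.Mono
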