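import Pool.Agent.H75.Mono.FIN
import Pool.Agent.H75.Mono.UF
import Pool.Agent.H75.Mono.VC
import Pool.Agent.H75.Mono.WF

/-! # ROF2: assembly -/

set_option autoImplicit false

namespace Pool.Agent.H75.Mono

open MvPolynomial Pool.Agent.H39.MonoR

/-- the class of composites: the smallest class of polynomials which contains the variables and is
closed under nonzero scalar multiples, powers, products and sums in separate variables, and
compositions `G(f_0, …, f_r)` in separate variables, `G` weighted homogeneous, nondegenerate relative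
to the set of indices `B`, where `f_i` is a variable for `i ∈ B` -/
inductive Comp {k : Type} [Field k] [Algebra k ℂ] {σ : Type} [DecidableEq σ] :
    Finset σ → MvPolynomial σ k → Prop
  | var (i : σ) : Comp {i} (X i)
  | smul {s : Finset σ} {f : MvPolynomial σ k} (c : k) : c ≠ 0 → Comp s f → Comp s (C c * f)
  | pow {s : Finset σ} {f : MvPolynomial σ k} (m : ℕ) : m ≠ 0 → Comp s f → Comp s (f ^ m)
  | mul {s t : Finset σ} {f g : MvPolynomial σ k} : Disjoint s t → Comp s f → Comp t g →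
      Comp (s ∪ t) (f * g)
  | add {s t : Finset σ} {f g : MvPolynomial σ k} : Disjoint s t → Comp s f → Comp t g →
      Comp (s ∪ t) (f + g)
  | gate {r : ℕ} {s : Fin (r + 1) → Finset σ} {f : Fin (r + 1) → MvPolynomial σ k}
      {w : Fin (r + 1) → ℕ} {n : ℕ} {G : MvPolynomial (Fin (r + 1)) k}
      (B : Finset (Fin (r + 1))) : (∀ i, 0 < w i ∧ w i < n) → IsWeightedHomogeneous w G n →
      Isol G B → (∀ i j, i ≠ j → Disjoint (s i) (s j)) → (∀ i ∈ B, ∃ j, f i = X j) →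
      (∀ i, Comp (s i) (f i)) → Comp (Finset.univ.biUnion s) (aeval f G)

section FIN2

variable {k : Type} [Field k] {σ τ : Type}

theorem Nc.of_sr [CharZero k] {F : MvPolynomial σ k} {s : ℚ} (h : SR k F s) : Nc F := by
  classical
  by_contra hc
  have hc : ∀ i, pderiv i F = 0 := fun i => by
    by_contra hi
    exact hc ⟨i, hi⟩
  have hF : F = C (coeff 0 F) := by
    ext m
    rw [coeff_C]
    by_cases hm : 0 = m
    · rw [if_pos hm, hm]
    · rw [if_neg hm]
      obtain ⟨i, hi⟩ : ∃ i, m i ≠ 0 := by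
        by_contra hi
        exact hm (Finsupp.ext fun i => by
          by_contra h'
          exact hi ⟨i, fun h0 => h' (by rw [h0]; rfl)⟩)
      have h1 := coeff_pderiv (i := i) F (m - Finsupp.single i 1)
      rw [hc i, coeff_zero, Finsupp.sub_add_single_one_cancel hi] at h1
      rcases mul_eq_zero.1 h1.symm with h2 | h2
      · exact h2
      · exact absurd h2 (Nat.cast_add_one_ne_zero _)
  obtain ⟨c, hc0⟩ := h
  have h1 : c.ρ F = algebraMap k _ (coeff 0 F) := by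
    have h0 : c.ρ (C (coeff 0 F)) = algebraMap k _ (coeff 0 F) := by
      rw [← algebraMap_eq]
      exact c.ρ.commutes _
    rw [← h0]
    exact congrArg _ hF
  rw [h1, Module.algebraMap_end_apply] at hc0
  rcases smul_eq_zero.1 hc0 with h2 | h2
  · have h4 := c.mul 0
    rw [h1, h2, map_zero] at h4
    exact c.ne h4.symm
  · exact c.ne h2

variable [Algebra k ℂ] [Finite σ] [Finite τ]

/-- the data used in compositions -/
def Dat (f : MvPolynomial σ k) (S : Finset (ℤ × ℕ)) : Prop :=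
  QH f ∧ ZRat f (S : Set (ℤ × ℕ)) ∧ ∀ p ∈ S, p.1 < 0 ∧ 0 < p.2 ∧ SR k f (-(p.1 : ℚ) / p.2)

theorem Pn.dat {f : MvPolynomial σ k} (h : Pn f) : ∃ S, Dat f S ∧ ((-1, 1) : ℤ × ℕ) ∈ S := by
  classical
  obtain ⟨h1, hq, S, h3, h4⟩ := h
  refine ⟨insert (-1, 1) S, ⟨hq, ?_, fun p hp => Pn.sr h1 h4 hp⟩, Finset.mem_insert_self _ _⟩
  have := h3.zRat
  rwa [Finset.coe_insert]

theorem Dat.var : Dat (X () : MvPolynomial Unit k) {(-1, 1)} := by
  classical
  have h1 : Nc (X () : MvPolynomial Unit k) := Nc.X ()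
  refine ⟨QH.X (), ?_, fun p hp => ?_⟩
  · have := (Inv.var (k := k)).zRat
    rw [Finset.coe_singleton]
    exact this.mono (by simp)
  · refine Pn.sr (S := ∅) h1 (by simp) ?_
    simpa using hp

theorem div_cmbN {r : ℕ} {w : Fin r → ℕ} {n : ℕ} {p : Fin r → ℤ × ℕ}
    (hp : ∀ i, 0 < (p i).2) :
    -((scl n (cmbN w p)).1 : ℚ) / ((scl n (cmbN w p)).2 : ℕ) =
      (∑ i, (w i : ℚ) * (-((p i).1 : ℚ) / (p i).2)) / n := by
  have h1 : (∏ i, ((p i).2 : ℚ)) ≠ 0 :=
    Finset.prod_ne_zero_iff.2 fun i _ => by exact_mod_cast (hp i).ne'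
  simp only [scl, cmbN]
  push_cast
  rw [mul_comm (n : ℚ), ← div_div]
  congr 1
  rw [div_eq_iff h1, Finset.sum_mul, ← Finset.sum_neg_distrib]
  refine Finset.sum_congr rfl fun i _ => ?_
  have h2 : (∏ j, ((p j).2 : ℚ)) = (p i).2 * ∏ j ∈ Finset.univ.erase i, ((p j).2 : ℚ) :=
    (Finset.mul_prod_erase Finset.univ (fun j => ((p j).2 : ℚ)) (Finset.mem_univ i)).symm
  have h3 : ((p i).2 : ℚ) ≠ 0 := by exact_mod_cast (hp i).ne'
  rw [h2]
  field_simp

theorem Pn.cmp {r : ℕ} (hr : 0 < r) {τ : Fin r → Type} [∀ i, Finite (τ i)] {w : Fin r → ℕ}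
    {n : ℕ} {G : MvPolynomial (Fin r) k} (hw : ∀ i, 0 < w i ∧ w i < n)
    (hG : IsWeightedHomogeneous w G n) {B : Finset (Fin r)} (hI : Isol G B)
    {f : ∀ i, MvPolynomial (τ i) k} {S : Fin r → Finset (ℤ × ℕ)} (hf : ∀ i, Dat (f i) (S i))
    (hS : ∀ i, ((-1, 1) : ℤ × ℕ) ∈ S i)
    (hB : ∀ i ∈ B, S i = {(-1, 1)} ∧ ∃ x, f i = X x) : Pn (Mono.cmp G f) := by
  classical
  have := charZero k
  have hn : 0 < n := by
    have := hw ⟨0, hr⟩
    omega
  -- the roots
  have key : ∀ p : Fin r → ℤ × ℕ, (∀ i, p i ∈ S i) →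
      SRs k (Mono.cmp G f) ((∑ i, (w i : ℚ) * (-((p i).1 : ℚ) / (p i).2)) / n) := by
    intro p hp
    have hpos : ∀ i, (0 : ℚ) < -((p i).1 : ℚ) / (p i).2 := fun i => by
      obtain ⟨a1, a2, -⟩ := (hf i).2.2 (p i) (hp i)
      exact div_pos (by
        have : ((p i).1 : ℚ) < 0 := by exact_mod_cast a1
        linarith) (by exact_mod_cast a2)
    refine SRs.cmp (B := Finset.univ.filter fun i => -((p i).1 : ℚ) / (p i).2 = 1) hw hG
      (koszul_jac hw hG ?_ hI) (fun i => ((hf i).2.2 (p i) (hp i)).2.2) hpos (fun i => by simp) hr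
    intro i hi
    rw [Finset.mem_filter]
    refine ⟨Finset.mem_univ i, ?_⟩
    have h1 := hp i
    rw [(hB i hi).1, Finset.mem_singleton] at h1
    rw [h1]
    norm_num
  refine ⟨Nc.of_sr (key (fun _ => (-1, 1)) hS).sr, QH.cmp hn hG fun i => (hf i).1,
    (Fintype.piFinset S).image fun p => scl n (cmbN w p), ?_, ?_⟩
  · have h5 := Inv.cmp hr hw hG (fun i => (hf i).1) (fun i hi => (hB i hi).2) hI
      (fun i p hp => ((hf i).2.2 p hp).2.1) (fun i => (hf i).2.1)
    have e : (((Fintype.piFinset S).image fun p => scl n (cmbN w p) : Finset (ℤ × ℕ)) :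
        Set (ℤ × ℕ)) = {q | ∃ p : Fin r → ℤ × ℕ, (∀ i, p i ∈ (S i : Set (ℤ × ℕ))) ∧
          q = scl n (cmbN w p)} := by
      ext q
      simp only [Finset.coe_image, Fintype.coe_piFinset, Set.mem_image, Set.mem_pi,
        Set.mem_univ, true_imp_iff, Set.mem_ofPred_eq]
      constructor
      · rintro ⟨p, hp, rfl⟩
        exact ⟨p, hp, rfl⟩
      · rintro ⟨p, hp, rfl⟩
        exact ⟨p, hp, rfl⟩
    rwa [e]
  · intro q hq
    obtain ⟨p, hp, rfl⟩ := Finset.mem_image.1 hq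
    rw [Fintype.mem_piFinset] at hp
    have hp2 : ∀ i, 0 < (p i).2 := fun i => ((hf i).2.2 (p i) (hp i)).2.1
    have hd := div_cmbN (w := w) (n := n) hp2
    have hl : 0 < (scl n (cmbN w p)).2 :=
      Nat.mul_pos hn (show 0 < ∏ i, (p i).2 from Finset.prod_pos fun i _ => hp2 i)
    have hpos : (0 : ℚ) < (∑ i, (w i : ℚ) * (-((p i).1 : ℚ) / (p i).2)) / n := by
      refine div_pos (Finset.sum_pos (fun i _ => ?_) ⟨⟨0, hr⟩, Finset.mem_univ _⟩)
        (by exact_mod_cast hn)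
      obtain ⟨a1, a2, -⟩ := (hf i).2.2 (p i) (hp i)
      refine mul_pos (by exact_mod_cast (hw i).1) (div_pos (by
        have : ((p i).1 : ℚ) < 0 := by exact_mod_cast a1
        linarith) (by exact_mod_cast a2))
    refine ⟨?_, hl, ?_⟩
    · rw [← hd, div_pos_iff_of_pos_right (by exact_mod_cast hl)] at hpos
      have h7 : ((scl n (cmbN w p)).1 : ℚ) < 0 := by linarith
      exact_mod_cast h7
    · rw [hd]
      exact key p hp

omit [Algebra k ℂ] in
theorem X_eq_rename {σ τ : Type} {e : τ → σ} {g : MvPolynomial τ k} {j : σ}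
    (h : (X j : MvPolynomial σ k) = rename e g) : ∃ x, e x = j := by
  classical
  have h1 : j ∈ (rename e g).vars := by
    rw [← h, vars_X]
    exact Finset.mem_singleton_self j
  obtain ⟨x, -, hx⟩ := Finset.mem_image.1 (vars_rename _ _ h1)
  exact ⟨x, hx⟩

theorem Comp.exists_pn {σ : Type} [Finite σ] [DecidableEq σ] {s : Finset σ}
    {f : MvPolynomial σ k} (h : Comp s f) : ∃ (τ : Type) (_ : Finite τ) (g : MvPolynomial τ k)
      (e : τ → σ), Function.Injective e ∧ (∀ x, e x ∈ s) ∧ f = rename e g ∧ Pn g := by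
  induction h with
  | var i =>
    refine ⟨Unit, inferInstance, X (), fun _ => i, fun _ _ _ => rfl, by simp, ?_, Pn.var⟩
    rw [rename_X]
  | smul c hc _ ih =>
    obtain ⟨τ, hτ, g, e, h1, h2, rfl, h4⟩ := ih
    exact ⟨τ, hτ, C c * g, e, h1, h2, by rw [map_mul, rename_C], h4.smul hc⟩
  | pow m hm _ ih =>
    obtain ⟨τ, hτ, g, e, h1, h2, rfl, h4⟩ := ih
    exact ⟨τ, hτ, g ^ m, e, h1, h2, by rw [map_pow], h4.pow hm⟩
  | mul hst _ _ ih1 ih2 =>
    obtain ⟨τ, hτ, g, e, h1, h2, rfl, h4⟩ := ih1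
    obtain ⟨τ', hτ', g', e', h1', h2', rfl, h4'⟩ := ih2
    refine ⟨τ ⊕ τ', inferInstance, smul' g g', Sum.elim e e', ?_, ?_, ?_, h4.mul h4'⟩
    · refine Function.Injective.sumElim h1 h1' fun a b hab => ?_
      exact Finset.disjoint_left.1 hst (h2 a) (hab ▸ h2' b)
    · rintro (x | x)
      · exact Finset.mem_union_left _ (h2 x)
      · exact Finset.mem_union_right _ (h2' x)
    · rw [smul', map_mul, rename_rename, rename_rename]
      rfl
  | add hst _ _ ih1 ih2 =>
    obtain ⟨τ, hτ, g, e, h1, h2, rfl, h4⟩ := ih1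
    obtain ⟨τ', hτ', g', e', h1', h2', rfl, h4'⟩ := ih2
    refine ⟨τ ⊕ τ', inferInstance, sadd g g', Sum.elim e e', ?_, ?_, ?_, h4.add h4'⟩
    · refine Function.Injective.sumElim h1 h1' fun a b hab => ?_
      exact Finset.disjoint_left.1 hst (h2 a) (hab ▸ h2' b)
    · rintro (x | x)
      · exact Finset.mem_union_left _ (h2 x)
      · exact Finset.mem_union_right _ (h2' x)
    · rw [sadd, map_add, rename_rename, rename_rename]
      rfl
  | @gate r s f w n G B hw hG hI hd hB _ ih =>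
    have key : ∀ i, ∃ (τ : Type) (_ : Finite τ) (g : MvPolynomial τ k) (e : τ → σ)
        (S : Finset (ℤ × ℕ)), Function.Injective e ∧ (∀ x, e x ∈ s i) ∧ f i = rename e g ∧
          Dat g S ∧ ((-1, 1) : ℤ × ℕ) ∈ S ∧ (i ∈ B → S = {(-1, 1)} ∧ ∃ x, g = X x) := by
      intro i
      obtain ⟨τ, hτ, g, e, h1, h2, h3, h4⟩ := ih i
      by_cases hi : i ∈ B
      · obtain ⟨j, hj⟩ := hB i hi
        obtain ⟨x, hx⟩ := X_eq_rename (hj.symm.trans h3)
        refine ⟨Unit, inferInstance, X (), fun _ => j, {(-1, 1)}, fun _ _ _ => rfl,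
          fun _ => hx ▸ h2 x, ?_, Dat.var, Finset.mem_singleton_self _, fun _ => ⟨rfl, (), rfl⟩⟩
        rw [hj, rename_X]
      · obtain ⟨S, hS, hS1⟩ := h4.dat
        exact ⟨τ, hτ, g, e, S, h1, h2, h3, hS, hS1, fun h => absurd h hi⟩
    choose τ hτ g e S h1 h2 h3 h4 h5 h6 using key
    refine ⟨Σ i, τ i, inferInstance, Mono.cmp G g, fun p => e p.1 p.2, ?_, ?_, ?_,
      Pn.cmp (Nat.succ_pos r) hw hG hI h4 h5 h6⟩
    · rintro ⟨i, x⟩ ⟨j, y⟩ hxy
      simp only at hxy
      by_cases hij : i = j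
      · subst hij
        rw [h1 i hxy]
      · exact absurd (hxy ▸ h2 j y : e i x ∈ s j) (Finset.disjoint_left.1 (hd i j hij) (h2 i x))
    · rintro ⟨i, x⟩
      exact Finset.mem_biUnion.2 ⟨i, Finset.mem_univ i, h2 i x⟩
    · rw [Mono.cmp, ← AlgHom.comp_apply, comp_aeval]
      congr 2
      funext i
      rw [h3 i, rename_rename]
      rfl

/-- **The strong motivic monodromy conjecture for composites.** -/
theorem Comp.main {σ : Type} [Finite σ] [DecidableEq σ] {s : Finset σ}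
    {f : MvPolynomial σ k} (h : Comp s f) : ∃ S : Finset (ℤ × ℕ),
      (∀ p ∈ S, p.1 < 0 ∧ 0 < p.2) ∧
      Zmot k f ∈ RS k (S : Set (ℤ × ℕ)) ∧ ∀ p ∈ S, IsRoot k f (p.1 / p.2) := by
  obtain ⟨τ, _, g, e, h1, -, rfl, h4⟩ := h.exists_pn
  exact h4.final h1

end FIN2

end Pool.Agent.H75.Mono
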