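import Pool.Agent.H75.Mono.Defs

/-! # ROF, module BB: formal operations on chains -/

set_option autoImplicit false

namespace Pool.Agent.H75.Mono

open MvPolynomial Pool.Agent.H39.MonoR

section BB

variable {k : Type} [Field k] [CharZero k] {σ τ : Type}

theorem SRs.sr {f : MvPolynomial σ k} {s : ℚ} (h : SRs k f s) : SR k f s :=
  let ⟨c, h, _⟩ := h; ⟨c, h⟩

/-- for `s ≠ 1` the condition `(∂_i f) e_0 = 0` is automatic -/
theorem SR.srs {f : MvPolynomial σ k} {s : ℚ} (h : SR k f s) (hs : s ≠ 1) : SRs k f s := by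
  obtain ⟨c, hc⟩ := h
  refine ⟨c, hc, fun i => ?_⟩
  have h1 := c.leib i f (c.e 0)
  rw [hc, map_zero, c.der, map_smul] at h1
  have h2 : c.ρ f (c.ρ (pderiv i f) (c.e (0 + 1))) = c.ρ (pderiv i f) (c.e 0) := by
    rw [← Module.End.mul_apply, ← map_mul, mul_comm, map_mul, Module.End.mul_apply, c.mul]
  rw [h2] at h1
  have h3 : ((1 : k) - s) • c.ρ (pderiv i f) (c.e 0) = 0 := by
    rw [sub_smul, one_smul, h1, Nat.cast_zero, add_zero, neg_smul, sub_eq_add_neg]
  rcases smul_eq_zero.mp h3 with h4 | h4
  · exfalso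
    apply hs
    have h5 : ((s : ℚ) : k) = ((1 : ℚ) : k) := by
      rw [Rat.cast_one]; exact (sub_eq_zero.mp h4).symm
    exact Rat.cast_injective h5
  · exact h4

theorem SR.pow {f : MvPolynomial σ k} {s : ℚ} (h : SR k f s) {m : ℕ} (hm : 2 ≤ m) :
    SRs k (f ^ m) (s / m) := by
  obtain ⟨c, hc⟩ := h
  have hpow : ∀ j i : ℕ, c.ρ (f ^ j) (c.e (i + j)) = c.e i := by
    intro j
    induction j with
    | zero => intro i; simp
    | succ j ih =>
      intro i
      rw [pow_succ, map_mul, Module.End.mul_apply]
      show c.ρ (f ^ j) (c.ρ f (c.e (i + j + 1))) = _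
      rw [c.mul, ih]
  have hm0 : (m : k) ≠ 0 := by
    have : m ≠ 0 := by omega
    exact_mod_cast this
  have hd : ∀ i, pderiv i (f ^ m) = C (m : k) * (f ^ (m - 1) * pderiv i f) := by
    intro i
    rw [Derivation.leibniz_pow]
    simp only [nsmul_eq_mul, smul_eq_mul, map_natCast]
  let c' : Chain k (f ^ m) (s / m) :=
    { V := c.V
      ρ := c.ρ
      D := c.D
      leib := c.leib
      e := fun j => c.e (m * j)
      mul := fun j => by
        have := hpow m (m * j)
        exact this
      der := fun i j => by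
        rw [c.der, hd]
        have h1 : m * (j + 1) = (m * j + 1) + (m - 1) := by
          have : m = 1 + (m - 1) := by omega
          rw [mul_add, mul_one]; omega
        rw [← smul_eq_C_mul, map_smul, LinearMap.smul_apply, smul_smul, mul_comm (f ^ (m - 1)), map_mul,
          Module.End.mul_apply, h1, hpow]
        congr 1
        push_cast
        field_simp
      ne := c.ne }
  refine ⟨c', ?_, fun i => ?_⟩
  · show c.ρ (f ^ m) (c.e (m * 0)) = 0
    have h1 : f ^ m = f ^ (m - 1) * f := by rw [← pow_succ]; congr 1; omega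
    rw [h1, map_mul, Module.End.mul_apply, mul_zero, hc, map_zero]
  · show c.ρ (pderiv i (f ^ m)) (c.e (m * 0)) = 0
    have h1 : f ^ (m - 1) = f ^ (m - 2) * f := by rw [← pow_succ]; congr 1; omega
    rw [hd, h1]
    have h2 : C (m : k) * (f ^ (m - 2) * f * pderiv i f) = C (m : k) * (f ^ (m - 2) * pderiv i f) * f := by
      ring
    rw [h2, map_mul, Module.End.mul_apply, mul_zero, hc, map_zero]

theorem SRs.smul {f : MvPolynomial σ k} {s : ℚ} (h : SRs k f s) {a : k} (ha : a ≠ 0) :
    SRs k (C a * f) s := by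
  obtain ⟨c, hc, hc'⟩ := h
  have hd : ∀ i, pderiv i (C a * f) = a • pderiv i f := by
    intro i
    rw [← smul_eq_C_mul, Derivation.map_smul]
  let c' : Chain k (C a * f) s :=
    { V := c.V
      ρ := c.ρ
      D := c.D
      leib := c.leib
      e := fun j => (a⁻¹) ^ j • c.e j
      mul := fun j => by
        have h1 : c.ρ (C a * f) = a • c.ρ f := by rw [← smul_eq_C_mul, map_smul]
        rw [h1, LinearMap.smul_apply, map_smul, c.mul, smul_smul, pow_succ]
        congr 1
        field_simp
      der := fun i j => by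
        have h1 : c.ρ (pderiv i (C a * f)) = a • c.ρ (pderiv i f) := by rw [hd, map_smul]
        rw [h1, map_smul, c.der, LinearMap.smul_apply, map_smul, smul_smul, smul_smul,
          smul_smul, pow_succ]
        congr 1
        field_simp
      ne := by
        rw [pow_zero, one_smul]; exact c.ne }
  refine ⟨c', ?_, fun i => ?_⟩
  · show c.ρ (C a * f) (a⁻¹ ^ 0 • c.e 0) = 0
    rw [pow_zero, one_smul, map_mul, Module.End.mul_apply, hc, map_zero]
  · show c.ρ (pderiv i (C a * f)) (a⁻¹ ^ 0 • c.e 0) = 0
    rw [pow_zero, one_smul, hd, map_smul, LinearMap.smul_apply, hc', smul_zero]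

/-- transport of a chain by a bijection of the variables -/
noncomputable def chainEquiv {f : MvPolynomial σ k} {s : ℚ} (c : Chain k f s) (e : σ ≃ τ) :
    Chain k (MvPolynomial.rename e f) s where
  V := c.V
  ρ := c.ρ.comp (MvPolynomial.rename e.symm)
  D := fun i => c.D (e.symm i)
  leib := fun i p v => by
    simp only [AlgHom.comp_apply]
    rw [c.leib, pderiv_rename e.symm.injective]
  e := c.e
  mul := fun j => by
    simp only [AlgHom.comp_apply]
    rw [MvPolynomial.rename_rename]
    simp only [Equiv.symm_comp_self, MvPolynomial.rename_id_apply, c.mul]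
  der := fun i j => by
    simp only [AlgHom.comp_apply]
    rw [c.der, ← pderiv_rename e.symm.injective, MvPolynomial.rename_rename]
    simp only [Equiv.symm_comp_self, MvPolynomial.rename_id_apply]
  ne := c.ne

/-- renaming the variables by a bijection -/
theorem SR.equiv {f : MvPolynomial σ k} {s : ℚ} (h : SR k f s) (e : σ ≃ τ) :
    SR k (rename e f) s := by
  obtain ⟨c, hc⟩ := h
  refine ⟨chainEquiv c e, ?_⟩
  show c.ρ (MvPolynomial.rename e.symm (MvPolynomial.rename e f)) (c.e 0) = 0
  rw [MvPolynomial.rename_rename]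
  simp only [Equiv.symm_comp_self, MvPolynomial.rename_id_apply, hc]

theorem SRs.equiv {f : MvPolynomial σ k} {s : ℚ} (h : SRs k f s) (e : σ ≃ τ) :
    SRs k (rename e f) s := by
  obtain ⟨c, hc, hc'⟩ := h
  refine ⟨chainEquiv c e, ?_, fun i => ?_⟩
  · show c.ρ (MvPolynomial.rename e.symm (MvPolynomial.rename e f)) (c.e 0) = 0
    rw [MvPolynomial.rename_rename]
    simp only [Equiv.symm_comp_self, MvPolynomial.rename_id_apply, hc]
  · show c.ρ (MvPolynomial.rename e.symm (pderiv i (MvPolynomial.rename e f))) (c.e 0) = 0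
    rw [← pderiv_rename e.symm.injective, MvPolynomial.rename_rename]
    simp only [Equiv.symm_comp_self, MvPolynomial.rename_id_apply, hc']

end BB

end Pool.Agent.H75.Mono
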