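import Pool.Agent.H75.Mono.BB

/-! # ROF, module BT: chains in two groups of variables -/

set_option autoImplicit false

namespace Pool.Agent.H75.Mono

open MvPolynomial Pool.Agent.H39.MonoR TensorProduct

section BT

variable {k : Type} [Field k] {σ τ : Type}

/-- the tensor product of two modules over polynomial rings with derivations -/
theorem exists_tensor {V W : Type} [AddCommGroup V] [Module k V] [AddCommGroup W] [Module k W]
    (ρ : MvPolynomial σ k →ₐ[k] Module.End k V) (D : σ → Module.End k V)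
    (hD : ∀ i p v, D i (ρ p v) = ρ (pderiv i p) v + ρ p (D i v))
    (ρ' : MvPolynomial τ k →ₐ[k] Module.End k W) (D' : τ → Module.End k W)
    (hD' : ∀ i p v, D' i (ρ' p v) = ρ' (pderiv i p) v + ρ' p (D' i v)) :
    ∃ (R : MvPolynomial (σ ⊕ τ) k →ₐ[k] Module.End k (V ⊗[k] W))
      (Δ : σ ⊕ τ → Module.End k (V ⊗[k] W)),
      (∀ i p v, Δ i (R p v) = R (pderiv i p) v + R p (Δ i v)) ∧
      (∀ p v w, R (rename Sum.inl p) (v ⊗ₜ w) = ρ p v ⊗ₜ w) ∧
      (∀ p v w, R (rename Sum.inr p) (v ⊗ₜ w) = v ⊗ₜ ρ' p w) ∧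
      (∀ i v w, Δ (Sum.inl i) (v ⊗ₜ w) = D i v ⊗ₜ w) ∧
      (∀ i v w, Δ (Sum.inr i) (v ⊗ₜ w) = v ⊗ₜ D' i w) := by
  let a : MvPolynomial (σ ⊕ τ) k →ₐ[k] MvPolynomial σ k ⊗[k] MvPolynomial τ k :=
    aeval (Sum.elim (fun i => X i ⊗ₜ[k] (1 : MvPolynomial τ k))
      (fun j => (1 : MvPolynomial σ k) ⊗ₜ[k] X j))
  let b : MvPolynomial σ k ⊗[k] MvPolynomial τ k →ₐ[k] Module.End k (V ⊗[k] W) :=
    (Module.endTensorEndAlgHom (R := k) (S := k) (A := k) (M := V) (N := W)).comp
      (Algebra.TensorProduct.map ρ ρ')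
  have hb : ∀ p q v w, b (p ⊗ₜ q) (v ⊗ₜ w) = ρ p v ⊗ₜ ρ' q w := fun p q v w => rfl
  have ha1 : ∀ p, a (rename Sum.inl p) = p ⊗ₜ 1 := by
    intro p
    have : a.comp (rename Sum.inl) =
        (Algebra.TensorProduct.includeLeft : MvPolynomial σ k →ₐ[k] _) := by
      apply MvPolynomial.algHom_ext
      intro i
      simp [a]
    exact DFunLike.congr_fun this p
  have ha2 : ∀ p, a (rename Sum.inr p) = 1 ⊗ₜ p := by
    intro p
    have : a.comp (rename Sum.inr) =
        (Algebra.TensorProduct.includeRight : MvPolynomial τ k →ₐ[k] _) := by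
      apply MvPolynomial.algHom_ext
      intro i
      simp [a]
    exact DFunLike.congr_fun this p
  let Δ : σ ⊕ τ → Module.End k (V ⊗[k] W) :=
    Sum.elim (fun i => TensorProduct.map (D i) LinearMap.id)
      (fun j => TensorProduct.map LinearMap.id (D' j))
  have hΔ1 : ∀ i v w, Δ (Sum.inl i) (v ⊗ₜ w) = D i v ⊗ₜ w := fun i v w => rfl
  have hΔ2 : ∀ i v w, Δ (Sum.inr i) (v ⊗ₜ w) = v ⊗ₜ D' i w := fun i v w => rfl
  have hR1 : ∀ p v w, b (a (rename Sum.inl p)) (v ⊗ₜ w) = ρ p v ⊗ₜ w := by
    intro p v w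
    rw [ha1, hb, map_one, Module.End.one_apply]
  have hR2 : ∀ p v w, b (a (rename Sum.inr p)) (v ⊗ₜ w) = v ⊗ₜ ρ' p w := by
    intro p v w
    rw [ha2, hb, map_one, Module.End.one_apply]
  refine ⟨b.comp a, Δ, ?_, hR1, hR2, hΔ1, hΔ2⟩
  -- Leibniz rule
  have key : ∀ i x u, Δ i (b (a (X x)) u) = b (a (pderiv i (X x))) u + b (a (X x)) (Δ i u) := by
    intro i x u
    induction u using TensorProduct.induction_on with
    | zero => simp only [map_zero, add_zero]
    | add u u' h h' =>
      simp only [map_add, h, h']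
      abel
    | tmul v w =>
      rcases x with n | n
      · have e : (X (Sum.inl n) : MvPolynomial (σ ⊕ τ) k) = rename Sum.inl (X n) :=
          (rename_X _ _).symm
        rcases i with i | i
        · rw [e, pderiv_rename Sum.inl_injective, hR1, hR1, hΔ1, hΔ1, hR1, hD,
            TensorProduct.add_tmul]
        · rw [pderiv_X_of_ne (by simp), map_zero, map_zero, e, hR1, hΔ2, hΔ2, hR1,
            LinearMap.zero_apply, zero_add]
      · have e : (X (Sum.inr n) : MvPolynomial (σ ⊕ τ) k) = rename Sum.inr (X n) :=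
          (rename_X _ _).symm
        rcases i with i | i
        · rw [pderiv_X_of_ne (by simp), map_zero, map_zero, e, hR2, hΔ1, hΔ1, hR2,
            LinearMap.zero_apply, zero_add]
        · rw [e, pderiv_rename Sum.inr_injective, hR2, hR2, hΔ2, hΔ2, hR2, hD',
            TensorProduct.tmul_add]
  intro i p
  show ∀ u, Δ i (b (a p) u) = b (a (pderiv i p)) u + b (a p) (Δ i u)
  induction p using MvPolynomial.induction_on with
  | C c =>
    intro u
    have e : ∀ u, b (a (C c)) u = c • u := fun u => by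
      have : b (a (C c)) = algebraMap k (Module.End k (V ⊗[k] W)) c := by
        have h1 : (C c : MvPolynomial (σ ⊕ τ) k) = algebraMap k _ c := rfl
        rw [h1, AlgHom.commutes, AlgHom.commutes]
      rw [this, Module.algebraMap_end_apply]
    rw [e, e, pderiv_C, map_zero, map_zero, LinearMap.zero_apply, zero_add, map_smul]
  | add p q hp hq =>
    intro u
    simp only [map_add, LinearMap.add_apply, hp, hq]
    abel
  | mul_X p n hp =>
    intro u
    rw [map_mul, map_mul, Module.End.mul_apply, hp, key, pderiv_mul]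
    simp only [map_add, map_mul, LinearMap.add_apply, Module.End.mul_apply]
    abel

end BT

end Pool.Agent.H75.Mono
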