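import Pool.Agent.H39.MonoR.A
import Pool.Agent.H39.MonoR.B1
import Pool.Agent.H39.MonoR.B2

/-!
# Project ROF (read-once formulas and the motivic monodromy conjecture, MP_432c1b_ag): definitions

* `den' u p = 1 - u^a T^b`, `RatF u S F`: a family of series with a common denominator, a product of
  `1 - u^a T^b`, `(a,b) ∈ S`;
* `Aff E`: a type with affine coordinates, `ICons`, `PFun`, `PMap`, `mo`: constructible sets,
  polynomial functions and maps, classes;
* `Test k`, `Test2 k`: constructible sets with one or two polynomial functions;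
* `zt f d t`: the class of `{(φ, w) : f(φ) = c(w) t^d mod t^(d+1)}` times `L^(-nd)`;
* `Chain k f s`: a D-module with elements `e_j`, which behave like `f^(-s-j)`.
-/

set_option autoImplicit false

namespace Pool.Agent.H75.Mono

open MvPolynomial Pool.Agent.H39.MonoR

/-! ### rational families of power series -/

section Rat

variable {R : Type*} [CommRing R]

/-- `1 - u^a T^b` -/
noncomputable def den' (u : Rˣ) (p : ℤ × ℕ) : PowerSeries R :=
  1 - PowerSeries.C (↑(u ^ p.1) : R) * PowerSeries.X ^ p.2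

/-- the series `F t` have a common denominator, a product of factors `1 - u^a T^b`, `(a,b) ∈ S`, and
numerators of bounded degree -/
def RatF (u : Rˣ) (S : Set (ℤ × ℕ)) {T : Type*} (F : T → PowerSeries R) : Prop :=
  ∃ l : Multiset (ℤ × ℕ), (∀ p ∈ l, p ∈ S) ∧ ∃ N : ℕ, ∀ t, ∀ n, N ≤ n →
    PowerSeries.coeff n ((l.map (den' u)).prod * F t) = 0

/-- `(a,b) ⊙ (a',b')`: the pair `(a l/b + a' l/b', l)`, `l = lcm(b,b')` -/
def cmb (p q : ℤ × ℕ) : ℤ × ℕ :=
  (p.1 * ((Nat.lcm p.2 q.2 / p.2 : ℕ) : ℤ) + q.1 * ((Nat.lcm p.2 q.2 / q.2 : ℕ) : ℤ),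
    Nat.lcm p.2 q.2)

/-- all `p ⊙ q` -/
def cmbs (S S' : Set (ℤ × ℕ)) : Set (ℤ × ℕ) := {r | ∃ p ∈ S, ∃ q ∈ S', r = cmb p q}

/-- `(a, m b)` -/
def scl (m : ℕ) (p : ℤ × ℕ) : ℤ × ℕ := (p.1, m * p.2)

end Rat

/-! ### affine spaces -/

/-- a type with affine coordinates -/
class Aff (E : Type) where
  /-- the index set of the coordinates -/
  ι : Type
  fin : Finite ι
  /-- the coordinates -/
  co : E ≃ (ι → ℂ)

instance (E : Type) [Aff E] : Finite (Aff.ι E) := Aff.fin

instance affPi (α : Type) [h : Finite α] : Aff (α → ℂ) := ⟨α, h, Equiv.refl _⟩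

instance affC : Aff ℂ := ⟨Unit, inferInstance, (Equiv.funUnique Unit ℂ).symm⟩

instance affUnit : Aff Unit := ⟨Empty, inferInstance, Equiv.ofUnique Unit (Empty → ℂ)⟩

instance affProd (E F : Type) [Aff E] [Aff F] : Aff (E × F) :=
  ⟨Aff.ι E ⊕ Aff.ι F, inferInstance,
    (Equiv.prodCongr Aff.co Aff.co).trans (Equiv.sumArrowEquivProdArrow _ _ _).symm⟩

section Calc

variable (k : Type) [Field k] [Algebra k ℂ] {E F : Type} [Aff E] [Aff F]

/-- constructible sets defined over `k` -/
def ICons (A : Set E) : Prop := IsCons k {x : Aff.ι E → ℂ | Aff.co.symm x ∈ A}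

/-- polynomial functions over `k` -/
def PFun (f : E → ℂ) : Prop := ∃ p : MvPolynomial (Aff.ι E) k, ∀ x, f x = aeval (Aff.co x) p

/-- polynomial maps over `k` -/
def PMap (f : E → F) : Prop := ∀ j, PFun k (fun x => Aff.co (f x) j)

/-- the class of a set in `M k` -/
noncomputable def mo (A : Set E) : M k := mot k {x : Aff.ι E → ℂ | Aff.co.symm x ∈ A}

end Calc

/-! ### tests -/

section Test

variable (k : Type) [Field k] [Algebra k ℂ]

/-- a constructible set with a polynomial function -/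
structure Test : Type 1 where
  E : Type
  [aff : Aff E]
  W : Set E
  cW : ICons k W
  c : E → ℂ
  pf : PFun k c

/-- a constructible set with two polynomial functions -/
structure Test2 : Type 1 where
  E : Type
  [aff : Aff E]
  W : Set E
  cW : ICons k W
  c1 : E → ℂ
  pf1 : PFun k c1
  c2 : E → ℂ
  pf2 : PFun k c2

attribute [instance] Test.aff Test2.aff

variable {k}
variable {σ τ : Type}

/-- `f(φ) ≡ c t^d mod t^(d+1)` -/
def Hit {N : ℕ} (f : MvPolynomial σ k) (d : ℕ) (φ : σ × Fin N → ℂ) (c : ℂ) : Prop :=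
  ∀ l, l ≤ d → PowerSeries.coeff l (arcEval k φ f) = if l = d then c else 0

/-- the class of `{(φ, w) : f(φ) = c(w) t^d mod t^(d+1)}`, `w ∈ W`, times `L^(-nd)` -/
noncomputable def zt [Finite σ] (f : MvPolynomial σ k) (d : ℕ) (t : Test k) : M k :=
  mo k {x : (σ × Fin (d + 1) → ℂ) × t.E | x.2 ∈ t.W ∧ Hit f d x.1 (t.c x.2)} *
    ↑(Lu k ^ (-((Nat.card σ * d : ℕ) : ℤ)))

/-- the class of `W` -/
noncomputable def mass (t : Test k) : M k := mo k t.W

/-- the class of `{(φ, ψ, w) : g(φ) = c1(w) t^i mod t^(i+1), h(ψ) = c2(w) t^j mod t^(j+1)}`,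
times `L^(-ni-n'j)` -/
noncomputable def z2 [Finite σ] [Finite τ] (g : MvPolynomial σ k) (h : MvPolynomial τ k)
    (i j : ℕ) (t : Test2 k) : M k :=
  mo k {x : (σ × Fin (i + 1) → ℂ) × (τ × Fin (j + 1) → ℂ) × t.E |
    x.2.2 ∈ t.W ∧ Hit g i x.1 (t.c1 x.2.2) ∧ Hit h j x.2.1 (t.c2 x.2.2)} *
    (↑(Lu k ^ (-((Nat.card σ * i : ℕ) : ℤ))) * ↑(Lu k ^ (-((Nat.card τ * j : ℕ) : ℤ))))

/-- the generating series of `zt f d t` -/
noncomputable def Zt [Finite σ] (f : MvPolynomial σ k) (t : Test k) : PowerSeries (M k) :=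
  PowerSeries.mk fun d => zt f d t

/-- the first component of a test -/
def Test2.fst (t : Test2 k) : Test k := ⟨t.E, t.W, t.cW, t.c1, t.pf1⟩

/-- the second component of a test -/
def Test2.snd (t : Test2 k) : Test k := ⟨t.E, t.W, t.cW, t.c2, t.pf2⟩

/-- the relative series has denominators in `S` -/
def ZRat [Finite σ] (f : MvPolynomial σ k) (S : Set (ℤ × ℕ)) : Prop :=
  RatF (Lu k) S (Zt f)

/-- up to a constant family, the relative series has denominators in `S` -/
def Inv [Finite σ] (f : MvPolynomial σ k) (S : Set (ℤ × ℕ)) : Prop :=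
  ∃ u : ℕ → M k, RatF (Lu k) S fun t : Test k => PowerSeries.mk fun d => zt f d t - u d * mass t

/-- the sum in separate variables -/
noncomputable def sadd (g : MvPolynomial σ k) (h : MvPolynomial τ k) : MvPolynomial (σ ⊕ τ) k :=
  rename Sum.inl g + rename Sum.inr h

/-- the product in separate variables -/
noncomputable def smul' (g : MvPolynomial σ k) (h : MvPolynomial τ k) :
    MvPolynomial (σ ⊕ τ) k :=
  rename Sum.inl g * rename Sum.inr h

/-- weighted homogeneous of positive degree, for some weights -/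
def QH (f : MvPolynomial σ k) : Prop :=
  ∃ (w : σ → ℕ) (N : ℕ), 0 < N ∧ IsWeightedHomogeneous w f N

end Test

/-! ### chains -/

section Chain

/-- a D-module `V` with elements `e_j`, which behave like `f^(-s-j)`, `j ≥ 0` -/
structure Chain (k : Type) [Field k] {σ : Type} (f : MvPolynomial σ k) (s : ℚ) : Type 1 where
  V : Type
  [acg : AddCommGroup V]
  [mod : Module k V]
  ρ : MvPolynomial σ k →ₐ[k] Module.End k V
  D : σ → Module.End k V
  leib : ∀ i p v, D i (ρ p v) = ρ (pderiv i p) v + ρ p (D i v)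
  e : ℕ → V
  mul : ∀ j, ρ f (e (j + 1)) = e j
  der : ∀ i j, D i (e j) = (-((s : k) + j)) • ρ (pderiv i f) (e (j + 1))
  ne : e 0 ≠ 0

attribute [instance] Chain.acg Chain.mod

/-- there is a chain with `f e_0 = 0` -/
def SR (k : Type) [Field k] {σ : Type} (f : MvPolynomial σ k) (s : ℚ) : Prop :=
  ∃ c : Chain k f s, c.ρ f (c.e 0) = 0

/-- there is a chain with `f e_0 = 0` and `(∂_i f) e_0 = 0` -/
def SRs (k : Type) [Field k] {σ : Type} (f : MvPolynomial σ k) (s : ℚ) : Prop :=
  ∃ c : Chain k f s, c.ρ f (c.e 0) = 0 ∧ ∀ i, c.ρ (pderiv i f) (c.e 0) = 0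

end Chain

/-! ### read-once formulas -/

/-- `RO s f`: `f` is obtained by scalar multiplications, powers, products and sums from variables in
`s`, each of which is used at most once -/
inductive RO {k : Type} [Field k] {σ : Type} [DecidableEq σ] : Finset σ → MvPolynomial σ k → Prop
  | var (i : σ) : RO {i} (X i)
  | smul {s : Finset σ} {f : MvPolynomial σ k} (c : k) : c ≠ 0 → RO s f → RO s (C c * f)
  | pow {s : Finset σ} {f : MvPolynomial σ k} (m : ℕ) : m ≠ 0 → RO s f → RO s (f ^ m)
  | mul {s t : Finset σ} {f g : MvPolynomial σ k} : Disjoint s t → RO s f → RO t g →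
      RO (s ∪ t) (f * g)
  | add {s t : Finset σ} {f g : MvPolynomial σ k} : Disjoint s t → RO s f → RO t g →
      RO (s ∪ t) (f + g)

end Pool.Agent.H75.Mono
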