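import Pool.Agent.H75.Mono.RA

/-! # ROF, module RC: Cauchy products -/

set_option autoImplicit false

namespace Pool.Agent.H75.Mono

section RC

variable {R : Type*} [CommRing R] {u : Rˣ} {S S' : Set (ℤ × ℕ)} {T : Type*}

open Finset HasAntidiagonal

theorem rc_triple (n : ℕ) (f : ℕ → ℕ → ℕ → R) :
    ∑ x ∈ antidiagonal n, ∑ y ∈ antidiagonal x.1, f y.1 y.2 x.2
      = ∑ x ∈ antidiagonal n, ∑ y ∈ antidiagonal x.2, f x.1 y.1 y.2 := by
  rw [Finset.sum_sigma', Finset.sum_sigma']
  refine Finset.sum_nbij' (fun p => ⟨(p.2.1, p.2.2 + p.1.2), (p.2.2, p.1.2)⟩)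
    (fun p => ⟨(p.1.1 + p.2.1, p.2.2), (p.1.1, p.2.1)⟩) ?_ ?_ ?_ ?_ ?_
  · rintro ⟨⟨a, b⟩, ⟨c, d⟩⟩ h
    simp only [mem_sigma, HasAntidiagonal.mem_antidiagonal] at h ⊢
    refine ⟨?_, ?_⟩ <;> first | omega | trivial
  · rintro ⟨⟨a, b⟩, ⟨c, d⟩⟩ h
    simp only [mem_sigma, HasAntidiagonal.mem_antidiagonal] at h ⊢
    refine ⟨?_, ?_⟩ <;> first | omega | trivial
  · rintro ⟨⟨a, b⟩, ⟨c, d⟩⟩ h
    simp only [mem_sigma, HasAntidiagonal.mem_antidiagonal] at h
    obtain ⟨h1, h2⟩ := h
    subst h2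
    rfl
  · rintro ⟨⟨a, b⟩, ⟨c, d⟩⟩ h
    simp only [mem_sigma, HasAntidiagonal.mem_antidiagonal] at h
    obtain ⟨h1, h2⟩ := h
    subst h2
    rfl
  · rintro ⟨⟨a, b⟩, ⟨c, d⟩⟩ h
    rfl

theorem rc_one (P : PowerSeries R) (w : ℕ → ℕ → R) (n : ℕ) :
    ∑ x ∈ antidiagonal n, PowerSeries.coeff x.1 (P * PowerSeries.mk fun i => w i x.2)
      = PowerSeries.coeff n (P * PowerSeries.mk fun m => ∑ y ∈ antidiagonal m, w y.1 y.2) := by
  simp only [PowerSeries.coeff_mul, PowerSeries.coeff_mk, Finset.mul_sum]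
  exact rc_triple n (fun a b c => PowerSeries.coeff a P * w b c)

theorem rc_swap (w : ℕ → ℕ → R) (n : ℕ) :
    ∑ x ∈ antidiagonal n, w x.1 x.2 = ∑ x ∈ antidiagonal n, w x.2 x.1 := by
  refine Finset.sum_nbij' (fun p => p.swap) (fun p => p.swap) ?_ ?_ ?_ ?_ ?_
  · rintro ⟨a, b⟩ h
    simp only [HasAntidiagonal.mem_antidiagonal, Prod.swap] at h ⊢
    omega
  · rintro ⟨a, b⟩ h
    simp only [HasAntidiagonal.mem_antidiagonal, Prod.swap] at h ⊢
    omega
  · rintro ⟨a, b⟩ _; rfl
  · rintro ⟨a, b⟩ _; rfl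
  · rintro ⟨a, b⟩ _; rfl

theorem rc_two (P : PowerSeries R) (w : ℕ → ℕ → R) (n : ℕ) :
    ∑ x ∈ antidiagonal n, PowerSeries.coeff x.2 (P * PowerSeries.mk fun j => w x.1 j)
      = PowerSeries.coeff n (P * PowerSeries.mk fun m => ∑ y ∈ antidiagonal m, w y.1 y.2) := by
  rw [rc_swap (fun i j => PowerSeries.coeff j (P * PowerSeries.mk fun j => w i j)),
    rc_one P (fun i j => w j i) n]
  congr 3
  ext m
  rw [rc_swap (fun i j => w j i)]

theorem rc_comm (P Q : PowerSeries R) (w : ℕ → ℕ → R) (i j : ℕ) :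
    PowerSeries.coeff j (Q * PowerSeries.mk fun j' => PowerSeries.coeff i
        (P * PowerSeries.mk fun i' => w i' j'))
      = PowerSeries.coeff i (P * PowerSeries.mk fun i' => PowerSeries.coeff j
        (Q * PowerSeries.mk fun j' => w i' j')) := by
  simp only [PowerSeries.coeff_mul, PowerSeries.coeff_mk, Finset.mul_sum]
  rw [Finset.sum_comm]
  refine Finset.sum_congr rfl fun x _ => Finset.sum_congr rfl fun y _ => by ring

/-- the sums over the antidiagonals of a double series which is rational in each variable,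
uniformly in the other -/
theorem RatF.cauchy (w : ℕ → ℕ → T → R)
    (h1 : RatF u S (fun x : ℕ × T => PowerSeries.mk fun i => w i x.1 x.2))
    (h2 : RatF u S' (fun x : ℕ × T => PowerSeries.mk fun j => w x.1 j x.2)) :
    RatF u (S ∪ S') (fun t => PowerSeries.mk fun n =>
      ∑ i ∈ Finset.range (n + 1), w i (n - i) t) := by
  obtain ⟨l, hl, N, h1⟩ := h1
  obtain ⟨l', hl', N', h2⟩ := h2
  refine ⟨l + l', ?_, N + N', ?_⟩
  · intro p hp
    rcases Multiset.mem_add.mp hp with hp | hp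
    · exact Or.inl (hl p hp)
    · exact Or.inr (hl' p hp)
  · intro t n hn
    have e0 : (PowerSeries.mk fun n => ∑ i ∈ Finset.range (n + 1), w i (n - i) t)
        = PowerSeries.mk fun n => ∑ x ∈ antidiagonal n, w x.1 x.2 t := by
      ext m
      rw [PowerSeries.coeff_mk, PowerSeries.coeff_mk,
        Finset.Nat.sum_antidiagonal_eq_sum_range_succ (fun i j => w i j t)]
    set P := (l.map (den' u)).prod with hP
    set Q := (l'.map (den' u)).prod with hQ
    have e1 : ((l + l').map (den' u)).prod = Q * P := by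
      rw [Multiset.map_add, Multiset.prod_add, mul_comm]
    show PowerSeries.coeff n (((l + l').map (den' u)).prod * (PowerSeries.mk fun n =>
      ∑ i ∈ Finset.range (n + 1), w i (n - i) t)) = 0
    rw [e0, e1]
    -- the double series after multiplication
    let w1 : ℕ → ℕ → R := fun i j => PowerSeries.coeff i (P * PowerSeries.mk fun i' => w i' j t)
    have e2 : PowerSeries.mk (fun m => ∑ y ∈ antidiagonal m, w1 y.1 y.2)
        = P * PowerSeries.mk fun m => ∑ y ∈ antidiagonal m, w y.1 y.2 t := by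
      ext m
      rw [PowerSeries.coeff_mk]
      exact rc_one P (fun i j => w i j t) m
    rw [mul_assoc, ← e2, ← rc_two Q w1 n]
    refine Finset.sum_eq_zero fun x hx => ?_
    rw [HasAntidiagonal.mem_antidiagonal] at hx
    by_cases hi : N ≤ x.1
    · have e3 : (fun j => w1 x.1 j) = fun _ => 0 := by
        funext j
        exact h1 (j, t) x.1 hi
      rw [e3, PowerSeries.coeff_mul]
      refine Finset.sum_eq_zero fun y _ => by simp
    · have e4 := rc_comm P Q (fun i j => w i j t) x.1 x.2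
      show PowerSeries.coeff x.2 (Q * PowerSeries.mk fun j' => PowerSeries.coeff x.1
        (P * PowerSeries.mk fun i' => w i' j' t)) = 0
      rw [e4]
      have e5 : (fun i' => PowerSeries.coeff x.2 (Q * PowerSeries.mk fun j' => w i' j' t))
          = fun _ => 0 := by
        funext i
        exact h2 (i, t) x.2 (by omega)
      rw [e5, PowerSeries.coeff_mul]
      refine Finset.sum_eq_zero fun y _ => by simp

end RC

end Pool.Agent.H75.Mono
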