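import Pool.Agent.H75.Mono.TR
import Pool.Agent.H75.Mono.RA

/-! # ROF, module ZZ: the double series `z2` -/

set_option autoImplicit false

namespace Pool.Agent.H75.Mono

open MvPolynomial Pool.Agent.H39.MonoR

section ZZ

variable {k : Type} [Field k] [Algebra k ℂ] {σ τ : Type} [Finite σ] [Finite τ]

/-- the test `{(ψ, w) : h(ψ) = c2(w) t^j}` with the function `c1` -/
private def th1 (h : MvPolynomial τ k) (j : ℕ) (t : Test2 k) : Test k :=
  ⟨(τ × Fin (j + 1) → ℂ) × t.E, {y | y.2 ∈ t.W ∧ Hit h j y.1 (t.c2 y.2)},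
    (t.cW.mem PMap.snd).and (ICons.hit j h PMap.fst (t.pf2.comp PMap.snd)),
    fun y => t.c1 y.2, t.pf1.comp PMap.snd⟩

/-- the test `{(φ, w) : g(φ) = c1(w) t^i}` with the function `c2` -/
private def th2 (g : MvPolynomial σ k) (i : ℕ) (t : Test2 k) : Test k :=
  ⟨(σ × Fin (i + 1) → ℂ) × t.E, {y | y.2 ∈ t.W ∧ Hit g i y.1 (t.c1 y.2)},
    (t.cW.mem PMap.snd).and (ICons.hit i g PMap.fst (t.pf1.comp PMap.snd)),
    fun y => t.c2 y.2, t.pf2.comp PMap.snd⟩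

private theorem z2_th1 (g : MvPolynomial σ k) (h : MvPolynomial τ k) (i j : ℕ) (t : Test2 k) :
    z2 g h i j t = ↑(Lu k ^ (-((Nat.card τ * j : ℕ) : ℤ))) * zt g i (th1 h j t) := by
  have e : {x : (σ × Fin (i + 1) → ℂ) × (τ × Fin (j + 1) → ℂ) × t.E |
      x.2.2 ∈ t.W ∧ Hit g i x.1 (t.c1 x.2.2) ∧ Hit h j x.2.1 (t.c2 x.2.2)} =
      {x : (σ × Fin (i + 1) → ℂ) × (th1 h j t).E |
        x.2 ∈ (th1 h j t).W ∧ Hit g i x.1 ((th1 h j t).c x.2)} := by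
    ext x
    exact ⟨fun ⟨h1, h2, h3⟩ => ⟨⟨h1, h3⟩, h2⟩, fun ⟨⟨h1, h3⟩, h2⟩ => ⟨h1, h2, h3⟩⟩
  unfold z2 zt
  rw [e]
  exact (fun a b c => by ring : ∀ a b c : M k, a * (b * c) = c * (a * b)) _ _ _

private theorem z2_th2 (g : MvPolynomial σ k) (h : MvPolynomial τ k) (i j : ℕ) (t : Test2 k) :
    z2 g h i j t = ↑(Lu k ^ (-((Nat.card σ * i : ℕ) : ℤ))) * zt h j (th2 g i t) := by
  have e : mo k {x : (σ × Fin (i + 1) → ℂ) × (τ × Fin (j + 1) → ℂ) × t.E |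
      x.2.2 ∈ t.W ∧ Hit g i x.1 (t.c1 x.2.2) ∧ Hit h j x.2.1 (t.c2 x.2.2)} =
      mo k {x : (τ × Fin (j + 1) → ℂ) × (th2 g i t).E |
        x.2 ∈ (th2 g i t).W ∧ Hit h j x.1 ((th2 g i t).c x.2)} := by
    refine mo_bij ?_ ?_ (f := fun x => (x.2.1, (x.1, x.2.2))) ?_ ⟨?_, ?_, ?_⟩
    · exact (t.cW.mem (PMap.snd.comp PMap.snd)).and
        ((ICons.hit i g PMap.fst (t.pf1.comp (PMap.snd.comp PMap.snd))).and
        (ICons.hit j h (PMap.fst.comp PMap.snd) (t.pf2.comp (PMap.snd.comp PMap.snd))))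
    · exact ((th2 g i t).cW.mem PMap.snd).and
        (ICons.hit j h PMap.fst ((th2 g i t).pf.comp PMap.snd))
    · exact PMap.prodMk (PMap.fst.comp PMap.snd)
        (PMap.prodMk PMap.fst (PMap.snd.comp PMap.snd))
    · rintro ⟨x, y, w⟩ ⟨h1, h2, h3⟩
      exact ⟨⟨h1, h2⟩, h3⟩
    · rintro ⟨x, y, w⟩ _ ⟨x', y', w'⟩ _ h
      have h1 : y = y' := congrArg Prod.fst h
      have h2 : (x, w) = (x', w') := congrArg Prod.snd h
      have h3 : x = x' := congrArg Prod.fst h2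
      have h4 : w = w' := congrArg Prod.snd h2
      rw [h1, h3, h4]
    · rintro ⟨y, x, w⟩ ⟨⟨h1, h2⟩, h3⟩
      exact ⟨(x, y, w), ⟨h1, h2, h3⟩, rfl⟩
  unfold z2
  rw [e]
  unfold zt
  exact (fun a b c => by ring : ∀ a b c : M k, a * (b * c) = b * (a * c)) _ _ _

/-- the series `i ↦ z2 g h i j t` is rational, uniformly in `j` and `t` -/
theorem z2_rat1 {g : MvPolynomial σ k} {S : Set (ℤ × ℕ)} (hg : ZRat g S) (h : MvPolynomial τ k) :
    RatF (Lu k) S (fun x : ℕ × Test2 k => PowerSeries.mk fun i => z2 g h i x.1 x.2) := by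
  refine ((RatF.comp hg fun x : ℕ × Test2 k => th1 h x.1 x.2).smul
    fun x => ↑(Lu k ^ (-((Nat.card τ * x.1 : ℕ) : ℤ)))).congr fun x => ?_
  ext i
  rw [PowerSeries.coeff_C_mul, PowerSeries.coeff_mk, z2_th1, Zt, PowerSeries.coeff_mk]

theorem z2_rat2 {h : MvPolynomial τ k} {S : Set (ℤ × ℕ)} (hh : ZRat h S) (g : MvPolynomial σ k) :
    RatF (Lu k) S (fun x : ℕ × Test2 k => PowerSeries.mk fun j => z2 g h x.1 j x.2) := by
  refine ((RatF.comp hh fun x : ℕ × Test2 k => th2 g x.1 x.2).smul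
    fun x => ↑(Lu k ^ (-((Nat.card σ * x.1 : ℕ) : ℤ)))).congr fun x => ?_
  ext i
  rw [PowerSeries.coeff_C_mul, PowerSeries.coeff_mk, z2_th2, Zt, PowerSeries.coeff_mk]

/-- the same after subtraction of the constant family -/
theorem z2_inv1 {g : MvPolynomial σ k} {S : Set (ℤ × ℕ)} {u : ℕ → M k}
    (hg : RatF (Lu k) S fun t : Test k => PowerSeries.mk fun d => zt g d t - u d * mass t)
    (h : MvPolynomial τ k) :
    RatF (Lu k) S (fun x : ℕ × Test2 k => PowerSeries.mk fun i =>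
      z2 g h i x.1 x.2 - u i * zt h x.1 x.2.snd) := by
  refine ((RatF.comp hg fun x : ℕ × Test2 k => th1 h x.1 x.2).smul
    fun x => ↑(Lu k ^ (-((Nat.card τ * x.1 : ℕ) : ℤ)))).congr fun x => ?_
  have e : zt h x.1 x.2.snd = ↑(Lu k ^ (-((Nat.card τ * x.1 : ℕ) : ℤ))) *
      mass (th1 h x.1 x.2) := by
    unfold zt mass
    rw [mul_comm]
    rfl
  ext i
  rw [PowerSeries.coeff_C_mul, PowerSeries.coeff_mk, PowerSeries.coeff_mk, z2_th1, e, mul_sub,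
    mul_left_comm (u i)]

theorem z2_inv2 {h : MvPolynomial τ k} {S : Set (ℤ × ℕ)} {u : ℕ → M k}
    (hh : RatF (Lu k) S fun t : Test k => PowerSeries.mk fun d => zt h d t - u d * mass t)
    (g : MvPolynomial σ k) :
    RatF (Lu k) S (fun x : ℕ × Test2 k => PowerSeries.mk fun j =>
      z2 g h x.1 j x.2 - u j * zt g x.1 x.2.fst) := by
  refine ((RatF.comp hh fun x : ℕ × Test2 k => th2 g x.1 x.2).smul
    fun x => ↑(Lu k ^ (-((Nat.card σ * x.1 : ℕ) : ℤ)))).congr fun x => ?_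
  have e : zt g x.1 x.2.fst = ↑(Lu k ^ (-((Nat.card σ * x.1 : ℕ) : ℤ))) *
      mass (th2 g x.1 x.2) := by
    unfold zt mass
    rw [mul_comm]
    rfl
  ext i
  rw [PowerSeries.coeff_C_mul, PowerSeries.coeff_mk, PowerSeries.coeff_mk, z2_th2, e, mul_sub,
    mul_left_comm (u i)]

end ZZ

end Pool.Agent.H75.Mono
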