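import Pool.Agent.H75.Mono.ZM
import Pool.Agent.H75.Mono.ZZ
import Pool.Agent.H75.Mono.RC

/-! # ROF, module ZN: products -/

set_option autoImplicit false

namespace Pool.Agent.H75.Mono

open MvPolynomial Pool.Agent.H39.MonoR

section ZN

variable {k : Type} [Field k] [Algebra k ℂ] {σ τ : Type} [Finite σ] [Finite τ]

theorem zt_mul (g : MvPolynomial σ k) (h : MvPolynomial τ k) (d : ℕ) (t : Test k) :
    zt (smul' g h) d t = ∑ i ∈ Finset.range (d + 1), z2 g h i (d - i) t.cross +
      (∑ i ∈ Finset.range (d + 1), z2 g h i (d - i) t.cross0 +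
        ↑(Lu k ^ ((Nat.card τ : ℕ) : ℤ)) * zt g d t.zer) := by
  have hP : ∀ (φ : (σ ⊕ τ) × Fin (d + 1) → ℂ) (c : ℂ), Hit (smul' g h) d φ c ↔
      ∀ l, l ≤ d → PowerSeries.coeff l (arcEval k (sp1 φ) g * arcEval k (sp2 φ) h) =
        if l = d then c else 0 := by
    intro φ c
    have e : arcEval k φ (smul' g h) = arcEval k (sp1 φ) g * arcEval k (sp2 φ) h := by
      rw [← arcEval_inl, ← arcEval_inr]
      unfold smul' arcEval
      rw [map_mul]
    unfold Hit
    rw [e]
  have hc : ICons k {x : (σ × Fin (d + 1) → ℂ) × (τ × Fin (d + 1) → ℂ) × t.E |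
      x.2.2 ∈ t.W ∧ ∀ l, l ≤ d → PowerSeries.coeff l (arcEval k x.1 g * arcEval k x.2.1 h) =
        if l = d then t.c x.2.2 else 0} := by
    refine (t.cW.mem (PMap.snd.comp PMap.snd)).and (ICons.forall_le d fun l => ?_)
    have h1 : PFun k (fun x : (σ × Fin (d + 1) → ℂ) × (τ × Fin (d + 1) → ℂ) × t.E =>
        PowerSeries.coeff l (arcEval k x.1 g * arcEval k x.2.1 h)) := by
      simp only [PowerSeries.coeff_mul]
      exact PFun.sum _ fun p _ => (PFun.coeff_arcEval p.1 g PMap.fst).mul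
        (PFun.coeff_arcEval p.2 h (PMap.fst.comp PMap.snd))
    by_cases hl : l = d
    · simp only [if_pos hl]
      exact ICons.eq h1 (t.pf.comp (PMap.snd.comp PMap.snd))
    · simp only [if_neg hl]
      exact ICons.eq h1 PFun.zero
  have hp : ICons k {x : (σ × Fin (d + 1) → ℂ) × (τ × Fin (d + 1) → ℂ) × t.E |
      t.c x.2.2 ≠ 0} := ICons.ne (t.pf.comp (PMap.snd.comp PMap.snd)) PFun.zero
  rw [zt_sp (smul' g h) d t (fun φ ψ c => ∀ l, l ≤ d →
    PowerSeries.coeff l (arcEval k φ g * arcEval k ψ h) = if l = d then c else 0) hP hc,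
    mo_split hc hp, add_mul]
  exact congrArg₂ (· + ·) (zt_mul_ne g h d t) (zt_mul_zero g h d t)

theorem ZRat.mul {g : MvPolynomial σ k} {h : MvPolynomial τ k} {S S' : Set (ℤ × ℕ)}
    (hg : ZRat g S) (hh : ZRat h S') : ZRat (smul' g h) (S ∪ S') := by
  have h0 := RatF.cauchy (fun i j (t : Test2 k) => z2 g h i j t) (z2_rat1 hg h) (z2_rat2 hh g)
  have h1 := h0.comp (fun t : Test k => t.cross)
  have h2 := h0.comp (fun t : Test k => t.cross0)
  have h3 := RatF.smul (RatF.comp hg (fun t : Test k => t.zer))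
    (fun _ => (↑(Lu k ^ ((Nat.card τ : ℕ) : ℤ)) : M k))
  have h4 := (h1.add (h2.add h3)).mono (S' := S ∪ S') (by
    intro p hp
    rcases hp with hp | hp | hp
    · exact hp
    · exact hp
    · exact Or.inl hp)
  refine RatF.congr h4 fun t => ?_
  refine PowerSeries.ext fun d => ?_
  unfold Zt
  simp only [map_add, PowerSeries.coeff_mk, PowerSeries.coeff_C_mul]
  rw [zt_mul g h d t]

end ZN

end Pool.Agent.H75.Mono
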