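import Pool.Agent.H75.Mono.TR
import Pool.Agent.H75.Mono.RB
import Pool.Agent.H75.Mono.TS

/-! # ROF, module ZP: powers -/

set_option autoImplicit false

namespace Pool.Agent.H75.Mono

open MvPolynomial Pool.Agent.H39.MonoR

section ZP

variable {k : Type} [Field k] [Algebra k ℂ] {σ : Type} [Finite σ]

theorem ZP.coeff_Xe (e l : ℕ) (G : PowerSeries ℂ) :
    PowerSeries.coeff l (PowerSeries.X ^ e * G) = if e ≤ l then PowerSeries.coeff (l - e) G else 0 := by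
  rw [PowerSeries.coeff_X_pow_mul']

theorem ZP.lead_ne (G : PowerSeries ℂ) (hG : PowerSeries.coeff 0 G ≠ 0) (e d : ℕ) {c : ℂ}
    (hc : c ≠ 0) : (∀ l, l ≤ d → PowerSeries.coeff l (PowerSeries.X ^ e * G) =
      if l = d then c else 0) ↔ e = d ∧ PowerSeries.coeff 0 G = c := by
  constructor
  · intro h
    by_cases hed : e ≤ d
    · have h1 := h e hed
      rw [ZP.coeff_Xe, if_pos le_rfl, Nat.sub_self] at h1
      by_cases hed' : e = d
      · rw [if_pos hed'] at h1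
        exact ⟨hed', h1⟩
      · rw [if_neg hed'] at h1
        exact absurd h1 hG
    · have h1 := h d le_rfl
      rw [ZP.coeff_Xe, if_neg hed, if_pos rfl] at h1
      exact absurd h1.symm hc
  · rintro ⟨rfl, rfl⟩ l hl
    rw [ZP.coeff_Xe]
    by_cases h1 : l = e
    · subst h1
      simp
    · rw [if_neg (by omega), if_neg h1]

theorem ZP.lead_zero (G : PowerSeries ℂ) (hG : PowerSeries.coeff 0 G ≠ 0) (e d : ℕ) :
    (∀ l, l ≤ d → PowerSeries.coeff l (PowerSeries.X ^ e * G) =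
      if l = d then (0 : ℂ) else 0) ↔ d < e := by
  constructor
  · intro h
    by_contra hed
    have h1 := h e (by omega)
    rw [ZP.coeff_Xe, if_pos le_rfl, Nat.sub_self] at h1
    rw [ite_self] at h1
    exact hG h1
  · intro h l hl
    rw [ZP.coeff_Xe, if_neg (by omega), ite_self]

theorem ZP.fact (F : PowerSeries ℂ) (hF : F ≠ 0) : ∃ (e : ℕ) (G : PowerSeries ℂ),
    PowerSeries.coeff 0 G ≠ 0 ∧ F = PowerSeries.X ^ e * G := by
  obtain ⟨n, hn, hmin⟩ : ∃ n, PowerSeries.coeff n F ≠ 0 ∧ ∀ m < n, PowerSeries.coeff m F = 0 := by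
    classical
    have hex : ∃ n, PowerSeries.coeff n F ≠ 0 := by
      by_contra hcon
      push Not at hcon
      exact hF (PowerSeries.ext fun n => by rw [hcon n, map_zero])
    refine ⟨Nat.find hex, Nat.find_spec hex, fun m hm => ?_⟩
    have := Nat.find_min hex hm
    push Not at this
    exact this
  have h1 : (PowerSeries.X : PowerSeries ℂ) ^ n ∣ F := PowerSeries.X_pow_dvd_iff.2 hmin
  obtain ⟨G, hG⟩ := h1
  refine ⟨n, G, ?_, hG⟩
  have h2 := hn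
  rw [hG, ZP.coeff_Xe, if_pos le_rfl, Nat.sub_self] at h2
  exact h2

omit [Finite σ] in
theorem ZP.arcEval_pow {N : ℕ} (f : MvPolynomial σ k) (m : ℕ) (φ : σ × Fin N → ℂ) :
    arcEval k φ (f ^ m) = (arcEval k φ f) ^ m := by
  unfold arcEval
  rw [map_pow]

theorem ZP.pow_lead (G : PowerSeries ℂ) (m : ℕ) :
    PowerSeries.coeff 0 (G ^ m) = (PowerSeries.coeff 0 G) ^ m := by
  rw [PowerSeries.coeff_zero_eq_constantCoeff, map_pow]

/-- `g(φ)^m = c t^d mod t^(d+1)`, the case `c ≠ 0` -/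
theorem hit_pow_ne {N : ℕ} (f : MvPolynomial σ k) {m : ℕ} (hm : 0 < m) (d : ℕ)
    (φ : σ × Fin N → ℂ) {c : ℂ} (hc : c ≠ 0) :
    Hit (f ^ m) d φ c ↔ m ∣ d ∧ ∃ b : ℂ, b ≠ 0 ∧ b ^ m = c ∧ Hit f (d / m) φ b := by
  unfold Hit
  rw [ZP.arcEval_pow]
  generalize arcEval k φ f = F
  by_cases hF : F = 0
  · subst hF
    constructor
    · intro h
      have := h d le_rfl
      rw [zero_pow hm.ne', map_zero, if_pos rfl] at this
      exact absurd this.symm hc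
    · rintro ⟨_, b, hb, _, h⟩
      have := h _ le_rfl
      rw [map_zero, if_pos rfl] at this
      exact absurd this.symm hb
  · obtain ⟨e, G, hG, rfl⟩ := ZP.fact F hF
    have e1 : (PowerSeries.X ^ e * G) ^ m = PowerSeries.X ^ (e * m) * G ^ m := by
      rw [mul_pow, pow_mul]
    have hGm : PowerSeries.coeff 0 (G ^ m) ≠ 0 := by
      rw [ZP.pow_lead]
      exact pow_ne_zero _ hG
    rw [e1, ZP.lead_ne _ hGm _ _ hc, ZP.pow_lead]
    constructor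
    · rintro ⟨rfl, rfl⟩
      refine ⟨Dvd.intro_left e rfl, PowerSeries.coeff 0 G, hG, rfl, ?_⟩
      rw [ZP.lead_ne _ hG _ _ hG]
      exact ⟨(Nat.mul_div_cancel e hm).symm, rfl⟩
    · rintro ⟨hd, b, hb, rfl, h⟩
      rw [ZP.lead_ne _ hG _ _ hb] at h
      obtain ⟨h1, h2⟩ := h
      refine ⟨?_, by rw [h2]⟩
      rw [h1, Nat.div_mul_cancel hd]

/-- the case `c = 0` -/
theorem hit_pow_zero {N : ℕ} (f : MvPolynomial σ k) {m : ℕ} (hm : 0 < m) (d : ℕ)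
    (φ : σ × Fin N → ℂ) : Hit (f ^ m) d φ 0 ↔ Hit f (d / m) φ 0 := by
  unfold Hit
  rw [ZP.arcEval_pow]
  generalize arcEval k φ f = F
  by_cases hF : F = 0
  · subst hF
    constructor
    · intro h l hl
      simp
    · intro h l hl
      rw [zero_pow hm.ne']
      simp
  · obtain ⟨e, G, hG, rfl⟩ := ZP.fact F hF
    have e1 : (PowerSeries.X ^ e * G) ^ m = PowerSeries.X ^ (e * m) * G ^ m := by
      rw [mul_pow, pow_mul]
    have hGm : PowerSeries.coeff 0 (G ^ m) ≠ 0 := by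
      rw [ZP.pow_lead]
      exact pow_ne_zero _ hG
    rw [e1, ZP.lead_zero _ hGm, ZP.lead_zero _ hG]
    exact (Nat.div_lt_iff_lt_mul hm).symm

omit [Finite σ] in
theorem ZP.hit_unique {N : ℕ} (f : MvPolynomial σ k) (d : ℕ) (φ : σ × Fin N → ℂ) {a b : ℂ}
    (ha : Hit f d φ a) (hb : Hit f d φ b) : a = b := by
  have h1 := ha d le_rfl
  have h2 := hb d le_rfl
  rw [if_pos rfl] at h1 h2
  rw [← h1, h2]

theorem ZP.cancel (n d : ℕ) (x : M k) :
    (↑(Lu k ^ ((n * (d + 1 - 1) : ℕ) : ℤ)) * x) * ↑(Lu k ^ (-((n * d : ℕ) : ℤ))) = x := by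
  rw [Nat.add_sub_cancel]
  have e : (↑(Lu k ^ ((n * d : ℕ) : ℤ)) : M k) * ↑(Lu k ^ (-((n * d : ℕ) : ℤ))) = 1 := by
    rw [← Units.val_mul, ← zpow_add, add_neg_cancel, zpow_zero, Units.val_one]
  calc _ = (↑(Lu k ^ ((n * d : ℕ) : ℤ)) * ↑(Lu k ^ (-((n * d : ℕ) : ℤ)))) * x := by ring
    _ = x := by rw [e, one_mul]

theorem ZP.icons_hit {N : ℕ} (f : MvPolynomial σ k) (d : ℕ) (t : Test k) :
    ICons k {x : (σ × Fin N → ℂ) × t.E | x.2 ∈ t.W ∧ Hit f d x.1 (t.c x.2)} :=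
  (t.cW.mem PMap.snd).and (ICons.hit d f PMap.fst (t.pf.comp PMap.snd))

theorem zt_pow (f : MvPolynomial σ k) {m : ℕ} (hm : 0 < m) (d : ℕ) (t : Test k) :
    zt (f ^ m) d t = (if m ∣ d then zt f (d / m) (t.root m) else 0) + zt f (d / m) t.zer := by
  have hdm : d / m < d + 1 := Nat.lt_succ_of_le (Nat.div_le_self d m)
  have hA : ICons k {x : (σ × Fin (d + 1) → ℂ) × t.E | x.2 ∈ t.W ∧ Hit (f ^ m) d x.1 (t.c x.2)} :=
    ZP.icons_hit _ _ _
  have hp : ICons k {x : (σ × Fin (d + 1) → ℂ) × t.E | t.c x.2 ≠ 0} :=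
    ICons.ne (t.pf.comp PMap.snd) PFun.zero
  have h0 : zt (f ^ m) d t = mo k {x : (σ × Fin (d + 1) → ℂ) × t.E |
      x.2 ∈ t.W ∧ Hit (f ^ m) d x.1 (t.c x.2)} * ↑(Lu k ^ (-((Nat.card σ * d : ℕ) : ℤ))) := rfl
  rw [h0, mo_split hA hp, add_mul]
  congr 1
  · by_cases hd : m ∣ d
    · rw [if_pos hd]
      have hB := mo_hit (N := d + 1) hdm f (t.root m)
      have e1 : mo k {x : (σ × Fin (d + 1) → ℂ) × (t.root m).E |
          x.2 ∈ (t.root m).W ∧ Hit f (d / m) x.1 ((t.root m).c x.2)} =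
        mo k {x : (σ × Fin (d + 1) → ℂ) × t.E | x ∈ {x : (σ × Fin (d + 1) → ℂ) × t.E |
          x.2 ∈ t.W ∧ Hit (f ^ m) d x.1 (t.c x.2)} ∧ t.c x.2 ≠ 0} := by
        refine mo_bij (ZP.icons_hit _ _ _) (hA.and hp)
          (f := fun x : (σ × Fin (d + 1) → ℂ) × (t.E × ℂ) => (x.1, x.2.1))
          (PMap.fst.prodMk (PMap.fst.comp PMap.snd)) ⟨?_, ?_, ?_⟩
        · rintro ⟨φ, w, b⟩ ⟨⟨h1, h2, h3⟩, h4⟩
          have hc : t.c w ≠ 0 := by
            have h2' : b ^ m = t.c w := h2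
            rw [← h2']
            exact pow_ne_zero _ h3
          exact ⟨⟨h1, (hit_pow_ne f hm d φ hc).2 ⟨hd, b, h3, h2, h4⟩⟩, hc⟩
        · rintro ⟨φ, w, b⟩ ⟨_, h4⟩ ⟨φ', w', b'⟩ ⟨_, h4'⟩ h
          have h5 : φ = φ' := congrArg Prod.fst h
          have h6 : w = w' := congrArg Prod.snd h
          subst h5 h6
          have h7 : b = b' := ZP.hit_unique f _ φ h4 h4'
          rw [h7]
        · rintro ⟨φ, w⟩ ⟨⟨h1, h2⟩, h3⟩
          obtain ⟨_, b, hb, hbm, h4⟩ := (hit_pow_ne f hm d φ h3).1 h2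
          exact ⟨(φ, w, b), ⟨⟨h1, hbm, hb⟩, h4⟩, rfl⟩
      rw [← e1, hB, ZP.cancel]
    · rw [if_neg hd]
      have e1 : {x : (σ × Fin (d + 1) → ℂ) × t.E | x ∈ {x : (σ × Fin (d + 1) → ℂ) × t.E |
          x.2 ∈ t.W ∧ Hit (f ^ m) d x.1 (t.c x.2)} ∧ t.c x.2 ≠ 0} = ∅ := by
        ext ⟨φ, w⟩
        simp only [Set.mem_ofPred_eq, Set.mem_empty_iff_false, iff_false]
        rintro ⟨⟨_, h2⟩, h3⟩
        exact hd ((hit_pow_ne f hm d φ h3).1 h2).1
      rw [e1, mo_empty, zero_mul]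
  · have hB := mo_hit (N := d + 1) hdm f t.zer
    have e1 : {x : (σ × Fin (d + 1) → ℂ) × t.E | x ∈ {x : (σ × Fin (d + 1) → ℂ) × t.E |
          x.2 ∈ t.W ∧ Hit (f ^ m) d x.1 (t.c x.2)} ∧ ¬ t.c x.2 ≠ 0} =
        {x : (σ × Fin (d + 1) → ℂ) × t.zer.E |
          x.2 ∈ t.zer.W ∧ Hit f (d / m) x.1 (t.zer.c x.2)} := by
      ext ⟨φ, w⟩
      constructor
      · rintro ⟨⟨h1, h2⟩, h3⟩
        have h3' : t.c w = 0 := not_not.1 h3
        have h2' : Hit (f ^ m) d φ (t.c w) := h2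
        rw [h3'] at h2'
        exact ⟨⟨h1, h3'⟩, (hit_pow_zero f hm d φ).1 h2'⟩
      · rintro ⟨⟨h1, h3⟩, h2⟩
        refine ⟨⟨h1, ?_⟩, not_not.2 h3⟩
        have h4 := (hit_pow_zero f hm d φ).2 h2
        show Hit (f ^ m) d φ (t.c w)
        rw [show t.c w = 0 from h3]
        exact h4
    have e2 : mo k {x : (σ × Fin (d + 1) → ℂ) × t.E | x ∈ {x : (σ × Fin (d + 1) → ℂ) × t.E |
          x.2 ∈ t.W ∧ Hit (f ^ m) d x.1 (t.c x.2)} ∧ ¬ t.c x.2 ≠ 0} =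
        ↑(Lu k ^ ((Nat.card σ * (d + 1 - 1) : ℕ) : ℤ)) * zt f (d / m) t.zer :=
      (congrArg (mo k) e1).trans hB
    rw [e2, ZP.cancel]

theorem ZRat.pow {f : MvPolynomial σ k} {S : Set (ℤ × ℕ)} (h : ZRat f S) {m : ℕ} (hm : 0 < m) :
    ZRat (f ^ m) (scl m '' S) := by
  have h1 := (RatF.expand h hm).comp (fun t : Test k => t.root m)
  have h2 := (RatF.floor h hm).comp (fun t : Test k => t.zer)
  have h3 := h1.add h2
  rw [Set.union_self] at h3
  refine RatF.congr h3 fun t => ?_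
  refine PowerSeries.ext fun d => ?_
  unfold Zt
  simp only [map_add, PowerSeries.coeff_mk]
  rw [zt_pow f hm d t]

end ZP

end Pool.Agent.H75.Mono
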