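import Pool.Agent.H75.Mono.ZC
import Pool.Agent.H75.Mono.ZN
import Pool.Agent.H75.Mono.ZP
import Pool.Agent.H75.Mono.ZE
import Pool.Agent.H75.Mono.BA
import Pool.Agent.H75.Mono.BP
import Pool.Agent.H75.Mono.BS

/-! # ROF: assembly -/

set_option autoImplicit false

namespace Pool.Agent.H75.Mono

open MvPolynomial Pool.Agent.H39.MonoR

section FIN

variable {k : Type} [Field k] {σ τ : Type}

/-- nonconstant -/
def Nc (f : MvPolynomial σ k) : Prop := ∃ i, pderiv i f ≠ 0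

theorem Nc.ne {f : MvPolynomial σ k} (h : Nc f) : f ≠ 0 := by
  rintro rfl
  obtain ⟨i, hi⟩ := h
  exact hi (map_zero _)

theorem Nc.not_unit {f : MvPolynomial σ k} (h : Nc f) : ¬ IsUnit f := by
  intro hu
  obtain ⟨i, hi⟩ := h
  rw [MvPolynomial.isUnit_iff_eq_C_of_isReduced] at hu
  obtain ⟨r, -, rfl⟩ := hu
  exact hi (pderiv_C)

theorem Nc.X (i : σ) : Nc (X i : MvPolynomial σ k) := ⟨i, by
  classical
  rw [pderiv_X_self]
  exact one_ne_zero⟩

theorem Nc.smul {f : MvPolynomial σ k} (h : Nc f) {a : k} (ha : a ≠ 0) : Nc (C a * f) := by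
  obtain ⟨i, hi⟩ := h
  refine ⟨i, ?_⟩
  rw [Derivation.leibniz, pderiv_C, smul_zero, add_zero, smul_eq_mul]
  exact mul_ne_zero (by simpa using ha) hi

theorem Nc.pow [CharZero k] {f : MvPolynomial σ k} (h : Nc f) {m : ℕ} (hm : m ≠ 0) :
    Nc (f ^ m) := by
  obtain ⟨i, hi⟩ := id h
  refine ⟨i, ?_⟩
  rw [Derivation.leibniz_pow]
  simp only [smul_eq_mul, nsmul_eq_mul]
  refine mul_ne_zero (by exact_mod_cast hm) (mul_ne_zero (pow_ne_zero _ h.ne) hi)

theorem pderiv_inl (g : MvPolynomial σ k) (i : σ) :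
    pderiv (Sum.inl i) (rename (Sum.inl : σ → σ ⊕ τ) g) = rename Sum.inl (pderiv i g) := by
  classical
  exact pderiv_rename Sum.inl_injective i g

theorem pderiv_inl_inr (h : MvPolynomial τ k) (i : σ) :
    pderiv (Sum.inl i : σ ⊕ τ) (rename Sum.inr h) = 0 := by
  classical
  refine pderiv_eq_zero_of_notMem_vars fun hi => ?_
  obtain ⟨j, -, hj⟩ := Finset.mem_image.1 (vars_rename _ _ hi)
  exact Sum.inr_ne_inl hj

theorem Nc.mul {g : MvPolynomial σ k} {h : MvPolynomial τ k} (hg : Nc g) (hh : h ≠ 0) :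
    Nc (smul' g h) := by
  obtain ⟨i, hi⟩ := hg
  refine ⟨Sum.inl i, ?_⟩
  rw [smul', Derivation.leibniz, pderiv_inl, pderiv_inl_inr, smul_zero, zero_add, smul_eq_mul]
  refine mul_ne_zero ?_ ?_
  · rwa [Ne, map_eq_zero_iff _ (rename_injective _ Sum.inr_injective)]
  · rwa [Ne, map_eq_zero_iff _ (rename_injective _ Sum.inl_injective)]

theorem Nc.add {g : MvPolynomial σ k} {h : MvPolynomial τ k} (hg : Nc g) : Nc (sadd g h) := by
  obtain ⟨i, hi⟩ := hg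
  refine ⟨Sum.inl i, ?_⟩
  rw [sadd, map_add, pderiv_inl, pderiv_inl_inr, add_zero]
  rwa [Ne, map_eq_zero_iff _ (rename_injective _ Sum.inl_injective)]

/-- the property which is proved by induction on the formula -/
def Pn [Algebra k ℂ] [Finite σ] (f : MvPolynomial σ k) : Prop :=
  Nc f ∧ QH f ∧ ∃ S : Finset (ℤ × ℕ), Inv f (S : Set (ℤ × ℕ)) ∧
    ∀ p ∈ S, p.1 < 0 ∧ 0 < p.2 ∧ SRs k f (-(p.1 : ℚ) / p.2)

variable [Algebra k ℂ] [Finite σ] [Finite τ]

theorem Pn.var : Pn (X () : MvPolynomial Unit k) :=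
  ⟨Nc.X (), QH.X (), ∅, by simpa using Inv.var, by simp⟩

theorem charZero (k : Type) [Field k] [Algebra k ℂ] : CharZero k :=
  (algebraMap k ℂ).charZero_iff (algebraMap k ℂ).injective |>.2 inferInstance

theorem Pn.smul {f : MvPolynomial σ k} (h : Pn f) {a : k} (ha : a ≠ 0) : Pn (C a * f) := by
  have := charZero k
  obtain ⟨h1, h2, S, h3, h4⟩ := h
  exact ⟨h1.smul ha, h2.smul a, S, h3.smul ha, fun p hp => ⟨(h4 p hp).1, (h4 p hp).2.1,
    (h4 p hp).2.2.smul ha⟩⟩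

open Classical in
/-- the roots for `S ∪ {(-1,1)}` -/
theorem Pn.sr {f : MvPolynomial σ k} (h1 : Nc f) {S : Finset (ℤ × ℕ)}
    (h4 : ∀ p ∈ S, p.1 < 0 ∧ 0 < p.2 ∧ SRs k f (-(p.1 : ℚ) / p.2)) {p : ℤ × ℕ}
    (hp : p ∈ insert ((-1, 1) : ℤ × ℕ) S) :
    p.1 < 0 ∧ 0 < p.2 ∧ SR k f (-(p.1 : ℚ) / p.2) := by
  have := charZero k
  rcases Finset.mem_insert.1 hp with rfl | hp
  · refine ⟨by norm_num, by norm_num, ?_⟩
    have := SR.one h1.ne h1.not_unit
    norm_num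
    exact this
  · exact ⟨(h4 p hp).1, (h4 p hp).2.1, (h4 p hp).2.2.sr⟩

theorem Pn.pow {f : MvPolynomial σ k} (h : Pn f) {m : ℕ} (hm : m ≠ 0) : Pn (f ^ m) := by
  classical
  have := charZero k
  rcases Nat.lt_or_ge m 2 with h2 | h2
  · have : m = 1 := by omega
    subst this
    simpa using h
  obtain ⟨h1, hq, S, h3, h4⟩ := h
  have hm' : 0 < m := Nat.pos_of_ne_zero hm
  refine ⟨h1.pow hm, hq.pow hm', (insert (-1, 1) S).image (scl m), ?_, ?_⟩
  · have := (ZRat.pow h3.zRat hm').inv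
    rwa [Finset.coe_image, Finset.coe_insert]
  · intro p hp
    obtain ⟨q, hq, rfl⟩ := Finset.mem_image.1 hp
    obtain ⟨h5, h6, h7⟩ := Pn.sr h1 h4 hq
    refine ⟨h5, Nat.mul_pos hm' h6, ?_⟩
    have h8 := h7.pow h2
    have e : -((scl m q).1 : ℚ) / ((scl m q).2 : ℕ) = -(q.1 : ℚ) / q.2 / m := by
      have hm0 : (m : ℚ) ≠ 0 := by exact_mod_cast hm
      have hq0 : (q.2 : ℚ) ≠ 0 := by exact_mod_cast h6.ne'
      simp only [scl]
      push_cast
      field_simp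
    rw [e]
    exact h8

theorem Pn.mul {g : MvPolynomial σ k} {h : MvPolynomial τ k} (hg : Pn g) (hh : Pn h) :
    Pn (smul' g h) := by
  classical
  have := charZero k
  obtain ⟨h1, hq, S, h3, h4⟩ := hg
  obtain ⟨h1', hq', S', h3', h4'⟩ := hh
  refine ⟨h1.mul h1'.ne, hq.mul hq', insert (-1, 1) S ∪ insert (-1, 1) S', ?_, ?_⟩
  · have := (h3.zRat.mul h3'.zRat).inv
    rwa [Finset.coe_union, Finset.coe_insert, Finset.coe_insert]
  · have key : ∀ p : ℤ × ℕ, p.1 < 0 → 0 < p.2 → SR k (smul' g h) (-(p.1 : ℚ) / p.2) →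
        p.1 < 0 ∧ 0 < p.2 ∧ SRs k (smul' g h) (-(p.1 : ℚ) / p.2) := by
      intro p h5 h6 h7
      refine ⟨h5, h6, ?_⟩
      by_cases h8 : -(p.1 : ℚ) / p.2 = 1
      · rw [h8]
        exact SRs.mul_one (SR.one h1.ne h1.not_unit) (SR.one h1'.ne h1'.not_unit)
      · exact h7.srs h8
    intro p hp
    rcases Finset.mem_union.1 hp with hp | hp
    · obtain ⟨h5, h6, h7⟩ := Pn.sr h1 h4 hp
      exact key p h5 h6 (h7.mul_left h1'.ne)
    · obtain ⟨h5, h6, h7⟩ := Pn.sr h1' h4' hp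
      exact key p h5 h6 (h7.mul_right h1.ne)

theorem cmb_div {p q : ℤ × ℕ} (hp : 0 < p.2) (hq : 0 < q.2) :
    -((cmb p q).1 : ℚ) / ((cmb p q).2 : ℕ) = -(p.1 : ℚ) / p.2 + -(q.1 : ℚ) / q.2 := by
  obtain ⟨x, hx⟩ := Nat.dvd_lcm_left p.2 q.2
  obtain ⟨y, hy⟩ := Nat.dvd_lcm_right p.2 q.2
  have hl : 0 < Nat.lcm p.2 q.2 := Nat.lcm_pos hp hq
  have hx0 : Nat.lcm p.2 q.2 / p.2 = x := by rw [hx]; exact Nat.mul_div_cancel_left x hp
  have hy0 : Nat.lcm p.2 q.2 / q.2 = y := by rw [hy]; exact Nat.mul_div_cancel_left y hq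
  have hp' : (p.2 : ℚ) ≠ 0 := by exact_mod_cast hp.ne'
  have hq' : (q.2 : ℚ) ≠ 0 := by exact_mod_cast hq.ne'
  have hl' : ((Nat.lcm p.2 q.2 : ℕ) : ℚ) ≠ 0 := by exact_mod_cast hl.ne'
  have ex : ((Nat.lcm p.2 q.2 : ℕ) : ℚ) = p.2 * x := by exact_mod_cast hx
  have ey : ((Nat.lcm p.2 q.2 : ℕ) : ℚ) = q.2 * y := by exact_mod_cast hy
  simp only [cmb]
  rw [hx0, hy0]
  push_cast
  rw [div_add_div _ _ hp' hq', div_eq_div_iff hl' (mul_ne_zero hp' hq')]
  linear_combination (p.1 : ℚ) * q.2 * ex + (q.1 : ℚ) * p.2 * ey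

theorem Pn.add {g : MvPolynomial σ k} {h : MvPolynomial τ k} (hg : Pn g) (hh : Pn h) :
    Pn (sadd g h) := by
  classical
  have := charZero k
  obtain ⟨h1, hq, S, h3, h4⟩ := hg
  obtain ⟨h1', hq', S', h3', h4'⟩ := hh
  refine ⟨h1.add, hq.add hq', Finset.image₂ cmb S S', ?_, ?_⟩
  · have h5 := Inv.add (fun p hp => (h4 p hp).2.1) (fun p hp => (h4' p hp).2.1) hq h3 h3'
    have e : ((Finset.image₂ cmb S S' : Finset (ℤ × ℕ)) : Set (ℤ × ℕ)) =
        cmbs (S : Set (ℤ × ℕ)) (S' : Set (ℤ × ℕ)) := by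
      ext r
      simp only [Finset.coe_image₂, Set.mem_image2, cmbs, Set.mem_ofPred_eq]
      constructor
      · rintro ⟨p, hp, q, hq, rfl⟩
        exact ⟨p, hp, q, hq, rfl⟩
      · rintro ⟨p, hp, q, hq, rfl⟩
        exact ⟨p, hp, q, hq, rfl⟩
    rwa [e]
  · intro r hr
    obtain ⟨p, hp, q, hq, rfl⟩ := Finset.mem_image₂.1 hr
    obtain ⟨a1, a2, a3⟩ := h4 p hp
    obtain ⟨b1, b2, b3⟩ := h4' q hq
    have hs1 : (0 : ℚ) < -(p.1 : ℚ) / p.2 := div_pos (by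
      have : (p.1 : ℚ) < 0 := by exact_mod_cast a1
      linarith) (by exact_mod_cast a2)
    have hs2 : (0 : ℚ) < -(q.1 : ℚ) / q.2 := div_pos (by
      have : (q.1 : ℚ) < 0 := by exact_mod_cast b1
      linarith) (by exact_mod_cast b2)
    have hl : 0 < (cmb p q).2 := Nat.lcm_pos a2 b2
    have hd := cmb_div a2 b2
    refine ⟨?_, hl, ?_⟩
    · have h6 : (0 : ℚ) < -((cmb p q).1 : ℚ) / ((cmb p q).2 : ℕ) := by
        rw [hd]; exact add_pos hs1 hs2
      rw [div_pos_iff_of_pos_right (by exact_mod_cast hl)] at h6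
      have h7 : ((cmb p q).1 : ℚ) < 0 := by linarith
      exact_mod_cast h7
    · rw [hd]
      exact a3.add b3 hs1 hs2

/-- the conclusion, with superfluous variables -/
theorem Pn.final {f : MvPolynomial σ k} (h : Pn f) {e : σ → τ} (he : Function.Injective e) :
    ∃ S : Finset (ℤ × ℕ), (∀ p ∈ S, p.1 < 0 ∧ 0 < p.2) ∧
      Zmot k (rename e f) ∈ RS k (S : Set (ℤ × ℕ)) ∧
      ∀ p ∈ S, IsRoot k (rename e f) (p.1 / p.2) := by
  classical
  have := charZero k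
  obtain ⟨h1, hq, S, h3, h4⟩ := h
  refine ⟨insert (-1, 1) S, ?_, ?_, ?_⟩
  · intro p hp
    have := Pn.sr h1 h4 hp
    exact ⟨this.1, this.2.1⟩
  · rw [Finset.coe_insert]
    refine Zmot_mem ?_ h3.zRat e he
    intro p hp
    rcases hp with rfl | hp
    · norm_num
    · exact (h4 p hp).2.1
  · intro p hp
    have h5 := ((Pn.sr h1 h4 hp).2.2.rename e he).isRoot
    rwa [neg_div, neg_neg] at h5

/-- read-once polynomials come from the constructions in separate variables -/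
theorem RO.exists_pn {σ : Type} [Finite σ] [DecidableEq σ] {s : Finset σ}
    {f : MvPolynomial σ k} (h : RO s f) : ∃ (τ : Type) (_ : Finite τ) (g : MvPolynomial τ k)
      (e : τ → σ), Function.Injective e ∧ (∀ x, e x ∈ s) ∧ f = rename e g ∧ Pn g := by
  induction h with
  | var i =>
    refine ⟨Unit, inferInstance, X (), fun _ => i, fun _ _ _ => rfl, by simp, ?_, Pn.var⟩
    rw [rename_X]
  | smul c hc _ ih =>
    obtain ⟨τ, hτ, g, e, h1, h2, rfl, h4⟩ := ih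
    exact ⟨τ, hτ, C c * g, e, h1, h2, by rw [map_mul, rename_C], h4.smul hc⟩
  | pow m hm _ ih =>
    obtain ⟨τ, hτ, g, e, h1, h2, rfl, h4⟩ := ih
    exact ⟨τ, hτ, g ^ m, e, h1, h2, by rw [map_pow], h4.pow hm⟩
  | mul hst _ _ ih1 ih2 =>
    obtain ⟨τ, hτ, g, e, h1, h2, rfl, h4⟩ := ih1
    obtain ⟨τ', hτ', g', e', h1', h2', rfl, h4'⟩ := ih2
    refine ⟨τ ⊕ τ', inferInstance, smul' g g', Sum.elim e e', ?_, ?_, ?_, h4.mul h4'⟩
    · refine Function.Injective.sumElim h1 h1' fun a b hab => ?_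
      exact Finset.disjoint_left.1 hst (h2 a) (hab ▸ h2' b)
    · rintro (x | x)
      · exact Finset.mem_union_left _ (h2 x)
      · exact Finset.mem_union_right _ (h2' x)
    · rw [smul', map_mul, rename_rename, rename_rename]
      rfl
  | add hst _ _ ih1 ih2 =>
    obtain ⟨τ, hτ, g, e, h1, h2, rfl, h4⟩ := ih1
    obtain ⟨τ', hτ', g', e', h1', h2', rfl, h4'⟩ := ih2
    refine ⟨τ ⊕ τ', inferInstance, sadd g g', Sum.elim e e', ?_, ?_, ?_, h4.add h4'⟩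
    · refine Function.Injective.sumElim h1 h1' fun a b hab => ?_
      exact Finset.disjoint_left.1 hst (h2 a) (hab ▸ h2' b)
    · rintro (x | x)
      · exact Finset.mem_union_left _ (h2 x)
      · exact Finset.mem_union_right _ (h2' x)
    · rw [sadd, map_add, rename_rename, rename_rename]
      rfl

/-- **The strong motivic monodromy conjecture for read-once polynomials.** -/
theorem RO.main {σ : Type} [Finite σ] [DecidableEq σ] {s : Finset σ}
    {f : MvPolynomial σ k} (h : RO s f) : ∃ S : Finset (ℤ × ℕ), (∀ p ∈ S, p.1 < 0 ∧ 0 < p.2) ∧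
      Zmot k f ∈ RS k (S : Set (ℤ × ℕ)) ∧ ∀ p ∈ S, IsRoot k f (p.1 / p.2) := by
  obtain ⟨τ, _, g, e, h1, -, rfl, h4⟩ := h.exists_pn
  exact h4.final h1

end FIN

end Pool.Agent.H75.Mono
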