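import Pool.Agent.H75.Mono.PF

/-! # ROF, module IC: constructible sets -/

set_option autoImplicit false

namespace Pool.Agent.H75.Mono

open MvPolynomial Pool.Agent.H39.MonoR

section IC

variable {k : Type} [Field k] [Algebra k ℂ] {E F : Type} [Aff E] [Aff F]

theorem ICons.eq {f g : E → ℂ} (hf : PFun k f) (hg : PFun k g) : ICons k {x : E | f x = g x} := by
  obtain ⟨p, hp⟩ := hf
  obtain ⟨q, hq⟩ := hg
  have e : {x : Aff.ι E → ℂ | Aff.co.symm x ∈ {x : E | f x = g x}} =
      {x : Aff.ι E → ℂ | aeval x p = aeval x q} := by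
    ext x
    simp only [Set.mem_ofPred_eq]
    rw [hp, hq, Equiv.apply_symm_apply]
  unfold ICons
  rw [e]
  exact B1_isCons_eq p q

theorem ICons.compl {A : Set E} (hA : ICons k A) : ICons k Aᶜ := IsCons.compl hA

theorem ICons.ne {f g : E → ℂ} (hf : PFun k f) (hg : PFun k g) : ICons k {x : E | f x ≠ g x} :=
  (ICons.eq hf hg).compl

theorem ICons.univ : ICons k (Set.univ : Set E) := by
  have h := IsCons.univ (k := k) (ι := Aff.ι E)
  exact h

theorem ICons.empty : ICons k (∅ : Set E) := by
  have h := IsCons.empty (k := k) (ι := Aff.ι E)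
  exact h

theorem ICons.inter {A B : Set E} (hA : ICons k A) (hB : ICons k B) : ICons k (A ∩ B) :=
  IsCons.inter hA hB

theorem ICons.union {A B : Set E} (hA : ICons k A) (hB : ICons k B) : ICons k (A ∪ B) :=
  IsCons.union hA hB

theorem ICons.and {p q : E → Prop} (hA : ICons k {x | p x}) (hB : ICons k {x | q x}) :
    ICons k {x | p x ∧ q x} := ICons.inter hA hB

theorem ICons.or {p q : E → Prop} (hA : ICons k {x | p x}) (hB : ICons k {x | q x}) :
    ICons k {x | p x ∨ q x} := ICons.union hA hB

theorem ICons.not {p : E → Prop} (hA : ICons k {x | p x}) : ICons k {x | ¬ p x} :=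
  ICons.compl hA

theorem ICons.const (p : Prop) : ICons k {_x : E | p} := by
  by_cases h : p
  · have e : {_x : E | p} = Set.univ := by ext x; simp [h]
    rw [e]; exact ICons.univ
  · have e : {_x : E | p} = ∅ := by ext x; simp [h]
    rw [e]; exact ICons.empty

theorem ICons.mem {A : Set F} (hA : ICons k A) {f : E → F} (hf : PMap k f) :
    ICons k {x | f x ∈ A} := by
  choose p hp using hf
  have h := IsCons.preimage hA p
  have e : {x : Aff.ι E → ℂ | Aff.co.symm x ∈ {x : E | f x ∈ A}} =
      {x : Aff.ι E → ℂ | (fun j => aeval x (p j)) ∈ {y : Aff.ι F → ℂ | Aff.co.symm y ∈ A}} := by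
    ext x
    simp only [Set.mem_ofPred_eq]
    have h1 : f (Aff.co.symm x) = Aff.co.symm (fun j => aeval x (p j)) := by
      rw [Equiv.eq_symm_apply]
      funext j
      have h2 := hp j (Aff.co.symm x)
      simp only [Equiv.apply_symm_apply] at h2
      exact h2
    rw [h1]
  unfold ICons
  rw [e]
  exact h

theorem ICons.forall_fin {J : Type*} [Finite J] {p : J → E → Prop} (h : ∀ j, ICons k {x | p j x}) :
    ICons k {x | ∀ j, p j x} := by
  classical
  have := Fintype.ofFinite J
  have hs : ∀ s : Finset J, ICons k {x : E | ∀ j ∈ s, p j x} := by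
    intro s
    induction s using Finset.induction_on with
    | empty =>
      have e : {x : E | ∀ j ∈ (∅ : Finset J), p j x} = Set.univ := by ext x; simp
      rw [e]; exact ICons.univ
    | insert a s ha ih =>
      have e : {x : E | ∀ j ∈ insert a s, p j x} = {x : E | p a x ∧ ∀ j ∈ s, p j x} := by
        ext x; simp
      rw [e]; exact ICons.and (h a) ih
  have := hs Finset.univ
  have e : {x : E | ∀ j ∈ (Finset.univ : Finset J), p j x} = {x | ∀ j, p j x} := by ext x; simp
  rwa [e] at this

theorem ICons.exists_fin {J : Type*} [Finite J] {p : J → E → Prop} (h : ∀ j, ICons k {x | p j x}) :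
    ICons k {x | ∃ j, p j x} := by
  have h1 := (ICons.forall_fin (fun j => (h j).not)).not
  have e : {x : E | ¬ ∀ j, ¬ p j x} = {x | ∃ j, p j x} := by ext x; simp
  rwa [e] at h1

theorem ICons.forall_lt (d : ℕ) {p : ℕ → E → Prop} (h : ∀ j, ICons k {x | p j x}) :
    ICons k {x | ∀ l, l < d → p l x} := by
  have h1 := ICons.forall_fin (J := Fin d) (p := fun j x => p j x) (fun j => h j)
  have e : {x : E | ∀ j : Fin d, p j x} = {x | ∀ l, l < d → p l x} := by
    ext x
    exact ⟨fun h l hl => h ⟨l, hl⟩, fun h j => h j j.2⟩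
  rwa [e] at h1

theorem ICons.forall_le (d : ℕ) {p : ℕ → E → Prop} (h : ∀ j, ICons k {x | p j x}) :
    ICons k {x | ∀ l, l ≤ d → p l x} := by
  have h1 := ICons.forall_lt (d + 1) h
  have e : {x : E | ∀ l, l < d + 1 → p l x} = {x | ∀ l, l ≤ d → p l x} := by
    ext x
    exact ⟨fun h l hl => h l (by omega), fun h l hl => h l (by omega)⟩
  rwa [e] at h1

theorem ICons.prod {A : Set E} {B : Set F} (hA : ICons k A) (hB : ICons k B) :
    ICons k {x : E × F | x.1 ∈ A ∧ x.2 ∈ B} :=
  ICons.and (hA.mem PMap.fst) (hB.mem PMap.snd)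

/-- the set of `x` with `f(φ(x)) = c(x) t^d mod t^(d+1)` -/
theorem ICons.hit {σ : Type} [Finite σ] {N : ℕ} (d : ℕ) (f : MvPolynomial σ k)
    {φ : E → (σ × Fin N → ℂ)} (hφ : PMap k φ) {c : E → ℂ} (hc : PFun k c) :
    ICons k {x | Hit f d (φ x) (c x)} := by
  unfold Hit
  apply ICons.forall_le
  intro l
  apply ICons.eq (PFun.coeff_arcEval l f hφ)
  by_cases hl : l = d
  · simpa only [if_pos hl] using hc
  · simpa only [if_neg hl] using PFun.zero

end IC

end Pool.Agent.H75.Mono
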