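import Pool.Agent.H75.Mono.IC

/-! # ROF, module MO: classes -/

set_option autoImplicit false

namespace Pool.Agent.H75.Mono

open MvPolynomial Pool.Agent.H39.MonoR

section MO

variable {k : Type} [Field k] [Algebra k ℂ] {E F : Type} [Aff E] [Aff F]

theorem Lu_val : algebraMap (K0 k) (M k) (L k) = ↑(Lu k) := by
  unfold Lu
  rw [IsUnit.unit_spec]

theorem mot_univ_eq {ι : Type} [Finite ι] :
    mot k (Set.univ : Set (ι → ℂ)) = ↑(Lu k ^ ((Nat.card ι : ℕ) : ℤ)) := by
  unfold mot
  rw [cl_univ, map_pow, Lu_val, zpow_natCast, Units.val_pow_eq_pow_val]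

theorem mo_empty : mo k (∅ : Set E) = 0 := by
  have h := cl_empty (k := k) (ι := Aff.ι E)
  unfold mo mot
  have e : {x : Aff.ι E → ℂ | Aff.co.symm x ∈ (∅ : Set E)} = ∅ := by ext x; simp
  rw [e, h, map_zero]

theorem mo_union {A B : Set E} (hA : ICons k A) (hB : ICons k B) (h : Disjoint A B) :
    mo k (A ∪ B) = mo k A + mo k B := by
  unfold mo mot
  have e : {x : Aff.ι E → ℂ | Aff.co.symm x ∈ A ∪ B} =
      {x : Aff.ι E → ℂ | Aff.co.symm x ∈ A} ∪ {x : Aff.ι E → ℂ | Aff.co.symm x ∈ B} := rfl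
  rw [e, cl_union hA hB, map_add]
  rw [Set.disjoint_left] at h ⊢
  intro x hx hx'
  exact h hx hx'

/-- cutting by a condition -/
theorem mo_split {A : Set E} (hA : ICons k A) {p : E → Prop} (hp : ICons k {x | p x}) :
    mo k A = mo k {x | x ∈ A ∧ p x} + mo k {x | x ∈ A ∧ ¬ p x} := by
  have h1 : ICons k {x | x ∈ A ∧ p x} := hA.inter hp
  have h2 : ICons k {x | x ∈ A ∧ ¬ p x} := hA.inter hp.compl
  rw [← mo_union h1 h2]
  · congr 1
    ext x
    simp only [Set.mem_union, Set.mem_ofPred_eq]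
    tauto
  · rw [Set.disjoint_left]
    intro x hx hx'
    exact hx'.2 hx.2

/-- bijective polynomial maps -/
theorem mo_bij {A : Set E} {B : Set F} (hA : ICons k A) (hB : ICons k B) {f : E → F}
    (hf : PMap k f) (h : Set.BijOn f A B) : mo k A = mo k B := by
  choose p hp using hf
  have h1 : ∀ x : Aff.ι E → ℂ, (fun j => aeval x (p j)) = Aff.co (f (Aff.co.symm x)) := by
    intro x
    funext j
    have h2 := hp j (Aff.co.symm x)
    simp only [Equiv.apply_symm_apply] at h2
    exact h2.symm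
  unfold mo mot
  rw [cl_bij hA hB p]
  refine ⟨?_, ?_, ?_⟩
  · intro x hx
    simp only [Set.mem_ofPred_eq] at hx ⊢
    rw [h1, Equiv.symm_apply_apply]
    exact h.1 hx
  · intro x hx y hy hxy
    simp only [Set.mem_ofPred_eq] at hx hy hxy
    rw [h1, h1] at hxy
    have h2 := h.2.1 hx hy (Aff.co.injective hxy)
    exact Aff.co.symm.injective h2
  · intro y hy
    obtain ⟨x, hx, hxy⟩ := h.2.2 hy
    refine ⟨Aff.co x, ?_, ?_⟩
    · simp only [Set.mem_ofPred_eq]
      rw [Equiv.symm_apply_apply]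
      exact hx
    · simp only
      rw [h1, Equiv.symm_apply_apply, hxy, Equiv.apply_symm_apply]

theorem mo_prod {A : Set E} {B : Set F} (hA : ICons k A) (hB : ICons k B) :
    mo k {x : E × F | x.1 ∈ A ∧ x.2 ∈ B} = mo k A * mo k B := by
  unfold mo mot
  rw [← map_mul, ← cl_prod hA hB]
  rfl

theorem mo_univ_pi {α : Type} [Finite α] :
    mo k (Set.univ : Set (α → ℂ)) = ↑(Lu k ^ ((Nat.card α : ℕ) : ℤ)) :=
  mot_univ_eq (k := k) (ι := α)

theorem mo_univ_C : mo k (Set.univ : Set ℂ) = ↑(Lu k) := by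
  have h := mot_univ_eq (k := k) (ι := Unit)
  have h1 : Nat.card Unit = 1 := by simp
  rw [h1, Nat.cast_one, zpow_one] at h
  exact h

theorem mo_univ_unit : mo k (Set.univ : Set Unit) = 1 := by
  have h := mot_univ_eq (k := k) (ι := Empty)
  have h1 : Nat.card Empty = 0 := by simp
  rw [h1, Nat.cast_zero, zpow_zero, Units.val_one] at h
  exact h

/-- finite disjoint unions -/
theorem mo_biUnion {J : Type*} (s : Finset J) {A : J → Set E} (hA : ∀ j ∈ s, ICons k (A j))
    (h : ∀ i ∈ s, ∀ j ∈ s, i ≠ j → Disjoint (A i) (A j)) :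
    mo k {x | ∃ j ∈ s, x ∈ A j} = ∑ j ∈ s, mo k (A j) := by
  classical
  have key : ICons k {x | ∃ j ∈ s, x ∈ A j} ∧
      mo k {x | ∃ j ∈ s, x ∈ A j} = ∑ j ∈ s, mo k (A j) := by
    induction s using Finset.induction_on with
    | empty =>
      have e : {x : E | ∃ j ∈ (∅ : Finset J), x ∈ A j} = ∅ := by ext x; simp
      rw [e]
      exact ⟨ICons.empty, by rw [mo_empty, Finset.sum_empty]⟩
    | insert a s ha ih =>
      obtain ⟨ih1, ih2⟩ := ih (fun j hj => hA j (Finset.mem_insert_of_mem hj))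
        (fun i hi j hj => h i (Finset.mem_insert_of_mem hi) j (Finset.mem_insert_of_mem hj))
      have e : {x : E | ∃ j ∈ insert a s, x ∈ A j} = A a ∪ {x : E | ∃ j ∈ s, x ∈ A j} := by
        ext x; simp
      rw [e]
      have hAa := hA a (Finset.mem_insert_self a s)
      refine ⟨hAa.union ih1, ?_⟩
      rw [mo_union hAa ih1, ih2, Finset.sum_insert ha]
      rw [Set.disjoint_left]
      rintro x hx ⟨j, hj, hxj⟩
      have hne : a ≠ j := fun h => ha (h ▸ hj)
      exact Set.disjoint_left.1 (h a (Finset.mem_insert_self a s) j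
        (Finset.mem_insert_of_mem hj) hne) hx hxj
  exact key.2

/-- adding a coordinate with a prescribed value -/
theorem mo_graph {A : Set E} (hA : ICons k A) {f : E → F} (hf : PMap k f) :
    mo k {x : E × F | x.1 ∈ A ∧ x.2 = f x.1} = mo k A := by
  have hB : ICons k {x : E × F | x.1 ∈ A ∧ x.2 = f x.1} := by
    refine ICons.and (hA.mem PMap.fst) ?_
    have h1 : ICons k {x : E × F | ∀ j : Aff.ι F, Aff.co x.2 j = Aff.co (f x.1) j} := by
      apply ICons.forall_fin
      intro j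
      exact ICons.eq (PMap.snd j) ((hf.comp PMap.fst) j)
    have e : {x : E × F | ∀ j : Aff.ι F, Aff.co x.2 j = Aff.co (f x.1) j} =
        {x : E × F | x.2 = f x.1} := by
      ext x
      simp only [Set.mem_ofPred_eq]
      constructor
      · intro h; exact Aff.co.injective (funext h)
      · intro h j; rw [h]
    rwa [e] at h1
  refine (mo_bij hA hB (PMap.prodMk PMap.id' hf) ⟨?_, ?_, ?_⟩).symm
  · intro x hx
    exact ⟨hx, rfl⟩
  · intro x _ y _ hxy
    exact (Prod.mk.inj hxy).1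
  · rintro ⟨x, y⟩ ⟨hx, hy⟩
    exact ⟨x, hx, Prod.ext rfl hy.symm⟩

end MO

end Pool.Agent.H75.Mono
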