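import Pool.Agent.H75.Mono.Defs

/-! # ROF, module PF: polynomial functions and polynomial maps -/

set_option autoImplicit false

namespace Pool.Agent.H75.Mono

open MvPolynomial Pool.Agent.H39.MonoR

section PF

variable {k : Type} [Field k] [Algebra k ℂ] {E F G : Type} [Aff E] [Aff F] [Aff G]

theorem PFun.const (c : k) : PFun k (fun _ : E => algebraMap k ℂ c) :=
  ⟨C c, fun x => by rw [MvPolynomial.aeval_C]⟩
theorem PFun.zero : PFun k (fun _ : E => (0 : ℂ)) := ⟨0, fun x => by rw [map_zero]⟩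
theorem PFun.one : PFun k (fun _ : E => (1 : ℂ)) := ⟨1, fun x => by rw [map_one]⟩
theorem PFun.add {f g : E → ℂ} (hf : PFun k f) (hg : PFun k g) : PFun k (fun x => f x + g x) := by
  obtain ⟨p, hp⟩ := hf
  obtain ⟨q, hq⟩ := hg
  exact ⟨p + q, fun x => by simp only [map_add, hp, hq]⟩
theorem PFun.sub {f g : E → ℂ} (hf : PFun k f) (hg : PFun k g) : PFun k (fun x => f x - g x) := by
  obtain ⟨p, hp⟩ := hf
  obtain ⟨q, hq⟩ := hg
  exact ⟨p - q, fun x => by simp only [map_sub, hp, hq]⟩
theorem PFun.neg {f : E → ℂ} (hf : PFun k f) : PFun k (fun x => - f x) := by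
  obtain ⟨p, hp⟩ := hf
  exact ⟨-p, fun x => by simp only [map_neg, hp]⟩
theorem PFun.mul {f g : E → ℂ} (hf : PFun k f) (hg : PFun k g) : PFun k (fun x => f x * g x) := by
  obtain ⟨p, hp⟩ := hf
  obtain ⟨q, hq⟩ := hg
  exact ⟨p * q, fun x => by simp only [map_mul, hp, hq]⟩
theorem PFun.pow {f : E → ℂ} (hf : PFun k f) (n : ℕ) : PFun k (fun x => f x ^ n) := by
  obtain ⟨p, hp⟩ := hf
  exact ⟨p ^ n, fun x => by simp only [map_pow, hp]⟩
theorem PFun.sum {J : Type*} (s : Finset J) {f : J → E → ℂ} (hf : ∀ j ∈ s, PFun k (f j)) :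
    PFun k (fun x => ∑ j ∈ s, f j x) := by
  classical
  induction s using Finset.induction_on with
  | empty => simpa using PFun.zero (k := k) (E := E)
  | insert a s ha ih =>
    have e : (fun x => ∑ j ∈ insert a s, f j x) = fun x => f a x + ∑ j ∈ s, f j x := by
      funext x
      rw [Finset.sum_insert ha]
    rw [e]
    exact PFun.add (hf a (Finset.mem_insert_self a s))
      (ih fun j hj => hf j (Finset.mem_insert_of_mem hj))
/-- composition -/
theorem PFun.comp {f : F → ℂ} {g : E → F} (hf : PFun k f) (hg : PMap k g) :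
    PFun k (fun x => f (g x)) := by
  obtain ⟨p, hp⟩ := hf
  choose q hq using hg
  refine ⟨bind₁ q p, fun x => ?_⟩
  show f (g x) = _
  rw [hp, aeval_bind₁]
  have e : Aff.co (g x) = fun j => aeval (Aff.co x) (q j) := by
    funext j
    exact hq j x
  rw [e]
theorem PFun.id' : PFun k (fun x : ℂ => x) :=
  ⟨X (), fun x => by rw [aeval_X]; rfl⟩
theorem PFun.apply {α : Type} [Finite α] (a : α) : PFun k (fun x : α → ℂ => x a) :=
  ⟨X a, fun x => by rw [aeval_X]; rfl⟩
theorem PMap.comp {f : F → G} {g : E → F} (hf : PMap k f) (hg : PMap k g) :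
    PMap k (fun x => f (g x)) := fun j => PFun.comp (hf j) hg
theorem PMap.id' : PMap k (fun x : E => x) := fun j => ⟨X j, fun x => by rw [aeval_X]⟩
theorem PMap.fst : PMap k (fun x : E × F => x.1) := fun j =>
  ⟨X (Sum.inl j), fun x => by rw [aeval_X]; rfl⟩
theorem PMap.snd : PMap k (fun x : E × F => x.2) := fun j =>
  ⟨X (Sum.inr j), fun x => by rw [aeval_X]; rfl⟩
theorem PMap.prodMk {f : E → F} {g : E → G} (hf : PMap k f) (hg : PMap k g) :
    PMap k (fun x => (f x, g x)) := by
  intro j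
  rcases j with j | j
  · exact hf j
  · exact hg j
theorem PMap.pi {α : Type} [Finite α] {f : E → α → ℂ} (hf : ∀ a, PFun k (fun x => f x a)) :
    PMap k f := hf
theorem PMap.of_pFun {f : E → ℂ} (hf : PFun k f) : PMap k f := fun _ => hf
theorem PFun.of_pMap {f : E → ℂ} (hf : PMap k f) : PFun k f := hf ()
theorem PMap.toUnit : PMap k (fun _ : E => ()) := fun j => j.elim

/-- the coefficients of `f(φ(t))`, where `φ` depends polynomially on `x` -/
theorem PFun.coeff_arcEval {σ : Type} [Finite σ] {N : ℕ} (l : ℕ) (f : MvPolynomial σ k)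
    {φ : E → (σ × Fin N → ℂ)} (hφ : PMap k φ) :
    PFun k (fun x => PowerSeries.coeff l (arcEval k (φ x) f)) := by
  obtain ⟨p, hp⟩ := exists_coeff_poly N l f
  exact PFun.comp (F := σ × Fin N → ℂ) (f := fun ψ => PowerSeries.coeff l (arcEval k ψ f))
    ⟨p, hp⟩ hφ

end PF

end Pool.Agent.H75.Mono
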