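import Pool.Agent.H75.Mono.RB

/-! # ROF2, module SA: multiples of denominators, subsequences, interleaving -/

set_option autoImplicit false

namespace Pool.Agent.H75.Mono

section SA

variable {R : Type*} [CommRing R] {u : Rˣ} {S S' : Set (ℤ × ℕ)} {T : Type*}
  {F : T → PowerSeries R}

theorem sa_mul {P Q : PowerSeries R} {A B : ℕ} (hP : ∀ n, A ≤ n → PowerSeries.coeff n P = 0)
    (hQ : ∀ n, B ≤ n → PowerSeries.coeff n Q = 0) :
    ∀ n, A + B ≤ n → PowerSeries.coeff n (P * Q) = 0 := by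
  intro n hn
  rw [PowerSeries.coeff_mul]
  refine Finset.sum_eq_zero fun x hx => ?_
  rw [Finset.HasAntidiagonal.mem_antidiagonal] at hx
  by_cases h : A ≤ x.1
  · rw [hP _ h, zero_mul]
  · rw [hQ x.2 (by omega), mul_zero]

theorem sa_den (u : Rˣ) (m : ℕ) (p : ℤ × ℕ) :
    den' u ((m : ℤ) * p.1, m * p.2) =
      (∑ i ∈ Finset.range m, (PowerSeries.C (↑(u ^ p.1) : R) * PowerSeries.X ^ p.2) ^ i) *
        den' u p := by
  unfold den'
  rw [geom_sum_mul_neg]
  congr 1
  rw [mul_pow, ← map_pow, ← pow_mul, mul_comm p.2 m]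
  congr 2
  rw [mul_comm (m : ℤ) p.1, zpow_mul, zpow_natCast, Units.val_pow_eq_pow_val]

theorem sa_bd (u : Rˣ) (m : ℕ) (p : ℤ × ℕ) : ∃ A : ℕ, ∀ n, A ≤ n → PowerSeries.coeff n
    (∑ i ∈ Finset.range m, (PowerSeries.C (↑(u ^ p.1) : R) * PowerSeries.X ^ p.2) ^ i) = 0 := by
  refine ⟨p.2 * m + 1, fun n hn => ?_⟩
  rw [map_sum]
  refine Finset.sum_eq_zero fun i hi => ?_
  rw [Finset.mem_range] at hi
  rw [mul_pow, ← map_pow, PowerSeries.coeff_C_mul, ← pow_mul, PowerSeries.coeff_X_pow, if_neg,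
    mul_zero]
  have : p.2 * i ≤ p.2 * m := Nat.mul_le_mul_left _ hi.le
  omega

theorem sa_quot (u : Rˣ) (f : ℤ × ℕ → ℕ) (l : Multiset (ℤ × ℕ)) :
    ∃ (Q : PowerSeries R) (A : ℕ), (∀ n, A ≤ n → PowerSeries.coeff n Q = 0) ∧
      ((l.map fun p => ((f p : ℤ) * p.1, f p * p.2)).map (den' u)).prod =
        Q * (l.map (den' u)).prod := by
  induction l using Multiset.induction with
  | empty =>
    refine ⟨1, 1, fun n hn => ?_, by simp⟩
    rw [PowerSeries.coeff_one, if_neg (by omega)]
  | cons p l ih =>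
    obtain ⟨Q, A, hQ, h⟩ := ih
    obtain ⟨B, hB⟩ := sa_bd (R := R) u (f p) p
    refine ⟨_ * Q, B + A, sa_mul hB hQ, ?_⟩
    rw [Multiset.map_cons, Multiset.map_cons, Multiset.prod_cons, h, sa_den, Multiset.map_cons,
      Multiset.prod_cons]
    ring

/-- `1 - u^a T^b` divides `1 - u^(ma) T^(mb)` -/
theorem RatF.of_multiple (h : RatF u S F)
    (hS : ∀ p ∈ S, ∃ m : ℕ, 0 < m ∧ ((m : ℤ) * p.1, m * p.2) ∈ S') : RatF u S' F := by
  classical
  obtain ⟨l, hl, N, h⟩ := h
  have hf : ∃ f : ℤ × ℕ → ℕ, ∀ p ∈ S, ((f p : ℤ) * p.1, f p * p.2) ∈ S' := by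
    refine ⟨fun p => if hp : p ∈ S then (hS p hp).choose else 0, fun p hp => ?_⟩
    simp only [dif_pos hp]
    exact (hS p hp).choose_spec.2
  obtain ⟨f, hf⟩ := hf
  obtain ⟨Q, A, hQ, hq⟩ := sa_quot (R := R) u f l
  refine ⟨l.map fun p => ((f p : ℤ) * p.1, f p * p.2), ?_, A + N, fun t n hn => ?_⟩
  · intro q hq
    obtain ⟨p, hp, rfl⟩ := Multiset.mem_map.mp hq
    exact hf p (hl p hp)
  · rw [hq, mul_assoc]
    exact sa_mul hQ (h t) n hn

theorem sa_shift (h : RatF u S F) (b : ℕ) :
    RatF u S (fun t => PowerSeries.mk fun n => PowerSeries.coeff (n + b) (F t)) := by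
  induction b with
  | zero =>
    refine h.congr fun t => ?_
    ext n
    simp
  | succ b ih =>
    refine ih.shift.congr fun t => ?_
    ext n
    rw [PowerSeries.coeff_mk, PowerSeries.coeff_mk, PowerSeries.coeff_mk]
    congr 2
    omega

theorem sa_ex (u : Rˣ) {a : ℕ} (ha : 0 < a) (p : ℤ × ℕ) (P : PowerSeries R) :
    (PowerSeries.mk fun n => PowerSeries.coeff (a * n) (den' u ((a : ℤ) * p.1, a * p.2) * P)) =
      den' u ((a : ℤ) * p.1, p.2) * PowerSeries.mk fun n => PowerSeries.coeff (a * n) P := by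
  ext n
  rw [PowerSeries.coeff_mk]
  unfold den'
  rw [sub_mul, one_mul, map_sub, mul_assoc, PowerSeries.coeff_C_mul, PowerSeries.coeff_X_pow_mul',
    sub_mul, one_mul, map_sub, mul_assoc, PowerSeries.coeff_C_mul, PowerSeries.coeff_X_pow_mul',
    PowerSeries.coeff_mk]
  congr 2
  by_cases hn : p.2 ≤ n
  · rw [if_pos hn, if_pos (Nat.mul_le_mul_left a hn), PowerSeries.coeff_mk, Nat.mul_sub]
  · rw [if_neg hn, if_neg]
    intro h
    exact hn (Nat.le_of_mul_le_mul_left h ha)

theorem sa_exl (u : Rˣ) {a : ℕ} (ha : 0 < a) (l : Multiset (ℤ × ℕ)) (P : PowerSeries R) :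
    (PowerSeries.mk fun n => PowerSeries.coeff (a * n)
      (((l.map fun p => ((a : ℤ) * p.1, a * p.2)).map (den' u)).prod * P)) =
      ((l.map fun p => ((a : ℤ) * p.1, p.2)).map (den' u)).prod *
        PowerSeries.mk fun n => PowerSeries.coeff (a * n) P := by
  induction l using Multiset.induction with
  | empty => simp
  | cons p l ih =>
    simp only [Multiset.map_cons, Multiset.prod_cons, mul_assoc]
    rw [sa_ex u ha p, ih]

/-- the subsequence `a n + b` -/
theorem RatF.sect (h : RatF u S F) {a : ℕ} (ha : 0 < a) (b : ℕ) :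
    RatF u ((fun p => ((a : ℤ) * p.1, p.2)) '' S)
      (fun t => PowerSeries.mk fun n => PowerSeries.coeff (a * n + b) (F t)) := by
  obtain ⟨l, hl, N, h⟩ := sa_shift h b
  obtain ⟨Q, A, hQ, hq⟩ := sa_quot (R := R) u (fun _ => a) l
  refine ⟨l.map fun p => ((a : ℤ) * p.1, p.2), ?_, A + N, fun t n hn => ?_⟩
  · intro q hq
    obtain ⟨p, hp, rfl⟩ := Multiset.mem_map.mp hq
    exact ⟨p, hl p hp, rfl⟩
  · have e : (PowerSeries.mk fun n => PowerSeries.coeff (a * n + b) (F t)) =
        PowerSeries.mk fun n => PowerSeries.coeff (a * n)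
          (PowerSeries.mk fun n => PowerSeries.coeff (n + b) (F t)) := by
      ext n
      simp
    show PowerSeries.coeff n (((l.map fun p => ((a : ℤ) * p.1, p.2)).map (den' u)).prod *
      (PowerSeries.mk fun n => PowerSeries.coeff (a * n + b) (F t))) = 0
    rw [e, ← sa_exl u ha, PowerSeries.coeff_mk, hq, mul_assoc]
    refine sa_mul hQ (h t) _ (le_trans hn ?_)
    exact Nat.le_mul_of_pos_left n ha

/-- if the subsequences `N n + e`, `e < N`, are rational, then the whole sequence is rational -/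
theorem RatF.interleave {N : ℕ} (hN : 0 < N) (h : ∀ e, e < N →
    RatF u S (fun t => PowerSeries.mk fun n => PowerSeries.coeff (N * n + e) (F t))) :
    RatF u (scl N '' S) F := by
  have h1 : ∀ j : ℕ, j ≤ N → RatF u (scl N '' S) (fun t => ∑ i ∈ Finset.range j,
      PowerSeries.X ^ i * PowerSeries.mk fun n => if N ∣ n then
        PowerSeries.coeff (n / N) (PowerSeries.mk fun n => PowerSeries.coeff (N * n + i) (F t))
        else 0) := by
    intro j
    induction j with
    | zero => exact fun _ => RatF.of_fin 0 fun t n _ => by simp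
    | succ j ih =>
      intro hj
      have h2 := (ih (by omega)).add (((h j (by omega)).expand hN).X_pow_mul j)
      rw [Set.union_self] at h2
      exact h2.congr fun t => by rw [Finset.sum_range_succ]
  refine (h1 N le_rfl).congr fun t => ?_
  ext n
  rw [map_sum]
  have h3 : ∀ i ∈ Finset.range N, PowerSeries.coeff n (PowerSeries.X ^ i *
      PowerSeries.mk fun n => if N ∣ n then
        PowerSeries.coeff (n / N) (PowerSeries.mk fun n => PowerSeries.coeff (N * n + i) (F t))
        else 0) = if i = n % N then PowerSeries.coeff n (F t) else 0 := by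
    intro i hi
    rw [Finset.mem_range] at hi
    rw [PowerSeries.coeff_X_pow_mul']
    by_cases h4 : i = n % N
    · subst h4
      have h7 : N * (n / N) + n % N = n := Nat.div_add_mod n N
      have h8 : n - n % N = N * (n / N) := by omega
      rw [if_pos rfl, if_pos (Nat.mod_le n N), PowerSeries.coeff_mk, if_pos (Nat.dvd_sub_mod n),
        h8, Nat.mul_div_cancel_left _ hN, PowerSeries.coeff_mk, h7]
    · rw [if_neg h4]
      split_ifs with h5
      · rw [PowerSeries.coeff_mk, if_neg]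
        intro h6
        apply h4
        obtain ⟨q, hq⟩ := h6
        have : n = N * q + i := by omega
        rw [this, Nat.mul_add_mod, Nat.mod_eq_of_lt hi]
      · rfl
  rw [Finset.sum_congr rfl h3, Finset.sum_ite_eq', if_pos]
  rw [Finset.mem_range]
  exact Nat.mod_lt _ hN

end SA

end Pool.Agent.H75.Mono
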