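import Pool.Agent.H75.Mono.MO

/-! # ROF, module SP: arcs in two groups of variables -/

set_option autoImplicit false

namespace Pool.Agent.H75.Mono

open MvPolynomial Pool.Agent.H39.MonoR

section SP

variable {k : Type} [Field k] [Algebra k ℂ] {E : Type} [Aff E] {σ τ : Type}

/-- the first part of an arc -/
def sp1 {N : ℕ} (φ : (σ ⊕ τ) × Fin N → ℂ) : σ × Fin N → ℂ := fun p => φ (Sum.inl p.1, p.2)

/-- the second part of an arc -/
def sp2 {N : ℕ} (φ : (σ ⊕ τ) × Fin N → ℂ) : τ × Fin N → ℂ := fun p => φ (Sum.inr p.1, p.2)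

theorem arcEval_inl {N : ℕ} (φ : (σ ⊕ τ) × Fin N → ℂ) (g : MvPolynomial σ k) :
    arcEval k φ (rename Sum.inl g) = arcEval k (sp1 φ) g := by
  unfold arcEval
  rw [aeval_rename]
  rfl

theorem arcEval_inr {N : ℕ} (φ : (σ ⊕ τ) × Fin N → ℂ) (h : MvPolynomial τ k) :
    arcEval k φ (rename Sum.inr h) = arcEval k (sp2 φ) h := by
  unfold arcEval
  rw [aeval_rename]
  rfl

/-- arcs in two groups of variables are pairs of arcs -/
theorem mo_sp [Finite σ] [Finite τ] {N : ℕ}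
    {A : Set ((σ × Fin N → ℂ) × (τ × Fin N → ℂ) × E)} (hA : ICons k A) :
    mo k {x : ((σ ⊕ τ) × Fin N → ℂ) × E | (sp1 x.1, sp2 x.1, x.2) ∈ A} = mo k A := by
  have h1 : PMap k (fun x : ((σ ⊕ τ) × Fin N → ℂ) × E => sp1 x.1) := by
    refine PMap.pi fun p => ?_
    exact (PFun.apply (k := k) (Sum.inl p.1, p.2)).comp PMap.fst
  have h2 : PMap k (fun x : ((σ ⊕ τ) × Fin N → ℂ) × E => sp2 x.1) := by
    refine PMap.pi fun p => ?_
    exact (PFun.apply (k := k) (Sum.inr p.1, p.2)).comp PMap.fst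
  have hf : PMap k (fun x : ((σ ⊕ τ) × Fin N → ℂ) × E => (sp1 x.1, sp2 x.1, x.2)) :=
    h1.prodMk (h2.prodMk PMap.snd)
  refine mo_bij (hA.mem hf) hA hf ⟨?_, ?_, ?_⟩
  · intro x hx
    exact hx
  · intro x _ y _ hxy
    simp only [Prod.mk.injEq] at hxy
    obtain ⟨h3, h4, h5⟩ := hxy
    refine Prod.ext ?_ h5
    funext p
    obtain ⟨j | j, l⟩ := p
    · exact congrFun h3 (j, l)
    · exact congrFun h4 (j, l)
  · rintro ⟨φ, ψ, w⟩ hy
    refine ⟨(fun p => Sum.elim (fun j => φ (j, p.2)) (fun j => ψ (j, p.2)) p.1, w), ?_, ?_⟩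
    · exact hy
    · rfl

/-- the class defining `zt` of a polynomial in two groups of variables -/
theorem zt_sp [Finite σ] [Finite τ] (f : MvPolynomial (σ ⊕ τ) k) (d : ℕ) (t : Test k)
    (P : (σ × Fin (d + 1) → ℂ) → (τ × Fin (d + 1) → ℂ) → ℂ → Prop)
    (hP : ∀ (φ : (σ ⊕ τ) × Fin (d + 1) → ℂ) (c : ℂ), Hit f d φ c ↔ P (sp1 φ) (sp2 φ) c)
    (hc : ICons k {x : (σ × Fin (d + 1) → ℂ) × (τ × Fin (d + 1) → ℂ) × t.E |
      x.2.2 ∈ t.W ∧ P x.1 x.2.1 (t.c x.2.2)}) :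
    zt f d t = mo k {x : (σ × Fin (d + 1) → ℂ) × (τ × Fin (d + 1) → ℂ) × t.E |
      x.2.2 ∈ t.W ∧ P x.1 x.2.1 (t.c x.2.2)} *
      (↑(Lu k ^ (-((Nat.card σ * d : ℕ) : ℤ))) * ↑(Lu k ^ (-((Nat.card τ * d : ℕ) : ℤ)))) := by
  unfold zt
  rw [← mo_sp hc]
  congr 1
  · congr 1
    ext x
    simp only [Set.mem_ofPred_eq]
    rw [hP]
  · rw [← Units.val_mul, ← zpow_add]
    congr 2
    rw [Nat.card_sum]
    push_cast
    ring

end SP

end Pool.Agent.H75.Mono
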