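import Pool.Agent.H75.Mono.TA
import Mathlib.RingTheory.MvPolynomial.EulerIdentity

/-! # ROF2, module TB: first order variation -/

set_option autoImplicit false

namespace Pool.Agent.H75.Mono

open MvPolynomial

section TB

variable {k : Type} [Field k] [Algebra k ℂ] {ι : Type} [DecidableEq ι]

omit [Algebra k ℂ] in
/-- Taylor expansion in one variable -/
theorem aeval_update_add {A : Type*} [CommRing A] [Algebra k A] (G : MvPolynomial ι k)
    (b : ι → A) (i : ι) (h : A) : ∃ R : A,
      aeval (Function.update b i (b i + h)) G = aeval b G + h * aeval b (pderiv i G) +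
        h ^ 2 * R := by
  induction G using MvPolynomial.induction_on with
  | C c => exact ⟨0, by simp⟩
  | add p q hp hq =>
    obtain ⟨R, hR⟩ := hp
    obtain ⟨S, hS⟩ := hq
    refine ⟨R + S, ?_⟩
    rw [map_add, map_add, map_add, map_add, hR, hS]
    ring
  | mul_X p j hp =>
    obtain ⟨R, hR⟩ := hp
    rw [map_mul, map_mul, aeval_X, aeval_X, Derivation.leibniz, hR, map_add, smul_eq_mul,
      smul_eq_mul, map_mul, map_mul, aeval_X]
    by_cases hj : j = i
    · subst hj
      rw [Function.update_self, pderiv_X_self, map_one]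
      exact ⟨R * b j + aeval b (pderiv j p) + h * R, by ring⟩
    · rw [Function.update_of_ne hj, pderiv_X_of_ne hj, map_zero]
      exact ⟨R * b j, by ring⟩

theorem om_update {w : ι → ℕ} {D m : ℕ} (hD : 0 < D) {a : ι → PowerSeries ℂ} (h : Om w D m a)
    (i : ι) (η : PowerSeries ℂ) :
    Om w D m (Function.update a i (a i + PowerSeries.X ^ (m * w i / D + 1) * η)) ∧
    pt w D m (Function.update a i (a i + PowerSeries.X ^ (m * w i / D + 1) * η)) =
      pt w D m a := by
  constructor
  · intro j l hl
    by_cases hj : j = i
    · subst hj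
      rw [Function.update_self, map_add, h j l hl, zero_add, PowerSeries.coeff_X_pow_mul', if_neg]
      have : l ≤ m * w j / D := by
        rw [Nat.le_div_iff_mul_le hD, mul_comm]
        exact hl.le
      omega
    · rw [Function.update_of_ne hj]
      exact h j l hl
  · funext j
    unfold pt
    by_cases hj : j = i
    · subst hj
      have h0 : PowerSeries.coeff (m * w j / D) (PowerSeries.X ^ (m * w j / D + 1) * η) = 0 := by
        rw [PowerSeries.coeff_X_pow_mul', if_neg (Nat.not_succ_le_self _)]
      rw [Function.update_self, map_add, h0, add_zero]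
    · rw [Function.update_of_ne hj]

/-- the effect of a change of `a_i` in order `m w_i / D + 1 + j` on `G(a)` -/
theorem step {w : ι → ℕ} {D m n : ℕ} (hD : 0 < D) {G : MvPolynomial ι k}
    (hG : IsWeightedHomogeneous w G n) {i : ι} (hi : w i ≤ n) {a : ι → PowerSeries ℂ}
    (h : Om w D m a) (hne : aeval (pt w D m a) (pderiv i G) ≠ 0) (j : ℕ) (η : PowerSeries ℂ) :
    (∀ l, l < m * n / D + 1 + j → PowerSeries.coeff l
      (aeval (Function.update a i (a i + PowerSeries.X ^ (m * w i / D + 1 + j) * η)) G) =
        PowerSeries.coeff l (aeval a G)) ∧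
    PowerSeries.coeff (m * n / D + 1 + j)
      (aeval (Function.update a i (a i + PowerSeries.X ^ (m * w i / D + 1 + j) * η)) G) =
        PowerSeries.coeff (m * n / D + 1 + j) (aeval a G) +
          PowerSeries.constantCoeff η * aeval (pt w D m a) (pderiv i G) := by
  obtain ⟨b, hb, hb0⟩ := om_expand hD h
  have hpd : IsWeightedHomogeneous w (pderiv i G) (n - w i) := hG.pderiv (by omega)
  have hdv : D ∣ m * (n - w i) := dvd_of_ne hpd hne
  obtain ⟨c, hc⟩ := hdv
  have hmn : m * n = m * w i + D * c := by
    rw [← hc, ← Nat.mul_add]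
    congr 1
    omega
  have hfl : m * n / D = m * w i / D + c := by
    rw [hmn, Nat.add_mul_div_left _ _ hD]
  have hq : m * w i < D * (m * w i / D + 1) := by
    have := Nat.lt_mul_div_succ (m * w i) hD
    exact this
  set q := m * w i / D with hqd
  obtain ⟨e, he⟩ : ∃ e, D * (q + 1 + j) = m * w i + e := by
    refine Nat.exists_eq_add_of_le ?_
    have : D * (q + 1) ≤ D * (q + 1 + j) := Nat.mul_le_mul_left _ (by omega)
    omega
  have he0 : 0 < e := by
    have : D * (q + 1) ≤ D * (q + 1 + j) := Nat.mul_le_mul_left _ (by omega)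
    omega
  have hfin : D * (m * n / D + 1 + j) = m * n + e := by
    have : D * (m * n / D + 1 + j) = D * (q + 1 + j) + D * c := by rw [hfl]; ring
    rw [this, he, hmn]
    ring
  set η' := PowerSeries.expand D hD.ne' η with hη'
  have hη0 : PowerSeries.constantCoeff η' = PowerSeries.constantCoeff η := by
    have := PowerSeries.coeff_expand_mul D hD.ne' η 0
    rw [mul_zero] at this
    simpa only [PowerSeries.coeff_zero_eq_constantCoeff_apply] using this
  -- the new family
  have hb' : ∀ x, PowerSeries.expand D hD.ne'
      (Function.update a i (a i + PowerSeries.X ^ (q + 1 + j) * η) x) =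
      (PowerSeries.X ^ m) ^ w x * Function.update b i (b i + PowerSeries.X ^ e * η') x := by
    intro x
    by_cases hx : x = i
    · subst hx
      rw [Function.update_self, Function.update_self, map_add, hb, map_mul, map_pow,
        PowerSeries.expand_X, ← pow_mul PowerSeries.X D, he, mul_add, ← mul_assoc, ← pow_mul,
        pow_add]
    · rw [Function.update_of_ne hx, Function.update_of_ne hx, hb]
  obtain ⟨R, hR⟩ := aeval_update_add G b i (PowerSeries.X ^ e * η')
  have h1 := expand_aeval_om hD hG hb
  have h2 := expand_aeval_om hD hG hb'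
  have h3 : PowerSeries.expand D hD.ne'
      (aeval (Function.update a i (a i + PowerSeries.X ^ (q + 1 + j) * η)) G) =
      PowerSeries.expand D hD.ne' (aeval a G) + PowerSeries.X ^ (m * n + e) *
        (η' * aeval b (pderiv i G) + PowerSeries.X ^ e * (η' ^ 2 * R)) := by
    rw [h1, h2, hR, pow_add]
    ring
  have e1 := fun l => PowerSeries.coeff_expand_mul D hD.ne'
    (aeval (Function.update a i (a i + PowerSeries.X ^ (q + 1 + j) * η)) G) l
  have e2 := fun l => PowerSeries.coeff_expand_mul D hD.ne' (aeval a G) l
  constructor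
  · intro l hl
    rw [← e1, ← e2, h3, map_add, PowerSeries.coeff_X_pow_mul', if_neg, add_zero]
    rw [← hfin]
    have := (Nat.mul_lt_mul_left hD).2 hl
    omega
  · rw [← e1, ← e2, h3, map_add, hfin, PowerSeries.coeff_X_pow_mul', if_pos le_rfl, Nat.sub_self,
      PowerSeries.coeff_zero_eq_constantCoeff_apply, map_add, map_mul, map_mul, map_pow,
      PowerSeries.constantCoeff_X, zero_pow he0.ne', zero_mul, add_zero, hη0,
      constantCoeff_aeval, funext hb0]

end TB

end Pool.Agent.H75.Mono
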