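import Pool.Agent.H75.Mono.UA
import Pool.Agent.H75.Mono.TC

/-! # ROF2, module UB: equidistribution through a weighted homogeneous component -/

set_option autoImplicit false

namespace Pool.Agent.H75.Mono

open MvPolynomial Pool.Agent.H39.MonoR

section UB

variable {k : Type} [Field k] [Algebra k ℂ] {r : ℕ} {τ : Fin r → Type} [∀ i, Finite (τ i)]

theorem ub_right {M : ℕ} (f : ∀ i, MvPolynomial (τ i) k) (w : Fin r → ℕ) {D : ℕ} (hD : 0 < D)
    (m : ℕ) {P : Set (Fin r → ℂ)} (hPc : ICons k P) (t : Test k) :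
    ICons k {x : ((Σ i, τ i) × Fin M → ℂ) × t.E | x.2 ∈ t.W ∧ Om w D m (us f x.1) ∧
        pt w D m (us f x.1) ∈ P} := by
  refine (t.cW.mem PMap.snd).and ((ICons.om f PMap.fst w hD m).and ?_)
  exact ICons.mem (f := fun x : ((Σ i, τ i) × Fin M → ℂ) × t.E => pt w D m (us f x.1)) hPc
    (PMap.pt f PMap.fst w D m)

theorem ub_left {M : ℕ} (f : ∀ i, MvPolynomial (τ i) k) (w : Fin r → ℕ) {D : ℕ} (hD : 0 < D)
    (m d : ℕ) {P : Set (Fin r → ℂ)} (hPc : ICons k P) (G : MvPolynomial (Fin r) k) (t : Test k) :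
    ICons k {x : ((Σ i, τ i) × Fin M → ℂ) × t.E | x.2 ∈ t.W ∧ Om w D m (us f x.1) ∧
        pt w D m (us f x.1) ∈ P ∧ ∀ l, l ≤ d → PowerSeries.coeff l (aeval (us f x.1) G) =
          if l = d then t.c x.2 else 0} := by
  refine (t.cW.mem PMap.snd).and ((ICons.om f PMap.fst w hD m).and
    (ICons.and ?_ (ICons.forall_le d fun l => ?_)))
  · exact ICons.mem (f := fun x : ((Σ i, τ i) × Fin M → ℂ) × t.E => pt w D m (us f x.1)) hPc
      (PMap.pt f PMap.fst w D m)
  · refine ICons.eq (PFun.coeff_aeval_us f PMap.fst G l) ?_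
    by_cases hl : l = d
    · simp only [if_pos hl]
      exact PFun.comp (f := t.c) t.pf PMap.snd
    · simp only [if_neg hl]
      exact PFun.zero

/-- the `i`-th component of a point of `Om` with nonzero leading coefficient -/
theorem ub_unit_part {w : Fin r → ℕ} {D m : ℕ} (hD : 0 < D) {a : Fin r → PowerSeries ℂ}
    (h : Om w D m a) {i : Fin r} (hi : pt w D m a i ≠ 0) :
    ∃ P : PowerSeries ℂ, a i = PowerSeries.X ^ (m * w i / D) * P ∧
      PowerSeries.constantCoeff P ≠ 0 := by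
  have hdvd : D ∣ m * w i := by
    by_contra h'
    exact hi (by unfold pt; rw [if_neg h'])
  have h1 : ∀ l, l < m * w i / D → PowerSeries.coeff l (a i) = 0 := by
    intro l hl
    apply h i l
    have := (Nat.lt_div_iff_mul_lt' hdvd l).1 hl
    exact this
  obtain ⟨P, hP⟩ := PowerSeries.X_pow_dvd_iff.2 h1
  refine ⟨P, hP, ?_⟩
  have e : PowerSeries.constantCoeff P = pt w D m a i := by
    unfold pt
    rw [if_pos hdvd, hP, ← PowerSeries.coeff_zero_eq_constantCoeff_apply]
    have := PowerSeries.coeff_X_pow_mul P (m * w i / D) 0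
    rw [zero_add] at this
    exact this.symm
  rw [e]
  exact hi

/-- scaling the `i`-th arc changes `u_i` in order `> m w_i / D` -/
theorem ub_scale {w : Fin r → ℕ} {D m d : ℕ} {f : ∀ i, MvPolynomial (τ i) k} {i : Fin r}
    {w' : τ i → ℕ} {N : ℕ} (hf : IsWeightedHomogeneous w' (f i) N) {e : ℕ}
    (hq : m * w i / D + 1 ≤ d + 1) (lam : Fin e → ℂ) (ψ : (Σ i, τ i) × Fin (d + 1) → ℂ)
    {P : PowerSeries ℂ} (hP : us f ψ i = PowerSeries.X ^ (m * w i / D) * P) :
    ∃ η : PowerSeries ℂ, us f (upa i (scArc w' lam (spi i ψ)) ψ) =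
      Function.update (us f ψ) i (us f ψ i + PowerSeries.X ^ (m * w i / D + 1) * η) ∧
      PowerSeries.X ^ (d + 1) ∣ us f ψ i + PowerSeries.X ^ (m * w i / D + 1) * η -
        unitSer lam ^ N * us f ψ i := by
  have hs := arcEval_scArc hf lam (spi i ψ)
  have h1 : (PowerSeries.X : PowerSeries ℂ) ∣ unitSer lam ^ N - 1 := by
    rw [PowerSeries.X_dvd_iff, map_sub, map_pow, constantCoeff_unitSer, one_pow, map_one, sub_self]
  have h2 : PowerSeries.X ^ (m * w i / D + 1) ∣
      arcEval k (scArc w' lam (spi i ψ)) (f i) - us f ψ i := by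
    have e1 : arcEval k (scArc w' lam (spi i ψ)) (f i) - us f ψ i =
        (arcEval k (scArc w' lam (spi i ψ)) (f i) - unitSer lam ^ N * arcEval k (spi i ψ) (f i)) +
        (unitSer lam ^ N - 1) * us f ψ i := by
      unfold us
      ring
    rw [e1]
    refine dvd_add ((pow_dvd_pow _ hq).trans hs) ?_
    rw [hP, pow_succ']
    obtain ⟨Q, hQ⟩ := h1
    rw [hQ]
    exact ⟨Q * P, by ring⟩
  obtain ⟨η, hη⟩ := h2
  have h3 : arcEval k (scArc w' lam (spi i ψ)) (f i) =
      us f ψ i + PowerSeries.X ^ (m * w i / D + 1) * η := by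
    rw [← hη]
    ring
  refine ⟨η, ?_, ?_⟩
  · rw [us_upa, h3]
  · rw [← h3]
    exact hs

theorem equ_log {w : Fin r → ℕ} {n : ℕ} {G : MvPolynomial (Fin r) k}
    (hw : ∀ i, 0 < w i ∧ w i < n) (hG : IsWeightedHomogeneous w G n) {D m d : ℕ} (hD : 0 < D)
    (hmd : m * n < D * d) {f : ∀ i, MvPolynomial (τ i) k} {i : Fin r} (hf : QH (f i))
    {P : Set (Fin r → ℂ)} (hPc : ICons k P)
    (hP : ∀ p ∈ P, p i * aeval p (pderiv i G) ≠ 0 ∧ aeval p G = 0) (t : Test k) :
    mo k {x : ((Σ i, τ i) × Fin (d + 1) → ℂ) × t.E | x.2 ∈ t.W ∧ Om w D m (us f x.1) ∧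
        pt w D m (us f x.1) ∈ P ∧ ∀ l, l ≤ d → PowerSeries.coeff l (aeval (us f x.1) G) =
          if l = d then t.c x.2 else 0} * ↑(Lu k ^ ((d - m * n / D : ℕ) : ℤ)) =
    mo k {x : ((Σ i, τ i) × Fin (d + 1) → ℂ) × t.E | x.2 ∈ t.W ∧ Om w D m (us f x.1) ∧
        pt w D m (us f x.1) ∈ P} := by
  obtain ⟨w', N, hN, hf'⟩ := hf
  have hL := ub_left (M := d + 1) f w hD m d hPc G t
  have hR := ub_right (M := d + 1) f w hD m hPc t
  have hi : w i ≤ n := (hw i).2.le
  have hmn : m * n / D < d := by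
    rw [Nat.div_lt_iff_lt_mul hD]
    linarith [Nat.mul_comm D d]
  have hmw : m * w i / D ≤ m * n / D := Nat.div_le_div_right (Nat.mul_le_mul_left m hi)
  have hq : m * w i / D + 1 + (d - m * n / D) ≤ d + 1 := by omega
  have hq' : m * w i / D + 1 ≤ d + 1 := by omega
  have e1 : ((Nat.card (Fin (d - m * n / D)) : ℕ) : ℤ) = ((d - m * n / D : ℕ) : ℤ) := by
    rw [Nat.card_eq_fintype_card, Fintype.card_fin]
  rw [mul_comm, ← e1, ← mo_univ_pi (k := k) (α := Fin (d - m * n / D)),
    ← mo_prod ICons.univ hL]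
  have hF : PMap k (fun y : (Fin (d - m * n / D) → ℂ) × ((Σ i, τ i) × Fin (d + 1) → ℂ) × t.E =>
      (upa i (scArc w' y.1 (spi i y.2.1)) y.2.1, y.2.2)) := by
    have a1 : PMap k (fun y : (Fin (d - m * n / D) → ℂ) ×
        ((Σ i, τ i) × Fin (d + 1) → ℂ) × t.E => y.2.1) :=
      PMap.comp (f := fun z : ((Σ i, τ i) × Fin (d + 1) → ℂ) × t.E => z.1) PMap.fst PMap.snd
    have a2 : PMap k (fun y : (Fin (d - m * n / D) → ℂ) ×
        ((Σ i, τ i) × Fin (d + 1) → ℂ) × t.E => spi i y.2.1) :=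
      PMap.comp (f := fun z : (Σ i, τ i) × Fin (d + 1) → ℂ => spi i z) (PMap.spi i) a1
    have a3 : PMap k (fun y : (Fin (d - m * n / D) → ℂ) ×
        ((Σ i, τ i) × Fin (d + 1) → ℂ) × t.E => (y.1, spi i y.2.1)) := PMap.prodMk PMap.fst a2
    have a4 := PMap.comp (f := fun z : (Fin (d - m * n / D) → ℂ) × (τ i × Fin (d + 1) → ℂ) =>
      scArc w' z.1 z.2) (PMap.scArc w') a3
    have a5 := PMap.comp (f := fun z : (τ i × Fin (d + 1) → ℂ) ×
      ((Σ i, τ i) × Fin (d + 1) → ℂ) => upa i z.1 z.2) (PMap.upa i) (PMap.prodMk a4 a1)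
    exact PMap.prodMk a5 (PMap.comp (f := fun z : ((Σ i, τ i) × Fin (d + 1) → ℂ) × t.E => z.2)
      PMap.snd PMap.snd)
  refine mo_bij (ICons.prod ICons.univ hL) hR hF ⟨?_, ?_, ?_⟩
  · rintro ⟨lam, ψ, x⟩ ⟨-, hx, h1, h2, h3⟩
    simp only at hx h1 h2 h3
    have hpi : pt w D m (us f ψ) i ≠ 0 := left_ne_zero_of_mul (hP _ h2).1
    obtain ⟨Q, hQ, -⟩ := ub_unit_part hD h1 hpi
    obtain ⟨η, hη, -⟩ := ub_scale hf' hq' lam ψ hQ
    have h4 := om_update hD h1 i η
    rw [← hη] at h4
    refine ⟨hx, h4.1, ?_⟩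
    simp only
    rw [h4.2]
    exact h2
  · rintro ⟨lam, ψ, x⟩ ⟨-, hx, h1, h2, h3⟩ ⟨lam', ψ', x'⟩ ⟨-, hx', h1', h2', h3'⟩ heq
    simp only [Prod.mk.injEq] at heq
    obtain ⟨hsc, rfl⟩ := heq
    simp only at hx h1 h2 h3 hx' h1' h2' h3'
    have hpi : pt w D m (us f ψ) i ≠ 0 := left_ne_zero_of_mul (hP _ h2).1
    have hpi' : pt w D m (us f ψ') i ≠ 0 := left_ne_zero_of_mul (hP _ h2').1
    obtain ⟨Q, hQ, hQ0⟩ := ub_unit_part hD h1 hpi
    obtain ⟨Q', hQ', -⟩ := ub_unit_part hD h1' hpi'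
    obtain ⟨η, hη, hηd⟩ := ub_scale hf' hq' lam ψ hQ
    obtain ⟨η', hη', hηd'⟩ := ub_scale hf' hq' lam' ψ' hQ'
    rw [← hsc, hη] at hη'
    have hcomp : us f ψ i + PowerSeries.X ^ (m * w i / D + 1) * η =
        us f ψ' i + PowerSeries.X ^ (m * w i / D + 1) * η' := by
      have := congrFun hη' i
      rwa [Function.update_self, Function.update_self] at this
    have hupd : us f ψ' = Function.update (us f ψ) i
        (us f ψ i + PowerSeries.X ^ (m * w i / D + 1) * (η - η')) := by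
      funext j
      by_cases hj : j = i
      · subst hj
        rw [Function.update_self]
        linear_combination -hcomp
      · rw [Function.update_of_ne hj]
        have := congrFun hη' j
        rw [Function.update_of_ne hj, Function.update_of_ne hj] at this
        exact this.symm
    have h7 := solve_unique hD hG hi h1 (right_ne_zero_of_mul (hP _ h2).1) (d := d) (η - η') 0 (by
      intro l hl
      rw [mul_zero, add_zero, Function.update_eq_self, ← hupd, h3 l hl, h3' l hl])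
    rw [sub_zero] at h7
    -- the two units agree
    have h8 : PowerSeries.X ^ (m * w i / D + 1 + (d - m * n / D)) ∣
        (unitSer lam ^ N - unitSer lam' ^ N) * us f ψ i := by
      have b1 := (pow_dvd_pow (PowerSeries.X : PowerSeries ℂ) hq).trans hηd
      have b2 := (pow_dvd_pow (PowerSeries.X : PowerSeries ℂ) hq).trans hηd'
      have b3 : (PowerSeries.X : PowerSeries ℂ) ^ (m * w i / D + 1 + (d - m * n / D)) ∣
          PowerSeries.X ^ (m * w i / D + 1) * (η - η') := by
        rw [pow_add]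
        exact mul_dvd_mul_left _ h7
      have e2 : (unitSer lam ^ N - unitSer lam' ^ N) * us f ψ i =
          (us f ψ' i + PowerSeries.X ^ (m * w i / D + 1) * η' - unitSer lam' ^ N * us f ψ' i) -
          (us f ψ i + PowerSeries.X ^ (m * w i / D + 1) * η - unitSer lam ^ N * us f ψ i) +
          unitSer lam' ^ N * (PowerSeries.X ^ (m * w i / D + 1) * (η - η')) := by
        linear_combination (1 - unitSer lam' ^ N) * hcomp
      rw [e2]
      exact dvd_add (dvd_sub b2 b1) (b3.mul_left _)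
    have h9 : PowerSeries.X ^ (d - m * n / D + 1) ∣ unitSer lam ^ N - unitSer lam' ^ N := by
      have hQu : IsUnit Q := by
        rw [PowerSeries.isUnit_iff_constantCoeff]
        exact isUnit_iff_ne_zero.2 hQ0
      have e3 : (PowerSeries.X : PowerSeries ℂ) ^ (m * w i / D + 1 + (d - m * n / D)) =
          PowerSeries.X ^ (m * w i / D) * PowerSeries.X ^ (d - m * n / D + 1) := by
        rw [← pow_add]
        congr 1
        omega
      have e4 : (unitSer lam ^ N - unitSer lam' ^ N) * us f ψ i =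
          PowerSeries.X ^ (m * w i / D) * ((unitSer lam ^ N - unitSer lam' ^ N) * Q) := by
        rw [hQ]
        ring
      rw [e3, e4] at h8
      exact (hQu.dvd_mul_right).1
        ((mul_dvd_mul_iff_left (pow_ne_zero _ PowerSeries.X_ne_zero)).1 h8)
    have hlam : lam = lam' := unitSer_inj (root_unique (constantCoeff_unitSer lam)
      (constantCoeff_unitSer lam') hN h9)
    subst hlam
    have h10 : spi i ψ = spi i ψ' := by
      apply scArc_inj w' lam
      have := congrArg (spi i) hsc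
      rwa [spi_upa, spi_upa] at this
    have h11 : ψ = ψ' := by
      have h12 := congrArg (upa i (spi i ψ)) hsc
      rw [upa_upa, upa_upa, upa_self, h10, upa_self] at h12
      exact h12
    rw [h11]
  · rintro ⟨ψ₁, x⟩ ⟨hx, h1, h2⟩
    simp only at hx h1 h2
    have hpi : pt w D m (us f ψ₁) i ≠ 0 := left_ne_zero_of_mul (hP _ h2).1
    have hne := right_ne_zero_of_mul (hP _ h2).1
    obtain ⟨A, hA, hA0⟩ := ub_unit_part hD h1 hpi
    obtain ⟨η, hη⟩ := exists_solve hD hG hi h1 hne (hP _ h2).2 hmd (t.c x)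
    let B : PowerSeries ℂ := A + PowerSeries.X * η
    have hBc : PowerSeries.constantCoeff B = PowerSeries.constantCoeff A := by
      change PowerSeries.constantCoeff (A + PowerSeries.X * η) = _
      rw [map_add, map_mul, PowerSeries.constantCoeff_X, zero_mul, add_zero]
    have hB0 : PowerSeries.constantCoeff B ≠ 0 := by rw [hBc]; exact hA0
    have hBe : us f ψ₁ i + PowerSeries.X ^ (m * w i / D + 1) * η =
        PowerSeries.X ^ (m * w i / D) * B := by
      change _ = PowerSeries.X ^ (m * w i / D) * (A + PowerSeries.X * η)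
      rw [hA, pow_succ]
      ring
    have hv : PowerSeries.constantCoeff (A * B⁻¹) = 1 := by
      rw [map_mul, PowerSeries.constantCoeff_inv, hBc, mul_inv_cancel₀ hA0]
    obtain ⟨s, hs, hsn⟩ := exists_root_mod (A * B⁻¹) hv hN (d - m * n / D + 1)
    obtain ⟨lam, hlam⟩ := exists_unitSer (d - m * n / D) s hs
    have hU : PowerSeries.X ^ (d - m * n / D + 1) ∣ unitSer lam ^ N - A * B⁻¹ := by
      have e4 : unitSer lam ^ N - A * B⁻¹ = (unitSer lam ^ N - s ^ N) + (s ^ N - A * B⁻¹) := by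
        ring
      rw [e4]
      exact dvd_add (hlam.trans (sub_dvd_pow_sub_pow _ _ _)) hsn
    obtain ⟨χ, hχ⟩ := scArc_surj (N := d + 1) w' lam (spi i ψ₁)
    have hsc := arcEval_scArc hf' lam χ
    rw [hχ] at hsc
    have hUu : IsUnit (unitSer lam ^ N) := (isUnit_of_one (constantCoeff_unitSer lam)).pow _
    have hK : PowerSeries.X ^ (m * w i / D + 1 + (d - m * n / D)) ∣ arcEval k χ (f i) -
        (us f ψ₁ i + PowerSeries.X ^ (m * w i / D + 1) * η) := by
      refine (hUu.dvd_mul_left).1 ?_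
      have b1 := (pow_dvd_pow (PowerSeries.X : PowerSeries ℂ) hq).trans hsc
      have e3 : (PowerSeries.X : PowerSeries ℂ) ^ (m * w i / D + 1 + (d - m * n / D)) =
          PowerSeries.X ^ (m * w i / D) * PowerSeries.X ^ (d - m * n / D + 1) := by
        rw [← pow_add]
        congr 1
        omega
      have e5 : unitSer lam ^ N * (arcEval k χ (f i) -
          (us f ψ₁ i + PowerSeries.X ^ (m * w i / D + 1) * η)) =
          -(arcEval k (spi i ψ₁) (f i) - unitSer lam ^ N * arcEval k χ (f i)) -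
          PowerSeries.X ^ (m * w i / D) * (B * (unitSer lam ^ N - A * B⁻¹)) := by
        have hBB : B * B⁻¹ = 1 := PowerSeries.mul_inv_cancel _ hB0
        have hA' : arcEval k (spi i ψ₁) (f i) = PowerSeries.X ^ (m * w i / D) * A := hA
        rw [hBe, hA']
        linear_combination (-(PowerSeries.X ^ (m * w i / D) * A)) * hBB
      rw [e5]
      refine dvd_sub (dvd_neg.2 b1) ?_
      rw [e3]
      exact mul_dvd_mul_left _ (hU.mul_left _)
    -- the new component
    obtain ⟨ζ, hζ⟩ := hK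
    have hζ' : arcEval k χ (f i) = us f ψ₁ i + PowerSeries.X ^ (m * w i / D + 1) *
        (η + PowerSeries.X ^ (d - m * n / D) * ζ) := by
      rw [pow_add] at hζ
      linear_combination hζ
    have h5 : us f (upa i χ ψ₁) = Function.update (us f ψ₁) i
        (us f ψ₁ i + PowerSeries.X ^ (m * w i / D + 1) *
          (η + PowerSeries.X ^ (d - m * n / D) * ζ)) := by
      rw [us_upa, hζ']
    have h3 := solve_congr hD hG hi h1 hne (d := d)
      (η + PowerSeries.X ^ (d - m * n / D) * ζ) η (by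
        rw [add_sub_cancel_left]
        exact dvd_mul_right _ _)
    have h4 := om_update hD h1 i (η + PowerSeries.X ^ (d - m * n / D) * ζ)
    rw [← h5] at h4 h3
    refine ⟨(lam, upa i χ ψ₁, x), ⟨Set.mem_univ _, hx, h4.1, ?_, ?_⟩, ?_⟩
    · simp only
      rw [h4.2]
      exact h2
    · intro l hl
      simp only
      rw [h3 l hl, hη l hl]
    · simp only
      rw [spi_upa, hχ, upa_upa, upa_self]

end UB

end Pool.Agent.H75.Mono
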