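import Pool.Agent.H75.Mono.Defs

/-! # ROF2, module VA: the functional attached to a weighted homogeneous polynomial -/

set_option autoImplicit false

namespace Pool.Agent.H75.Mono

open MvPolynomial

/-- all relations between the `q_i` are Koszul relations -/
def Koszul {A : Type*} [CommRing A] {r : ℕ} (q : Fin r → A) : Prop :=
  ∀ a : Fin r → A, ∑ i, a i * q i = 0 → ∃ b : Fin r → Fin r → A,
    (∀ i, b i i = 0) ∧ (∀ i j, b i j = -b j i) ∧ ∀ i, a i = ∑ j, b i j * q j

/-- `∂_i G` for `i ∈ B` and `x_i ∂_i G` for `i ∉ B` -/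
noncomputable def jac {k : Type} [Field k] {r : ℕ} (G : MvPolynomial (Fin r) k)
    (B : Finset (Fin r)) (i : Fin r) : MvPolynomial (Fin r) k :=
  if i ∈ B then pderiv i G else X i * pderiv i G

/-- `∂_i A` for `i ∈ B` and `x_i ∂_i A + s_i A` for `i ∉ B` -/
noncomputable def dop {k : Type} [Field k] {r : ℕ} (s : Fin r → ℚ)
    (B : Finset (Fin r)) (i : Fin r) (A : MvPolynomial (Fin r) k) : MvPolynomial (Fin r) k :=
  if i ∈ B then pderiv i A else X i * pderiv i A + (s i : k) • A

section VA

variable {k : Type} [Field k] [CharZero k] {r : ℕ}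

omit [CharZero k] in
theorem va_pderiv_comm (i j : Fin r) (A : MvPolynomial (Fin r) k) :
    pderiv i (pderiv j A) = pderiv j (pderiv i A) := by
  have h : ⁅(pderiv i : Derivation k (MvPolynomial (Fin r) k) (MvPolynomial (Fin r) k)),
      (pderiv j : Derivation k (MvPolynomial (Fin r) k) (MvPolynomial (Fin r) k))⁆ = 0 := by
    apply MvPolynomial.derivation_ext
    intro l
    rw [Derivation.commutator_apply]
    simp [pderiv_X, Pi.single_apply, apply_ite]
  have h1 := congrArg (fun D : Derivation k (MvPolynomial (Fin r) k) (MvPolynomial (Fin r) k) =>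
    D A) h
  simp only [Derivation.commutator_apply, Derivation.coe_zero, Pi.zero_apply] at h1
  exact sub_eq_zero.mp h1

omit [CharZero k] in
theorem va_jac_comm (B : Finset (Fin r)) {i l : Fin r} (hil : i ≠ l)
    (A : MvPolynomial (Fin r) k) : jac (jac A B l) B i = jac (jac A B i) B l := by
  have h1 : pderiv i (X l : MvPolynomial (Fin r) k) = 0 := pderiv_X_of_ne hil.symm
  have h2 : pderiv l (X i : MvPolynomial (Fin r) k) = 0 := pderiv_X_of_ne hil
  unfold jac
  by_cases hi : i ∈ B <;> by_cases hl : l ∈ B <;>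
    simp only [hi, hl, if_true, if_false, pderiv_mul, h1, h2, va_pderiv_comm i l A, zero_mul,
      zero_add]
  ring

omit [CharZero k] in
theorem va_dop_eq (s : Fin r → ℚ) (B : Finset (Fin r)) (i : Fin r) (A : MvPolynomial (Fin r) k) :
    dop s B i A = jac A B i + C (if i ∈ B then 0 else (s i : k)) * A := by
  unfold dop jac
  by_cases hi : i ∈ B
  · simp [hi]
  · simp [hi, smul_eq_C_mul]

omit [CharZero k] in
theorem va_jac_add (B : Finset (Fin r)) (i : Fin r) (A A' : MvPolynomial (Fin r) k) :
    jac (A + A') B i = jac A B i + jac A' B i := by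
  unfold jac
  by_cases hi : i ∈ B
  · simp [hi]
  · simp [hi, mul_add]

omit [CharZero k] in
theorem va_jac_C_mul (B : Finset (Fin r)) (i : Fin r) (c : k) (A : MvPolynomial (Fin r) k) :
    jac (C c * A) B i = C c * jac A B i := by
  unfold jac
  by_cases hi : i ∈ B
  · simp [hi]
  · simp [hi]
    ring

omit [CharZero k] in
theorem va_jac_mul (B : Finset (Fin r)) (i : Fin r) (A A' : MvPolynomial (Fin r) k) :
    jac (A * A') B i = jac A B i * A' + A * jac A' B i := by
  unfold jac
  by_cases hi : i ∈ B
  · simp only [hi, if_true, pderiv_mul]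
  · simp only [hi, if_false, pderiv_mul]
    ring

omit [CharZero k] in
theorem va_dop_comm (s : Fin r → ℚ) (B : Finset (Fin r)) {i l : Fin r} (hil : i ≠ l)
    (A : MvPolynomial (Fin r) k) : dop s B i (dop s B l A) = dop s B l (dop s B i A) := by
  simp only [va_dop_eq, va_jac_add, va_jac_C_mul, va_jac_comm B hil A]
  ring

omit [CharZero k] in
theorem va_dop_mul (s : Fin r → ℚ) (B : Finset (Fin r)) (i : Fin r)
    (A A' : MvPolynomial (Fin r) k) :
    dop s B i (A * A') = dop s B i A * A' + A * jac A' B i := by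
  simp only [va_dop_eq, va_jac_mul]
  ring

/-- `dop` as a linear map -/
noncomputable def dopL (s : Fin r → ℚ) (B : Finset (Fin r)) (i : Fin r) :
    MvPolynomial (Fin r) k →ₗ[k] MvPolynomial (Fin r) k where
  toFun := dop s B i
  map_add' A A' := by
    simp only [va_dop_eq, va_jac_add]
    ring
  map_smul' c A := by
    simp only [va_dop_eq, smul_eq_C_mul, va_jac_C_mul, RingHom.id_apply]
    ring

omit [CharZero k] in
theorem dopL_apply (s : Fin r → ℚ) (B : Finset (Fin r)) (i : Fin r)
    (A : MvPolynomial (Fin r) k) : dopL s B i A = dop s B i A := rfl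

/-- antisymmetric double sums vanish -/
theorem va_antisymm (F : Fin r → Fin r → k) (h : ∀ i l, F i l = -F l i) :
    ∑ i, ∑ l, F i l = 0 := by
  have h1 : ∑ i, ∑ l, F i l = -∑ i, ∑ l, F i l := by
    conv_lhs => rw [Finset.sum_comm]
    rw [← Finset.sum_neg_distrib]
    refine Finset.sum_congr rfl fun i _ => ?_
    rw [← Finset.sum_neg_distrib]
    exact Finset.sum_congr rfl fun l _ => h l i
  have h2 : (2 : k) * ∑ i, ∑ l, F i l = 0 := by linear_combination h1
  rcases mul_eq_zero.mp h2 with h3 | h3
  · exact absurd h3 two_ne_zero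
  · exact h3

theorem va_step {G : MvPolynomial (Fin r) k} {B : Finset (Fin r)} (hK : Koszul (jac G B))
    (s : Fin r → ℚ) (Φ Ψ : MvPolynomial (Fin r) k →ₗ[k] k)
    (h : ∀ i A, Φ (A * jac G B i) = Ψ (dop s B i A)) :
    ∃ Φ' : MvPolynomial (Fin r) k →ₗ[k] k, ∀ i A, Φ' (A * jac G B i) = Φ (dop s B i A) := by
  classical
  let M : (Fin r → MvPolynomial (Fin r) k) →ₗ[k] MvPolynomial (Fin r) k :=
    ∑ i, (LinearMap.mulRight k (jac G B i)) ∘ₗ LinearMap.proj i
  let L : (Fin r → MvPolynomial (Fin r) k) →ₗ[k] k :=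
    ∑ i, Φ ∘ₗ dopL s B i ∘ₗ LinearMap.proj i
  have hM : ∀ a, M a = ∑ i, a i * jac G B i := by
    intro a
    simp [M, LinearMap.sum_apply]
  have hL : ∀ a, L a = ∑ i, Φ (dop s B i (a i)) := by
    intro a
    simp [L, LinearMap.sum_apply, dopL_apply]
  have hML : LinearMap.ker M ≤ LinearMap.ker L := by
    intro a ha
    rw [LinearMap.mem_ker, hM] at ha
    obtain ⟨b, hb0, hb1, hb2⟩ := hK a ha
    rw [LinearMap.mem_ker, hL]
    have h1 : ∀ i, Φ (dop s B i (a i)) =
        ∑ l, Ψ (dop s B l (dop s B i (b i l))) + ∑ l, Φ (b i l * jac (jac G B l) B i) := by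
      intro i
      rw [hb2 i, ← dopL_apply, map_sum, map_sum, ← Finset.sum_add_distrib]
      refine Finset.sum_congr rfl fun l _ => ?_
      rw [dopL_apply, va_dop_mul, map_add, h]
    rw [Finset.sum_congr rfl fun i _ => h1 i, Finset.sum_add_distrib, va_antisymm, va_antisymm,
      add_zero]
    · intro i l
      by_cases hil : i = l
      · subst hil
        rw [hb0, zero_mul, map_zero, neg_zero]
      · rw [hb1 i l, va_jac_comm B hil, neg_mul, map_neg]
    · intro i l
      by_cases hil : i = l
      · subst hil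
        rw [hb0]
        have h0 : dop s B i (0 : MvPolynomial (Fin r) k) = 0 := by
          rw [← dopL_apply, map_zero]
        rw [h0, h0, map_zero, neg_zero]
      · rw [hb1 i l, va_dop_comm s B hil, ← dopL_apply, ← dopL_apply, map_neg, map_neg, map_neg]
        rfl
  -- factor `L` through `M`
  have hinj : LinearMap.ker ((LinearMap.ker M).liftQ M le_rfl) = ⊥ := by
    rw [Submodule.ker_liftQ]
    simp
  obtain ⟨g, hg⟩ := LinearMap.exists_leftInverse_of_injective _ hinj
  refine ⟨((LinearMap.ker M).liftQ L hML) ∘ₗ g, fun i A => ?_⟩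
  have h1 : A * jac G B i = M (Pi.single i A) := by
    rw [hM, Finset.sum_eq_single i]
    · rw [Pi.single_eq_same]
    · intro j _ hj
      rw [Pi.single_eq_of_ne hj, zero_mul]
    · intro hi
      exact absurd (Finset.mem_univ i) hi
  have h2 : L (Pi.single i A) = Φ (dop s B i A) := by
    rw [hL, Finset.sum_eq_single i]
    · rw [Pi.single_eq_same]
    · intro j _ hj
      rw [Pi.single_eq_of_ne hj, ← dopL_apply, map_zero, map_zero]
    · intro hi
      exact absurd (Finset.mem_univ i) hi
  have h3 : g (M (Pi.single i A)) = (LinearMap.ker M).mkQ (Pi.single i A) := by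
    have := LinearMap.congr_fun hg ((LinearMap.ker M).mkQ (Pi.single i A))
    simpa using this
  rw [h1, LinearMap.comp_apply, h3, ← h2]
  simp

omit [CharZero k] in
theorem va_ext {L1 L2 : MvPolynomial (Fin r) k →ₗ[k] k}
    (h : ∀ d c, L1 (monomial d c) = L2 (monomial d c)) (A : MvPolynomial (Fin r) k) :
    L1 A = L2 A := by
  induction A using MvPolynomial.induction_on' with
  | monomial d c => exact h d c
  | add p q hp hq => rw [map_add, map_add, hp, hq]

omit [CharZero k] in
theorem va_jac_wh {w : Fin r → ℕ} {n : ℕ} {G : MvPolynomial (Fin r) k}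
    (hw : ∀ i, 0 < w i ∧ w i < n) (hG : IsWeightedHomogeneous w G n) (B : Finset (Fin r))
    (i : Fin r) : IsWeightedHomogeneous w (jac G B i) (if i ∈ B then n - w i else n) := by
  have h1 : IsWeightedHomogeneous w (pderiv i G) (n - w i) :=
    hG.pderiv (by have := hw i; omega)
  unfold jac
  by_cases hi : i ∈ B
  · simp only [hi, if_true]
    exact h1
  · simp only [hi, if_false]
    have h2 := (isWeightedHomogeneous_X k w i).mul h1
    have h3 : w i + (n - w i) = n := by have := hw i; omega
    rwa [h3] at h2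

omit [CharZero k] in
theorem va_dop_monomial (s : Fin r → ℚ) {B : Finset (Fin r)} {i : Fin r} (hi : i ∉ B)
    (d : Fin r →₀ ℕ) (c : k) :
    dop s B i (monomial d c) = ((d i : k) + s i) • monomial d c := by
  unfold dop
  rw [if_neg hi, X_mul_pderiv_monomial, add_smul]
  congr 1
  rw [Nat.cast_smul_eq_nsmul]

theorem va_step' {w : Fin r → ℕ} {n : ℕ} {G : MvPolynomial (Fin r) k}
    (hw : ∀ i, 0 < w i ∧ w i < n) (hG : IsWeightedHomogeneous w G n) {B : Finset (Fin r)}
    (hK : Koszul (jac G B)) (s : Fin r → ℚ) (m0 : ℕ) (Φ Ψ : MvPolynomial (Fin r) k →ₗ[k] k)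
    (h : ∀ i A, Φ (A * jac G B i) = Ψ (dop s B i A))
    (hs : ∀ A m, IsWeightedHomogeneous w A m → m ≠ m0 → Φ A = 0) :
    ∃ Φ' : MvPolynomial (Fin r) k →ₗ[k] k, (∀ i A, Φ' (A * jac G B i) = Φ (dop s B i A)) ∧
      ∀ A m, IsWeightedHomogeneous w A m → m ≠ m0 + n → Φ' A = 0 := by
  obtain ⟨Φ1, h1⟩ := va_step hK s Φ Ψ h
  refine ⟨Φ1 ∘ₗ weightedHomogeneousComponent w (m0 + n), fun i A => ?_, fun A m hA hm => ?_⟩
  · have key : ∀ d c, (Φ1 ∘ₗ weightedHomogeneousComponent w (m0 + n) ∘ₗ
        LinearMap.mulRight k (jac G B i)) (monomial d c) = (Φ ∘ₗ dopL s B i) (monomial d c) := by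
      intro d c
      rw [LinearMap.comp_apply, LinearMap.comp_apply, LinearMap.comp_apply, dopL_apply,
        LinearMap.mulRight_apply]
      have hA : IsWeightedHomogeneous w (monomial d c) (Finsupp.weight w d) :=
        isWeightedHomogeneous_monomial w d c rfl
      have hq := va_jac_wh hw hG B i
      have hAq := hA.mul hq
      by_cases hi : i ∈ B
      · rw [if_pos hi] at hAq
        by_cases hm : Finsupp.weight w d + (n - w i) = m0 + n
        · rw [hm] at hAq
          rw [weightedHomogeneousComponent_eq_self hAq, h1]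
        · rw [hAq.weightedHomogeneousComponent_ne _ (Ne.symm hm), map_zero]
          unfold dop
          rw [if_pos hi]
          by_cases hd : d i = 0
          · rw [pderiv_monomial, hd, Nat.cast_zero, mul_zero, monomial_zero, map_zero]
          · have hwi : w i ≤ Finsupp.weight w d := Finsupp.le_weight_of_ne_zero' w hd
            have h3 : IsWeightedHomogeneous w (pderiv i (monomial d c))
                (Finsupp.weight w d - w i) := hA.pderiv (by omega)
            rw [hs _ _ h3]
            have := hw i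
            omega
      · rw [if_neg hi] at hAq
        by_cases hm : Finsupp.weight w d = m0
        · rw [hm] at hAq
          rw [weightedHomogeneousComponent_eq_self hAq, h1]
        · rw [hAq.weightedHomogeneousComponent_ne _ (by omega), map_zero, va_dop_monomial s hi,
            map_smul, hs _ _ hA hm, smul_zero]
    have := va_ext key A
    simpa [dopL_apply] using this
  · rw [LinearMap.comp_apply, hA.weightedHomogeneousComponent_ne _ (Ne.symm hm), map_zero]

/-- the functionals `Φ_j`; `Φ_j` is supported in weight `j n` -/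
theorem exists_functional {w : Fin r → ℕ} {n : ℕ} {G : MvPolynomial (Fin r) k}
    (hw : ∀ i, 0 < w i ∧ w i < n) (hG : IsWeightedHomogeneous w G n) {B : Finset (Fin r)}
    (hK : Koszul (jac G B)) (s : Fin r → ℚ) (hs : ∀ i ∈ B, s i = 1) :
    ∃ Φ : ℕ → MvPolynomial (Fin r) k →ₗ[k] k, Φ 0 1 = 1 ∧
      (∀ j A m, IsWeightedHomogeneous w A m → m ≠ j * n → Φ j A = 0) ∧
      (∀ j i A, Φ (j + 1) (A * jac G B i) = Φ j (dop s B i A)) ∧
      (∀ j A, Φ (j + 1) (G * A) = (((∑ i, w i * s i) / n + j : ℚ) : k) * Φ j A) := by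
  classical
  have hsup0 : ∀ A m, IsWeightedHomogeneous w A m → m ≠ 0 → lcoeff k (0 : Fin r →₀ ℕ) A = 0 := by
    intro A m hA hm
    rw [lcoeff_apply]
    exact hA.coeff_eq_zero 0 (by rw [map_zero]; exact Ne.symm hm)
  rcases Nat.eq_zero_or_pos r with hr | hr
  · subst hr
    refine ⟨fun j => if j = 0 then lcoeff k 0 else 0, ?_, ?_, fun j i => i.elim0, ?_⟩
    · simp [lcoeff_apply]
    · intro j A m hA hm
      by_cases hj : j = 0
      · subst hj
        simp only [if_true]
        exact hsup0 A m hA (by simpa using hm)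
      · simp [hj]
    · intro j A
      by_cases hj : j = 0
      · subst hj
        simp
      · simp [hj]
  have hn : 0 < n := by have := hw ⟨0, hr⟩; omega
  let P : ℕ → (MvPolynomial (Fin r) k →ₗ[k] k) → Prop := fun j Φ =>
    (∃ Ψ : MvPolynomial (Fin r) k →ₗ[k] k, ∀ i A, Φ (A * jac G B i) = Ψ (dop s B i A)) ∧
      ∀ A m, IsWeightedHomogeneous w A m → m ≠ j * n → Φ A = 0
  have step : ∀ (j : ℕ) (Φ : {Φ // P j Φ}), ∃ Φ' : {Φ // P (j + 1) Φ},
      ∀ i A, Φ'.1 (A * jac G B i) = Φ.1 (dop s B i A) := by
    rintro j ⟨Φ, ⟨Ψ, h1⟩, h2⟩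
    obtain ⟨Φ', h3, h4⟩ := va_step' hw hG hK s (j * n) Φ Ψ h1 h2
    refine ⟨⟨Φ', ⟨Φ, h3⟩, ?_⟩, h3⟩
    intro A m hA hm
    exact h4 A m hA (by rwa [Nat.succ_mul] at hm)
  choose nxt hnxt using step
  have h0 : P 0 (lcoeff k 0) := by
    refine ⟨⟨0, fun i A => ?_⟩, fun A m hA hm => hsup0 A m hA (by simpa using hm)⟩
    rw [LinearMap.zero_apply, lcoeff_apply]
    have h1 : coeff 0 (jac G B i) = 0 := by
      apply (va_jac_wh hw hG B i).coeff_eq_zero
      rw [map_zero]
      have := hw i
      split_ifs <;> omega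
    have h2 : coeff 0 (A * jac G B i) = coeff 0 A * coeff 0 (jac G B i) :=
      map_mul constantCoeff _ _
    rw [h2, h1, mul_zero]
  let seq : ∀ j : ℕ, {Φ // P j Φ} := fun j => Nat.rec ⟨lcoeff k 0, h0⟩ (fun j Φ => nxt j Φ) j
  have hsucc : ∀ j i A, (seq (j + 1)).1 (A * jac G B i) = (seq j).1 (dop s B i A) :=
    fun j i A => hnxt j (seq j) i A
  refine ⟨fun j => (seq j).1, ?_, fun j A m hA hm => (seq j).2.2 A m hA hm, hsucc, ?_⟩
  · change lcoeff k 0 1 = 1
    rw [lcoeff_apply]
    simp
  · intro j A
    have hn' : (n : k) ≠ 0 := by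
      have : n ≠ 0 := by omega
      exact_mod_cast this
    have key : ∀ d c, ((seq (j + 1)).1 ∘ₗ LinearMap.mulLeft k G) (monomial d c) =
        ((((∑ i, w i * s i) / n + j : ℚ) : k) • (seq j).1) (monomial d c) := by
      intro d c
      rw [LinearMap.comp_apply, LinearMap.mulLeft_apply, LinearMap.smul_apply, smul_eq_mul]
      apply mul_left_cancel₀ hn'
      have e1 : (n : k) * (seq (j + 1)).1 (G * monomial d c) =
          (seq (j + 1)).1 ((n • G) * monomial d c) := by
        rw [smul_mul_assoc, map_nsmul, nsmul_eq_mul]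
      rw [e1, ← hG.sum_weight_X_mul_pderiv, Finset.sum_mul, map_sum]
      have e2 : ∀ i, (seq (j + 1)).1 ((w i • (X i * pderiv i G)) * monomial d c) =
          ((w i : k) * ((d i : k) + s i)) * (seq j).1 (monomial d c) := by
        intro i
        rw [smul_mul_assoc, map_nsmul, nsmul_eq_mul, mul_assoc (w i : k)]
        congr 1
        by_cases hi : i ∈ B
        · have e3 : X i * pderiv i G * monomial d c = (X i * monomial d c) * jac G B i := by
            unfold jac
            rw [if_pos hi]
            ring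
          rw [e3, hsucc]
          unfold dop
          rw [if_pos hi, pderiv_mul, pderiv_X_self, one_mul, X_mul_pderiv_monomial, map_add,
            map_nsmul, nsmul_eq_mul, hs i hi, Rat.cast_one]
          ring
        · have e3 : X i * pderiv i G * monomial d c = (monomial d c) * jac G B i := by
            unfold jac
            rw [if_neg hi]
            ring
          rw [e3, hsucc, va_dop_monomial s hi, map_smul, smul_eq_mul]
      rw [Finset.sum_congr rfl fun i _ => e2 i, ← Finset.sum_mul]
      by_cases hm : Finsupp.weight w d = j * n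
      · have e4 : ∑ i, (w i : k) * ((d i : k) + s i) =
            (n : k) * (((∑ i, w i * s i) / n + j : ℚ) : k) := by
          have e5 : ∑ i, (w i : k) * (d i : k) = (j : k) * n := by
            have := congrArg (fun x : ℕ => (x : k)) hm
            simp only [Finsupp.weight_apply, Nat.cast_mul] at this
            rw [← this, Finsupp.sum_fintype]
            · push_cast
              refine Finset.sum_congr rfl fun i _ => ?_
              rw [smul_eq_mul]
              push_cast
              ring
            · intro i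
              simp
          simp only [mul_add, Finset.sum_add_distrib]
          rw [e5]
          push_cast
          field_simp
          ring
        rw [e4, mul_assoc]
      · rw [(seq j).2.2 _ _ (isWeightedHomogeneous_monomial w d c rfl) hm, mul_zero, mul_zero,
          mul_zero]
    have := va_ext key A
    simpa using this

end VA

end Pool.Agent.H75.Mono
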