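import Mathlib

/-! # ROF2, module WA: prime avoidance for cosets -/

set_option autoImplicit false

namespace Pool.Agent.H75.Mono

/-- if no prime of a finite family contains `a` and `J`, then some element of `a + J` is in none of
them -/
theorem coset_avoid {A : Type*} [CommRing A] (s : Finset (Ideal A)) (hs : ∀ P ∈ s, P.IsPrime)
    (a : A) (J : Ideal A) (h : ∀ P ∈ s, ¬ (a ∈ P ∧ J ≤ P)) : ∃ b ∈ J, ∀ P ∈ s, a + b ∉ P := by
  classical
  induction hn : s.card using Nat.strong_induction_on generalizing s with
  | _ n ih =>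
    by_cases hanti : ∃ P ∈ s, ∃ Q ∈ s, P ≠ Q ∧ P ≤ Q
    · obtain ⟨P, hP, Q, hQ, hne, hle⟩ := hanti
      obtain ⟨b, hb, hb'⟩ := ih (s.erase P).card
        (by rw [← hn]; exact Finset.card_erase_lt_of_mem hP) (s.erase P)
        (fun R hR => hs R (Finset.mem_of_mem_erase hR))
        (fun R hR => h R (Finset.mem_of_mem_erase hR)) rfl
      refine ⟨b, hb, fun R hR => ?_⟩
      by_cases hRP : R = P
      · subst hRP
        intro hmem
        exact hb' Q (Finset.mem_erase.2 ⟨hne.symm, hQ⟩) (hle hmem)
      · exact hb' R (Finset.mem_erase.2 ⟨hRP, hR⟩)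
    · push Not at hanti
      have key : ¬ ((J ⊓ (s.filter (fun P => a ∉ P)).inf id : Ideal A) : Set A) ⊆
          ⋃ P ∈ (↑(s.filter (fun P => a ∈ P)) : Set (Ideal A)), (id P : Ideal A) := by
        intro hsub
        obtain ⟨P, hP, hle⟩ := (Ideal.subset_union_prime (f := fun P : Ideal A => P)
          (⊥ : Ideal A) (⊥ : Ideal A)
          (fun P hP _ _ => hs P (Finset.mem_filter.1 hP).1)).1 hsub
        obtain ⟨hPs, haP⟩ := Finset.mem_filter.1 hP
        have hprime := hs P hPs
        rcases (hprime.inf_le).1 hle with h1 | h1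
        · exact h P hPs ⟨haP, h1⟩
        · obtain ⟨Q, hQ, hQP⟩ := (hprime.inf_le').1 h1
          obtain ⟨hQs, haQ⟩ := Finset.mem_filter.1 hQ
          have hne : Q ≠ P := by
            rintro rfl
            exact haQ haP
          exact hanti Q hQs P hPs hne hQP
      obtain ⟨b, hb, hb'⟩ := Set.not_subset.1 key
      obtain ⟨hbJ, hbU⟩ := Submodule.mem_inf.1 hb
      refine ⟨b, hbJ, fun P hP hmem => ?_⟩
      by_cases haP : a ∈ P
      · apply hb'
        have hbP : b ∈ P := by
          have := P.sub_mem hmem haP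
          rwa [add_sub_cancel_left] at this
        exact Set.mem_biUnion (Finset.mem_coe.2 (Finset.mem_filter.2 ⟨hP, haP⟩)) hbP
      · have hle : (s.filter (fun P => a ∉ P)).inf id ≤ P :=
          Finset.inf_le (f := id) (Finset.mem_filter.2 ⟨hP, haP⟩)
        have hbP : b ∈ P := hle hbU
        have := P.sub_mem hmem hbP
        rw [add_sub_cancel_right] at this
        exact haP this

end Pool.Agent.H75.Mono
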