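import Mathlib

/-! # ROF2, module WB: regular sequences and quotients (Rees) -/

set_option autoImplicit false

namespace Pool.Agent.H75.Mono

open RingTheory.Sequence

open LinearMap Ideal CategoryTheory Abelian Limits Pointwise IsSMulRegular in
/-- if the ideal `I` contains an `M`-regular sequence of length `n + 1` and `x ∈ I` is `M`-regular,
then `I` contains an `M/xM`-regular sequence of length `n` -/
theorem exists_regular_quot {A : Type} [CommRing A] [IsLocalRing A] [IsNoetherianRing A]
    {M : Type} [AddCommGroup M] [Module A M] [Module.Finite A M] [Nontrivial M] {I : Ideal A}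
    (hI : I ≤ IsLocalRing.maximalIdeal A) {n : ℕ}
    (h : ∃ a : List A, a.length = n + 1 ∧ (∀ y ∈ a, y ∈ I) ∧ IsRegular M a) {x : A} (hx : x ∈ I)
    (hxr : IsSMulRegular M x) :
    ∃ a : List A, a.length = n ∧ (∀ y ∈ a, y ∈ I) ∧ IsRegular (QuotSMulTop x M) a := by
  obtain ⟨a, ha, haI, har⟩ := h
  have hIj : I ≤ (Module.annihilator A M).jacobson :=
    hI.trans (IsLocalRing.maximalIdeal_le_jacobson _)
  have hlt : I • (⊤ : Submodule A (ModuleCat.of A M)) < ⊤ := by
    refine lt_top_iff_ne_top.2 ?_
    exact (Submodule.top_ne_ideal_smul_of_le_jacobson_annihilator hIj).symm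
  have hntr : Nontrivial (QuotSMulTop x M) :=
    nontrivial_quotSMulTop_of_mem_maximalIdeal M (hI hx)
  have hIj2 : I ≤ (Module.annihilator A (QuotSMulTop x M)).jacobson :=
    hI.trans (IsLocalRing.maximalIdeal_le_jacobson _)
  have hlt2 : I • (⊤ : Submodule A (ModuleCat.of A (QuotSMulTop x M))) < ⊤ := by
    refine lt_top_iff_ne_top.2 ?_
    exact (Submodule.top_ne_ideal_smul_of_le_jacobson_annihilator hIj2).symm
  have hsupp : Module.support A (ModuleCat.of A (A ⧸ I)) = PrimeSpectrum.zeroLocus I := by
    show Module.support A (A ⧸ I) = _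
    rw [Module.support_eq_zeroLocus, annihilator_quotient]
  have h1 := ModuleCat.subsingleton_ext_of_exists_isRegular I (ModuleCat.of A (A ⧸ I))
    hsupp.subset (ModuleCat.of A M) hlt a haI har
  rw [ha] at h1
  refine ModuleCat.exists_isRegular_of_exists_subsingleton_ext I n
    (ModuleCat.of A (QuotSMulTop x M)) hlt2 (ModuleCat.of A (A ⧸ I)) hsupp ?_
  intro i hi
  have zero1 := AddCommGrpCat.isZero_of_iff_subsingleton.mpr (h1 i (by omega))
  have zero2 := AddCommGrpCat.isZero_of_iff_subsingleton.mpr (h1 (i + 1) (by omega))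
  have hxr' : IsSMulRegular (ModuleCat.of A M) x := hxr
  exact AddCommGrpCat.subsingleton_of_isZero <| ShortComplex.Exact.isZero_of_both_zeros
    ((Ext.covariant_sequence_exact₃' (ModuleCat.of A (A ⧸ I))
      hxr'.smulShortComplex_shortExact) i (i + 1) rfl)
    (zero1.eq_zero_of_src _) (zero2.eq_zero_of_tgt _)

end Pool.Agent.H75.Mono
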