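import Pool.Agent.H75.Mono.WA
import Pool.Agent.H75.Mono.WB

/-! # ROF2, module WC: generators of an ideal of maximal depth form a regular sequence -/

set_option autoImplicit false

namespace Pool.Agent.H75.Mono

open RingTheory.Sequence

/-- weak regularity only depends on the classes modulo an element which acts as zero -/
private theorem wc_congr {A : Type} [CommRing A] {M : Type} [AddCommGroup M] [Module A M] {b : A}
    {c c' : List A} (h : c.map (Ideal.Quotient.mk (Ideal.span {b})) =
      c'.map (Ideal.Quotient.mk (Ideal.span {b}))) :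
    IsWeaklyRegular (QuotSMulTop b M) c ↔ IsWeaklyRegular (QuotSMulTop b M) c' := by
  have h1 := isWeaklyRegular_map_algebraMap_iff (R := A) (A ⧸ Ideal.span {b}) (QuotSMulTop b M) c
  have h2 := isWeaklyRegular_map_algebraMap_iff (R := A) (A ⧸ Ideal.span {b}) (QuotSMulTop b M) c'
  rw [← h1, ← h2]
  rw [Ideal.Quotient.algebraMap_eq, h]

theorem regular_of_depth {A : Type} [CommRing A] [IsLocalRing A] [IsNoetherianRing A] (n : ℕ) :
    ∀ (M : Type) [AddCommGroup M] [Module A M] [Module.Finite A M] [Nontrivial M] (q : List A),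
      q.length = n → (∀ x ∈ q, x ∈ IsLocalRing.maximalIdeal A) →
      (∃ a : List A, a.length = n ∧ (∀ x ∈ a, x ∈ Ideal.ofList q) ∧ IsRegular M a) →
      IsRegular M q := by
  induction n with
  | zero =>
    intro M _ _ _ _ q hq _ _
    obtain rfl := List.length_eq_zero_iff.1 hq
    exact IsRegular.nil A M
  | succ n ih =>
    intro M _ _ _ _ q hq hm h
    obtain ⟨a, ha, haq, har⟩ := h
    obtain ⟨q1, q', rfl⟩ : ∃ q1 q', q = q1 :: q' := by
      cases q with
      | nil => simp at hq
      | cons x l => exact ⟨x, l, rfl⟩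
    have hq' : q'.length = n := by simpa using hq
    have hI : Ideal.ofList (q1 :: q') ≤ IsLocalRing.maximalIdeal A := Ideal.span_le.2 hm
    obtain ⟨a1, a', rfl⟩ : ∃ a1 a', a = a1 :: a' := by
      cases a with
      | nil => simp at ha
      | cons x l => exact ⟨x, l, rfl⟩
    have ha1 : IsSMulRegular M a1 := ((isRegular_cons_iff M a1 a').1 har).1
    have ha1I : a1 ∈ Ideal.ofList (q1 :: q') := haq a1 (by simp)
    have hreg : ∀ x : A, (∀ P ∈ associatedPrimes A M, x ∉ P) → IsSMulRegular M x := by
      intro x hx
      have h2 := biUnion_associatedPrimes_eq_compl_regular A M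
      by_contra hcon
      have h3 : x ∈ (⋃ p ∈ associatedPrimes A M, (p : Set A)) := by
        rw [h2]; exact hcon
      simp only [Set.mem_iUnion] at h3
      obtain ⟨P, hP, hxP⟩ := h3
      exact hx P hP hxP
    have hreg' : ∀ x : A, IsSMulRegular M x → ∀ P ∈ associatedPrimes A M, x ∉ P := by
      intro x hx P hP hxP
      have h2 := biUnion_associatedPrimes_eq_compl_regular A M
      have h3 : x ∈ (⋃ p ∈ associatedPrimes A M, (p : Set A)) := by
        simp only [Set.mem_iUnion]
        exact ⟨P, hP, hxP⟩
      rw [h2] at h3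
      exact h3 hx
    obtain ⟨j, hj, hb⟩ := coset_avoid (associatedPrimes.finite A M).toFinset
      (fun P hP => by
        have : P ∈ associatedPrimes A M := by simpa using hP
        exact this.isPrime) q1 (Ideal.ofList q') (by
      rintro P hP ⟨h1, h2⟩
      have hP' : P ∈ associatedPrimes A M := by simpa using hP
      refine hreg' a1 ha1 P hP' ?_
      have h3 : Ideal.ofList (q1 :: q') ≤ P := by
        rw [Ideal.ofList_cons]
        exact sup_le ((Ideal.span_singleton_le_iff_mem P).2 h1) h2
      exact h3 ha1I)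
    have hbr : IsSMulRegular M (q1 + j) := hreg _ fun P hP => hb P (by simpa using hP)
    have hbI : q1 + j ∈ Ideal.ofList (q1 :: q') := by
      rw [Ideal.ofList_cons]
      exact add_mem (Ideal.mem_sup_left (Ideal.mem_span_singleton_self q1)) (Ideal.mem_sup_right hj)
    have hIb : ∀ y ∈ Ideal.ofList (q1 :: q'), ∃ y' ∈ Ideal.ofList q',
        Ideal.Quotient.mk (Ideal.span {q1 + j}) y' = Ideal.Quotient.mk (Ideal.span {q1 + j}) y := by
      intro y hy
      rw [Ideal.ofList_cons, Submodule.mem_sup] at hy
      obtain ⟨u, hu, v, hv, rfl⟩ := hy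
      obtain ⟨w, rfl⟩ := Ideal.mem_span_singleton'.1 hu
      refine ⟨v - w * j, sub_mem hv (Ideal.mul_mem_left _ _ hj), ?_⟩
      rw [Ideal.Quotient.eq, Ideal.mem_span_singleton']
      exact ⟨-w, by ring⟩
    obtain ⟨c, hc, hcI, hcr⟩ := exists_regular_quot hI ⟨a1 :: a', ha, haq, har⟩ hbI hbr
    choose! f hf1 hf2 using hIb
    have hbm : q1 + j ∈ IsLocalRing.maximalIdeal A := hI hbI
    haveI : Nontrivial (QuotSMulTop (q1 + j) M) := nontrivial_quotSMulTop_of_mem_maximalIdeal M hbm
    have hJm : Ideal.ofList q' ≤ IsLocalRing.maximalIdeal A :=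
      Ideal.span_le.2 fun x hx => hm x (List.mem_cons_of_mem _ hx)
    have hcr' : IsRegular (QuotSMulTop (q1 + j) M) (c.map f) := by
      refine (IsLocalRing.isRegular_iff_isWeaklyRegular_of_subset_maximalIdeal ?_).2 ?_
      · intro r hr
        obtain ⟨y, hy, rfl⟩ := List.mem_map.1 hr
        exact hJm (hf1 y (hcI y hy))
      · refine (wc_congr ?_).1 hcr.toIsWeaklyRegular
        rw [List.map_map]
        exact List.map_congr_left fun y hy => (hf2 y (hcI y hy)).symm
    have hq'r : IsRegular (QuotSMulTop (q1 + j) M) q' :=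
      ih (QuotSMulTop (q1 + j) M) q' hq' (fun x hx => hm x (List.mem_cons_of_mem _ hx))
        ⟨c.map f, by simpa using hc, fun x hx => by
          obtain ⟨y, hy, rfl⟩ := List.mem_map.1 hx
          exact hf1 y (hcI y hy), hcr'⟩
    have h4 : IsRegular M ((q1 + j) :: q') := IsRegular.cons hbr hq'r
    haveI : IsNoetherian A M := inferInstance
    have h5 : IsRegular M (q' ++ [q1 + j]) := IsLocalRing.isRegular_of_perm h4
      (List.perm_append_singleton (q1 + j) q').symm
    have h6 : IsWeaklyRegular M (q' ++ [q1]) := by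
      have h7 := (isWeaklyRegular_append_iff M q' [q1 + j]).1 h5.toIsWeaklyRegular
      refine (isWeaklyRegular_append_iff M q' [q1]).2 ⟨h7.1, ?_⟩
      rw [isWeaklyRegular_singleton_iff]
      have h8 := (isWeaklyRegular_singleton_iff _ _).1 h7.2
      have h9 : ∀ x : M ⧸ (Ideal.ofList q' • ⊤ : Submodule A M), (q1 + j) • x = q1 • x := by
        intro x
        obtain ⟨m, rfl⟩ := Submodule.mkQ_surjective _ x
        rw [add_smul, add_eq_left, ← map_smul, Submodule.mkQ_apply,
          Submodule.Quotient.mk_eq_zero]
        exact Submodule.smul_mem_smul hj trivial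
      intro x y hxy
      apply h8
      simpa [h9] using hxy
    have h10 : IsWeaklyRegular M (q1 :: q') :=
      IsLocalRing.isWeaklyRegular_of_perm_of_subset_maximalIdeal h6
        (List.perm_append_singleton q1 q') (by
          intro r hr
          apply hm
          rw [List.mem_append] at hr
          rcases hr with hr | hr
          · exact List.mem_cons_of_mem _ hr
          · simpa using Or.inl (by simpa using hr : r = q1))
    exact (IsLocalRing.isRegular_iff_isWeaklyRegular_of_subset_maximalIdeal hm).2 h10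

end Pool.Agent.H75.Mono
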