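import Pool.Agent.H75.Mono.ZS
import Pool.Agent.H75.Mono.MO

/-! # ROF, module ZA: the arcs of a sum, cancellation -/

set_option autoImplicit false

namespace Pool.Agent.H75.Mono

open MvPolynomial Pool.Agent.H39.MonoR

section ZA

variable {k : Type} [Field k] [Algebra k ℂ] {σ τ : Type} [Finite σ] [Finite τ]

theorem isCons_left (g : MvPolynomial σ k) (h : MvPolynomial τ k) (m d : ℕ) (t : Test k) :
    ICons k {x : (σ × Fin (d + 1) → ℂ) × (τ × Fin (d + 1) → ℂ) × t.E | x.2.2 ∈ t.W ∧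
        (∀ l, l < m → PowerSeries.coeff l (arcEval k x.1 g) = 0) ∧
        PowerSeries.coeff m (arcEval k x.1 g) ≠ 0 ∧
        ∀ l, l ≤ d → PowerSeries.coeff l (arcEval k x.1 g + arcEval k x.2.1 h) =
          if l = d then t.c x.2.2 else 0} := by
  have hg : ∀ l, PFun k (fun x : (σ × Fin (d + 1) → ℂ) × (τ × Fin (d + 1) → ℂ) × t.E =>
      PowerSeries.coeff l (arcEval k x.1 g)) := fun l => PFun.coeff_arcEval l g PMap.fst
  have hh : ∀ l, PFun k (fun x : (σ × Fin (d + 1) → ℂ) × (τ × Fin (d + 1) → ℂ) × t.E =>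
      PowerSeries.coeff l (arcEval k x.2.1 h)) :=
    fun l => PFun.coeff_arcEval l h (PMap.fst.comp PMap.snd)
  refine (t.cW.mem (PMap.snd.comp PMap.snd)).and ((ICons.forall_lt m fun l =>
    ICons.eq (hg l) PFun.zero).and ((ICons.ne (hg m) PFun.zero).and (ICons.forall_le d fun l => ?_)))
  simp only [map_add]
  refine ICons.eq ((hg l).add (hh l)) ?_
  by_cases hl : l = d
  · simp only [if_pos hl]
    exact t.pf.comp (PMap.snd.comp PMap.snd)
  · simp only [if_neg hl]
    exact PFun.zero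

theorem isCons_right (g : MvPolynomial σ k) (h : MvPolynomial τ k) (m d : ℕ) (t : Test k) :
    ICons k {x : (σ × Fin (d + 1) → ℂ) × (τ × Fin (d + 1) → ℂ) × t.E | x.2.2 ∈ t.W ∧
        PowerSeries.coeff m (arcEval k x.1 g) ≠ 0 ∧
        Hit g m x.1 (PowerSeries.coeff m (arcEval k x.1 g)) ∧
        Hit h m x.2.1 (-PowerSeries.coeff m (arcEval k x.1 g))} := by
  have hg : PFun k (fun x : (σ × Fin (d + 1) → ℂ) × (τ × Fin (d + 1) → ℂ) × t.E =>
      PowerSeries.coeff m (arcEval k x.1 g)) := PFun.coeff_arcEval m g PMap.fst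
  exact (t.cW.mem (PMap.snd.comp PMap.snd)).and ((ICons.ne hg PFun.zero).and
    ((ICons.hit m g PMap.fst hg).and (ICons.hit m h (PMap.fst.comp PMap.snd) hg.neg)))

theorem exists_unit_part {F : PowerSeries ℂ} {m : ℕ} (h : ∀ l, l < m → PowerSeries.coeff l F = 0) :
    ∃ P : PowerSeries ℂ, F = PowerSeries.X ^ m * P ∧
      PowerSeries.constantCoeff P = PowerSeries.coeff m F := by
  obtain ⟨P, hP⟩ := PowerSeries.X_pow_dvd_iff.2 h
  refine ⟨P, hP, ?_⟩
  rw [hP, ← PowerSeries.coeff_zero_eq_constantCoeff_apply]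
  have := PowerSeries.coeff_X_pow_mul P m 0
  rw [zero_add] at this
  exact this.symm

theorem coeff_eq_of_dvd {F G : PowerSeries ℂ} {N : ℕ} (h : PowerSeries.X ^ N ∣ F - G) {l : ℕ}
    (hl : l < N) : PowerSeries.coeff l F = PowerSeries.coeff l G := by
  have := PowerSeries.X_pow_dvd_iff.1 h l hl
  rwa [map_sub, sub_eq_zero] at this

/-- multiplication by a series with constant coefficient one -/
theorem coeff_mul_of_low {F V : PowerSeries ℂ} {m : ℕ}
    (h : ∀ l, l < m → PowerSeries.coeff l F = 0) (hV : PowerSeries.constantCoeff V = 1) {l : ℕ}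
    (hl : l ≤ m) : PowerSeries.coeff l (V * F) = PowerSeries.coeff l F := by
  obtain ⟨P, hP, hP0⟩ := exists_unit_part h
  have e : V * F = PowerSeries.X ^ m * (V * P) := by rw [hP]; ring
  rcases Nat.lt_or_eq_of_le hl with h1 | rfl
  · rw [h l h1, e, PowerSeries.coeff_X_pow_mul', if_neg (by omega)]
  · rw [e, PowerSeries.coeff_X_pow_mul', if_pos le_rfl, Nat.sub_self,
      PowerSeries.coeff_zero_eq_constantCoeff_apply, map_mul, hV, one_mul, hP0]

/-- the arcs with `ord g(φ) = m < d` and `g(φ) + h(ψ) = c t^d mod t^(d+1)` -/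
theorem mo_cancel {g : MvPolynomial σ k} (hg : QH g) (h : MvPolynomial τ k) {m d : ℕ}
    (hmd : m < d) (t : Test k) :
    mo k {x : (σ × Fin (d + 1) → ℂ) × (τ × Fin (d + 1) → ℂ) × t.E | x.2.2 ∈ t.W ∧
        (∀ l, l < m → PowerSeries.coeff l (arcEval k x.1 g) = 0) ∧
        PowerSeries.coeff m (arcEval k x.1 g) ≠ 0 ∧
        ∀ l, l ≤ d → PowerSeries.coeff l (arcEval k x.1 g + arcEval k x.2.1 h) =
          if l = d then t.c x.2.2 else 0} * ↑(Lu k ^ ((d - m : ℕ) : ℤ)) =
    mo k {x : (σ × Fin (d + 1) → ℂ) × (τ × Fin (d + 1) → ℂ) × t.E | x.2.2 ∈ t.W ∧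
        PowerSeries.coeff m (arcEval k x.1 g) ≠ 0 ∧
        Hit g m x.1 (PowerSeries.coeff m (arcEval k x.1 g)) ∧
        Hit h m x.2.1 (-PowerSeries.coeff m (arcEval k x.1 g))} := by
  obtain ⟨w, n, hn, hw⟩ := hg
  have hL := isCons_left g h m d t
  have hR := isCons_right g h m d t
  have e1 : ((Nat.card (Fin (d - m)) : ℕ) : ℤ) = ((d - m : ℕ) : ℤ) := by
    rw [Nat.card_eq_fintype_card, Fintype.card_fin]
  rw [mul_comm, ← e1, ← mo_univ_pi (k := k) (α := Fin (d - m)), ← mo_prod ICons.univ hL]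
  have hF : PMap k (fun y : (Fin (d - m) → ℂ) × ((σ × Fin (d + 1) → ℂ) ×
      (τ × Fin (d + 1) → ℂ) × t.E) => (scArc w y.1 y.2.1, y.2.2)) := by
    have h1 : PMap k (fun y : (Fin (d - m) → ℂ) × ((σ × Fin (d + 1) → ℂ) ×
        (τ × Fin (d + 1) → ℂ) × t.E) => (y.1, y.2.1)) :=
      PMap.prodMk PMap.fst (PMap.comp (f := fun z : (σ × Fin (d + 1) → ℂ) ×
        (τ × Fin (d + 1) → ℂ) × t.E => z.1) PMap.fst PMap.snd)
    have h2 := PMap.comp (f := fun z : (Fin (d - m) → ℂ) × (σ × Fin (d + 1) → ℂ) =>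
      scArc w z.1 z.2) (PMap.scArc w) h1
    exact PMap.prodMk h2 (PMap.comp (f := fun z : (σ × Fin (d + 1) → ℂ) ×
        (τ × Fin (d + 1) → ℂ) × t.E => z.2) PMap.snd PMap.snd)
  refine mo_bij (ICons.prod ICons.univ hL) hR hF ⟨?_, ?_, ?_⟩
  · rintro ⟨lam, φ, ψ, x⟩ ⟨-, hx, h1, h2, h3⟩
    simp only at hx h1 h2 h3
    have hs := arcEval_scArc hw lam φ
    have hc : PowerSeries.constantCoeff (unitSer lam ^ n) = 1 := by
      rw [map_pow, constantCoeff_unitSer, one_pow]
    have h4 : ∀ l, l ≤ m → PowerSeries.coeff l (arcEval k (scArc w lam φ) g) =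
        PowerSeries.coeff l (arcEval k φ g) := by
      intro l hl
      rw [coeff_eq_of_dvd hs (by omega), coeff_mul_of_low h1 hc hl]
    refine ⟨hx, ?_, ?_, ?_⟩
    · simp only
      rw [h4 m le_rfl]
      exact h2
    · intro l hl
      simp only
      by_cases hlm : l = m
      · rw [if_pos hlm, hlm]
      · rw [if_neg hlm, h4 l hl, h1 l (by omega)]
    · intro l hl
      simp only
      have h5 := h3 l (by omega)
      rw [if_neg (by omega), map_add] at h5
      by_cases hlm : l = m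
      · rw [if_pos hlm, h4 m le_rfl, ← hlm]
        linear_combination h5
      · rw [if_neg hlm]
        rw [h1 l (by omega), zero_add] at h5
        exact h5
  · rintro ⟨lam, φ, ψ, x⟩ ⟨-, hx, h1, h2, h3⟩ ⟨lam', φ', ψ', x'⟩ ⟨-, hx', h1', h2', h3'⟩ heq
    simp only [Prod.mk.injEq] at heq
    obtain ⟨hsc, rfl, rfl⟩ := heq
    simp only at hx h1 h2 h3 hx' h1' h2' h3'
    have hs := arcEval_scArc hw lam φ
    have hs' := arcEval_scArc hw lam' φ'
    rw [← hsc] at hs'
    have hG : PowerSeries.X ^ (d + 1) ∣ arcEval k φ g - arcEval k φ' g := by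
      rw [PowerSeries.X_pow_dvd_iff]
      intro l hl
      have a := h3 l (by omega)
      have b := h3' l (by omega)
      rw [← b, map_add, map_add] at a
      rw [map_sub]
      linear_combination a
    obtain ⟨P, hP, hP0⟩ := exists_unit_part h1
    have hPu : IsUnit P := by
      rw [PowerSeries.isUnit_iff_constantCoeff, hP0]
      exact isUnit_iff_ne_zero.2 h2
    have hd1 : PowerSeries.X ^ (d + 1) ∣
        PowerSeries.X ^ m * ((unitSer lam ^ n - unitSer lam' ^ n) * P) := by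
      have e2 : PowerSeries.X ^ m * ((unitSer lam ^ n - unitSer lam' ^ n) * P) =
          (arcEval k (scArc w lam φ) g - unitSer lam' ^ n * arcEval k φ' g) -
          (arcEval k (scArc w lam φ) g - unitSer lam ^ n * arcEval k φ g) -
          unitSer lam' ^ n * (arcEval k φ g - arcEval k φ' g) := by
        have : PowerSeries.X ^ m * P = arcEval k φ g := hP.symm
        linear_combination (unitSer lam ^ n - unitSer lam' ^ n) * this
      rw [e2]
      exact dvd_sub (dvd_sub hs' hs) (hG.mul_left _)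
    have hd2 : PowerSeries.X ^ (d - m + 1) ∣ unitSer lam ^ n - unitSer lam' ^ n := by
      have e3 : (PowerSeries.X : PowerSeries ℂ) ^ (d + 1) =
          PowerSeries.X ^ m * PowerSeries.X ^ (d - m + 1) := by
        rw [← pow_add]
        congr 1
        omega
      rw [e3] at hd1
      exact (hPu.dvd_mul_right).1
        ((mul_dvd_mul_iff_left (pow_ne_zero m PowerSeries.X_ne_zero)).1 hd1)
    have hlam : lam = lam' := unitSer_inj (root_unique (constantCoeff_unitSer lam)
      (constantCoeff_unitSer lam') hn hd2)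
    subst hlam
    have hφ : φ = φ' := scArc_inj w lam hsc
    rw [hφ]
  · rintro ⟨φ₁, ψ, x⟩ ⟨hx, h2, h3, h4⟩
    simp only at hx h2 h3 h4
    have g1 : ∀ l, l < m → PowerSeries.coeff l (arcEval k φ₁ g) = 0 := by
      intro l hl
      rw [h3 l hl.le, if_neg hl.ne]
    have g2 : ∀ l, l < m → PowerSeries.coeff l (PowerSeries.C (t.c x) * PowerSeries.X ^ d -
        arcEval k ψ h) = 0 := by
      intro l hl
      rw [map_sub, h4 l hl.le, if_neg hl.ne, PowerSeries.coeff_C_mul, PowerSeries.coeff_X_pow,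
        if_neg (by omega), mul_zero, sub_zero]
    have g3 : PowerSeries.coeff m (PowerSeries.C (t.c x) * PowerSeries.X ^ d -
        arcEval k ψ h) = PowerSeries.coeff m (arcEval k φ₁ g) := by
      rw [map_sub, h4 m le_rfl, if_pos rfl, PowerSeries.coeff_C_mul, PowerSeries.coeff_X_pow,
        if_neg (by omega), mul_zero, zero_sub, neg_neg]
    obtain ⟨P, hP, hP0⟩ := exists_unit_part g1
    obtain ⟨Q, hQ, hQ0⟩ := exists_unit_part g2
    rw [g3] at hQ0
    have hQn : PowerSeries.constantCoeff Q ≠ 0 := by rw [hQ0]; exact h2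
    have hv : PowerSeries.constantCoeff (P * Q⁻¹) = 1 := by
      rw [map_mul, PowerSeries.constantCoeff_inv, hP0, hQ0, mul_inv_cancel₀ h2]
    obtain ⟨r, hr, hrn⟩ := exists_root_mod (P * Q⁻¹) hv hn (d - m + 1)
    obtain ⟨lam, hlam⟩ := exists_unitSer (d - m) r hr
    have hU : PowerSeries.X ^ (d - m + 1) ∣ unitSer lam ^ n - P * Q⁻¹ := by
      have e4 : unitSer lam ^ n - P * Q⁻¹ = (unitSer lam ^ n - r ^ n) + (r ^ n - P * Q⁻¹) := by
        ring
      rw [e4]
      exact dvd_add (hlam.trans (sub_dvd_pow_sub_pow _ _ _)) hrn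
    obtain ⟨φ, hφ⟩ := scArc_surj (N := d + 1) w lam φ₁
    have hs := arcEval_scArc hw lam φ
    rw [hφ] at hs
    have hUu : IsUnit (unitSer lam ^ n) := (isUnit_of_one (constantCoeff_unitSer lam)).pow _
    have hK : PowerSeries.X ^ (d + 1) ∣ arcEval k φ g -
        (PowerSeries.C (t.c x) * PowerSeries.X ^ d - arcEval k ψ h) := by
      refine (hUu.dvd_mul_left).1 ?_
      have e5 : unitSer lam ^ n * (arcEval k φ g -
          (PowerSeries.C (t.c x) * PowerSeries.X ^ d - arcEval k ψ h)) =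
          -(arcEval k φ₁ g - unitSer lam ^ n * arcEval k φ g) -
          PowerSeries.X ^ m * (Q * (unitSer lam ^ n - P * Q⁻¹)) := by
        have hQQ : Q * Q⁻¹ = 1 := PowerSeries.mul_inv_cancel _ hQn
        rw [hQ, hP]
        linear_combination (-(PowerSeries.X ^ m * P)) * hQQ
      rw [e5]
      have e3 : (PowerSeries.X : PowerSeries ℂ) ^ (d + 1) =
          PowerSeries.X ^ m * PowerSeries.X ^ (d - m + 1) := by
        rw [← pow_add]
        congr 1
        omega
      refine dvd_sub (dvd_neg.2 hs) ?_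
      rw [e3]
      exact mul_dvd_mul_left _ (hU.mul_left _)
    refine ⟨(lam, φ, ψ, x), ⟨Set.mem_univ _, hx, ?_, ?_, ?_⟩, ?_⟩
    · intro l hl
      simp only
      rw [coeff_eq_of_dvd hK (by omega), g2 l hl]
    · simp only
      rw [coeff_eq_of_dvd hK (by omega), g3]
      exact h2
    · intro l hl
      simp only
      rw [map_add, coeff_eq_of_dvd hK (by omega), map_sub, sub_add_cancel,
        PowerSeries.coeff_C_mul, PowerSeries.coeff_X_pow]
      split_ifs <;> simp
    · simp only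
      rw [hφ]

end ZA

end Pool.Agent.H75.Mono
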