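import Pool.Agent.H75.Mono.ZA
import Pool.Agent.H75.Mono.TR
import Pool.Agent.H75.Mono.SP
import Pool.Agent.H75.Mono.TS

/-! # ROF, module ZB: the class formula for sums -/

set_option autoImplicit false

namespace Pool.Agent.H75.Mono

open MvPolynomial Pool.Agent.H39.MonoR

section ZB

variable {k : Type} [Field k] [Algebra k ℂ] {σ τ : Type} [Finite σ] [Finite τ]

/-- the constants in the formula for sums -/
noncomputable def canc (g : MvPolynomial σ k) (h : MvPolynomial τ k) (d : ℕ) : M k :=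
  ∑ m ∈ Finset.range d, ↑(Lu k ^ (-((d - m : ℕ) : ℤ))) * z2 g h m m (gm0 k)

private theorem lu_cancel (a : ℤ) : (↑(Lu k ^ a) : M k) * ↑(Lu k ^ (-a)) = 1 := by
  rw [← Units.val_mul, zpow_neg, mul_inv_cancel, Units.val_one]

private theorem alg_sum {R : Type*} [CommRing R] (s : Finset ℕ) (a b a' b' c w : R)
    (x z : ℕ → R) (h1 : a * a' = 1) (h2 : b * b' = 1) :
    (a * b * c + ∑ m ∈ s, x m * (a * b * (z m * w))) * (a' * b') =
      c + (∑ m ∈ s, x m * z m) * w := by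
  have h3 : ∑ m ∈ s, x m * (a * b * (z m * w)) = a * b * ((∑ m ∈ s, x m * z m) * w) := by
    rw [Finset.sum_mul, Finset.mul_sum]
    exact Finset.sum_congr rfl fun m _ => by ring
  rw [h3]
  linear_combination ((c + (∑ m ∈ s, x m * z m) * w) * b * b') * h1 +
    (c + (∑ m ∈ s, x m * z m) * w) * h2

private theorem cons_sum (g : MvPolynomial σ k) (h : MvPolynomial τ k) (d : ℕ) (t : Test k) :
    ICons k {x : (σ × Fin (d + 1) → ℂ) × (τ × Fin (d + 1) → ℂ) × t.E |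
      ∀ l, l ≤ d → PowerSeries.coeff l (arcEval k x.1 g + arcEval k x.2.1 h) =
          if l = d then t.c x.2.2 else 0} := by
  refine ICons.forall_le d fun l => ?_
  have e : {x : (σ × Fin (d + 1) → ℂ) × (τ × Fin (d + 1) → ℂ) × t.E |
      PowerSeries.coeff l (arcEval k x.1 g + arcEval k x.2.1 h) =
          if l = d then t.c x.2.2 else 0} =
      {x | PowerSeries.coeff l (arcEval k x.1 g) + PowerSeries.coeff l (arcEval k x.2.1 h) =
          if l = d then t.c x.2.2 else 0} := by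
    ext x
    rw [Set.mem_ofPred_eq, Set.mem_ofPred_eq, map_add]
  rw [e]
  have h1 : PFun k (fun x : (σ × Fin (d + 1) → ℂ) × (τ × Fin (d + 1) → ℂ) × t.E =>
      PowerSeries.coeff l (arcEval k x.1 g) + PowerSeries.coeff l (arcEval k x.2.1 h)) :=
    (PFun.coeff_arcEval l g PMap.fst).add (PFun.coeff_arcEval l h (PMap.fst.comp PMap.snd))
  by_cases hl : l = d
  · simp only [if_pos hl]
    exact ICons.eq h1 (t.pf.comp (PMap.snd.comp PMap.snd))
  · simp only [if_neg hl]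
    exact ICons.eq h1 PFun.zero

private theorem cons_lt (g : MvPolynomial σ k) (τ' : Type) [Finite τ'] (d m : ℕ) (t : Test k) :
    ICons k {x : (σ × Fin (d + 1) → ℂ) × (τ' × Fin (d + 1) → ℂ) × t.E |
      ∀ l, l < m → PowerSeries.coeff l (arcEval k x.1 g) = 0} :=
  ICons.forall_lt m fun l => ICons.eq (PFun.coeff_arcEval l g PMap.fst) PFun.zero

private theorem cons_ne (g : MvPolynomial σ k) (τ' : Type) [Finite τ'] (d m : ℕ) (t : Test k) :
    ICons k {x : (σ × Fin (d + 1) → ℂ) × (τ' × Fin (d + 1) → ℂ) × t.E |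
      PowerSeries.coeff m (arcEval k x.1 g) ≠ 0} :=
  ICons.ne (PFun.coeff_arcEval m g PMap.fst) PFun.zero

private theorem cons_W (σ' τ' : Type) [Finite σ'] [Finite τ'] (d : ℕ) (t : Test k) :
    ICons k {x : (σ' × Fin (d + 1) → ℂ) × (τ' × Fin (d + 1) → ℂ) × t.E | x.2.2 ∈ t.W} :=
  t.cW.mem (PMap.snd.comp PMap.snd)

/-- the part with `g(φ) = 0 mod t^d` -/
theorem mo_conv (g : MvPolynomial σ k) (h : MvPolynomial τ k) (d : ℕ) (t : Test k) :
    mo k {x : (σ × Fin (d + 1) → ℂ) × (τ × Fin (d + 1) → ℂ) × t.E | x.2.2 ∈ t.W ∧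
        (∀ l, l < d → PowerSeries.coeff l (arcEval k x.1 g) = 0) ∧
        ∀ l, l ≤ d → PowerSeries.coeff l (arcEval k x.1 g + arcEval k x.2.1 h) =
          if l = d then t.c x.2.2 else 0} =
      ↑(Lu k ^ ((Nat.card σ * d : ℕ) : ℤ)) * ↑(Lu k ^ ((Nat.card τ * d : ℕ) : ℤ)) *
        z2 g h d d t.conv := by
  have e : mo k {x : (σ × Fin (d + 1) → ℂ) × (τ × Fin (d + 1) → ℂ) × t.E | x.2.2 ∈ t.W ∧
        (∀ l, l < d → PowerSeries.coeff l (arcEval k x.1 g) = 0) ∧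
        ∀ l, l ≤ d → PowerSeries.coeff l (arcEval k x.1 g + arcEval k x.2.1 h) =
          if l = d then t.c x.2.2 else 0} =
      mo k {x : (σ × Fin (d + 1) → ℂ) × (τ × Fin (d + 1) → ℂ) × t.conv.E |
        x.2.2 ∈ t.conv.W ∧ Hit g d x.1 (t.conv.c1 x.2.2) ∧ Hit h d x.2.1 (t.conv.c2 x.2.2)} := by
    refine mo_bij ?_ ?_
      (f := fun x => (x.1, x.2.1, (x.2.2, PowerSeries.coeff d (arcEval k x.1 g)))) ?_ ⟨?_, ?_, ?_⟩
    · exact (cons_W σ τ d t).and ((cons_lt g τ d d t).and (cons_sum g h d t))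
    · exact (t.conv.cW.mem (PMap.snd.comp PMap.snd)).and
        ((ICons.hit d g PMap.fst (t.conv.pf1.comp (PMap.snd.comp PMap.snd))).and
        (ICons.hit d h (PMap.fst.comp PMap.snd) (t.conv.pf2.comp (PMap.snd.comp PMap.snd))))
    · exact PMap.prodMk PMap.fst (PMap.prodMk (PMap.fst.comp PMap.snd)
        (PMap.prodMk (PMap.snd.comp PMap.snd)
          (PMap.of_pFun (PFun.coeff_arcEval d g PMap.fst))))
    · rintro ⟨φ, ψ, w⟩ ⟨h1, h2, h3⟩
      refine ⟨h1, (hit_iff _ _ _ _).2 ⟨h2, rfl⟩, (hit_iff _ _ _ _).2 ⟨fun l hl => ?_, ?_⟩⟩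
      · have h4 := h3 l hl.le
        rw [if_neg hl.ne, map_add] at h4
        have h5 : PowerSeries.coeff l (arcEval k φ g) = 0 := h2 l hl
        rw [h5, zero_add] at h4
        exact h4
      · have h4 := h3 d le_rfl
        rw [if_pos rfl, map_add] at h4
        exact eq_sub_of_add_eq' h4
    · rintro ⟨φ, ψ, w⟩ _ ⟨φ', ψ', w'⟩ _ he
      have h1 : φ = φ' := congrArg Prod.fst he
      have h2 := congrArg Prod.snd he
      have h3 : ψ = ψ' := congrArg Prod.fst h2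
      have h4 := congrArg Prod.snd h2
      have h5 : w = w' := congrArg Prod.fst h4
      rw [h1, h3, h5]
    · rintro ⟨φ, ψ, w, a⟩ ⟨h1, h2, h3⟩
      have h4 := (hit_iff _ _ _ _).1 h2
      have h5 := (hit_iff _ _ _ _).1 h3
      have h6 : PowerSeries.coeff d (arcEval k φ g) = a := h4.2
      have h7 : PowerSeries.coeff d (arcEval k ψ h) = t.c w - a := h5.2
      refine ⟨(φ, ψ, w), ⟨h1, h4.1, fun l hl => ?_⟩, ?_⟩
      · show PowerSeries.coeff l (arcEval k φ g + arcEval k ψ h) = if l = d then t.c w else 0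
        rw [map_add]
        rcases hl.lt_or_eq with hl' | hl'
        · have h8 : PowerSeries.coeff l (arcEval k φ g) = 0 := h4.1 l hl'
          have h9 : PowerSeries.coeff l (arcEval k ψ h) = 0 := h5.1 l hl'
          rw [if_neg hl'.ne, h8, h9, add_zero]
        · rw [if_pos hl', hl', h6, h7]
          ring
      · show (φ, ψ, (w, PowerSeries.coeff d (arcEval k φ g))) = (φ, ψ, w, a)
        rw [h6]
  rw [e]
  unfold z2
  have h1 := lu_cancel (k := k) ((Nat.card σ * d : ℕ) : ℤ)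
  have h2 := lu_cancel (k := k) ((Nat.card τ * d : ℕ) : ℤ)
  exact (fun (a b c a' b' : M k) (h1 : a * a' = 1) (h2 : b * b' = 1) => by
    linear_combination (-(c * b * b')) * h1 - c * h2 :
    ∀ a b c a' b' : M k, a * a' = 1 → b * b' = 1 → c = a * b * (c * (a' * b'))) _ _ _ _ _ h1 h2

/-- the leading coefficients cancel -/
theorem mo_gm0 (g : MvPolynomial σ k) (h : MvPolynomial τ k) {m d : ℕ} (hmd : m < d)
    (t : Test k) :
    mo k {x : (σ × Fin (d + 1) → ℂ) × (τ × Fin (d + 1) → ℂ) × t.E | x.2.2 ∈ t.W ∧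
        PowerSeries.coeff m (arcEval k x.1 g) ≠ 0 ∧
        Hit g m x.1 (PowerSeries.coeff m (arcEval k x.1 g)) ∧
        Hit h m x.2.1 (-PowerSeries.coeff m (arcEval k x.1 g))} =
      ↑(Lu k ^ ((Nat.card σ * d : ℕ) : ℤ)) * ↑(Lu k ^ ((Nat.card τ * d : ℕ) : ℤ)) *
        (z2 g h m m (gm0 k) * mass t) := by
  have hA : ICons k {x : (σ × Fin (d + 1) → ℂ) × (τ × Fin (d + 1) → ℂ) × ℂ |
      x.2.2 ≠ 0 ∧ Hit g m x.1 x.2.2 ∧ Hit h m x.2.1 (-x.2.2)} :=
    (ICons.ne (PFun.id'.comp (PMap.snd.comp PMap.snd)) PFun.zero).and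
        ((ICons.hit m g PMap.fst (PFun.id'.comp (PMap.snd.comp PMap.snd))).and
        (ICons.hit m h (PMap.fst.comp PMap.snd) (PFun.id'.comp (PMap.snd.comp PMap.snd)).neg))
  have h0 : mo k {x : (σ × Fin (d + 1) → ℂ) × (τ × Fin (d + 1) → ℂ) × ℂ |
      x.2.2 ≠ 0 ∧ Hit g m x.1 x.2.2 ∧ Hit h m x.2.1 (-x.2.2)} =
      ↑(Lu k ^ ((Nat.card σ * d : ℕ) : ℤ)) * ↑(Lu k ^ ((Nat.card τ * d : ℕ) : ℤ)) *
        z2 g h m m (gm0 k) :=
    mo_hit2 (k := k) (N := d + 1) (i := m) (j := m) (by omega) (by omega) g h (gm0 k)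
  rw [← mul_assoc, ← h0, mass, ← mo_prod hA t.cW]
  have hp : PFun k (fun x : (σ × Fin (d + 1) → ℂ) × (τ × Fin (d + 1) → ℂ) × t.E =>
      PowerSeries.coeff m (arcEval k x.1 g)) := PFun.coeff_arcEval m g PMap.fst
  refine mo_bij ?_ ?_ (f := fun x : (σ × Fin (d + 1) → ℂ) × (τ × Fin (d + 1) → ℂ) × t.E =>
    ((x.1, x.2.1, PowerSeries.coeff m (arcEval k x.1 g)), x.2.2)) ?_ ⟨?_, ?_, ?_⟩
  · exact (cons_W σ τ d t).and ((cons_ne g τ d m t).and
      ((ICons.hit m g PMap.fst hp).and (ICons.hit m h (PMap.fst.comp PMap.snd) hp.neg)))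
  · exact hA.prod t.cW
  · exact PMap.prodMk (PMap.prodMk PMap.fst (PMap.prodMk (PMap.fst.comp PMap.snd)
      (PMap.of_pFun hp))) (PMap.snd.comp PMap.snd)
  · rintro ⟨φ, ψ, w⟩ ⟨h1, h2, h3, h4⟩
    exact ⟨⟨h2, h3, h4⟩, h1⟩
  · rintro ⟨φ, ψ, w⟩ _ ⟨φ', ψ', w'⟩ _ he
    have h1 := congrArg Prod.fst he
    have h2 : w = w' := congrArg Prod.snd he
    have h3 : φ = φ' := congrArg Prod.fst h1
    have h4 := congrArg Prod.snd h1
    have h5 : ψ = ψ' := congrArg Prod.fst h4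
    rw [h2, h3, h5]
  · rintro ⟨⟨φ, ψ, a⟩, w⟩ ⟨⟨h1, h2, h3⟩, h4⟩
    have h5 : PowerSeries.coeff m (arcEval k φ g) = a := ((hit_iff _ _ _ _).1 h2).2
    refine ⟨(φ, ψ, w), ⟨h4, ?_, ?_, ?_⟩, ?_⟩
    · show PowerSeries.coeff m (arcEval k φ g) ≠ 0
      rw [h5]
      exact h1
    · show Hit g m φ (PowerSeries.coeff m (arcEval k φ g))
      rw [h5]
      exact h2
    · show Hit h m ψ (-PowerSeries.coeff m (arcEval k φ g))
      rw [h5]
      exact h3
    · show ((φ, ψ, PowerSeries.coeff m (arcEval k φ g)), w) = ((φ, ψ, a), w)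
      rw [h5]

theorem zt_add {g : MvPolynomial σ k} (hg : QH g) (h : MvPolynomial τ k) (d : ℕ) (t : Test k) :
    zt (sadd g h) d t = z2 g h d d t.conv + canc g h d * mass t := by
  have hP : ∀ (φ : (σ ⊕ τ) × Fin (d + 1) → ℂ) (c : ℂ), Hit (sadd g h) d φ c ↔
      (fun (φ : σ × Fin (d + 1) → ℂ) (ψ : τ × Fin (d + 1) → ℂ) (c : ℂ) =>
        ∀ l, l ≤ d → PowerSeries.coeff l (arcEval k φ g + arcEval k ψ h) =
          if l = d then c else 0) (sp1 φ) (sp2 φ) c := by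
    intro φ c
    have e : arcEval k φ (sadd g h) = arcEval k (sp1 φ) g + arcEval k (sp2 φ) h := by
      rw [← arcEval_inl, ← arcEval_inr]
      unfold sadd arcEval
      rw [map_add]
    unfold Hit
    rw [e]
  have hX : ICons k {x : (σ × Fin (d + 1) → ℂ) × (τ × Fin (d + 1) → ℂ) × t.E |
      x.2.2 ∈ t.W ∧ ∀ l, l ≤ d → PowerSeries.coeff l (arcEval k x.1 g + arcEval k x.2.1 h) =
          if l = d then t.c x.2.2 else 0} := (cons_W σ τ d t).and (cons_sum g h d t)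
  rw [zt_sp (sadd g h) d t (fun (φ : σ × Fin (d + 1) → ℂ) (ψ : τ × Fin (d + 1) → ℂ) (c : ℂ) =>
        ∀ l, l ≤ d → PowerSeries.coeff l (arcEval k φ g + arcEval k ψ h) =
          if l = d then c else 0) hP hX]
  rw [mo_split hX (cons_lt g τ d d t)]
  have e1 : {x : (σ × Fin (d + 1) → ℂ) × (τ × Fin (d + 1) → ℂ) × t.E |
      x ∈ {x : (σ × Fin (d + 1) → ℂ) × (τ × Fin (d + 1) → ℂ) × t.E |
      x.2.2 ∈ t.W ∧ ∀ l, l ≤ d → PowerSeries.coeff l (arcEval k x.1 g + arcEval k x.2.1 h) =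
          if l = d then t.c x.2.2 else 0} ∧
      ∀ l, l < d → PowerSeries.coeff l (arcEval k x.1 g) = 0} =
      {x : (σ × Fin (d + 1) → ℂ) × (τ × Fin (d + 1) → ℂ) × t.E | x.2.2 ∈ t.W ∧
        (∀ l, l < d → PowerSeries.coeff l (arcEval k x.1 g) = 0) ∧
        ∀ l, l ≤ d → PowerSeries.coeff l (arcEval k x.1 g + arcEval k x.2.1 h) =
          if l = d then t.c x.2.2 else 0} := by
    ext x
    exact ⟨fun ⟨⟨h1, h2⟩, h3⟩ => ⟨h1, h3, h2⟩, fun ⟨h1, h3, h2⟩ => ⟨⟨h1, h2⟩, h3⟩⟩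
  have e2 : {x : (σ × Fin (d + 1) → ℂ) × (τ × Fin (d + 1) → ℂ) × t.E |
      x ∈ {x : (σ × Fin (d + 1) → ℂ) × (τ × Fin (d + 1) → ℂ) × t.E |
      x.2.2 ∈ t.W ∧ ∀ l, l ≤ d → PowerSeries.coeff l (arcEval k x.1 g + arcEval k x.2.1 h) =
          if l = d then t.c x.2.2 else 0} ∧
      ¬ ∀ l, l < d → PowerSeries.coeff l (arcEval k x.1 g) = 0} =
      {x | ∃ m ∈ Finset.range d, x ∈ {x : (σ × Fin (d + 1) → ℂ) × (τ × Fin (d + 1) → ℂ) × t.E |
        x.2.2 ∈ t.W ∧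
        (∀ l, l < m → PowerSeries.coeff l (arcEval k x.1 g) = 0) ∧
        PowerSeries.coeff m (arcEval k x.1 g) ≠ 0 ∧
        ∀ l, l ≤ d → PowerSeries.coeff l (arcEval k x.1 g + arcEval k x.2.1 h) =
          if l = d then t.c x.2.2 else 0}} := by
    ext x
    constructor
    · rintro ⟨⟨h1, h2⟩, h3⟩
      push Not at h3
      classical
      have h4 := Nat.find_spec h3
      refine ⟨Nat.find h3, Finset.mem_range.2 h4.1, h1, fun l hl => ?_, h4.2, h2⟩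
      by_contra h5
      exact Nat.find_min h3 hl ⟨hl.trans h4.1, h5⟩
    · rintro ⟨m, hm, h1, h2, h3, h4⟩
      exact ⟨⟨h1, h4⟩, fun h5 => h3 (h5 m (Finset.mem_range.1 hm))⟩
  have hAm : ∀ m, ICons k {x : (σ × Fin (d + 1) → ℂ) × (τ × Fin (d + 1) → ℂ) × t.E |
        x.2.2 ∈ t.W ∧
        (∀ l, l < m → PowerSeries.coeff l (arcEval k x.1 g) = 0) ∧
        PowerSeries.coeff m (arcEval k x.1 g) ≠ 0 ∧
        ∀ l, l ≤ d → PowerSeries.coeff l (arcEval k x.1 g + arcEval k x.2.1 h) =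
          if l = d then t.c x.2.2 else 0} := fun m =>
    (cons_W σ τ d t).and ((cons_lt g τ d m t).and ((cons_ne g τ d m t).and (cons_sum g h d t)))
  have e3 : ∀ m ∈ Finset.range d,
      mo k {x : (σ × Fin (d + 1) → ℂ) × (τ × Fin (d + 1) → ℂ) × t.E |
        x.2.2 ∈ t.W ∧
        (∀ l, l < m → PowerSeries.coeff l (arcEval k x.1 g) = 0) ∧
        PowerSeries.coeff m (arcEval k x.1 g) ≠ 0 ∧
        ∀ l, l ≤ d → PowerSeries.coeff l (arcEval k x.1 g + arcEval k x.2.1 h) =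
          if l = d then t.c x.2.2 else 0} =
      ↑(Lu k ^ (-((d - m : ℕ) : ℤ))) * (↑(Lu k ^ ((Nat.card σ * d : ℕ) : ℤ)) *
        ↑(Lu k ^ ((Nat.card τ * d : ℕ) : ℤ)) * (z2 g h m m (gm0 k) * mass t)) := by
    intro m hm
    rw [← mo_gm0 g h (Finset.mem_range.1 hm) t, ← mo_cancel hg h (Finset.mem_range.1 hm) t]
    exact (fun (a b c : M k) (h1 : a * b = 1) => by linear_combination (-c) * h1 :
      ∀ a b c : M k, a * b = 1 → c = b * (c * a)) _ _ _ (lu_cancel ((d - m : ℕ) : ℤ))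
  rw [e1, e2, mo_biUnion _ (fun m _ => hAm m), mo_conv, Finset.sum_congr rfl e3]
  · exact alg_sum _ _ _ _ _ _ _ _ _ (lu_cancel (k := k) ((Nat.card σ * d : ℕ) : ℤ))
      (lu_cancel (k := k) ((Nat.card τ * d : ℕ) : ℤ))
  · intro i _ j _ hij
    rw [Set.disjoint_left]
    rintro x ⟨_, h1, h2, _⟩ ⟨_, h3, h4, _⟩
    rcases lt_or_gt_of_ne hij with h5 | h5
    · exact h2 (h3 i h5)
    · exact h4 (h1 j h5)

end ZB

end Pool.Agent.H75.Mono
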