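import Pool.Agent.H75.Mono.TR
import Pool.Agent.H75.Mono.RA
import Pool.Agent.H75.Mono.TS

/-! # ROF, module ZV: variables, scalar multiples, special tests, and `Inv` versus `ZRat` -/

set_option autoImplicit false

namespace Pool.Agent.H75.Mono

open MvPolynomial Pool.Agent.H39.MonoR

section ZV

variable {k : Type} [Field k] [Algebra k ℂ] {σ : Type} [Finite σ]

theorem zv_cons (f : MvPolynomial σ k) (d N : ℕ) (t : Test k) :
    ICons k {x : (σ × Fin N → ℂ) × t.E | x.2 ∈ t.W ∧ Hit f d x.1 (t.c x.2)} :=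
  (t.cW.mem PMap.snd).and (ICons.hit d f PMap.fst (t.pf.comp PMap.snd))

theorem zv_cancel (n : ℕ) (x : M k) :
    ↑(Lu k ^ (n : ℤ)) * x * ↑(Lu k ^ (-(n : ℤ))) = x := by
  rw [mul_right_comm, ← Units.val_mul, ← zpow_add, add_neg_cancel, zpow_zero, Units.val_one,
    one_mul]

/-- the variable in one dimension -/
theorem zt_X (d : ℕ) (t : Test k) :
    zt (X () : MvPolynomial Unit k) d t = ↑(Lu k ^ (-(d : ℤ))) * mass t := by
  have hcoef : ∀ (φ : Unit × Fin (d + 1) → ℂ) (l : ℕ), PowerSeries.coeff l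
      (arcEval k φ (X ())) = if h : l < d + 1 then φ ((), ⟨l, h⟩) else 0 := by
    intro φ l
    rw [arcEval, aeval_X, coeff_arc]
  have h : mo k {x : (Unit × Fin (d + 1) → ℂ) × t.E | x.2 ∈ t.W ∧
      Hit (X () : MvPolynomial Unit k) d x.1 (t.c x.2)} = mo k t.W := by
    refine mo_bij (zv_cons _ _ _ _) t.cW (f := fun x => x.2) PMap.snd ⟨?_, ?_, ?_⟩
    · rintro ⟨φ, w⟩ hx
      exact hx.1
    · rintro ⟨φ, w⟩ hx ⟨φ', w'⟩ hx' hww
      simp only at hww
      subst hww
      have : φ = φ' := by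
        funext p
        obtain ⟨⟨⟩, l⟩ := p
        have h1 := hx.2 l (by have := l.2; omega)
        have h2 := hx'.2 l (by have := l.2; omega)
        rw [hcoef, dif_pos l.2] at h1 h2
        simp only at h1 h2
        rw [← h2] at h1
        exact h1
      rw [this]
    · intro w hw
      refine ⟨(fun p => if (p.2 : ℕ) = d then t.c w else 0, w), ⟨hw, fun l hl => ?_⟩, rfl⟩
      rw [hcoef, dif_pos (by omega)]
  rw [zt, h, mass, mul_comm, Nat.card_unique, one_mul]

theorem Inv.var : Inv (X () : MvPolynomial Unit k) ∅ := by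
  refine ⟨fun d => ↑(Lu k ^ (-(d : ℤ))), RatF.of_fin 0 fun t n _ => ?_⟩
  rw [PowerSeries.coeff_mk, zt_X, sub_self]

theorem zt_smul (f : MvPolynomial σ k) {a : k} (ha : a ≠ 0) (d : ℕ) (t : Test k) :
    zt (C a * f) d t = zt f d (t.mulc a⁻¹) := by
  have h : ∀ (φ : σ × Fin (d + 1) → ℂ) (c : ℂ),
      Hit (C a * f) d φ c ↔ Hit f d φ (algebraMap k ℂ a⁻¹ * c) := by
    intro φ c
    have hne : algebraMap k ℂ a ≠ 0 := by
      rw [Ne, map_eq_zero]; exact ha
    have hc : ∀ l, PowerSeries.coeff l (arcEval k φ (C a * f)) =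
        algebraMap k ℂ a * PowerSeries.coeff l (arcEval k φ f) := by
      intro l
      rw [arcEval, map_mul, aeval_C, arcEval]
      rw [PowerSeries.algebraMap_apply, PowerSeries.coeff_C_mul]
    refine forall_congr' fun l => forall_congr' fun _ => ?_
    rw [hc, map_inv₀]
    split_ifs
    · constructor
      · intro h; rw [← h, inv_mul_cancel_left₀ hne]
      · intro h; rw [h, mul_inv_cancel_left₀ hne]
    · rw [mul_eq_zero, or_iff_right hne]
  have e : {x : (σ × Fin (d + 1) → ℂ) × t.E | x.2 ∈ t.W ∧ Hit (C a * f) d x.1 (t.c x.2)} =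
      {x : (σ × Fin (d + 1) → ℂ) × (t.mulc a⁻¹).E | x.2 ∈ (t.mulc a⁻¹).W ∧
        Hit f d x.1 ((t.mulc a⁻¹).c x.2)} := by
    ext x
    exact and_congr Iff.rfl (h x.1 (t.c x.2))
  unfold zt
  rw [e]
  rfl

theorem Inv.smul {f : MvPolynomial σ k} {S : Set (ℤ × ℕ)} (h : Inv f S) {a : k} (ha : a ≠ 0) :
    Inv (C a * f) S := by
  obtain ⟨u, hu⟩ := h
  refine ⟨u, (hu.comp fun t : Test k => t.mulc a⁻¹).congr fun t => ?_⟩
  ext n
  rw [PowerSeries.coeff_mk, PowerSeries.coeff_mk, zt_smul f ha]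
  rfl

theorem ZRat.inv {f : MvPolynomial σ k} {S : Set (ℤ × ℕ)} (h : ZRat f S) : Inv f S := by
  refine ⟨fun _ => 0, RatF.congr h fun t => ?_⟩
  ext n
  rw [PowerSeries.coeff_mk, zero_mul, sub_zero, Zt, PowerSeries.coeff_mk]

/-- the arcs with `f(φ) = 0 mod t^(d+1)` -/
theorem zt_line (f : MvPolynomial σ k) (d : ℕ) : zt f (d + 1) (tline k) = zt f d (tpt0 k) := by
  have h : mo k {x : (σ × Fin (d + 1 + 1) → ℂ) × (tline k).E | x.2 ∈ (tline k).W ∧
      Hit f (d + 1) x.1 ((tline k).c x.2)} = mo k {x : (σ × Fin (d + 1 + 1) → ℂ) × (tpt0 k).E |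
        x.2 ∈ (tpt0 k).W ∧ Hit f d x.1 ((tpt0 k).c x.2)} := by
    refine mo_bij (zv_cons _ _ _ _) (zv_cons _ _ _ _) (f := fun x => (x.1, ()))
      (PMap.prodMk PMap.fst PMap.toUnit) ⟨?_, ?_, ?_⟩
    · rintro ⟨φ, a⟩ hx
      refine ⟨trivial, fun l hl => ?_⟩
      have := hx.2 l (by omega)
      rw [if_neg (by omega)] at this
      rw [this]
      split_ifs <;> rfl
    · rintro ⟨φ, a⟩ hx ⟨φ', a'⟩ hx' he
      have he1 : φ = φ' := congrArg Prod.fst he
      subst he1
      have h1 := hx.2 (d + 1) le_rfl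
      have h2 := hx'.2 (d + 1) le_rfl
      rw [if_pos rfl] at h1 h2
      have : a = a' := h1.symm.trans h2
      rw [this]
    · rintro ⟨φ, ⟨⟩⟩ hx
      refine ⟨(φ, @PowerSeries.coeff ℂ _ (d + 1) (arcEval k φ f)), ⟨trivial, fun l hl => ?_⟩, rfl⟩
      rcases Nat.lt_or_ge l (d + 1) with h1 | h1
      · have := hx.2 l (by omega)
        rw [if_neg (by omega)]
        simp only at this ⊢
        rw [this]
        split_ifs <;> rfl
      · have : l = d + 1 := by omega
        subst this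
        rw [if_pos rfl]
        rfl
  rw [zt, h, mo_hit (by omega) f (tpt0 k), Nat.add_sub_cancel, zv_cancel]

theorem mass_conv (t : Test k) : mass t.conv.fst = ↑(Lu k) * mass t := by
  have := mo_prod (k := k) (B := (Set.univ : Set ℂ)) t.cW ICons.univ
  rw [mo_univ_C] at this
  rw [mul_comm, mass, mass, ← this]
  congr 1
  ext x
  exact (and_iff_left trivial).symm

theorem mass_line : mass (tline k) = ↑(Lu k) := mo_univ_C

theorem mass_pt0 : mass (tpt0 k) = 1 := mo_univ_unit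

/-- the constant family has the denominator `1 - L^(-1) T` -/
theorem Inv.zRat {f : MvPolynomial σ k} {S : Set (ℤ × ℕ)} (h : Inv f S) :
    ZRat f (insert (-1, 1) S) := by
  obtain ⟨u, hu⟩ := h
  set F : Test k → PowerSeries (M k) := fun t => PowerSeries.mk fun d => zt f d t - u d * mass t
    with hF
  have hrec : ∀ d, ↑(Lu k) * u (d + 1) = u d + PowerSeries.coeff d (F (tpt0 k)) -
      PowerSeries.coeff (d + 1) (F (tline k)) := by
    intro d
    simp only [hF, PowerSeries.coeff_mk]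
    rw [zt_line, mass_line, mass_pt0]
    ring
  have hrec' : ∀ d, u (d + 1) = ↑(Lu k ^ (-1 : ℤ)) * (u d + PowerSeries.coeff d (F (tpt0 k)) -
      PowerSeries.coeff (d + 1) (F (tline k))) := by
    intro d
    rw [← hrec, ← mul_assoc, zpow_neg_one, Units.inv_mul, one_mul]
  clear_value F
  have h1 : RatF (Lu k) S (fun _ : Test k => F (tpt0 k) -
      PowerSeries.mk fun n => PowerSeries.coeff (n + 1) (F (tline k))) := by
    have := (hu.comp (fun _ : Test k => tpt0 k)).sub (hu.comp (fun _ : Test k => tline k)).shift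
    rwa [Set.union_self] at this
  have h2 : RatF (Lu k) S (fun _ : Test k => PowerSeries.C (u 0) + PowerSeries.X ^ 1 *
      (PowerSeries.C (↑(Lu k ^ (-1 : ℤ)) : M k) * (F (tpt0 k) -
      PowerSeries.mk fun n => PowerSeries.coeff (n + 1) (F (tline k))))) := by
    have h3 : RatF (Lu k) S (fun _ : Test k => (PowerSeries.C (u 0) : PowerSeries (M k))) :=
      RatF.of_fin 1 fun t n hn => by rw [PowerSeries.coeff_C, if_neg (by omega)]
    have := h3.add ((h1.smul fun _ => (↑(Lu k ^ (-1 : ℤ)) : M k)).X_pow_mul 1)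
    rwa [Set.union_self] at this
  have h4 : RatF (Lu k) (insert (-1, 1) S) (fun _ : Test k => PowerSeries.mk u) := by
    refine h2.div fun t => ?_
    rw [den', sub_mul, one_mul]
    ext n
    rw [map_sub, map_add, pow_one, mul_assoc, PowerSeries.coeff_C_mul]
    cases n with
    | zero => simp
    | succ n =>
      rw [PowerSeries.coeff_succ_X_mul, PowerSeries.coeff_succ_X_mul, PowerSeries.coeff_mk,
        PowerSeries.coeff_mk, PowerSeries.coeff_C, if_neg (by omega), PowerSeries.coeff_C_mul,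
        map_sub, PowerSeries.coeff_mk, hrec']
      ring
  have h5 := hu.add (h4.smul fun t : Test k => mass t)
  refine RatF.congr (h5.mono ?_) fun t => ?_
  · exact Set.union_subset (Set.subset_insert _ _) subset_rfl
  · ext n
    rw [Zt, map_add, hF, PowerSeries.coeff_mk, PowerSeries.coeff_C_mul, PowerSeries.coeff_mk,
      PowerSeries.coeff_mk]
    ring

theorem zt_conv_fst (f : MvPolynomial σ k) (d : ℕ) (t : Test k) :
    zt f d t.conv.fst = zt f d (tline k) * mass t := by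
  have h : mo k {x : (σ × Fin (d + 1) → ℂ) × t.conv.fst.E | x.2 ∈ t.conv.fst.W ∧
      Hit f d x.1 (t.conv.fst.c x.2)} = mo k {x : ((σ × Fin (d + 1) → ℂ) × (tline k).E) × t.E |
        x.1 ∈ {x : (σ × Fin (d + 1) → ℂ) × (tline k).E | x.2 ∈ (tline k).W ∧
      Hit f d x.1 ((tline k).c x.2)} ∧ x.2 ∈ t.W} := by
    refine mo_bij (zv_cons _ _ _ _) (ICons.prod (zv_cons _ _ _ _) t.cW)
      (f := fun x : (σ × Fin (d + 1) → ℂ) × (t.E × ℂ) => ((x.1, x.2.2), x.2.1))
      (PMap.prodMk (PMap.prodMk PMap.fst (PMap.snd.comp PMap.snd)) (PMap.fst.comp PMap.snd))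
      ⟨?_, ?_, ?_⟩
    · rintro ⟨φ, w, a⟩ hx
      exact ⟨⟨trivial, hx.2⟩, hx.1⟩
    · rintro ⟨φ, w, a⟩ hx ⟨φ', w', a'⟩ hx' he
      simp only [Prod.mk.injEq] at he
      obtain ⟨⟨rfl, rfl⟩, rfl⟩ := he
      rfl
    · rintro ⟨⟨φ, a⟩, w⟩ hx
      exact ⟨(φ, (w, a)), ⟨hx.2, hx.1.2⟩, rfl⟩
  rw [zt, h, mo_prod (zv_cons _ _ _ _) t.cW, zt, mass]
  ring

theorem zt_conv_snd (f : MvPolynomial σ k) (d : ℕ) (t : Test k) :
    zt f d t.conv.snd = zt f d (tline k) * mass t := by
  have h : mo k {x : (σ × Fin (d + 1) → ℂ) × t.conv.snd.E | x.2 ∈ t.conv.snd.W ∧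
      Hit f d x.1 (t.conv.snd.c x.2)} = mo k {x : ((σ × Fin (d + 1) → ℂ) × (tline k).E) × t.E |
        x.1 ∈ {x : (σ × Fin (d + 1) → ℂ) × (tline k).E | x.2 ∈ (tline k).W ∧
      Hit f d x.1 ((tline k).c x.2)} ∧ x.2 ∈ t.W} := by
    refine mo_bij (zv_cons _ _ _ _) (ICons.prod (zv_cons _ _ _ _) t.cW)
      (f := fun x : (σ × Fin (d + 1) → ℂ) × (t.E × ℂ) => ((x.1, t.c x.2.1 - x.2.2), x.2.1))
      (PMap.prodMk (PMap.prodMk PMap.fst (PMap.of_pFun
        ((t.pf.comp (PMap.fst.comp PMap.snd)).sub (PFun.id'.comp (PMap.snd.comp PMap.snd)))))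
        (PMap.fst.comp PMap.snd)) ⟨?_, ?_, ?_⟩
    · rintro ⟨φ, w, a⟩ hx
      exact ⟨⟨trivial, hx.2⟩, hx.1⟩
    · rintro ⟨φ, w, a⟩ hx ⟨φ', w', a'⟩ hx' he
      have h1 : φ = φ' := congrArg (fun x => x.1.1) he
      have h2 : w = w' := congrArg Prod.snd he
      have h3 : (t.c w - a : ℂ) = t.c w' - a' := congrArg (fun x => x.1.2) he
      subst h1 h2
      have h4 : (a : ℂ) = a' := sub_right_inj.1 h3
      rw [h4]
    · rintro ⟨⟨φ, (a : ℂ)⟩, w⟩ hx
      refine ⟨(φ, (w, t.c w - a)), ⟨hx.2, ?_⟩, ?_⟩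
      · have := hx.1.2
        change Hit f d φ (t.c w - (t.c w - a))
        rw [sub_sub_cancel]
        exact this
      · change ((φ, t.c w - (t.c w - a)), w) = _
        rw [sub_sub_cancel]
        rfl
  rw [zt, h, mo_prod (zv_cons _ _ _ _) t.cW, zt, mass]
  ring

end ZV

end Pool.Agent.H75.Mono
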