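import Pool.Agent.H75.Mono.ZB
import Pool.Agent.H75.Mono.ZZ
import Pool.Agent.H75.Mono.ZV
import Pool.Agent.H75.Mono.RH

/-! # ROF, module ZC: sums -/

set_option autoImplicit false

namespace Pool.Agent.H75.Mono

open MvPolynomial Pool.Agent.H39.MonoR

section ZC

variable {k : Type} [Field k] [Algebra k ℂ] {σ τ : Type} [Finite σ] [Finite τ]

theorem Inv.add {g : MvPolynomial σ k} {h : MvPolynomial τ k} {S S' : Set (ℤ × ℕ)}
    (hS : ∀ p ∈ S, 0 < p.2) (hS' : ∀ p ∈ S', 0 < p.2) (hq : QH g) (hg : Inv g S)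
    (hh : Inv h S') : Inv (sadd g h) (cmbs S S') := by
  obtain ⟨u, hg⟩ := hg
  obtain ⟨u', hh⟩ := hh
  let w : ℕ → ℕ → Test2 k → M k := fun i j t =>
    z2 g h i j t - u i * zt h j t.snd - u' j * zt g i t.fst + u i * u' j * mass t.fst
  have h1 : RatF (Lu k) S (fun x : ℕ × Test2 k => PowerSeries.mk fun i => w i x.1 x.2) := by
    have a1 := (z2_inv1 hg h).sub ((hg.comp fun x : ℕ × Test2 k => x.2.fst).smul
      fun x => u' x.1)
    rw [Set.union_self] at a1
    refine a1.congr fun x => ?_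
    ext i
    rw [map_sub, PowerSeries.coeff_C_mul, PowerSeries.coeff_mk, PowerSeries.coeff_mk,
      PowerSeries.coeff_mk]
    show _ = z2 g h i x.1 x.2 - u i * zt h x.1 x.2.snd - u' x.1 * zt g i x.2.fst +
      u i * u' x.1 * mass x.2.fst
    ring
  have h2 : RatF (Lu k) S' (fun x : ℕ × Test2 k => PowerSeries.mk fun j => w x.1 j x.2) := by
    have a1 := (z2_inv2 hh g).sub ((hh.comp fun x : ℕ × Test2 k => x.2.snd).smul
      fun x => u x.1)
    rw [Set.union_self] at a1
    refine a1.congr fun x => ?_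
    ext j
    rw [map_sub, PowerSeries.coeff_C_mul, PowerSeries.coeff_mk, PowerSeries.coeff_mk,
      PowerSeries.coeff_mk]
    show z2 g h x.1 j x.2 - u' j * zt g x.1 x.2.fst - u x.1 * (zt h j x.2.snd -
      u' j * mass x.2.fst) = z2 g h x.1 j x.2 - u x.1 * zt h j x.2.snd - u' j * zt g x.1 x.2.fst +
      u x.1 * u' j * mass x.2.fst
    ring
  refine ⟨fun d => canc g h d + u d * zt h d (tline k) + u' d * zt g d (tline k) -
    u d * u' d * ↑(Lu k), ?_⟩
  refine ((RatF.hadamard hS hS' w h1 h2).comp fun t : Test k => t.conv).congr fun t => ?_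
  ext d
  rw [PowerSeries.coeff_mk, PowerSeries.coeff_mk]
  show z2 g h d d t.conv - u d * zt h d t.conv.snd - u' d * zt g d t.conv.fst +
    u d * u' d * mass t.conv.fst = _
  rw [zt_conv_fst, zt_conv_snd, mass_conv, zt_add hq]
  ring

end ZC

end Pool.Agent.H75.Mono
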