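import Pool.Agent.H75.Mono.TR
import Pool.Agent.H75.Mono.SP
import Pool.Agent.H75.Mono.TS

/-! # ROF, module ZM: the class formula for products -/

set_option autoImplicit false

namespace Pool.Agent.H75.Mono

open MvPolynomial Pool.Agent.H39.MonoR

section ZM

variable {k : Type} [Field k] [Algebra k ℂ] {σ τ : Type} [Finite σ] [Finite τ]

theorem zm_conv {P Q : PowerSeries ℂ} {i j : ℕ} (hP : ∀ l, l < i → PowerSeries.coeff l P = 0)
    (hQ : ∀ l, l < j → PowerSeries.coeff l Q = 0) :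
    (∀ l, l < i + j → PowerSeries.coeff l (P * Q) = 0) ∧
      PowerSeries.coeff (i + j) (P * Q) = PowerSeries.coeff i P * PowerSeries.coeff j Q := by
  obtain ⟨P', rfl⟩ := PowerSeries.X_pow_dvd_iff.2 hP
  obtain ⟨Q', rfl⟩ := PowerSeries.X_pow_dvd_iff.2 hQ
  have e : PowerSeries.X ^ i * P' * (PowerSeries.X ^ j * Q') =
      PowerSeries.X ^ (i + j) * (P' * Q') := by
    rw [pow_add]; ring
  rw [e]
  constructor
  · intro l hl
    rw [PowerSeries.coeff_X_pow_mul', if_neg (by omega)]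
  · rw [PowerSeries.coeff_X_pow_mul', PowerSeries.coeff_X_pow_mul', PowerSeries.coeff_X_pow_mul',
      if_pos le_rfl, if_pos le_rfl, if_pos le_rfl, Nat.sub_self, Nat.sub_self, Nat.sub_self]
    simp

theorem zm_div {P Q : PowerSeries ℂ} {n i : ℕ} (h : ∀ l, l < n → PowerSeries.coeff l (P * Q) = 0)
    (hP : ∀ l, l < i → PowerSeries.coeff l P = 0) (hi : PowerSeries.coeff i P ≠ 0) :
    ∀ l, i + l < n → PowerSeries.coeff l Q = 0 := by
  intro l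
  induction l using Nat.strong_induction_on with
  | _ l ih =>
    intro hl
    have h1 := (zm_conv hP (fun m hm => ih m hm (by omega))).2
    rw [h _ hl] at h1
    rcases mul_eq_zero.1 h1.symm with h2 | h2
    · exact absurd h2 hi
    · exact h2

theorem zm_cases (P : PowerSeries ℂ) (n : ℕ) : (∀ l, l < n → PowerSeries.coeff l P = 0) ∨
    ∃ i, i < n ∧ (∀ l, l < i → PowerSeries.coeff l P = 0) ∧ PowerSeries.coeff i P ≠ 0 := by
  classical
  by_cases h : ∃ i, i < n ∧ PowerSeries.coeff i P ≠ 0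
  · right
    refine ⟨Nat.find h, (Nat.find_spec h).1, fun l hl => ?_, (Nat.find_spec h).2⟩
    by_contra h1
    exact Nat.find_min h hl ⟨hl.trans (Nat.find_spec h).1, h1⟩
  · left
    intro l hl
    by_contra h1
    exact h ⟨l, hl, h1⟩

theorem zm_cancel (a b : ℕ) (x : M k) :
    (↑(Lu k ^ (a : ℤ)) * ↑(Lu k ^ (b : ℤ)) * x) *
      (↑(Lu k ^ (-(a : ℤ))) * ↑(Lu k ^ (-(b : ℤ)))) = x := by
  have h : ∀ n : ℕ, (↑(Lu k ^ (n : ℤ)) : M k) * ↑(Lu k ^ (-(n : ℤ))) = 1 := by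
    intro n
    rw [← Units.val_mul, ← zpow_add, add_neg_cancel, zpow_zero, Units.val_one]
  calc _ = ((↑(Lu k ^ (a : ℤ)) : M k) * ↑(Lu k ^ (-(a : ℤ)))) *
        ((↑(Lu k ^ (b : ℤ)) : M k) * ↑(Lu k ^ (-(b : ℤ)))) * x := by ring
    _ = x := by rw [h, h, one_mul, one_mul]

theorem zm_cons2 (g : MvPolynomial σ k) (h : MvPolynomial τ k) (i j N : ℕ) (t : Test2 k) :
    ICons k {x : (σ × Fin N → ℂ) × (τ × Fin N → ℂ) × t.E |
      x.2.2 ∈ t.W ∧ Hit g i x.1 (t.c1 x.2.2) ∧ Hit h j x.2.1 (t.c2 x.2.2)} :=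
  (t.cW.mem (PMap.snd.comp PMap.snd)).and
    ((ICons.hit i g PMap.fst (t.pf1.comp (PMap.snd.comp PMap.snd))).and
      (ICons.hit j h (PMap.fst.comp PMap.snd) (t.pf2.comp (PMap.snd.comp PMap.snd))))

theorem zm_coef1 (g : MvPolynomial σ k) (N : ℕ) (t : Test k) (l : ℕ) :
    PFun k (fun x : (σ × Fin N → ℂ) × (τ × Fin N → ℂ) × t.E =>
      PowerSeries.coeff l (arcEval k x.1 g)) := PFun.coeff_arcEval l g PMap.fst

theorem zm_coef2 (h : MvPolynomial τ k) (N : ℕ) (t : Test k) (l : ℕ) :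
    PFun k (fun x : (σ × Fin N → ℂ) × (τ × Fin N → ℂ) × t.E =>
      PowerSeries.coeff l (arcEval k x.2.1 h)) :=
  PFun.coeff_arcEval l h (PMap.fst.comp PMap.snd)

/-- the part `c ≠ 0` -/
theorem zt_mul_ne (g : MvPolynomial σ k) (h : MvPolynomial τ k) (d : ℕ) (t : Test k) :
    mo k {x : (σ × Fin (d + 1) → ℂ) × (τ × Fin (d + 1) → ℂ) × t.E | (x.2.2 ∈ t.W ∧
      ∀ l, l ≤ d → PowerSeries.coeff l (arcEval k x.1 g * arcEval k x.2.1 h) =
        if l = d then t.c x.2.2 else 0) ∧ t.c x.2.2 ≠ 0} *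
      (↑(Lu k ^ (-((Nat.card σ * d : ℕ) : ℤ))) * ↑(Lu k ^ (-((Nat.card τ * d : ℕ) : ℤ)))) =
      ∑ i ∈ Finset.range (d + 1), z2 g h i (d - i) t.cross := by
  let A : ℕ → Set ((σ × Fin (d + 1) → ℂ) × (τ × Fin (d + 1) → ℂ) × t.E) := fun i =>
    {x | x.2.2 ∈ t.W ∧ t.c x.2.2 ≠ 0 ∧
      (∀ l, l < i → PowerSeries.coeff l (arcEval k x.1 g) = 0) ∧
      (∀ l, l < d - i → PowerSeries.coeff l (arcEval k x.2.1 h) = 0) ∧
      PowerSeries.coeff i (arcEval k x.1 g) * PowerSeries.coeff (d - i) (arcEval k x.2.1 h) =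
        t.c x.2.2}
  have hA : ∀ i, ICons k (A i) := fun i =>
    (t.cW.mem (PMap.snd.comp PMap.snd)).and
      ((ICons.ne (t.pf.comp (PMap.snd.comp PMap.snd)) PFun.zero).and
      ((ICons.forall_lt i fun l => ICons.eq (zm_coef1 g (d + 1) t l) PFun.zero).and
      ((ICons.forall_lt (d - i) fun l => ICons.eq (zm_coef2 h (d + 1) t l) PFun.zero).and
      (ICons.eq ((zm_coef1 g (d + 1) t i).mul (zm_coef2 h (d + 1) t (d - i)))
        (t.pf.comp (PMap.snd.comp PMap.snd))))))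
  have e1 : {x : (σ × Fin (d + 1) → ℂ) × (τ × Fin (d + 1) → ℂ) × t.E | (x.2.2 ∈ t.W ∧
      ∀ l, l ≤ d → PowerSeries.coeff l (arcEval k x.1 g * arcEval k x.2.1 h) =
        if l = d then t.c x.2.2 else 0) ∧ t.c x.2.2 ≠ 0} =
      {x | ∃ i ∈ Finset.range (d + 1), x ∈ A i} := by
    ext ⟨φ, ψ, w⟩
    simp only [Set.mem_ofPred_eq, Finset.mem_range, A]
    constructor
    · rintro ⟨⟨hw, hl⟩, hc⟩
      have h0 : ∀ l, l < d → PowerSeries.coeff l (arcEval k φ g * arcEval k ψ h) = 0 :=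
        fun l hld => by rw [hl l hld.le, if_neg (by omega)]
      have h1 : PowerSeries.coeff d (arcEval k φ g * arcEval k ψ h) = t.c w := by
        rw [hl d le_rfl, if_pos rfl]
      rcases zm_cases (arcEval k φ g) d with h2 | ⟨i, hi, h2, h3⟩
      · refine ⟨d, by omega, hw, hc, h2, fun l hl => by omega, ?_⟩
        have h4 := (zm_conv (Q := arcEval k ψ h) (j := 0) h2 (fun l hl => by omega)).2
        rw [Nat.sub_self, ← h4, Nat.add_zero, h1]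
      · have h4 := zm_div h0 h2 h3
        have h5 : ∀ l, l < d - i → PowerSeries.coeff l (arcEval k ψ h) = 0 :=
          fun l hl => h4 l (by omega)
        refine ⟨i, by omega, hw, hc, h2, h5, ?_⟩
        rw [← (zm_conv h2 h5).2, Nat.add_sub_cancel' hi.le, h1]
    · rintro ⟨i, hi, hw, hc, h1, h2, h3⟩
      refine ⟨⟨hw, fun l hl => ?_⟩, hc⟩
      have h4 := zm_conv h1 h2
      rw [Nat.add_sub_cancel' (by omega), h3] at h4
      split_ifs with hld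
      · rw [hld, h4.2]
      · exact h4.1 l (by omega)
  have e2 : ∀ i ∈ Finset.range (d + 1), mo k (A i) =
      ↑(Lu k ^ ((Nat.card σ * (d + 1 - 1) : ℕ) : ℤ)) *
      ↑(Lu k ^ ((Nat.card τ * (d + 1 - 1) : ℕ) : ℤ)) * z2 g h i (d - i) t.cross := by
    intro i hi
    rw [Finset.mem_range] at hi
    rw [← mo_hit2 hi (by omega) g h t.cross]
    symm
    refine mo_bij (zm_cons2 _ _ _ _ _ _) (hA i) (f := fun x => (x.1, x.2.1, x.2.2.1))
      (PMap.prodMk PMap.fst (PMap.prodMk (PMap.fst.comp PMap.snd)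
        (PMap.fst.comp (PMap.snd.comp PMap.snd)))) ⟨?_, ?_, ?_⟩
    · rintro ⟨φ, ψ, w, a, b⟩ ⟨⟨hw, hc, hab⟩, h1, h2⟩
      rw [hit_iff] at h1 h2
      refine ⟨hw, hc, h1.1, h2.1, ?_⟩
      simp only
      rw [h1.2, h2.2]
      exact hab
    · rintro ⟨φ, ψ, w, a, b⟩ ⟨_, h1, h2⟩ ⟨φ', ψ', w', a', b'⟩ ⟨_, h1', h2'⟩ he
      simp only [Prod.mk.injEq] at he
      obtain ⟨rfl, rfl, rfl⟩ := he
      rw [hit_iff] at h1 h2 h1' h2'
      have ha : a = a' := h1.2.symm.trans h1'.2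
      have hb : b = b' := h2.2.symm.trans h2'.2
      rw [ha, hb]
    · rintro ⟨φ, ψ, w⟩ ⟨hw, hc, h1, h2, h3⟩
      refine ⟨(φ, ψ, w, PowerSeries.coeff i (arcEval k φ g),
        PowerSeries.coeff (d - i) (arcEval k ψ h)), ⟨⟨hw, hc, h3⟩, ?_, ?_⟩, rfl⟩
      · rw [hit_iff]
        exact ⟨h1, rfl⟩
      · rw [hit_iff]
        exact ⟨h2, rfl⟩
  rw [e1, mo_biUnion _ (fun i _ => hA i), Finset.sum_congr rfl e2]
  · refine (Finset.sum_mul _ _ _).trans (Finset.sum_congr rfl fun i _ => ?_)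
    rw [Nat.add_sub_cancel, zm_cancel]
  · have key : ∀ i j, i < j → Disjoint (A i) (A j) := by
      intro i j hij
      rw [Set.disjoint_left]
      rintro ⟨φ, ψ, w⟩ ⟨_, hc, _, _, h1⟩ ⟨_, _, h2, _, _⟩
      apply hc
      rw [← h1, h2 i hij, zero_mul]
    intro i _ j _ hij
    rcases Nat.lt_or_gt_of_ne hij with h1 | h1
    · exact key i j h1
    · exact (key j i h1).symm

/-- the part `c = 0` -/
theorem zt_mul_zero (g : MvPolynomial σ k) (h : MvPolynomial τ k) (d : ℕ) (t : Test k) :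
    mo k {x : (σ × Fin (d + 1) → ℂ) × (τ × Fin (d + 1) → ℂ) × t.E | (x.2.2 ∈ t.W ∧
      ∀ l, l ≤ d → PowerSeries.coeff l (arcEval k x.1 g * arcEval k x.2.1 h) =
        if l = d then t.c x.2.2 else 0) ∧ ¬ t.c x.2.2 ≠ 0} *
      (↑(Lu k ^ (-((Nat.card σ * d : ℕ) : ℤ))) * ↑(Lu k ^ (-((Nat.card τ * d : ℕ) : ℤ)))) =
      ∑ i ∈ Finset.range (d + 1), z2 g h i (d - i) t.cross0 +
        ↑(Lu k ^ ((Nat.card τ : ℕ) : ℤ)) * zt g d t.zer := by
  let A : ℕ → Set ((σ × Fin (d + 1) → ℂ) × (τ × Fin (d + 1) → ℂ) × t.E) := fun i =>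
    {x | x.2.2 ∈ t.W ∧ t.c x.2.2 = 0 ∧
      (∀ l, l < i → PowerSeries.coeff l (arcEval k x.1 g) = 0) ∧
      (∀ l, l ≤ d - i → PowerSeries.coeff l (arcEval k x.2.1 h) = 0) ∧
      PowerSeries.coeff i (arcEval k x.1 g) ≠ 0}
  have hA : ∀ i, ICons k (A i) := fun i =>
    (t.cW.mem (PMap.snd.comp PMap.snd)).and
      ((ICons.eq (t.pf.comp (PMap.snd.comp PMap.snd)) PFun.zero).and
      ((ICons.forall_lt i fun l => ICons.eq (zm_coef1 g (d + 1) t l) PFun.zero).and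
      ((ICons.forall_le (d - i) fun l => ICons.eq (zm_coef2 h (d + 1) t l) PFun.zero).and
      (ICons.ne (zm_coef1 g (d + 1) t i) PFun.zero))))
  let A' : Set ((σ × Fin (d + 1) → ℂ) × (τ × Fin (d + 1) → ℂ) × t.E) :=
    {x | x.2.2 ∈ t.W ∧ t.c x.2.2 = 0 ∧
      (∀ l, l ≤ d → PowerSeries.coeff l (arcEval k x.1 g) = 0)}
  have hA' : ICons k A' :=
    (t.cW.mem (PMap.snd.comp PMap.snd)).and
      ((ICons.eq (t.pf.comp (PMap.snd.comp PMap.snd)) PFun.zero).and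
      (ICons.forall_le d fun l => ICons.eq (zm_coef1 g (d + 1) t l) PFun.zero))
  have e1 : {x : (σ × Fin (d + 1) → ℂ) × (τ × Fin (d + 1) → ℂ) × t.E | (x.2.2 ∈ t.W ∧
      ∀ l, l ≤ d → PowerSeries.coeff l (arcEval k x.1 g * arcEval k x.2.1 h) =
        if l = d then t.c x.2.2 else 0) ∧ ¬ t.c x.2.2 ≠ 0} =
      {x | ∃ i ∈ Finset.range (d + 1), x ∈ A i} ∪ A' := by
    ext ⟨φ, ψ, w⟩
    simp only [Set.mem_ofPred_eq, Finset.mem_range, A, A', Set.mem_union, not_not]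
    constructor
    · rintro ⟨⟨hw, hl⟩, hc⟩
      have h0 : ∀ l, l < d + 1 → PowerSeries.coeff l (arcEval k φ g * arcEval k ψ h) = 0 := by
        intro l hld
        rw [hl l (by omega), hc]
        split_ifs <;> rfl
      rcases zm_cases (arcEval k φ g) (d + 1) with h2 | ⟨i, hi, h2, h3⟩
      · exact Or.inr ⟨hw, hc, fun l hl => h2 l (by omega)⟩
      · have h4 := zm_div h0 h2 h3
        exact Or.inl ⟨i, hi, hw, hc, h2, fun l hl => h4 l (by omega), h3⟩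
    · rintro (⟨i, hi, hw, hc, h1, h2, h3⟩ | ⟨hw, hc, h1⟩)
      · refine ⟨⟨hw, fun l hl => ?_⟩, hc⟩
        have h4 := (zm_conv (j := d - i + 1) h1 (fun l hl => h2 l (by omega))).1 l (by omega)
        rw [hc, h4]
        split_ifs <;> rfl
      · refine ⟨⟨hw, fun l hl => ?_⟩, hc⟩
        have h4 := (zm_conv (i := d + 1) (j := 0) (Q := arcEval k ψ h)
          (fun l hl => h1 l (by omega)) (fun l hl => by omega)).1 l (by omega)
        rw [hc, h4]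
        split_ifs <;> rfl
  have e2 : ∀ i ∈ Finset.range (d + 1), mo k (A i) =
      ↑(Lu k ^ ((Nat.card σ * (d + 1 - 1) : ℕ) : ℤ)) *
      ↑(Lu k ^ ((Nat.card τ * (d + 1 - 1) : ℕ) : ℤ)) * z2 g h i (d - i) t.cross0 := by
    intro i hi
    rw [Finset.mem_range] at hi
    rw [← mo_hit2 hi (by omega) g h t.cross0]
    symm
    refine mo_bij (zm_cons2 _ _ _ _ _ _) (hA i) (f := fun x => (x.1, x.2.1, x.2.2.1))
      (PMap.prodMk PMap.fst (PMap.prodMk (PMap.fst.comp PMap.snd)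
        (PMap.fst.comp (PMap.snd.comp PMap.snd)))) ⟨?_, ?_, ?_⟩
    · rintro ⟨φ, ψ, w, a⟩ ⟨⟨hw, hc, ha⟩, h1, h2⟩
      rw [hit_iff] at h1
      have h3 := (hit_zero_iff _ _ _).1 h2
      refine ⟨hw, hc, h1.1, h3, ?_⟩
      simp only
      rw [h1.2]
      exact ha
    · rintro ⟨φ, ψ, w, a⟩ ⟨_, h1, h2⟩ ⟨φ', ψ', w', a'⟩ ⟨_, h1', h2'⟩ he
      simp only [Prod.mk.injEq] at he
      obtain ⟨rfl, rfl, rfl⟩ := he
      rw [hit_iff] at h1 h1'
      have ha : a = a' := h1.2.symm.trans h1'.2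
      rw [ha]
    · rintro ⟨φ, ψ, w⟩ ⟨hw, hc, h1, h2, h3⟩
      refine ⟨(φ, ψ, w, PowerSeries.coeff i (arcEval k φ g)), ⟨⟨hw, hc, h3⟩, ?_, ?_⟩, rfl⟩
      · rw [hit_iff]
        exact ⟨h1, rfl⟩
      · exact (hit_zero_iff _ _ _).2 h2
  have e3 : mo k A' = ↑(Lu k ^ ((Nat.card σ * d : ℕ) : ℤ)) * ↑(Lu k ^ ((Nat.card τ * d : ℕ) : ℤ)) *
      (↑(Lu k ^ ((Nat.card τ : ℕ) : ℤ)) * zt g d t.zer) := by
    have hc1 : ICons k {x : (σ × Fin (d + 1) → ℂ) × t.zer.E |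
        x.2 ∈ t.zer.W ∧ Hit g d x.1 (t.zer.c x.2)} :=
      (t.zer.cW.mem PMap.snd).and (ICons.hit d g PMap.fst (t.zer.pf.comp PMap.snd))
    have h1 : mo k A' = mo k {x : ((σ × Fin (d + 1) → ℂ) × t.zer.E) × (τ × Fin (d + 1) → ℂ) |
        x.1 ∈ {x : (σ × Fin (d + 1) → ℂ) × t.zer.E |
          x.2 ∈ t.zer.W ∧ Hit g d x.1 (t.zer.c x.2)} ∧ x.2 ∈ Set.univ} := by
      refine mo_bij hA' (ICons.prod hc1 ICons.univ)
        (f := fun x : (σ × Fin (d + 1) → ℂ) × (τ × Fin (d + 1) → ℂ) × t.E =>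
          ((x.1, x.2.2), x.2.1))
        (PMap.prodMk (PMap.prodMk PMap.fst (PMap.snd.comp PMap.snd)) (PMap.fst.comp PMap.snd))
        ⟨?_, ?_, ?_⟩
      · rintro ⟨φ, ψ, w⟩ ⟨hw, hc, h1⟩
        exact ⟨⟨⟨hw, hc⟩, (hit_zero_iff _ _ _).2 h1⟩, trivial⟩
      · rintro ⟨φ, ψ, w⟩ _ ⟨φ', ψ', w'⟩ _ he
        simp only [Prod.mk.injEq] at he
        obtain ⟨⟨rfl, rfl⟩, rfl⟩ := he
        rfl
      · rintro ⟨⟨φ, w⟩, ψ⟩ ⟨⟨⟨hw, hc⟩, h1⟩, _⟩
        exact ⟨(φ, ψ, w), ⟨hw, hc, (hit_zero_iff _ _ _).1 h1⟩, rfl⟩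
    rw [h1, mo_prod hc1 ICons.univ, mo_univ_pi, Nat.card_prod, Nat.card_fin, zt]
    have h2 : (↑(Lu k ^ ((Nat.card τ * (d + 1) : ℕ) : ℤ)) : M k) =
        ↑(Lu k ^ ((Nat.card τ * d : ℕ) : ℤ)) * ↑(Lu k ^ ((Nat.card τ : ℕ) : ℤ)) := by
      rw [← Units.val_mul, ← zpow_add]
      congr 2
    have h3 : (↑(Lu k ^ ((Nat.card σ * d : ℕ) : ℤ)) : M k) *
        ↑(Lu k ^ (-((Nat.card σ * d : ℕ) : ℤ))) = 1 := by
      rw [← Units.val_mul, ← zpow_add, add_neg_cancel, zpow_zero, Units.val_one]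
    rw [h2]
    linear_combination (-(mo k {x : (σ × Fin (d + 1) → ℂ) × t.zer.E |
          x.2 ∈ t.zer.W ∧ Hit g d x.1 (t.zer.c x.2)} * (↑(Lu k ^ ((Nat.card τ * d : ℕ) : ℤ)) *
          ↑(Lu k ^ ((Nat.card τ : ℕ) : ℤ))))) * h3
  have key : ∀ i j, i < j → Disjoint (A i) (A j) := by
    intro i j hij
    rw [Set.disjoint_left]
    rintro ⟨φ, ψ, w⟩ ⟨_, _, _, _, h1⟩ ⟨_, _, h2, _, _⟩
    exact h1 (h2 i hij)
  have hdis : ∀ i ∈ Finset.range (d + 1), ∀ j ∈ Finset.range (d + 1), i ≠ j →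
      Disjoint (A i) (A j) := by
    intro i _ j _ hij
    rcases Nat.lt_or_gt_of_ne hij with h1 | h1
    · exact key i j h1
    · exact (key j i h1).symm
  have hcU : ICons k {x | ∃ i ∈ Finset.range (d + 1), x ∈ A i} := by
    have h1 := ICons.exists_fin (J := Fin (d + 1)) (p := fun i x => x ∈ A i) (fun i => hA i)
    have h2 : {x | ∃ i ∈ Finset.range (d + 1), x ∈ A i} =
        {x | ∃ i : Fin (d + 1), x ∈ A i} := by
      ext x
      constructor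
      · rintro ⟨i, hi, hx⟩
        exact ⟨⟨i, Finset.mem_range.1 hi⟩, hx⟩
      · rintro ⟨i, hx⟩
        exact ⟨i, Finset.mem_range.2 i.2, hx⟩
    rw [h2]
    exact h1
  have hdU : Disjoint {x | ∃ i ∈ Finset.range (d + 1), x ∈ A i} A' := by
    rw [Set.disjoint_left]
    rintro ⟨φ, ψ, w⟩ ⟨i, hi, _, _, _, _, h1⟩ ⟨_, _, h2⟩
    exact h1 (h2 i (by rw [Finset.mem_range] at hi; omega))
  rw [e1, mo_union hcU hA' hdU, mo_biUnion _ (fun i _ => hA i) hdis, Finset.sum_congr rfl e2, e3,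
    add_mul, zm_cancel]
  congr 1
  refine (Finset.sum_mul _ _ _).trans (Finset.sum_congr rfl fun i _ => ?_)
  rw [Nat.add_sub_cancel, zm_cancel]

end ZM

end Pool.Agent.H75.Mono
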