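import Pool.Agent.H75.Mono.PF

/-! # ROF, module ZS: scaling of arcs by units -/

set_option autoImplicit false

namespace Pool.Agent.H75.Mono

open MvPolynomial Pool.Agent.H39.MonoR

section ZS

variable {k : Type} [Field k] [Algebra k ℂ] {σ : Type}

/-- roots of power series with constant coefficient one, modulo a power of `T` -/
theorem exists_root_mod (v : PowerSeries ℂ) (hv : PowerSeries.constantCoeff v = 1) {n : ℕ}
    (hn : 0 < n) (N : ℕ) : ∃ r : PowerSeries ℂ, PowerSeries.constantCoeff r = 1 ∧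
      PowerSeries.X ^ N ∣ r ^ n - v := by
  have key : ∀ N : ℕ, ∃ r : PowerSeries ℂ, PowerSeries.constantCoeff r = 1 ∧
      PowerSeries.X ^ (N + 1) ∣ r ^ n - v := by
    intro N
    induction N with
    | zero =>
      refine ⟨1, map_one _, ?_⟩
      rw [zero_add, pow_one, PowerSeries.X_dvd_iff, map_sub, hv, one_pow, map_one, sub_self]
    | succ N ih =>
      obtain ⟨r, hr, q, hq⟩ := ih
      have hn0 : (n : ℂ) ≠ 0 := by exact_mod_cast hn.ne'
      let c : ℂ := -PowerSeries.constantCoeff q / n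
      obtain ⟨z, hz⟩ := Polynomial.powAddExpansion r (PowerSeries.X ^ (N + 1) * PowerSeries.C c) n
      refine ⟨r + PowerSeries.X ^ (N + 1) * PowerSeries.C c, ?_, ?_⟩
      · rw [map_add, hr, map_mul, map_pow, PowerSeries.constantCoeff_X]
        simp
      · have e1 : (r + PowerSeries.X ^ (N + 1) * PowerSeries.C c) ^ n - v =
            PowerSeries.X ^ (N + 1) * (q + (n : PowerSeries ℂ) * r ^ (n - 1) * PowerSeries.C c) +
              PowerSeries.X ^ (N + 1 + 1) * (PowerSeries.X ^ N * z * PowerSeries.C c ^ 2) := by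
          rw [hz]
          linear_combination hq
        rw [e1]
        refine dvd_add ?_ (Dvd.intro _ rfl)
        rw [pow_succ PowerSeries.X (N + 1)]
        refine mul_dvd_mul_left _ ?_
        rw [PowerSeries.X_dvd_iff, map_add, map_mul, map_mul, map_pow, hr, one_pow, mul_one,
          map_natCast, PowerSeries.constantCoeff_C]
        simp only [c]
        field_simp
        ring
  rcases N with _ | N
  · exact ⟨1, map_one _, by simp⟩
  · exact key N

theorem isUnit_of_one {r : PowerSeries ℂ} (hr : PowerSeries.constantCoeff r = 1) : IsUnit r := by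
  rw [PowerSeries.isUnit_iff_constantCoeff, hr]
  exact isUnit_one

/-- uniqueness of roots, modulo a power of `T` -/
theorem root_unique {r s : PowerSeries ℂ} (hr : PowerSeries.constantCoeff r = 1)
    (hs : PowerSeries.constantCoeff s = 1) {n : ℕ} (hn : 0 < n) {N : ℕ}
    (h : PowerSeries.X ^ N ∣ r ^ n - s ^ n) : PowerSeries.X ^ N ∣ r - s := by
  have h1 := (Commute.all r s).mul_geom_sum₂ n
  have hu : IsUnit (∑ i ∈ Finset.range n, r ^ i * s ^ (n - 1 - i)) := by
    rw [PowerSeries.isUnit_iff_constantCoeff, map_sum]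
    have : ∀ i ∈ Finset.range n, PowerSeries.constantCoeff (r ^ i * s ^ (n - 1 - i)) = 1 := by
      intro i _
      rw [map_mul, map_pow, map_pow, hr, hs, one_pow, one_pow, one_mul]
    rw [Finset.sum_congr rfl this]
    simp only [Finset.sum_const, Finset.card_range, nsmul_eq_mul, mul_one]
    exact isUnit_iff_ne_zero.2 (by exact_mod_cast hn.ne')
  rw [← h1] at h
  exact (hu.dvd_mul_right).1 h

/-- weighted homogeneity -/
theorem aeval_scale {A : Type*} [CommRing A] [Algebra k A] {w : σ → ℕ} {n : ℕ}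
    {g : MvPolynomial σ k} (hg : IsWeightedHomogeneous w g n) (r : A) (a : σ → A) :
    aeval (fun j => r ^ w j * a j) g = r ^ n * aeval a g := by
  rw [aeval_def, aeval_def, eval₂_eq, eval₂_eq, Finset.mul_sum]
  refine Finset.sum_congr rfl fun d hd => ?_
  have h1 := hg (mem_support_iff.1 hd)
  rw [Finsupp.weight_apply, Finsupp.sum] at h1
  have h2 : ∏ i ∈ d.support, (r ^ w i * a i) ^ d i =
      r ^ n * ∏ i ∈ d.support, a i ^ d i := by
    rw [← h1, ← Finset.prod_pow_eq_pow_sum, ← Finset.prod_mul_distrib]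
    refine Finset.prod_congr rfl fun i _ => ?_
    rw [mul_pow, ← pow_mul, smul_eq_mul, mul_comm (w i)]
  rw [h2]
  ring

/-- the polynomial `1 + λ_0 T + … + λ_{e-1} T^e` -/
noncomputable def unitSer {e : ℕ} (lam : Fin e → ℂ) : PowerSeries ℂ :=
  1 + ∑ i : Fin e, PowerSeries.C (lam i) * PowerSeries.X ^ ((i : ℕ) + 1)

theorem coeff_unitSer_succ {e : ℕ} (lam : Fin e → ℂ) (l : ℕ) :
    PowerSeries.coeff (l + 1) (unitSer lam) = if h : l < e then lam ⟨l, h⟩ else 0 := by
  unfold unitSer
  rw [map_add, map_sum, PowerSeries.coeff_one, if_neg (Nat.succ_ne_zero l), zero_add]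
  simp only [PowerSeries.coeff_C_mul, PowerSeries.coeff_X_pow, add_left_inj]
  by_cases h : l < e
  · rw [dif_pos h, Finset.sum_eq_single (⟨l, h⟩ : Fin e)]
    · simp
    · intro b _ hb
      rw [if_neg, mul_zero]
      intro hl
      exact hb (Fin.ext hl.symm)
    · intro hn
      exact absurd (Finset.mem_univ _) hn
  · rw [dif_neg h]
    refine Finset.sum_eq_zero fun b _ => ?_
    rw [if_neg, mul_zero]
    intro hl
    exact h (hl ▸ b.2)

theorem constantCoeff_unitSer {e : ℕ} (lam : Fin e → ℂ) :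
    PowerSeries.constantCoeff (unitSer lam) = 1 := by
  unfold unitSer
  rw [map_add, map_sum, map_one, Finset.sum_eq_zero, add_zero]
  intro i _
  rw [map_mul, map_pow, PowerSeries.constantCoeff_X, zero_pow (Nat.succ_ne_zero _), mul_zero]

/-- every series with constant coefficient one is a `unitSer` modulo `T^(e+1)` -/
theorem exists_unitSer (e : ℕ) (v : PowerSeries ℂ) (hv : PowerSeries.constantCoeff v = 1) :
    ∃ lam : Fin e → ℂ, PowerSeries.X ^ (e + 1) ∣ unitSer lam - v := by
  refine ⟨fun i => PowerSeries.coeff ((i : ℕ) + 1) v, ?_⟩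
  rw [PowerSeries.X_pow_dvd_iff]
  intro l hl
  rw [map_sub, sub_eq_zero]
  rcases l with _ | l
  · rw [PowerSeries.coeff_zero_eq_constantCoeff_apply, PowerSeries.coeff_zero_eq_constantCoeff_apply,
      constantCoeff_unitSer, hv]
  · rw [coeff_unitSer_succ, dif_pos (by omega)]

theorem unitSer_inj {e : ℕ} {lam mu : Fin e → ℂ}
    (h : PowerSeries.X ^ (e + 1) ∣ unitSer lam - unitSer mu) : lam = mu := by
  rw [PowerSeries.X_pow_dvd_iff] at h
  funext i
  have h1 := h (i + 1) (by have := i.2; omega)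
  rw [map_sub, sub_eq_zero, coeff_unitSer_succ, coeff_unitSer_succ, dif_pos i.2, dif_pos i.2] at h1
  exact h1

/-- the arc `λ^w φ`, truncated -/
noncomputable def scArc {e N : ℕ} (w : σ → ℕ) (lam : Fin e → ℂ) (φ : σ × Fin N → ℂ) :
    σ × Fin N → ℂ := fun p => PowerSeries.coeff (p.2 : ℕ) (unitSer lam ^ w p.1 * arc φ p.1)

theorem arc_scArc {e N : ℕ} (w : σ → ℕ) (lam : Fin e → ℂ) (φ : σ × Fin N → ℂ) (j : σ) :
    PowerSeries.X ^ N ∣ arc (scArc w lam φ) j - unitSer lam ^ w j * arc φ j := by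
  rw [PowerSeries.X_pow_dvd_iff]
  intro l hl
  rw [map_sub, sub_eq_zero, coeff_arc, dif_pos hl]
  rfl

/-- `g(λ^w φ) = λ^n g(φ)` -/
theorem arcEval_scArc {e N : ℕ} {w : σ → ℕ} {n : ℕ} {g : MvPolynomial σ k}
    (hg : IsWeightedHomogeneous w g n) (lam : Fin e → ℂ) (φ : σ × Fin N → ℂ) :
    PowerSeries.X ^ N ∣ arcEval k (scArc w lam φ) g - unitSer lam ^ n * arcEval k φ g := by
  have h := arcEval_congr g (arc (scArc w lam φ)) (fun j => unitSer lam ^ w j * arc φ j) N
    (arc_scArc w lam φ)
  rw [aeval_scale hg] at h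
  exact h

theorem arc_ext' {N : ℕ} {φ ψ : σ × Fin N → ℂ}
    (h : ∀ j, PowerSeries.X ^ N ∣ arc φ j - arc ψ j) : φ = ψ := by
  funext p
  have h1 := PowerSeries.X_pow_dvd_iff.1 (h p.1) p.2 p.2.2
  rw [map_sub, sub_eq_zero, coeff_arc, coeff_arc, dif_pos p.2.2, dif_pos p.2.2] at h1
  exact h1

theorem scArc_inj {e N : ℕ} (w : σ → ℕ) (lam : Fin e → ℂ) :
    Function.Injective (scArc (N := N) w lam) := by
  intro φ ψ h
  refine arc_ext' fun j => ?_
  have h1 := arc_scArc w lam φ j
  have h2 := arc_scArc w lam ψ j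
  rw [h] at h1
  have h3 := dvd_sub h2 h1
  have hu : IsUnit (unitSer lam ^ w j) := (isUnit_of_one (constantCoeff_unitSer lam)).pow _
  have e1 : arc (scArc w lam ψ) j - unitSer lam ^ w j * arc ψ j -
      (arc (scArc w lam ψ) j - unitSer lam ^ w j * arc φ j) =
      unitSer lam ^ w j * (arc φ j - arc ψ j) := by ring
  rw [e1] at h3
  exact (hu.dvd_mul_left).1 h3

theorem scArc_surj {e N : ℕ} (w : σ → ℕ) (lam : Fin e → ℂ) :
    Function.Surjective (scArc (N := N) w lam) := by
  intro ψ
  let φ : σ × Fin N → ℂ := fun p =>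
    PowerSeries.coeff (p.2 : ℕ) ((unitSer lam ^ w p.1)⁻¹ * arc ψ p.1)
  refine ⟨φ, arc_ext' fun j => ?_⟩
  have hc : PowerSeries.constantCoeff (unitSer lam ^ w j) ≠ 0 := by
    rw [map_pow, constantCoeff_unitSer, one_pow]
    exact one_ne_zero
  have h1 := arc_scArc w lam φ j
  have h2 : PowerSeries.X ^ N ∣ arc φ j - (unitSer lam ^ w j)⁻¹ * arc ψ j := by
    rw [PowerSeries.X_pow_dvd_iff]
    intro l hl
    rw [map_sub, sub_eq_zero, coeff_arc, dif_pos hl]
  have h3 := dvd_add h1 (h2.mul_left (unitSer lam ^ w j))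
  have e1 : arc (scArc w lam φ) j - unitSer lam ^ w j * arc φ j +
      unitSer lam ^ w j * (arc φ j - (unitSer lam ^ w j)⁻¹ * arc ψ j) =
      arc (scArc w lam φ) j - (unitSer lam ^ w j * (unitSer lam ^ w j)⁻¹) * arc ψ j := by ring
  rw [e1, PowerSeries.mul_inv_cancel _ hc, one_mul] at h3
  exact h3

/-- families of power series with polynomial coefficients -/
def PSer (k : Type) [Field k] [Algebra k ℂ] {E : Type} [Aff E] (F : E → PowerSeries ℂ) : Prop :=
  ∀ l, PFun k (fun x => PowerSeries.coeff l (F x))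

theorem PSer.mul {E : Type} [Aff E] {F G : E → PowerSeries ℂ} (hF : PSer k F) (hG : PSer k G) :
    PSer k (fun x => F x * G x) := by
  intro l
  have h := PFun.sum (k := k) (E := E) (Finset.HasAntidiagonal.antidiagonal l)
    (f := fun p x => PowerSeries.coeff p.1 (F x) * PowerSeries.coeff p.2 (G x))
    (fun p _ => (hF p.1).mul (hG p.2))
  simpa only [PowerSeries.coeff_mul] using h

theorem PSer.pow {E : Type} [Aff E] {F : E → PowerSeries ℂ} (hF : PSer k F) (n : ℕ) :
    PSer k (fun x => F x ^ n) := by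
  induction n with
  | zero =>
    intro l
    simp only [pow_zero, PowerSeries.coeff_one]
    split_ifs
    · exact PFun.one
    · exact PFun.zero
  | succ n ih =>
    simp only [pow_succ]
    exact ih.mul hF

theorem PSer.arc' {E : Type} [Aff E] {σ : Type} [Finite σ] {N : ℕ} {φ : E → (σ × Fin N → ℂ)}
    (hφ : PMap k φ) (j : σ) : PSer k (fun x => Pool.Agent.H39.MonoR.arc (φ x) j) := by
  intro l
  simp only [coeff_arc]
  by_cases h : l < N
  · simp only [dif_pos h]
    exact (PFun.apply (k := k) ((j, ⟨l, h⟩) : σ × Fin N)).comp hφ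
  · simp only [dif_neg h]
    exact PFun.zero

theorem PSer.unitSer {E : Type} [Aff E] {e : ℕ} {lam : E → Fin e → ℂ} (h : PMap k lam) :
    PSer k (fun x => Mono.unitSer (lam x)) := by
  intro l
  rcases l with _ | l
  · simp only [PowerSeries.coeff_zero_eq_constantCoeff_apply, constantCoeff_unitSer]
    exact PFun.one
  · simp only [coeff_unitSer_succ]
    by_cases hl : l < e
    · simp only [dif_pos hl]
      exact (PFun.apply (k := k) (⟨l, hl⟩ : Fin e)).comp h
    · simp only [dif_neg hl]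
      exact PFun.zero

theorem PMap.scArc {σ : Type} [Finite σ] {e N : ℕ} (w : σ → ℕ) :
    PMap k (fun x : (Fin e → ℂ) × (σ × Fin N → ℂ) => Mono.scArc w x.1 x.2) := by
  refine PMap.pi fun p => ?_
  exact ((PSer.unitSer PMap.fst).pow (w p.1)).mul (PSer.arc' PMap.snd p.1) _

end ZS

end Pool.Agent.H75.Mono
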